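import Pool.Agent.Lib.EXK.Blue
import Pool.Agent.Lib.EX.B_ADJ98

/-! Project exk: the adjoint of the sum of the normal components. -/

open scoped Classical Topology ContDiff ComplexOrder Matrix
open Set MeasureTheory Complex Metric Filter

set_option linter.unusedVariables false

noncomputable section

namespace Pool.Agent.Lib.EXK

open Pool.Agent.Lib.SV (E)
open Pool.Agent.Lib.HS32 Pool.Agent.Lib.EX
open Pool.Agent.Lib.EXA (Val SmN emb)

open EX.ADJ98 in
theorem kADJ (hML : Sk_ML) (hPRDX : Sk_PRDX) (hUT : Sk_UT) (hPRD : St_PRD) (hMAIN : St_MAIN)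
    (hRES : St_RES) (hINC : St_INC) (hDEL : St_DEL) (hMOD : St_MOD) : Sk_ADJ := by
  intro n M _ H ι _ _ D κ _ L p V V' F σ hV hF hR
  have hrT : ∀ i ∈ L.T, L.r i = 0 := fun i hi => L.rT i hi
  have hU := (hUT n M ι D κ L).1
  have hb : ∀ d, ∀ z ∈ B2 n, SmN (L.b d) z := fun d z hz =>
    (ev_B2 hz).mono fun y hy => (hU d y hy).2.2.2.1
  have hP : D.All fun d z => Pol (D.c d) L.G (D.rd F d) z := fun d z hz =>
    (hINC n ι (D.c d) L.G L.r L.T (p + 1 + 1) _ z).2.2.2.2.2.1
      ((hRES n ι (D.c d) L.G L.T (p + 1) _ 0 _ 0 z (D.inj d)).1 (hF d z hz)).1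
  have hD := hDEL n M ι D L.G L.T p V fun I hI => (hV I hI).toFld
  refine hML n M ι D κ L p V F L.G _ _ hV (fun i _ _ => le_rfl) hP ?_ ?_
  · intro d z hz
    have hM := fun ρ ρ' F F' => hMAIN n ι (D.c d) L.r L.T p ρ ρ' F F' z
    have hX := fun (j : Fin n) (F : E n → ℂ) => hPRDX n ι (D.c d) L.G L.r L.T L.N p (L.b d) F
      (fun I y => V I d y j) z (D.inj d) (hb d z hz) hrT fun I hI =>
        ⟨sm_comp hz ((hV I hI).hol d) j, fun h => by rw [(hV I hI).zr h]; rfl⟩
    choose ρ hρ hρ' using hR d z hz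
    have h1 : ∀ j, Main (D.c d) L.r L.T p (fun I y => (L.b d y : ℝ) * (ρ j I y * star (V I d y j)))
        (fun y => (L.dd d y : ℝ) * (dzb j (D.rd F d) y * star (L.vh p V d y j))) z := fun j =>
      (hX j _).2 _ (hρ j)
    have hN := (hMOD n ι (D.c d) L.G L.r L.T p).2.2.2.2.2.2
    have h2 : ∀ j, Nul (D.c d) L.r p (fun y => (-L.s : ℂ) * ((L.dd d y : ℝ) *
        ((D.rd F d y * L.eta d j y) * star (L.vh p V d y j)))) z := by
      intro j
      have e1 : Pol (D.c d) (L.G + -ind L.N) (D.rd F d * L.eta d j) z :=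
        ((hINC n ι (D.c d) L.G L.r L.T p _ z).2.2.2.1 _ _).1 (hP d z hz)
          ((hU d z hz).2.2.2.2.2.2.2.2.2.2 j).1
      have e5 := (hX j (D.rd F d * L.eta d j)).1 _ (fun i hi => by
        simp only [Pi.add_apply, Pi.neg_apply, ind, if_pos hi]; omega) e1
      exact hN.mul (fun _ => (-L.s : ℂ)) _ z (Eventually.of_forall fun _ => contDiffAt_const) e5
    have h3 := (hM 0 0 0 0).2.2.2.2 (Fin n) Finset.univ _ _ fun j _ =>
      (hM _ _ _ _).2.1 (h1 j) ((hM 0 0 _ 0).1 (h2 j))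
    refine (hM _ _ _ _).2.2.2.1 h3 (Eventually.of_forall fun y _ => ?_) fun I hI => ?_
    · simp only [Finset.sum_apply, Pi.add_apply, Finset.mul_sum, Lw.nab]
      exact Finset.sum_congr rfl fun j _ => by ring
    · by_cases hI' : Disjoint I L.N
      · refine Eventually.of_forall fun y _ => ?_
        simp [(hV I hI).zr hI', dotProduct]
      have e : ∀ᶠ y in 𝓝 z, ∀ j, ¬ Nm (D.c d) I j → Sl (D.c d) I y →
          ρ j I y = (H (D.e d) y *ᵥ V' I d y) j := by
        refine eventually_all.2 fun j => ?_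
        by_cases hj : Nm (D.c d) I j
        · exact Eventually.of_forall fun y h => absurd hj h
        · exact (hρ' j I hI hI' hj).mono fun y h _ => h
      filter_upwards [e, ev_B2 hz] with y hy hyB hs
      simp only [Finset.sum_apply, Pi.add_apply, Pi.zero_apply, add_zero, dotProduct,
        Finset.mul_sum, Pi.star_apply]
      refine Finset.sum_congr rfl fun j _ => ?_
      by_cases hj : Nm (D.c d) I j
      · rw [(hV I hI).nm d y hyB j hj]; simp
      · rw [hy j hj hs]; ring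
  · intro d z hz
    have hh : Res (D.c d) L.G L.T (p + 1) (fun J => D.dl L.T p V J d)
        (hat (D.c d) L.G L.T (p + 1) fun J => D.dl L.T p V J d) z :=
      (hRES n ι (D.c d) L.G L.T (p + 1) _ 0 0 0 z (D.inj d)).2.2.2.2.2.2.2.2.1
        fun I hI => (ev_B2 hz).mono fun y hy => (hD.sec I hI).sm d y hy
    exact (hPRD n ι (D.c d) L.G L.r L.T (p + 1) (L.b d) _ _ z (hb d z hz) hrT).2.2 _ _
      (hF d z hz) hh

end Pool.Agent.Lib.EXK
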