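import Pool.Agent.Lib.EXK.Blue
import Pool.Agent.Lib.EXS.B_LOOP

/-! Project exk, row `BR1`: numerators of local lifts. -/

open scoped Classical Topology ContDiff
open Set Complex Metric Filter

noncomputable section

namespace Pool.Agent.Lib.EXK

open Pool.Agent.Lib.SV (E)
open Pool.Agent.Lib.HS32 Pool.Agent.Lib.EX
open Pool.Agent.Lib.EXS.L14

theorem kBR1 (hMON : St_MON) (hMOD : St_MOD) (hTRF : St_TRF) : Sk_BR1 := by
  intro n M _ ι _ _ D a ν κ W f hW hf hd hg
  choose u hu using fun l b => num (K := fun i => (a i : ℤ)) (F := D.rd (f l b) b) hMON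
    fun z hz => hf l b b z hz (hW b z hz)
  refine ⟨u, fun l => ⟨fun d z hz => (hu l d z hz).1, fun b b' x hb hb' => ?_⟩,
    fun d z hz i hi h0 => ?_⟩
  · have h1 : x ∈ W b := (D.e b).left_inv hb ▸ hW b _ (inB b hb)
    have h2 : x ∈ W b' := (D.e b').left_inv hb' ▸ hW b' _ (inB b' hb')
    exact pcg hMOD (hd l b b' b' _ (inB b' hb') (by rw [(D.e b').left_inv hb']; exact ⟨h1, h2⟩))
      (dif_ev hTRF (Φ := f l) (fun d z hz ho => ((hu l d z hz).2 ho).symm) hb hb')
  · have ha : a i ≠ 0 := fun h => hi (by simp [sp, h])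
    obtain ⟨l, s, s1, s2, s3⟩ := hg d z hz
      (Finset.prod_eq_zero (Finset.mem_univ i) (by rw [h0, zpow_natCast, zero_pow ha]))
    refine ⟨l, ?_⟩
    have e := tendsto_nhds_unique_of_frequently_eq (hu l d z hz).1.continuousAt
      s1.self_of_nhds.continuousAt
      (((freq (c := D.c d) hMON z).and_eventually (s3.and (b2ev hz))).mono fun w ⟨w1, w2, w3⟩ => by
        have o := off_iff.1 w1
        exact mul_left_cancel₀ ((hMON n ι (D.c d)).2.2.2.2.2.2.2.2.1 _ 0 w o).2.1
          (((hu l d w w3).2 o).symm.trans (w2 o)))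
    rwa [e]

end Pool.Agent.Lib.EXK
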