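import Pool.Agent.Lib.EXK.Blue
import Pool.Agent.Lib.EXS.B_GLU

/-! Project exk: a global meromorphic function as a section of the power. -/

open scoped Classical Topology ContDiff ComplexOrder Matrix Manifold
open Set MeasureTheory Complex Metric Filter

noncomputable section

namespace Pool.Agent.Lib.EXK

open Pool.Agent.Lib.SV (E)
open Pool.Agent.Lib.HS32 Pool.Agent.Lib.EX Pool.Agent.Lib.EXS

theorem kBR2 : Sk_BR2 := by
  intro n M I ι _ _ D k j W σ g F hW hσ hg hr hF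
  choose u hu using hσ
  have key : ∀ a, D.On (W a) fun d z => ∀ s, HolN s z → (∀ᶠ y in 𝓝 z, Off (D.c d) y →
      D.rd F d y = xm (D.c d) (-fun i => (j * k i : ℤ)) y * s y) →
      D.rd (glu D (σ a ^ j * F)) d =ᶠ[𝓝 z] fun y => u a d y ^ j * s y := by
    intro a d z hz ho s hs e
    refine bGLU n M I D ℂ _ d _ z hz
      (((hu a d z hz ho).1.and hs).mono fun y hy => ((hy.1.pow j).mul hy.2).continuousAt) ?_
    filter_upwards [e, GLU.ev_on (hW a) hz ho] with y y1 y2 y3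
    have e1 : xm (D.c d) (fun i => (j * k i : ℤ)) y = xm (D.c d) (fun i => (k i : ℤ)) y ^ j := by
      rw [xm, xm, ← Finset.prod_pow]
      exact Finset.prod_congr rfl fun i _ => by rw [mul_comm, zpow_mul, zpow_natCast]
    have e2 := MON.xm_ne (fun i => (k i : ℤ)) y3
    change D.rd (σ a) d y ^ j * D.rd F d y = _
    rw [y1 y3, (hu a d y y2.1 y2.2).2.2, MON.xm_neg, e1, mul_pow]
    field_simp
  refine ⟨fun a => glu D (σ a ^ j * F), fun a d z hz ho => ⟨?_, fun s hs s0 e => ?_⟩,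
    fun a b x hx => ?_⟩
  · obtain ⟨s, hs, e⟩ := hF d z hz
    exact (((hu a d z hz ho).1.and hs).and (key a d z hz ho s hs e).eventuallyEq_nhds).mono
      fun y hy => ((hy.1.1.pow j).mul hy.1.2).congr_of_eventuallyEq hy.2
  · rw [(key a d z hz ho s hs e).self_of_nhds]
    exact mul_ne_zero (pow_ne_zero _ (hu a d z hz ho).2.1) s0
  obtain ⟨d, hd⟩ := GLU.ex_ch D x
  obtain ⟨s, hs, e⟩ := hF d _ (GLU.mem_B2 hd)
  have e1 : u a d (D.e d x) = D.rd (g a b) d (D.e d x) * u b d (D.e d x) := by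
    refine tendsto_nhds_unique_of_frequently_eq (l := 𝓝 (D.e d x))
      (GLU.on_at (hu a) hd hx.1).1.self_of_nhds.continuousAt
      ((GLU.on_at (hg a b) hd hx).self_of_nhds.continuousAt.mul
        (GLU.on_at (hu b) hd hx.2).1.self_of_nhds.continuousAt)
      (((MON.off_freq (D.c d) _).and_eventually (GLU.ev_on ((hW a).inter (hW b)) (GLU.mem_B2 hd)
        (by rwa [(D.e d).left_inv hd]))).mono fun y hy => ?_)
    refine mul_right_cancel₀ (MON.xm_ne (fun i => (k i : ℤ)) hy.1) ?_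
    rw [← (hu a d y hy.2.1 hy.2.2.1).2.2, Pi.mul_apply, mul_assoc, ← (hu b d y hy.2.1 hy.2.2.2).2.2]
    exact hr a b _ hy.2.2
  beta_reduce
  rw [← GLU.rd_e (glu D (σ a ^ j * F)) hd, ← GLU.rd_e (glu D (σ b ^ j * F)) hd,
    (GLU.on_at (key a) hd hx.1 s hs e).self_of_nhds,
    (GLU.on_at (key b) hd hx.2 s hs e).self_of_nhds]
  beta_reduce
  rw [e1, GLU.rd_e _ hd, mul_pow, mul_assoc]

end Pool.Agent.Lib.EXK
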