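import Pool.Agent.Lib.EXK.Blue
import Pool.Agent.Lib.EX.B_CECH

/-! Project exk, row CECH: from holomorphic differences to potentials on the strata. -/

open scoped Classical Topology ContDiff ComplexOrder Matrix
open Set MeasureTheory Complex Metric Filter

set_option linter.unusedVariables false
set_option linter.unusedSectionVars false

noncomputable section

namespace Pool.Agent.Lib.EXK

open Pool.Agent.Lib.SV (E)
open Pool.Agent.Lib.HS32 Pool.Agent.Lib.EX
open Pool.Agent.Lib.EXA (Val SmN emb)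
open Pool.Agent.Lib.EX.CECH (cd_prj holN_congr gl gl_prj ev_src)

namespace CECH

variable {n : ℕ} {ι : Type} [Fintype ι] [DecidableEq ι]

/-- Residues modulo `N` of a function of weight at most `p` on the whole polydisc. -/
theorem glueX (hM : St_MON) (hR : Sk_RESX) (c : ι → Option (Fin n)) (hc : Inj c) (G : ι → ℤ)
    (T N : Finset ι) (p : ℕ) (F : E n → ℂ) (hF : ∀ z ∈ B2 n, WtX c G T N (p + 1) F z) :
    ∃ σ : Finset ι → E n → ℂ, (∀ I, Iv c I (σ I)) ∧
      (∀ I ∈ T.powersetCard p, ¬ Disjoint I N → ∀ z ∈ B2 n, ContDiffAt ℝ ∞ (σ I) z) ∧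
      ∀ z ∈ B2 n, ResX c G T N p σ F z := by
  obtain ⟨-, -, -, -, -, -, -, -, -, -, hp, -⟩ := hM n ι c
  have h1 : ∀ z, ∃ s : Finset ι → E n → ℂ,
      z ∈ B2 n → (∀ I, SmN (s I) z) ∧ ResX c G T N p s F z := by
    intro z
    by_cases hz : z ∈ B2 n
    · obtain ⟨s, hs⟩ := (hR n ι c G T N p 0 0 F F z hc).2.1 (hF z hz)
      exact ⟨s, fun _ => hs⟩
    · exact ⟨0, fun h => absurd h hz⟩
  choose s hs using h1
  have ag : ∀ z ∈ B2 n, ∀ I ∈ T.powersetCard p, ¬ Disjoint I N →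
      ∀ᶠ y in 𝓝 z, Sl c I y → gl c s I y = s z I y := by
    intro z hz I hI hN
    filter_upwards [((hR n ι c G T N p (s z) 0 F F z hc).1 (hs z hz).2).2,
      isOpen_ball.eventually_mem hz] with y h1 h2 h3
    have h4 := (hR n ι c G T N p (s y) (s z) F F y hc).2.2.2.2.2.2.2.1 (hs y h2).2 h1 I hI hN
    unfold gl
    rw [if_pos ((hp I y).2.2.2.2.2 h3), (hp I y).2.2.2.1 h3]
    exact h4.self_of_nhds h3
  refine ⟨gl c s, fun I z _ => gl_prj hM c s I z, fun I hI hN z hz => ?_, fun z hz =>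
    (hR n ι c G T N p (s z) (gl c s) F F z hc).2.2.2.2.2.2.1 (hs z hz).2
      (Eventually.of_forall fun _ _ => rfl) (ag z hz)⟩
  by_cases h : ∀ i ∈ I, c i ≠ none
  · have hz' : prj c I z ∈ B2 n := by
      rw [mem_ball_zero_iff] at hz ⊢
      exact (hp I z).1.trans_lt hz
    have h2 : ContDiffAt ℝ ∞ (fun y => s (prj c I z) I (prj c I y)) z :=
      ((hs _ hz').1 I).self_of_nhds.comp z (cd_prj c I).contDiffAt
    refine h2.congr_of_eventuallyEq ?_
    filter_upwards [(cd_prj c I).continuous.continuousAt.eventually (ag _ hz' I hI hN)] with y hy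
    rw [← gl_prj hM c s I y]
    exact hy ((hp I y).2.2.2.2.1 h)
  · have : gl c s I = fun _ => 0 := funext fun y => if_neg h
    rw [this]
    exact contDiffAt_const

end CECH

open CECH in
theorem kCECH (hRESX : Sk_RESX) (hTRFX : Sk_TRFX) (hMODX : Sk_MODX) (hINCX : Sk_INCX)
    (hAVG : St_AVG) (hTRF : St_TRF) (hMON : St_MON) : Sk_CECH := by
  intro n M _ ι _ _ D G T N p g hg
  have hW := (hAVG n M ι D (fun a => WtX (D.c a) G T N (p + 1)) g
    (fun a => (hMODX n ι (D.c a) G T N (p + 1)).1)).1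
    (fun a b x ha hb => (hINCX n ι (D.c b) G T N (p + 1) _ _).1 (hg a b x ha hb))
  choose σ h1 h2 h3 using fun a => glueX hMON hRESX (D.c a) (D.inj a) G T N p _ (hW a)
  refine ⟨fun I a => σ a I, fun I hI hN => ⟨fun a => h2 a I hI hN, fun a => h1 a I, ?_⟩, h3⟩
  intro a b x ha hb hx
  obtain ⟨-, -, -, -, -, -, -, -, -, -, hp, -⟩ := hMON n ι (D.c b)
  obtain ⟨-, -, -, hO⟩ := hTRF n M ι D
  have za := (hO a b x ha hb).1
  have zb := (hO b a x hb ha).1
  have hT := hTRFX n M ι D a b x ha hb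
  have R := fun ρ ρ' F F' => hRESX n ι (D.c b) G T N p ρ ρ' F F' (D.e b x) (D.inj b)
  obtain ⟨h, hh, r1⟩ := (R 0 0 _ 0).2.2.1 (hg a b x ha hb)
  have r2 := (hT G T N p _).2.2 _ (h3 a _ za)
  have r3 := (R _ _ _ _).2.2.2.2.1 r1 r2
  have r4 := (R _ _ _ (D.rd (D.avg g) b - g b)).2.2.2.2.2.2.1 r3 (by
    filter_upwards [ev_src D a b ha hb] with y hy _
    simp only [Ad.tr, Ad.rd, Pi.sub_apply, Pi.add_apply, (D.e a).left_inv hy]
    ring) (fun _ _ _ => Eventually.of_forall fun _ _ => rfl)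
  have r5 := (R _ _ _ 0).2.2.2.2.2.2.2.1 (h3 b _ zb) r4 I hI hN
  have e := (hp I (D.e b x)).2.2.2.1 hx
  have ct : Tendsto (prj (D.c b) I) (𝓝 (D.e b x)) (𝓝 (D.e b x)) := by
    simpa [ContinuousAt, e] using
      (cd_prj (D.c b) I).continuous.continuousAt (x := D.e b x)
  have h5 : HolN (fun z => h I (prj (D.c b) I z)) (D.e b x) := by
    filter_upwards [ct.eventually (hh I), (hp I (D.e b x)).2.2.1] with y k1 k2
    exact k1.comp y k2
  refine holN_congr h5 ?_
  filter_upwards [ct.eventually r5, isOpen_ball.eventually_mem zb] with y k1 k2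
  have k3 := k1 ((hp I y).2.2.2.2.1 ((hp I _).2.2.2.2.2 hx))
  rw [← h1 b I y k2, k3]
  simp only [Pi.add_apply, Pi.mul_apply]
  ring

end Pool.Agent.Lib.EXK
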