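import Pool.Agent.Lib.EXK.Blue
import Pool.Agent.Lib.EXS.B_EXC

/-! Project exk: poles along exceptional components drop. -/

open scoped Classical Topology
open Set Filter

noncomputable section

namespace Pool.Agent.Lib.EXK

open Pool.Agent.Lib.HS32 Pool.Agent.Lib.EX Pool.Agent.Lib.EXS

theorem kEXC0 : Sk_EXC0 := by
  intro n M ι _ _ D a ex B ρ q j H hρ hq hH
  induction hm : ∑ i, (q i - j * a i).toNat using Nat.strong_induction_on generalizing q with
  | _ m ih =>
  by_cases h : ∀ i, q i ≤ j * a i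
  · rwa [inf_eq_left.2 h]
  obtain ⟨l, hl⟩ := not_forall.1 h
  have l1 : l ∈ ex := by_contra fun k => hl (hq l k)
  obtain ⟨i, hi, hx⟩ :=
    ex.toFinite.exists_maximalFor (fun i => (q i - (j : ℝ) * a i) / B.e i) _ ⟨l, l1⟩
  have hx' : ∀ k ∈ ex, (q k - (j : ℝ) * a k) / B.e k ≤ (q i - (j : ℝ) * a i) / B.e i :=
    fun k hk => (le_total _ _).elim id (hx hk)
  have ep : ∀ k ∈ ex, (0 : ℝ) < B.e k := fun k hk => Nat.cast_pos.2 (B.epos k hk)
  have r0 : 0 < (q i - (j : ℝ) * a i) / B.e i :=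
    (div_pos (sub_pos.2 (by exact_mod_cast not_le.1 hl)) (ep l l1)).trans_le (hx' l l1)
  have qi : (j : ℤ) * a i < q i := by
    exact_mod_cast sub_pos.1 ((div_pos_iff_of_pos_right (ep i hi)).1 r0)
  have k := EXC.step B hρ hi (Nat.cast_nonneg j) r0 (fun k => by
    by_cases hk : k ∈ ex
    · linarith [(div_le_iff₀ (ep k hk)).1 (hx' k hk)]
    · have h1 : (q k : ℝ) ≤ j * a k := by exact_mod_cast hq k hk
      linarith [mul_nonneg r0.le (Nat.cast_nonneg (α := ℝ) (B.e k))])
    (by rw [div_mul_cancel₀ _ (ep i hi).ne']; ring) hH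
  have e : ((q - Pi.single i 1 : ι → ℤ) ⊓ fun k => (j : ℤ) * a k) = q ⊓ fun k => (j : ℤ) * a k :=
    funext fun k => by
      rw [Pi.inf_apply, Pi.inf_apply, Pi.sub_apply, Pi.single_apply]
      split_ifs with hk
      · subst hk
        omega
      · rw [sub_zero]
  rw [← e]
  refine ih _ (lt_of_lt_of_eq (Finset.sum_lt_sum (fun k _ => ?_) ⟨i, Finset.mem_univ i, ?_⟩) hm) _
    (fun k hk => by
      rw [Pi.sub_apply, Pi.single_eq_of_ne (by rintro rfl; exact hk hi), sub_zero]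
      exact hq k hk) k rfl
  · rw [Pi.sub_apply, Pi.single_apply]
    split_ifs <;> omega
  · rw [Pi.sub_apply, Pi.single_eq_same]
    omega

end Pool.Agent.Lib.EXK
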