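import Pool.Agent.Lib.EXK.Blue
import Pool.Agent.Lib.EX.B_TRF
import Pool.Agent.Lib.EX.B_MON

/-! Project exk, row GLA: rules for sections over a thickening. -/

open scoped Classical Topology ContDiff ComplexOrder Matrix
open Set MeasureTheory Complex Metric Filter

set_option linter.unusedVariables false
set_option linter.unusedSectionVars false

noncomputable section

namespace Pool.Agent.Lib.EXK

open Pool.Agent.Lib.SV (E)
open Pool.Agent.Lib.HS32 hiding St_DIV
open Pool.Agent.Lib.EX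
open Pool.Agent.Lib.EXA (Val SmN emb)

namespace GLA

variable {n : ℕ} {M : Mf n} {ι : Type} [Fintype ι] [DecidableEq ι] {c : ι → Option (Fin n)}
  {D : Ad M ι} {K ν : ι → ℤ} {U : D.A → E n → ℂ} {a b : D.A} {x : M.X} {z : E n} {F : E n → ℂ}

/-- The numerator of the chart `a` read in the frame of the chart `b`. -/
def mv (D : Ad M ι) (K : ι → ℤ) (U : D.A → E n → ℂ) (a b : D.A) : E n → ℂ :=
  D.tr a b (U a) * D.rd (D.um (-K) a b) b

theorem holB (h : D.All fun d z => DifferentiableAt ℂ (U d) z) (hz : z ∈ B2 n) : HolN (U b) z :=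
  (isOpen_ball.eventually_mem hz).mono fun w hw => h b w hw

theorem mv_hol (h : D.All fun d z => DifferentiableAt ℂ (U d) z) (ha : x ∈ (D.e a).source)
    (hb : x ∈ (D.e b).source) : HolN (mv D K U a b) (D.e b x) :=
  TRF.holN_mul (TRF.hoT D ha hb (holB h (TRF.mem_B D ha))) (TRF.um_hol D _ ha hb)

theorem mv_at (hb : x ∈ (D.e b).source) :
    mv D K U a b (D.e b x) = U a (D.e a x) * D.um (-K) a b x := by
  simp only [mv, Ad.tr, Ad.rd, Pi.mul_apply, (D.e b).left_inv hb]

theorem df_hol (h : D.All fun d z => DifferentiableAt ℂ (U d) z) (ha : x ∈ (D.e a).source)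
    (hb : x ∈ (D.e b).source) : HolN (mv D K U a b - U b) (D.e b x) :=
  ((mv_hol h ha hb).and (holB h (TRF.mem_B D hb))).mono fun w hw => hw.1.sub hw.2

/-- The gluing condition in terms of the numerators. -/
theorem dif_iff (ha : x ∈ (D.e a).source) (hb : x ∈ (D.e b).source) :
    PolH (D.c b) (K - ν) ((D.tr a b fun z => xm (D.c a) (-K) z * U a z) -
      fun z => xm (D.c b) (-K) z * U b z) (D.e b x) ↔
    PolH (D.c b) (-ν) (mv D K U a b - U b) (D.e b x) := by
  have e : ∀ᶠ w in 𝓝 (D.e b x), ((D.tr a b fun z => xm (D.c a) (-K) z * U a z) -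
      fun z => xm (D.c b) (-K) z * U b z) w = xm (D.c b) (-K) w * (mv D K U a b - U b) w := by
    filter_upwards [TRF.near D ha hb] with w hw
    have := TRF.xm_eq D hw.1 hw.2.1 (-K)
    rw [hw.2.2] at this
    simp only [mv, Ad.tr, Ad.rd, Pi.mul_apply, Pi.sub_apply, this]
    ring
  have k : -(K - ν) = -K + - -ν := by abel
  refine exists_congr fun s => and_congr_right fun _ => eventually_congr (e.mono fun w hw =>
    forall_congr' fun ho => ?_)
  rw [hw, k, MON.xm_add _ _ ho, mul_assoc, mul_right_inj' (MON.xm_ne _ ho)]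

theorem gl_iff : Gl D K ν U ↔ (D.All fun d z => DifferentiableAt ℂ (U d) z) ∧
    D.Ov fun a b x => PolH (D.c b) (-ν) (mv D K U a b - U b) (D.e b x) :=
  ⟨fun h => ⟨h.hol, fun a b x ha hb => (dif_iff ha hb).1 (h.dif a b x ha hb)⟩,
    fun h => ⟨h.1, fun a b x ha hb => (dif_iff ha hb).2 (h.2 a b x ha hb)⟩⟩

/-- A continuous function that vanishes on the thickening vanishes on its support. -/
theorem van_at {i : ι} (h : PolH c (-ν) F z) (hF : ContinuousAt F z) (h0 : 0 ≤ ν) (hi : ν i ≠ 0)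
    (hz : xi c i z = 0) : F z = 0 := by
  obtain ⟨s, hs, e⟩ := h
  rw [neg_neg] at e
  have k : ContinuousAt (fun w => xm c ν w * s w) z :=
    (MON.diff_xm fun l => .inr (h0 l)).continuousAt.mul hs.self_of_nhds.continuousAt
  rw [tendsto_nhds_unique_of_frequently_eq hF k
    (((MON.off_freq c z).and_eventually e).mono fun w hw => hw.2 hw.1)]
  exact mul_eq_zero_of_left (Finset.prod_eq_zero (Finset.mem_univ i) (by rw [hz, zero_zpow _ hi])) _

/-- A holomorphic function that vanishes on the components in `S`. -/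
theorem pol_of (hD : St_DIV) (hc : Inj c) (S : Finset ι) (hF : HolN F z)
    (h : ∀ᶠ w in 𝓝 z, ∀ i ∈ S, xi c i w = 0 → F w = 0) : PolH c (-ind S) F z := by
  obtain ⟨s, hs, e⟩ := (hD n ι c F z hc hF).2 S 1 fun I hI => h.mono fun w hw hI' => by
    obtain ⟨h1, h2⟩ := Finset.mem_powersetCard.1 hI
    obtain ⟨i, rfl⟩ := Finset.card_eq_one.1 h2
    exact hw i (h1 (Finset.mem_singleton_self i)) (hI' i (Finset.mem_singleton_self i))
  have h1 : lt S 1 = {∅} := by
    ext J
    simp only [lt, Finset.mem_filter, Finset.mem_powerset, Finset.mem_singleton, Nat.lt_one_iff,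
      Finset.card_eq_zero]
    exact ⟨fun h => h.2, fun h => ⟨h ▸ Finset.empty_subset _, h⟩⟩
  refine ⟨s ∅, hs ∅, e.mono fun w hw _ => ?_⟩
  rw [hw, h1, Finset.sum_singleton, Finset.sdiff_empty, neg_neg, ← MON.xm_ind]
  rfl

/-- The difference of two powers. -/
theorem pow_sub (hM : St_MOD) (hI : St_INC) {A B : E n → ℂ} {ν₀ : ι → ℤ} (hA : PolH c (-ν₀) A z)
    (hB : PolH c (-ν₀) B z) (h : PolH c (-ν) (A - B) z) (p : ℕ) :
    PolH c (-fun i => (p + 1) * ν₀ i) (B ^ (p + 1)) z ∧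
      PolH c (-fun i => ν i + p * ν₀ i) (A ^ (p + 1) - B ^ (p + 1)) z := by
  have mul : ∀ G G' F F', PolH c G F z → PolH c G' F' z → PolH c (G + G') (F * F') z :=
    fun G G' F F' => ((hI n ι c G 0 ∅ 0 F z).2.2.2.1 G' F').2
  induction p with
  | zero =>
    simp only [Nat.cast_zero, zero_add, one_mul, pow_one, zero_mul, add_zero]
    exact ⟨hB, h⟩
  | succ p ih =>
    have e1 : (-fun i => ((p + 1 : ℕ) + 1 : ℤ) * ν₀ i) = (-fun i => (p + 1) * ν₀ i) + -ν₀ := by
      funext i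
      simp only [Pi.add_apply, Pi.neg_apply]
      push_cast
      ring
    have e2 : (-fun i => ν i + (p + 1 : ℕ) * ν₀ i) = -ν₀ + -fun i => ν i + p * ν₀ i := by
      funext i
      simp only [Pi.add_apply, Pi.neg_apply]
      push_cast
      ring
    have e3 : -ν + (-fun i => (p + 1) * ν₀ i) = -ν₀ + -fun i => ν i + p * ν₀ i := by
      funext i
      simp only [Pi.add_apply, Pi.neg_apply]
      ring
    have e4 : A ^ (p + 1 + 1) - B ^ (p + 1 + 1) =
        A * (A ^ (p + 1) - B ^ (p + 1)) + (A - B) * B ^ (p + 1) := by ring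
    rw [e1, e2, e4, pow_succ B (p + 1)]
    exact ⟨mul _ _ _ _ ih.1 hB, (hM n ι c _ 0 ∅ 0).2.1.add _ _ _ (mul _ _ _ _ hA ih.2)
      (e3 ▸ mul _ _ _ _ h ih.1)⟩

theorem on_dv (h0 : 0 ≤ ν) (h : Gl D K ν U) (ha : x ∈ (D.e a).source) (hb : x ∈ (D.e b).source)
    {i : ι} (hi : ν i ≠ 0) (hz : xi (D.c b) i (D.e b x) = 0) :
    U b (D.e b x) = U a (D.e a x) * D.um (-K) a b x := by
  have := van_at ((gl_iff.1 h).2 a b x ha hb) (df_hol h.hol ha hb).self_of_nhds.continuousAt h0 hi hz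
  rw [Pi.sub_apply, mv_at hb, sub_eq_zero] at this
  exact this.symm

end GLA

open GLA in
theorem kGLA (hM : St_MOD) (hI : St_INC) (hD : St_DIV) : Sk_GLA := by
  intro n M _ ι _ _ D K ν U
  have mono : ∀ (c : ι → Option (Fin n)) G G' F z, G ≤ G' → PolH c G F z → PolH c G' F z :=
    fun c G G' F z h => ((hI n ι c G 0 ∅ 0 F z).2.2.1 G' h).2
  have md : ∀ (c : ι → Option (Fin n)) G, ModH c (PolH c G) := fun c G => (hM n ι c G 0 ∅ 0).2.1
  refine ⟨fun ν' hν => ⟨fun h => ⟨h.hol, fun a b x ha hb => mono _ _ _ _ _ (sub_le_sub_left hν K)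
      (h.dif a b x ha hb)⟩, fun h d z hz => mono _ _ _ _ _ (neg_le_neg hν) (h d z hz)⟩,
    fun U' h h' => gl_iff.2 ⟨fun d z hz => (h.hol d z hz).sub (h'.hol d z hz),
      fun a b x ha hb => ?_⟩,
    fun h d z hz => ⟨U d, holB h hz, .of_forall fun w _ => by simp [xm]⟩,
    fun ν₀ K' ν' p hK hν h hv => gl_iff.2 ⟨fun d z hz => (h.hol d z hz).pow _,
      fun a b x ha hb => ?_⟩,
    fun h0 h a b x ha hb i hi hz => on_dv h0 h ha hb hi hz,
    fun h0 h hU d z hz i hi k => van_at (h d z hz) (hU d z hz).continuousAt h0 hi k,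
    fun h0 h b z hz i hi k => ?_,
    fun S hU => ⟨fun h => gl_iff.2 ⟨hU, fun a b x ha hb => pol_of hD (D.inj b) S
      (df_hol hU ha hb) ?_⟩, fun h d z hz => pol_of hD (D.inj d) S (holB hU hz)
        ((isOpen_ball.eventually_mem hz).mono fun w hw => h d w hw)⟩⟩
  · refine (md _ _).cong _ _ _ ((md _ _).add _ _ _ ((gl_iff.1 h).2 a b x ha hb) ((md _ _).mul
      (fun _ => -1) _ _ (.of_forall fun _ => differentiableAt_const _)
      ((gl_iff.1 h').2 a b x ha hb))) (.of_forall fun w _ => ?_)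
    simp only [mv, Ad.tr, Pi.mul_apply, Pi.sub_apply, Pi.add_apply]
    ring
  · obtain ⟨s, hs, e⟩ := hv a _ (TRF.mem_B D ha)
    have hA : PolH (D.c b) (-ν₀) (mv D K U a b) (D.e b x) := by
      rw [mv, mul_comm]
      exact (md _ _).mul _ _ _ (TRF.um_hol D _ ha hb)
        ⟨_, TRF.holN_mul (TRF.hoT D ha hb hs) (TRF.um_hol D _ ha hb), TRF.rep1 D ha hb e⟩
    have e' : mv D K' (U ^ (p + 1)) a b = mv D K U a b ^ (p + 1) := by
      funext w
      simp only [mv, Ad.tr, Ad.rd, Ad.um, Pi.mul_apply, Pi.pow_apply, Pi.neg_apply, mul_pow,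
        ← Finset.prod_pow, hK]
      refine congrArg _ (Finset.prod_congr rfl fun i _ => ?_)
      rw [← zpow_natCast, ← zpow_mul]
      refine congrArg _ ?_
      push_cast
      ring
    rw [e']
    exact mono _ _ _ _ _ (fun i => neg_le_neg (hν i))
      (pow_sub hM hI hA (hv b _ (TRF.mem_B D hb)) ((gl_iff.1 h).2 a b x ha hb) p).2
  · have hb := TRF.mem_src D (a := b) hz
    have e := TRF.rinv D (a := b) hz
    rw [Ad.rd, ← one_mul (U b z), ← ofReal_one, ← D.sum ((D.e b).symm z), ofReal_sum,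
      Finset.sum_mul]
    refine Finset.sum_congr rfl fun d _ => ?_
    by_cases hd : D.χ d ((D.e b).symm z) = 0
    · rw [hd, ofReal_zero, zero_mul, zero_mul]
    · rw [← on_dv h0 h (D.supp d _ hd).1 hb hi (by rwa [e]), e]
  · filter_upwards [TRF.near D ha hb] with w hw i hi k
    have := h a b _ hw.1 hw.2.1 i hi (by rwa [hw.2.2])
    rw [← mv_at hw.2.1, hw.2.2] at this
    rw [Pi.sub_apply, this, sub_self]

end Pool.Agent.Lib.EXK
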