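import Pool.Agent.Lib.EXK.Blue
import Pool.Agent.Lib.EX.B_GLUE

/-! Project exk, block GLUE: one step down in the weight. -/

open scoped Classical Topology ContDiff ComplexOrder Matrix
open Set MeasureTheory Complex Metric Filter

noncomputable section

namespace Pool.Agent.Lib.EXK

open Pool.Agent.Lib.SV (E)
open Pool.Agent.Lib.HS32 Pool.Agent.Lib.EX
open Pool.Agent.Lib.EXA (Val SmN emb)

namespace GLUE

variable {n : ℕ} {ι : Type} [Fintype ι] [DecidableEq ι] {c : ι → Option (Fin n)} {G K : ι → ℤ}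
  {T N : Finset ι} {p : ℕ} {ρ ρ' : Finset ι → E n → ℂ} {F F' : E n → ℂ} {z : E n}

theorem resx_congr (hR : Sk_RESX) (hc : Inj c) (h : ResX c G T N p ρ F z)
    (h1 : ∀ᶠ y in 𝓝 z, Off c y → F' y = F y)
    (h2 : ∀ I ∈ T.powersetCard p, ¬ Disjoint I N → ∀ᶠ y in 𝓝 z, Sl c I y → ρ' I y = ρ I y) :
    ResX c G T N p ρ' F' z := (hR n ι c G T N p ρ ρ' F F' z hc).2.2.2.2.2.2.1 h h1 h2

theorem resx_sub (hR : Sk_RESX) (hc : Inj c) (h : ResX c G T N p ρ F z)
    (h' : ResX c G T N p ρ' F' z) : ResX c G T N p (ρ - ρ') (F - F') z := by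
  have h1 := (hR n ι c G T N p ρ' ρ' F' F' z hc).2.2.2.2.2.1 (fun _ => -1)
    (Eventually.of_forall fun _ => contDiffAt_const) h'
  have h2 := (hR n ι c G T N p ρ _ F _ z hc).2.2.2.2.1 h h1
  refine resx_congr hR hc h2 (Eventually.of_forall fun y _ => ?_)
    fun I _ _ => Eventually.of_forall fun y _ => ?_
  · simp [sub_eq_add_neg]
  · simp [sub_eq_add_neg]

/-- The tangential derivatives of the residues vanish. -/
theorem tangx (hR : Sk_RESX) (hX : Sk_INCX) (hI : St_INC) (hc : Inj c) {g : E n → ℂ}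
    (hg : PolH c K g z) (h : ResX c G T N p ρ (F - g) z) {j : Fin n}
    (h' : ResX c G T N p ρ' (dzb j F) z) {I : Finset ι} (hT : I ∈ T.powersetCard p)
    (hN : ¬ Disjoint I N) (hj : ¬ Nm c I j) (hs : SmN (ρ I) z) (hz : Sl c I z) :
    dzb j (ρ I) z = ρ' I z := by
  obtain ⟨σ, h1, h2⟩ := (hR n ι c G T N p ρ ρ (F - g) F z hc).2.2.2.2.2.2.2.2.2.2.2.1 h j
  have h3 := ((hR n ι c G T N p ρ ρ (F - g) F z hc).1 h).1
  have h4 := (hX n ι c G T N (p + 1) (F - g) z).2.1 h3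
  have h5 := (hI n ι c G 0 T p (F - g) z).2.2.2.2.2.2.2.2.2.2.2.2.2.2.2.1 h4
  have h6 := (hI n ι c K 0 T p g z).2.2.2.2.2.2.2.2.2.2.2.2.2.2.2.2.1 hg
  have h7 := ((hI n ι c K 0 T p g z).2.2.2.2.2.2.2.2.2.2.2.2.2.2.2.2.2 j).2.2 hg
  have h8 : ResX c G T N p σ (dzb j F) z := by
    refine resx_congr hR hc h1 ?_ fun _ _ _ => Eventually.of_forall fun _ _ => rfl
    filter_upwards [h5, h6, h7] with y a b d hy
    have e : F = fun w => (F - g) w + g w := by
      funext w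
      simp
    conv_lhs => rw [e]
    rw [dzb_add (cd_diff (a hy).self_of_nhds) ((b hy).self_of_nhds.restrictScalars ℝ), d hy,
      add_zero]
  have h9 := (hR n ι c G T N p σ ρ' (dzb j F) F z hc).2.2.2.2.2.2.2.1 h8 h' I hT hN
  exact ((h2 I hT hN hj hs).self_of_nhds hz).symm.trans (h9.self_of_nhds hz)

end GLUE

theorem kGLUE (hC : Sk_CECH) (hR : Sk_RESX) (hX : Sk_INCX) (hTX : Sk_TRFX) (hD : Sk_MODX)
    (hE : St_XT) (hI : St_INC) (hT : St_TRF) (hM : St_MON) : Sk_GLUE := by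
  intro n M _ H ι _ _ D G K T N p g w hN hg hd hw hrep
  obtain ⟨σ, hσ, hres⟩ := hC n M ι D G T N p g hd
  set F : M.X → ℂ := D.avg g - D.ext G T p w with hF
  have h1 : D.All fun a z =>
      ResX (D.c a) G T N p (fun I => σ I a - w I a) (D.rd F a - g a) z := by
    intro a z hz
    refine GLUE.resx_congr hR (D.inj a) (GLUE.resx_sub hR (D.inj a) (hres a z hz)
      (((hX n ι (D.c a) G T N p _ z).2.2.2.2.2.2.2 _).1 (hE n M ι D G T p w hw a z hz)))
      (Eventually.of_forall fun y _ => ?_) fun _ _ _ => Eventually.of_forall fun _ _ => rfl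
    simp only [hF, Ad.rd, Pi.sub_apply]
    ring
  have hs : ∀ I ∈ T.powersetCard p, ¬ Disjoint I N → ∀ a, ∀ y ∈ B2 n,
      ContDiffAt ℝ ∞ (σ I a - w I a) y :=
    fun I hI hI' a y hy => ((hσ I hI hI').sm a y hy).sub ((hw I hI).sm a y hy)
  let k : D.A → Finset ι → E n → ℂ := fun a I =>
    if ¬ Disjoint I N ∧ ∀ i ∈ I, D.c a i ≠ none then σ I a - w I a else 0
  have hk : D.All fun a z => ∀ I ∈ T.powersetCard p, HolN (k a I) z := by
    intro a z hz I hI'
    simp only [k]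
    split_ifs with h
    · refine EX.GLUE.hol hM h.2 (hs I hI' h.1 a) (fun y hy => ?_) (fun y hy hy' j hj => ?_) hz
      · rw [Pi.sub_apply, Pi.sub_apply, (hσ I hI' h.1).iv a y hy, (hw I hI').iv a y hy]
      · obtain ⟨ρ, h2, h3⟩ := hrep a y hy j
        rw [GLUE.tangx hR hX hI (D.inj a) (hg a y hy) (h1 a y hy) h2 hI' h.1 hj
          (EX.GLUE.smN_of (hs I hI' h.1 a) hy) hy', (h3 I hI' h.1 hj).self_of_nhds hy']
        simp
    · exact Eventually.of_forall fun _ => differentiableAt_const _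
  have h2 : D.All fun a z => WtHX (D.c a) G T N (p + 1) (hat (D.c a) G T p (k a)) z :=
    fun a z hz =>
      (hR n ι (D.c a) G T N p (k a) (k a) 0 0 z (D.inj a)).2.2.2.2.2.2.2.2.2.1 (hk a z hz)
  have h3 : D.All fun a z =>
      ResX (D.c a) G T N p 0 (D.rd F a - (g a + hat (D.c a) G T p (k a))) z := by
    intro a z hz
    have h4 := (hR n ι (D.c a) G T N p (k a) (k a) 0 0 z (D.inj a)).2.2.2.2.2.2.2.2.1
      fun I hI' => (hk a z hz I hI').eventually_nhds.mono fun y hy => ((mHOL n _ y).2.2 hy).1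
    refine GLUE.resx_congr hR (D.inj a) (GLUE.resx_sub hR (D.inj a) (h1 a z hz) h4)
      (Eventually.of_forall fun y _ => ?_) fun I _ hI' => Eventually.of_forall fun y hy => ?_
    · simp only [Pi.sub_apply, Pi.add_apply]
      ring
    · have h5 := ((hM n ι (D.c a)).2.2.2.2.2.2.2.2.2.2.1 I y).2.2.2.2.2 hy
      simp only [k, Pi.sub_apply, if_pos (And.intro hI' h5), Pi.zero_apply, sub_self]
  refine ⟨fun a => g a + hat (D.c a) G T p (k a), fun a z hz => ?_, fun a b x ha hb => ?_⟩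
  · show PolH (D.c a) G (g a + hat (D.c a) G T p (k a) - g a) z
    rw [add_sub_cancel_left]
    exact (hX n ι (D.c a) G T N (p + 1) _ z).2.2.1 (h2 a z hz)
  obtain ⟨-, -, -, t⟩ := hT n M ι D
  have t1 := (t a b x ha hb).1
  have t3 := (t b a x hb ha).1
  have t2 := hTX n M ι D a b x ha hb
  have m := (hD n ι (D.c b) G T N (p + 1)).2
  refine (hR n ι (D.c b) G T N p 0 0 _ 0 _ (D.inj b)).2.2.2.2.2.2.2.2.2.2.1 hN ?_ ?_
  · have h4 := m.mul (fun _ => -1) _ _ (Eventually.of_forall fun _ => differentiableAt_const _)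
      (h2 b _ t3)
    refine m.cong _ _ _ (m.add _ _ _ (m.add _ _ _ (hd a b x ha hb)
      ((t2 G T N (p + 1) _).2.1 (h2 a _ t1))) h4) (Eventually.of_forall fun y _ => ?_)
    simp only [Ad.tr, Pi.sub_apply, Pi.add_apply, Pi.mul_apply]
    ring
  · refine GLUE.resx_congr hR (D.inj b) (GLUE.resx_sub hR (D.inj b) (h3 b _ t3)
      ((t2 G T N p _).2.2 _ (h3 a _ t1))) ?_ fun I _ _ => Eventually.of_forall fun y _ => ?_
    · have h4 : (D.e a).source ∈ 𝓝 ((D.e b).symm (D.e b x)) := by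
        rw [(D.e b).left_inv hb]
        exact (D.e a).open_source.mem_nhds ha
      filter_upwards [((D.e b).continuousAt_symm ((D.e b).map_source hb)).preimage_mem_nhds h4]
        with y hy _
      simp only [Ad.tr, Ad.rd, Pi.sub_apply, Pi.add_apply, (D.e a).left_inv hy]
      ring
    · simp [Ad.tr]

end Pool.Agent.Lib.EXK
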