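import Pool.Agent.Lib.EXK.Blue

set_option autoImplicit false

namespace Pool.Agent.Lib.EXK

open Pool.Agent.Lib.EX

theorem kGNI (hHOM : Sk_HOM) : Sk_GNI := by
  intro n M ι _ _ D R κ τ _ u U j ν hj hu hν hI d z hz i hi h0
  obtain ⟨l, hl⟩ := hu d z hz i (by simp [sp, hν i hi]) h0
  by_contra k
  push Not at k
  obtain ⟨e, Φ, he, -, -, h1, h2, -⟩ := hHOM _ _ _ _ _ (fun _ => hj) (hI l)
  have h3 := h2 ⟨(d, z), hz, i, hi, h0⟩
  rw [show (fun t => ev D ν (U t) ⟨(d, z), hz, i, hi, h0⟩) = 0 from funext k, h1] at h3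
  exact hl (pow_eq_zero_iff he.ne' |>.1 h3)

end Pool.Agent.Lib.EXK
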