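import Pool.Agent.Lib.EXK.Blue
import Pool.Agent.Lib.EXS.L14

/-! Project exk: the grid of levels. -/

noncomputable section

namespace Pool.Agent.Lib.EXK

open Pool.Agent.Lib.HS32 Pool.Agent.Lib.EX

namespace GRID

variable {n : ℕ} {M : Mf n} {ι : Type} [Fintype ι] [DecidableEq ι] {D : Ad M ι} (R : Rk D)

theorem dl_mono {s t : ℝ} (h : s ≤ t) (i : ι) : R.dl s i ≤ R.dl t i :=
  sub_le_sub_right (mul_le_mul_of_nonneg_right h (Nat.cast_nonneg _)) _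

theorem dl_lt {s t : ℝ} (h : s < t) {i : ι} (ha : R.a i ≠ 0) : R.dl s i < R.dl t i :=
  sub_lt_sub_right (mul_lt_mul_of_pos_right h (Nat.cast_pos.2 (Nat.pos_of_ne_zero ha))) _

theorem dl_gap {N : ℕ} (hN : 0 < N) {i : ι} (ha : R.a i ≠ 0) (hd : R.m * R.a i ∣ N) (c : ℤ) (j : ℕ)
    (h : (c : ℝ) < R.dl (((j : ℝ) + 1) / N) i) : (c : ℝ) ≤ R.dl ((j : ℝ) / N) i := by
  have e : ∀ t : ℝ, R.dl t i = t * R.a i + ((-R.k i : ℤ) : ℝ) / R.m := fun t => by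
    rw [Rk.dl, Int.cast_neg, neg_div, sub_eq_add_neg]
  rw [e] at h ⊢
  exact EXS.L14.gap R.m0 ha hN hd _ c j h

theorem nxt {N : ℕ} (hN : 0 < N) {i : ι} (ha : R.a i ≠ 0) (hd : R.m * R.a i ∣ N) (j : ℕ) :
    R.fl ((j : ℝ) / N) i + 1 = ⌈R.dl (((j : ℝ) + 1) / N) i⌉ := by
  have N0 : (0 : ℝ) < N := Nat.cast_pos.2 hN
  have h1 := Int.ceil_lt_add_one (R.dl (((j : ℝ) + 1) / N) i)
  have h2 := Int.le_floor.2 (dl_gap R hN ha hd (⌈R.dl (((j : ℝ) + 1) / N) i⌉ - 1) j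
    (by push_cast; linarith))
  have h3 : R.dl ((j : ℝ) / N) i < R.dl (((j : ℝ) + 1) / N) i :=
    dl_lt R (div_lt_div_of_pos_right (lt_add_one _) N0) ha
  have h4 : ⌊R.dl ((j : ℝ) / N) i⌋ < ⌈R.dl (((j : ℝ) + 1) / N) i⌉ :=
    Int.lt_ceil.2 ((Int.floor_le _).trans_lt h3)
  rw [Rk.fl]
  omega

end GRID

theorem kGRID : Sk_GRID := by
  intro n M ι _ _ D R μ₀ h0 he
  obtain ⟨N, hN, hd⟩ := EXS.L14.den R.m0 R.a
  have N0 : (0 : ℝ) < N := Nat.cast_pos.2 hN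
  obtain ⟨p, hp1, hp2⟩ : ∃ p : ℕ, (p : ℝ) / N ≤ μ₀ ∧ μ₀ < ((p : ℝ) + 1) / N :=
    ⟨⌊μ₀ * N⌋₊, (div_le_iff₀ N0).2 (Nat.floor_le (by positivity)),
      (lt_div_iff₀ N0).2 (Nat.lt_floor_add_one _)⟩
  have mono : Monotone fun q : ℕ => ((p + q : ℕ) : ℝ) / N := fun a b h =>
    div_le_div_of_nonneg_right (Nat.cast_le.2 (Nat.add_le_add_left h p)) N0.le
  refine ⟨fun q => ((p + q : ℕ) : ℝ) / N, mono, fun q => ⟨?_, fun i ha => ?_, fun i hi => ?_⟩,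
    fun i => ?_, fun j hj => ?_, ?_⟩
  · exact div_pos (Nat.cast_pos.2 (by omega)) N0
  · have h := GRID.nxt R hN ha (hd i ha) (p + q)
    rw [← Nat.cast_add_one] at h
    exact h
  · by_cases ha : R.a i = 0
    · have h := he i hi
      simp only [Rk.dl, ha, Nat.cast_zero, mul_zero] at h ⊢
      exact h
    · have h := GRID.dl_gap R hN ha (hd i ha) 0 p
        (by rw [Int.cast_zero]; exact (he i hi).trans_lt (GRID.dl_lt R hp2 ha))
      rw [Int.cast_zero] at h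
      exact h.trans (GRID.dl_mono R (mono (Nat.zero_le q)) i)
  · exact max_le_max_right 0 (Int.floor_le_floor (GRID.dl_mono R hp1 i))
  · have h1 : (p : ℝ) ≤ j * N := (div_le_iff₀ N0).1 hj
    have h2 : p ≤ j * N := by exact_mod_cast h1
    refine ⟨j * N - p, ?_⟩
    beta_reduce
    rw [Nat.add_sub_cancel' h2, Nat.cast_mul, mul_div_assoc, div_self N0.ne', mul_one]
  · obtain ⟨B, hB⟩ := exists_nat_gt (1 + ∑ i, |(R.k i : ℝ) / R.m|)
    refine ⟨B * N, fun i ha => ?_⟩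
    have h1 : (B : ℝ) ≤ ((p + B * N : ℕ) : ℝ) / N := by
      rw [le_div_iff₀ N0]
      exact_mod_cast Nat.le_add_left _ _
    refine lt_of_lt_of_le ?_ (GRID.dl_mono R h1 i)
    have h2 : |(R.k i : ℝ) / R.m| ≤ ∑ i, |(R.k i : ℝ) / R.m| :=
      Finset.single_le_sum (f := fun i => |(R.k i : ℝ) / R.m|) (fun _ _ => abs_nonneg _)
        (Finset.mem_univ i)
    have h3 : (1 : ℝ) ≤ R.a i := by exact_mod_cast Nat.pos_of_ne_zero ha
    have h4 := le_abs_self ((R.k i : ℝ) / R.m)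
    have h5 : (B : ℝ) * 1 ≤ B * R.a i := mul_le_mul_of_nonneg_left h3 (Nat.cast_nonneg _)
    rw [Rk.dl]
    linarith

end Pool.Agent.Lib.EXK
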