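import Pool.Agent.Lib.EXK.Blue
import Pool.Agent.Lib.EX.B_GYS

/-! Project exk: the correction by holomorphic sections on the deeper strata. -/

open scoped Classical Topology ContDiff ComplexOrder Matrix
open Set Filter

set_option linter.unusedVariables false

noncomputable section

namespace Pool.Agent.Lib.EXK

open Pool.Agent.Lib.SV (E)
open Pool.Agent.Lib.HS32 Pool.Agent.Lib.EX
open Pool.Agent.Lib.EXA (Val SmN emb)

open Pool.Agent.Lib.EX.GYS in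
theorem kGYS (hLA : St_LA) (hFIN : St_FIN) (hDEL : St_DEL) (hIP : Sk_IP) (hADJ : Sk_ADJ)
    (hHAT : St_HAT) (hDEC : Sk_DEC) (hLIN : St_LIN) (hEXT : St_XT) (hRES : St_RES)
    (hINC : St_INC) (hLINX : Sk_LINX) (hINCX : Sk_INCX) : Sk_GYS := by
  intro n M _ H ι _ _ D κ _ L p V hK hV
  obtain ⟨r0, r1⟩ := hLINX n M H ι D L.G L.T L.N p
  obtain ⟨-, e1, -, ⟨s0, s1⟩, -, d1⟩ := hLIN n M H ι D L.G L.T p
  obtain ⟨-, e2, -, ⟨-, s2⟩, ⟨t0, t1⟩, -⟩ := hLIN n M H ι D L.G L.T (p + 1)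
  obtain ⟨⟨v0, v1⟩, v2, -⟩ := hIP n M H ι D κ L p hK.toMet
  obtain ⟨-, -, w2⟩ := hIP n M H ι D κ L (p + 1) hK.toMet
  let R := subm (D.HSec L.G L.T (p + 1)) t0 t1
  let S := subm (L.HarF p) v0 v1
  have : FiniteDimensional ℂ R := hFIN n M ι D L.G L.T (p + 1) R fun _ h => h
  obtain ⟨a, ha⟩ := form R (L.ipS (p + 1)) fun x x' y t hx hx' hy =>
    ⟨(w2 x x' y t hx hx' hy).1, (w2 x x' y t hx hx' hy).2.1⟩
  obtain ⟨b, hb⟩ := form S (L.ipV H p) fun x x' y t hx hx' hy =>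
    ⟨(v2 x x' y t hx hx' hy).1, (v2 x x' y t hx hx' hy).2.1⟩
  obtain ⟨δ, hδ⟩ := lmap S R (D.dl L.T p) d1 fun x hx =>
    hDEL n M ι D L.G L.T p x fun I hI => (hx I hI).toFld
  have ez : ∀ q, D.ext L.G L.T q 0 = 0 := fun q => by
    simpa using (hLIN n M H ι D L.G L.T q).2.1 0 0 1
  let Γ : Submodule ℂ (R × S) := subm (fun x => ∃ w, D.SecF L.G L.T p w ∧
      RepX D H L.G L.T L.N p (D.ext L.G L.T (p + 1) x.1.1 - D.ext L.G L.T p w) x.2.1)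
    ⟨0, s0, by simpa [ez] using r0⟩ (by
      rintro x x' t ⟨w, hw, h⟩ ⟨w', hw', h'⟩
      refine ⟨w + t • w', s1 _ _ t hw hw', ?_⟩
      have h1 := r1 _ _ _ _ t L.G (pol D hEXT hRES hINC x.1.2.sec hw)
        (pol D hEXT hRES hINC x'.1.2.sec hw') h h'
      have e : D.ext L.G L.T (p + 1) (x + t • x').1.1 - D.ext L.G L.T p (w + t • w') =
          D.ext L.G L.T (p + 1) x.1.1 - D.ext L.G L.T p w +
            t • (D.ext L.G L.T (p + 1) x'.1.1 - D.ext L.G L.T p w') := by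
        change D.ext L.G L.T (p + 1) (x.1.1 + t • x'.1.1) - _ = _
        rw [e1, e2, smul_sub]
        abel
      rw [e]
      exact h1)
  obtain ⟨x, y, ⟨w, hw, hxy⟩, h0⟩ := hLA R S a b δ Γ
    (fun x y => by rw [ha, ha]; exact (w2 x.1 x.1 y.1 1 x.2 x.2 y.2).2.1)
    (fun x y => by rw [hb, hb]; exact (v2 x.1 x.1 y.1 1 x.2 x.2 y.2).2.1)
    (fun x => by rw [ha]; exact (w2 x.1 x.1 x.1 1 x.2 x.2 x.2).2.2.1)
    (fun x h => Subtype.ext ((w2 x.1 x.1 x.1 1 x.2 x.2 x.2).2.2.2 (ha x x ▸ h)))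
    (fun x => by rw [hb]; exact (v2 x.1 x.1 x.1 1 x.2 x.2 x.2).2.2)
    (fun x => by
      obtain ⟨h1, h2⟩ := hHAT n M ι D L.G L.T (p + 1) x.1 x.2
      obtain ⟨w, V', hw, hV', hr⟩ := hDEC n M H ι D κ L p L.G _ hK h1 fun a b x hx hy =>
        (hINCX n ι _ L.G L.T L.N (p + 1) _ _).2.2.2.2.1 (h2 a b x hx hy)
      exact ⟨⟨V', hV'⟩, w, hw, hr⟩)
    (by
      rintro x y ⟨w, hw, h⟩ v
      rw [ha, hb, hδ]
      exact hADJ n M H ι D κ L p v.1 y.1 _ x.1 v.2 (res D hEXT hRES x.2.sec hw) h)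
    ⟨V, hV⟩
  refine ⟨x.1, w, y.1, x.2, hw, y.2, ((⟨V, hV⟩ : S) - y).2, hxy, ?_⟩
  have h1 := hδ (⟨V, hV⟩ - y)
  rw [h0] at h1
  exact h1.symm

end Pool.Agent.Lib.EXK
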