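import Pool.Agent.Lib.EXK.Blue

/-! Row HOM: the homogeneous equation of an integral element. -/

open Set Polynomial

noncomputable section

namespace Pool.Agent.Lib.EXK

namespace HOM

variable {κ : Type} (dg : κ → ℕ)

/-- The polynomial in the scaling parameter. -/
def sc (q : MvPolynomial κ ℂ) : (MvPolynomial κ ℂ)[X] :=
  MvPolynomial.aeval (fun l => C (MvPolynomial.X l) * X ^ dg l) q

lemma eval_sc (q : MvPolynomial κ ℂ) (y : κ → ℂ) (c : ℂ) :
    ((sc dg q).map (MvPolynomial.eval y)).eval c = MvPolynomial.eval (fun l => y l * c ^ dg l) q := by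
  unfold sc
  induction q using MvPolynomial.induction_on with
  | C a => simp
  | add p q hp hq => simp only [map_add, Polynomial.map_add, eval_add, hp, hq]
  | mul_X p l hp => simp only [map_mul, Polynomial.map_mul, eval_mul, hp]; simp

lemma eval_hc (q : MvPolynomial κ ℂ) (d : ℕ) (y : κ → ℂ) (c : ℂ) :
    MvPolynomial.eval (fun l => y l * c ^ dg l) ((sc dg q).coeff d) =
      MvPolynomial.eval y ((sc dg q).coeff d) * c ^ d := by
  have h : (sc dg q).map (MvPolynomial.eval fun l => y l * c ^ dg l) =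
      ((sc dg q).map (MvPolynomial.eval y)).comp (C c * X) := by
    refine Polynomial.funext fun t => ?_
    rw [eval_comp, eval_sc, eval_sc]
    simp only [eval_mul, eval_C, eval_X, mul_pow, mul_assoc]
  have h2 := congrArg (fun p => p.coeff d) h
  simpa only [comp_C_mul_X_coeff, coeff_map] using h2

lemma diff_eval [Fintype κ] (q : MvPolynomial κ ℂ) :
    Differentiable ℂ fun x : ℂ × (κ → ℂ) => MvPolynomial.eval x.2 q := by
  induction q using MvPolynomial.induction_on with
  | C a => simp
  | add p q hp hq => simp only [map_add]; exact hp.add hq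
  | mul_X p l hp =>
    simp only [map_mul, MvPolynomial.eval_X]
    exact hp.mul (by fun_prop)

lemma aeval_cn {P : Type} (U : κ → P → ℂ) (q : MvPolynomial κ ℂ) (x : P × ℂ) :
    MvPolynomial.aeval (fun l => cn (dg l) (U l)) q x =
      MvPolynomial.eval (fun l => U l x.1 * x.2 ^ dg l) q := by
  induction q using MvPolynomial.induction_on with
  | C a => simp
  | add p q hp hq => simp only [map_add, Pi.add_apply, hp, hq]
  | mul_X p l hp => simp only [map_mul, Pi.mul_apply, hp]; simp [cn, mul_comm]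

lemma eqn {P : Type} (U : κ → P → ℂ) (u : P → ℂ) (h : Ing dg U 1 u) :
    ∃ (e : ℕ) (q : ℕ → MvPolynomial κ ℂ), 0 < e ∧ ∀ x c, (c * u x) ^ e +
      ∑ i ∈ Finset.range e, MvPolynomial.eval (fun l => U l x * c ^ dg l) (q i) * (c * u x) ^ i
        = 0 := by
  obtain ⟨p, hp, h1⟩ := h
  have hq : ∀ i, ∃ q : MvPolynomial κ ℂ, MvPolynomial.aeval (fun l => cn (dg l) (U l)) q =
      (p.coeff i).1 := fun i =>
    (Algebra.adjoin_range_eq_range_aeval ℂ fun l => cn (dg l) (U l)).le (p.coeff i).2
  choose q hq using hq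
  refine ⟨p.natDegree + 1, fun i => Nat.casesOn i 0 q, Nat.succ_pos _, fun x c => ?_⟩
  rw [hp.as_sum, eval₂_add, eval₂_X_pow, eval₂_finsetSum] at h1
  have h2 := congrFun h1 (x, c)
  simp only [eval₂_mul, eval₂_C, eval₂_X_pow, Pi.add_apply, Pi.pow_apply, Finset.sum_apply,
    Pi.mul_apply, Pi.zero_apply, Subalgebra.algebraMap_apply, ← hq, aeval_cn, cn, pow_one] at h2
  rw [Finset.sum_range_succ']
  simp only [Nat.rec_zero, map_zero, zero_mul, add_zero, pow_succ, ← mul_assoc _ _ (c * u x), ← Finset.sum_mul]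
  rw [← add_mul]
  exact mul_eq_zero_of_left h2 _

end HOM

open HOM in
theorem kHOM : Sk_HOM := by
  intro P κ _ dg U u hdg h
  obtain ⟨e, q, he, hq⟩ := eqn dg U u h
  refine ⟨e, fun t y => t ^ e + ∑ i ∈ Finset.range e,
    MvPolynomial.eval y ((sc dg (q i)).coeff (e - i)) * t ^ i, he, ?_, ?_, ?_, ?_, ?_⟩
  · refine Differentiable.add (by fun_prop) (Differentiable.fun_sum fun i _ => ?_)
    exact (diff_eval _).mul (by fun_prop)
  · intro c t y
    simp only [eval_hc, add_mul, Finset.sum_mul, mul_pow]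
    congr 1
    refine Finset.sum_congr rfl fun i hi => ?_
    have : c ^ e = c ^ (e - i) * c ^ i := by
      rw [← pow_add, Nat.sub_add_cancel (Finset.mem_range.1 hi).le]
    rw [this]
    ring
  · intro t
    refine add_eq_left.2 (Finset.sum_eq_zero fun i hi => ?_)
    have h1 := eval_hc dg (q i) (e - i) 0 0
    have h2 : e - i ≠ 0 := by have := Finset.mem_range.1 hi; omega
    rw [zero_pow h2, mul_zero] at h1
    have h3 : (fun l => (0 : κ → ℂ) l * 0 ^ dg l) = 0 := by funext l; simp
    rw [h3] at h1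
    rw [h1, zero_mul]
  · intro x
    have h1 : C (u x ^ e) * X ^ e + ∑ i ∈ Finset.range e,
        C (u x ^ i) * ((sc dg (q i)).map (MvPolynomial.eval (U · x)) * X ^ i) = 0 := by
      refine Polynomial.funext fun c => ?_
      rw [eval_zero, ← hq x c]
      simp only [eval_add, eval_mul, eval_C, eval_pow, eval_X, eval_finsetSum, eval_sc, mul_pow]
      congr 1
      · ring
      · exact Finset.sum_congr rfl fun i _ => by ring
    have h2 := congrArg (fun p => p.coeff e) h1
    simp only [coeff_add, coeff_C_mul_X_pow, if_true, finsetSum_coeff, coeff_zero] at h2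
    rw [← h2]
    refine congrArg (u x ^ e + ·) (Finset.sum_congr rfl fun i hi => ?_)
    rw [coeff_C_mul, coeff_mul_X_pow', if_pos (Finset.mem_range.1 hi).le, coeff_map, mul_comm]
  · intro P' U' u'
    unfold Ing
    set A := Algebra.adjoin ℂ (range fun o : Option κ => cn (o.elim e dg) (o.elim (fun x =>
      u' x ^ e + ∑ i ∈ Finset.range e,
        MvPolynomial.eval (U' · x) ((sc dg (q i)).coeff (e - i)) * u' x ^ i) U')) with hA
    have hb : ∀ r : MvPolynomial κ ℂ, MvPolynomial.aeval (fun l => cn (dg l) (U' l)) r ∈ A := by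
      intro r
      have h1 : Algebra.adjoin ℂ (range fun l => cn (dg l) (U' l)) ≤ A :=
        Algebra.adjoin_mono (by rintro _ ⟨l, rfl⟩; exact ⟨some l, rfl⟩)
      exact h1 ((Algebra.adjoin_range_eq_range_aeval ℂ fun l => cn (dg l) (U' l)).ge ⟨r, rfl⟩)
    have hw : cn e (fun x => u' x ^ e + ∑ i ∈ Finset.range e,
        MvPolynomial.eval (U' · x) ((sc dg (q i)).coeff (e - i)) * u' x ^ i) ∈ A :=
      Algebra.subset_adjoin ⟨none, rfl⟩
    refine ⟨X ^ e + (∑ i ∈ Finset.range e, C (⟨_, hb ((sc dg (q i)).coeff (e - i))⟩ : A) * X ^ i -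
      C (⟨_, hw⟩ : A)), monic_X_pow_add ?_, ?_⟩
    · refine lt_of_le_of_lt (degree_sub_le _ _) (max_lt ?_ ?_)
      · refine lt_of_le_of_lt (degree_sum_le _ _) ((Finset.sup_lt_iff (WithBot.bot_lt_coe e)).2 ?_)
        intro i hi
        exact lt_of_le_of_lt (degree_C_mul_X_pow_le _ _) (WithBot.coe_lt_coe.2 (Finset.mem_range.1 hi))
      · exact lt_of_le_of_lt degree_C_le (by exact_mod_cast he)
    · rw [eval₂_add, eval₂_sub, eval₂_X_pow, eval₂_finsetSum]
      funext x
      simp only [eval₂_mul, eval₂_C, eval₂_X_pow, Pi.add_apply, Pi.pow_apply, Finset.sum_apply,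
        Pi.sub_apply, Pi.mul_apply, Pi.zero_apply, Subalgebra.algebraMap_apply, aeval_cn, cn,
        pow_one, eval_hc, mul_add, Finset.mul_sum, mul_pow]
      have : ∀ i ∈ Finset.range e, MvPolynomial.eval (fun l => U' l x.1)
          ((sc dg (q i)).coeff (e - i)) * x.2 ^ (e - i) * (x.2 ^ i * u' x.1 ^ i) =
          x.2 ^ e * (MvPolynomial.eval (fun l => U' l x.1)
            ((sc dg (q i)).coeff (e - i)) * u' x.1 ^ i) := fun i hi => by
        have : x.2 ^ e = x.2 ^ (e - i) * x.2 ^ i := by
          rw [← pow_add, Nat.sub_add_cancel (Finset.mem_range.1 hi).le]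
        rw [this]
        ring
      rw [Finset.sum_congr rfl this]
      ring

end Pool.Agent.Lib.EXK
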