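import Pool.Agent.Lib.EXK.Blue
import Pool.Agent.Lib.EX.B_RES

/-! Project exk: inclusions between the classes modulo `N`. -/

open scoped Classical Topology ContDiff
open Set MeasureTheory Complex Metric Filter

set_option linter.unusedSectionVars false

noncomputable section

namespace Pool.Agent.Lib.EXK

open Pool.Agent.Lib.SV (E)
open Pool.Agent.Lib.HS32 Pool.Agent.Lib.EX
open Pool.Agent.Lib.EXA (SmN)
open K62 (smN_const)

namespace INCX

variable {n : ℕ} {ι : Type} [Fintype ι] [DecidableEq ι] {c : ι → Option (Fin n)} {G : ι → ℤ}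
  {T N : Finset ι} {p : ℕ} {F : E n → ℂ} {z : E n}

omit [Fintype ι] in
theorem sub_le (G : ι → ℤ) (N : Finset ι) : G - ind N ≤ G := fun i => by
  simp only [Pi.sub_apply, ind]
  split_ifs <;> omega

omit [Fintype ι] in
theorem sub_mono (G : ι → ℤ) (h : N ⊆ T) : (fun i => G i - if i ∈ T then 1 else 0) ≤ G - ind N :=
  fun i => by
    simp only [Pi.sub_apply, ind]
    by_cases h1 : i ∈ N
    · rw [if_pos h1, if_pos (h h1)]
    · rw [if_neg h1]
      split_ifs <;> omega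

theorem res0 (h : Wt c G T p F z) : Res c G T p 0 F z := by
  obtain ⟨s, h1, h2⟩ := h
  refine ⟨fun J => if J.card < p then s J else 0, fun J => ?_, h2.mono fun y hy ho => ?_,
    fun I hI => Eventually.of_forall fun y _ => ?_⟩
  · beta_reduce
    split_ifs
    exacts [h1 J, smN_const (0 : ℂ)]
  · rw [hy ho, ← Finset.sum_subset (s₁ := lt T p) (s₂ := lt T (p + 1))
      (fun J hJ => RES.mem_lt.2 ⟨(RES.mem_lt.1 hJ).1, (RES.mem_lt.1 hJ).2.trans p.lt_succ_self⟩)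
      fun J h hJ => by
        beta_reduce
        rw [if_neg fun k => hJ (RES.mem_lt.2 ⟨(RES.mem_lt.1 h).1, k⟩), Pi.zero_apply, mul_zero]]
    exact congrArg _ (Finset.sum_congr rfl fun J hJ => by simp only [if_pos (RES.mem_lt.1 hJ).2])
  · beta_reduce
    rw [if_neg (Finset.mem_powersetCard.1 hI).2.not_lt]
    rfl

end INCX

open INCX in
theorem kINCX (hI : St_INC) (hO : St_MOD) : Sk_INCX := by
  intro n ι _ _ c G T N q F z
  have o := fun K => hO n ι c K 0 T q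
  have i := fun K q F => hI n ι c K 0 T q F z
  have e : ∀ F₁ : E n → ℂ, F₁ + (F - F₁) = F := fun F₁ => add_sub_cancel F₁ F
  have z1 : Pol c (G - ind N) (F - F) z := by rw [sub_self]; exact (o _).1.zero z
  have z2 : PolH c (G - ind N) (F - F) z := by rw [sub_self]; exact (o _).2.1.zero z
  refine ⟨fun ⟨F₁, h1, h2⟩ => ⟨F₁, (i G q F₁).2.1 h1, (i _ q _).1 h2⟩, fun ⟨F₁, h1, h2⟩ => ?_,
    fun ⟨F₁, h1, h2⟩ => ?_, fun h => ⟨F, h, z1⟩, fun h => ⟨F, h, z2⟩,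
    fun h => ⟨F, (i G q F).2.2.2.2.2.2.2.2.1 h, z2⟩, fun hN ⟨F₁, h1, h2⟩ => ?_,
    fun ρ => ⟨fun h => ⟨F, ρ, h, z1, fun _ _ _ => Eventually.of_forall fun _ _ => rfl⟩,
      fun hq ⟨F₁, ρ₁, h1, h2, h3⟩ => ?_⟩⟩
  · rw [← e F₁]
    exact (o G).1.add _ _ z ((i G q F₁).2.2.2.2.2.1 h1) (((i _ q _).2.2.1 G (sub_le G N)).1 h2)
  · rw [← e F₁]
    exact (o G).2.1.add _ _ z ((i G q F₁).2.2.2.2.2.2.1 h1) (((i _ q _).2.2.1 G (sub_le G N)).2 h2)
  · rw [← e F₁]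
    exact (o _).2.1.add _ _ z (((i _ q _).2.2.1 _ (sub_mono G hN)).2
      ((i G q F₁).2.2.2.2.2.2.2.2.2.2.1.1 h1)) h2
  · obtain ⟨s, k1, k2, k3⟩ := RES.add h1 (res0 (((i G 1 (F - F₁)).2.2.2.2.1 q hq).1
      ((i G q (F - F₁)).2.2.2.2.2.2.2.2.2.1.2 h2)))
    rw [e F₁] at k2
    refine ⟨s, k1, k2, fun I hI => ?_⟩
    obtain ⟨a1, a2⟩ := Finset.mem_powersetCard.1 hI
    obtain ⟨j, hj⟩ := Finset.card_pos.1 (a2 ▸ hq : 0 < I.card)
    filter_upwards [k3 I hI, h3 I hI (Finset.not_disjoint_iff.2 ⟨j, hj, a1 hj⟩)] with y b1 b2 hs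
    rw [b1 hs, add_zero, b2 hs]

end Pool.Agent.Lib.EXK
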