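import Pool.Agent.Lib.EXK.Blue

/-! Project exk: block ING (rules for integral dependence on the cone). -/

open Set

set_option linter.unusedVariables false

noncomputable section

namespace Pool.Agent.Lib.EXK

namespace ING

theorem cn_add {P : Type} (e : ℕ) (u u' : P → ℂ) : cn e (u + u') = cn e u + cn e u' := by
  funext x
  simp only [cn, Pi.add_apply]
  ring

theorem cn_pow {P : Type} (e p : ℕ) (u : P → ℂ) : cn (p * e) (u ^ p) = cn e u ^ p := by
  funext x
  simp only [cn, Pi.pow_apply]
  rw [mul_pow, ← pow_mul, mul_comm e p]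

theorem int_trans {B : Type} [CommRing B] [Algebra ℂ B] (s t : Set B) (x : B)
    (hx : IsIntegral (Algebra.adjoin ℂ t) x)
    (ht : ∀ y ∈ t, IsIntegral (Algebra.adjoin ℂ s) y) : IsIntegral (Algebra.adjoin ℂ s) x := by
  let A := Algebra.adjoin ℂ s
  let C : Subalgebra A B := integralClosure A B
  have hle : Algebra.adjoin ℂ t ≤ C.restrictScalars ℂ := by
    apply Algebra.adjoin_le
    intro y hy
    exact ht y hy
  have hC : IsIntegral C x := by
    obtain ⟨p, hp, hp0⟩ := hx
    let φ : Algebra.adjoin ℂ t →+* C :=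
      { toFun := fun y => ⟨y.1, hle y.2⟩
        map_one' := rfl
        map_mul' := fun _ _ => rfl
        map_zero' := rfl
        map_add' := fun _ _ => rfl }
    refine ⟨p.map φ, hp.map φ, ?_⟩
    rw [Polynomial.eval₂_map]
    exact hp0
  have : Algebra.IsIntegral A C := integralClosure.AlgebraIsIntegral
  exact isIntegral_trans (R := A) (A := C) x hC

end ING

theorem kING : Sk_ING := by
  intro P κ dg U
  refine ⟨fun l => ?_, fun e u u' h h' => ?_, fun e p u hp h => ?_, fun κ' dg' U' e u h h' => ?_⟩
  · unfold Ing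
    have hm : cn (dg l) (U l) ∈ Algebra.adjoin ℂ (range fun l => cn (dg l) (U l)) :=
      Algebra.subset_adjoin ⟨l, rfl⟩
    exact isIntegral_algebraMap (x := (⟨_, hm⟩ : Algebra.adjoin ℂ (range fun l => cn (dg l) (U l))))
  · unfold Ing at *
    rw [ING.cn_add]
    exact h.add h'
  · unfold Ing at *
    rw [ING.cn_pow] at h
    exact IsIntegral.of_pow hp h
  · unfold Ing at *
    refine ING.int_trans _ _ _ h ?_
    rintro y ⟨l, rfl⟩
    exact h' l

end Pool.Agent.Lib.EXK
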