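import Pool.Agent.Lib.EXK.Blue

/-! Project exk: one step in the tower. -/

open scoped Classical Topology ContDiff ComplexOrder Matrix Manifold
open Set MeasureTheory Complex Metric Filter

noncomputable section

namespace Pool.Agent.Lib.EXK

open Pool.Agent.Lib.SV (E)
open Pool.Agent.Lib.HS32 Pool.Agent.Lib.EX

namespace ITER

/-- A small exponent. -/
theorem small {ι : Type} [Fintype ι] (δ e : ι → ℝ) :
    ∃ ε : ℝ, 0 < ε ∧ ε ≤ 1 ∧ ∀ l, ε * e l < ⌊δ l⌋ + 1 - δ l := by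
  have h : ∀ l, ∀ᶠ ε in 𝓝[>] (0 : ℝ), ε * e l < ⌊δ l⌋ + 1 - δ l := fun l => by
    have c : ContinuousAt (fun ε : ℝ => ε * e l) 0 := by fun_prop
    exact (c.eventually_lt continuousAt_const
      (by simpa using Int.lt_floor_add_one (δ l))).filter_mono nhdsWithin_le_nhds
  obtain ⟨ε, h1, h2⟩ := ((eventually_all.2 h).and (Ioo_mem_nhdsGT one_pos)).exists
  exact ⟨ε, h2.1, h2.2.le, h1⟩

variable {n : ℕ} {M : Mf n} {ι : Type} [Fintype ι] [DecidableEq ι] {D : Ad M ι} (R : Rk D)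

/-- The exponents of the weight. -/
theorem expo {μ ε : ℝ} {i : ι} {q : ℕ} {e : ι → ℕ} (hN : R.N μ ⊆ R.T μ) (hi : i ∈ R.N μ)
    (h0 : 0 < ε) (h1 : ε ≤ 1) (h : ∀ l, ε * (q * e l : ℝ) < R.fl μ l + 1 - R.dl μ l) (l : ι)
    {y : ℝ} (hy : y = -μ * R.a l + R.k l / R.m - (1 - ε) * R.bt μ i q e l - ε * q * e l -
      (-R.h μ - ind (R.N μ) - fun l => (R.bt μ i q e l : ℤ)) l) : -1 < y ∧ y ≤ 0 := by
  have a : y = -R.dl μ l + R.h μ l + ind (R.N μ) l + ε * R.bt μ i q e l - ε * (q * e l) := by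
    rw [hy, Rk.dl]
    simp only [Pi.sub_apply, Pi.neg_apply]
    push_cast
    ring
  have p : 0 ≤ ε * (q * e l : ℝ) := by positivity
  have f : (R.fl μ l : ℝ) ≤ R.dl μ l := Int.floor_le _
  have hl := h l
  rw [a, Rk.h, Pi.sub_apply, ind, ind, Rk.bt]
  by_cases hT : l ∈ R.T μ
  · have t := (Finset.mem_filter.1 hT).2.2
    by_cases hn : l ∈ R.N μ
    · by_cases e : l = i
      · simp only [hT, hn, if_pos e, if_true]
        push_cast
        constructor <;> linarith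
      · simp only [hT, hn, if_neg e, if_true, Finset.mem_sdiff, not_true, and_false, if_false]
        push_cast
        constructor <;> linarith
    · have e : l ≠ i := fun k => hn (k ▸ hi)
      simp only [hT, hn, if_neg e, if_true, Finset.mem_sdiff, not_false_iff, and_true, if_false]
      push_cast
      constructor <;> linarith
  · have hn : l ∉ R.N μ := fun k => hT (hN k)
    have e : l ≠ i := fun k => hn (k ▸ hi)
    simp only [hT, hn, if_neg e, Finset.mem_sdiff, false_and, if_false]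
    push_cast
    constructor <;> linarith

end ITER

open ITER in
theorem kITER (hRVW : Sk_RVW) (hEXC0 : Sk_EXC0) (hRST : Sk_RST) (hNUM : Sk_NUM) (hMOD : St_MOD)
    (hINC : St_INC) : Sk_ITER := by
  intro n M _ ι _ _ D R μ' μ i q B C γ x hJ hi hq hx hC hD hγ
  obtain ⟨-, -, hN, hn⟩ := hNUM n M ι D R μ' μ hJ
  obtain ⟨ε, e0, e1, he⟩ := small (R.dl μ) fun l => q * B.e l
  obtain ⟨ρ, r0, r1⟩ := exists_between (B.lt x hx)
  have mo : ∀ {c : ι → Option (Fin n)} {G K : ι → ℤ} {F : E n → ℂ} {z : E n}, G ≤ K →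
      PolH c G F z → PolH c K F z := fun {c G K F z} h =>
    ((hINC n ι c G 0 ∅ 0 F z).2.2.1 K h).2
  obtain ⟨F, hF⟩ := hRVW n M ι D R B (-μ) ε (ε * q) ρ (R.bt μ i q B.e)
    (-R.h μ - ind (R.N μ) - fun l => (R.bt μ i q B.e l : ℤ)) (-R.h μ) γ C r1 e0 e1 (by positivity)
    (fun l => expo R hN hi e0 e1 he l rfl)
    (fun l hl => ((hn l).2.1 (by
      by_contra k
      have e : l ≠ i := fun e => k (hN (e ▸ hi))
      simp [Rk.bt, e, k] at hl)).1)
    (fun l h1 h2 => by simp [(hn l).2.2.2.2.2.1 h1 h2]) hγ hC (by rwa [sub_add_cancel])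
  have hP : D.On (Wr B ρ) fun d z =>
      PolH (D.c d) ((-fun l => (R.bt μ i q B.e l : ℤ)) + -R.h μ) (D.rd F d) z := fun d z hz hw => by
    have m := (hMOD n ι (D.c d) ((-fun l => (R.bt μ i q B.e l : ℤ)) + -R.h μ) 0 ∅ 0).2.1
    have := m.add _ _ z (mo (fun l => ?_) (hF d z hz hw))
      (((hINC n ι (D.c d) _ 0 ∅ 0 _ z).2.2.2.1 _ _).2 (hγ d z hz hw.1) (hC d z hz hw.1))
    · rwa [sub_add_cancel] at this
    · have : 0 ≤ ind (R.N μ) l := by
        rw [ind]
        split_ifs <;> simp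
      simp only [Pi.sub_apply, Pi.neg_apply, Pi.add_apply]
      omega
  have hE := hEXC0 n M ι D R.a R.ex B ρ _ 0 F r1.le (fun l hl => by
    have := ((hn l).2.2.2.2.1 hl).1
    simp only [Pi.neg_apply, Pi.add_apply]
    omega) hP
  obtain ⟨B', b1, b2, b3⟩ := hRST n M ι D R.a R.ex B ρ x r1.le ⟨hx, r0⟩
  refine ⟨B', F, b1, fun y hy => (b2 hy).1, b3, fun d z hz hw =>
    ⟨mo (fun l => ?_) (hE d z hz (b2 hw)), hF d z hz (b2 hw)⟩⟩
  simp only [Pi.neg_apply, Pi.add_apply, Pi.inf_apply]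
  by_cases e : l = i
  · have := ((hn l).2.2.1 (e ▸ hi)).1
    omega
  by_cases t : l ∈ R.T μ \ R.N μ
  · have := (hn l).2.2.2.1 t
    omega
  · have : R.bt μ i q B.e l = 0 := by rw [Rk.bt, if_neg e, if_neg t]
    omega

end Pool.Agent.Lib.EXK
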