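import Pool.Agent.Lib.EXK.Blue
import Pool.Agent.Lib.EXS.L14
import Pool.Agent.Lib.EXS.B_GLU

/-! Project exk: extension to the new components. -/

open scoped Classical Topology ContDiff ComplexOrder Matrix Manifold
open Set MeasureTheory Complex Metric Filter

set_option linter.unusedVariables false
set_option linter.unusedSectionVars false

noncomputable section

namespace Pool.Agent.Lib.EXK

open Pool.Agent.Lib.SV (E)
open Pool.Agent.Lib.HS32 Pool.Agent.Lib.EX Pool.Agent.Lib.EXS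

namespace JA

variable {n : ℕ} {ι : Type} [Fintype ι] [DecidableEq ι] {c : ι → Option (Fin n)} {K K' G : ι → ℤ}
  {F F' F'' s : E n → ℂ} {z : E n}

theorem hb (h : ∀ z ∈ B2 n, DifferentiableAt ℂ s z) (hz : z ∈ B2 n) : HolN s z :=
  (isOpen_ball.eventually_mem hz).mono h

theorem base (h : HolN s z) : PolH c K (fun y => xm c (-K) y * s y) z :=
  ⟨s, h, .of_forall fun _ _ => rfl⟩

theorem lin (a b : ℂ) (h : PolH c K F z) (h' : PolH c K F' z)
    (e : ∀ᶠ y in 𝓝 z, Off c y → F'' y = a * F y + b * F' y) : PolH c K F'' z := by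
  obtain ⟨s, s1, s2⟩ := h
  obtain ⟨t, t1, t2⟩ := h'
  refine ⟨fun y => a * s y + b * t y, ?_, ?_⟩
  · filter_upwards [s1, t1] with y h1 h2
    exact (h1.const_mul a).add (h2.const_mul b)
  · filter_upwards [s2, t2, e] with y h1 h2 h3 ho
    rw [h3 ho, h1 ho, h2 ho]
    ring

theorem mul (h : PolH c K F z) (h' : PolH c K' F' z) (hG : G = K + K')
    (e : ∀ᶠ y in 𝓝 z, Off c y → F'' y = F y * F' y) : PolH c G F'' z := by
  obtain ⟨s, s1, s2⟩ := h
  obtain ⟨t, t1, t2⟩ := h'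
  refine ⟨fun y => s y * t y, ?_, ?_⟩
  · filter_upwards [s1, t1] with y h1 h2
    exact h1.mul h2
  · filter_upwards [s2, t2, e] with y h1 h2 h3 ho
    rw [h3 ho, h1 ho, h2 ho, hG, neg_add, MON.xm_add _ _ ho]
    ring

theorem xm_pow (a : ι → ℕ) (j : ℕ) (y : E n) :
    xm c (fun i => a i) y ^ j = xm c (fun i => j * a i) y := by
  rw [xm, xm, ← Finset.prod_pow]
  exact Finset.prod_congr rfl fun i _ => by rw [mul_comm, zpow_mul, zpow_natCast, zpow_natCast]

end JA

open JA in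
theorem kJA (hLNL : Sk_LNL) (hWL : Sk_WL) (hNP : Sk_NP) (hSPLIT : Sk_SPLIT) (hRST : Sk_RST)
    (hMIN : Sk_MIN) (hNUM : Sk_NUM) (hMON : St_MON) (hINC : St_INC) (hTRF : St_TRF) : Sk_JA := by
  intro n M _ H ι _ _ D R κ _ u μ' μ j U hK hF hJ hμ hU
  obtain ⟨g, g1, g2⟩ := hLNL n M H ι D R κ u μ' μ j U hK hF hJ hμ hU
  obtain ⟨n1, -, -, n4⟩ := hNUM n M ι D R μ' μ hJ
  obtain ⟨-, -, -, tr⟩ := hTRF n M ι D
  have mono : ∀ {d : D.A} {G K : ι → ℤ} {F : E n → ℂ} {z : E n}, G ≤ K → PolH (D.c d) G F z →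
      PolH (D.c d) K F z := fun {d G K F z} h =>
    ((hINC n ι (D.c d) G 0 ∅ 0 F z).2.2.1 K h).2
  have f1 : D.All fun d z => PolH (D.c d) (R.ja j) (fun y => xm (D.c d) (-R.ja j) y * U d y) z :=
    fun d z hz => base (hb (hU.hol d) hz)
  obtain ⟨ρ, ρ0, ρ1⟩ := exists_between R.c1
  have inW : ∀ b, ∀ z ∈ B2 n, (D.e b).symm z ∈ Wr (R.B b) ρ := fun b z hz =>
    ⟨(R.sub b z hz).1, (R.sub b z hz).2.trans_lt ρ0⟩
  choose F hFb using fun b => hWL n M ι D R b μ' ρ j (R.ja j)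
    (fun d y => xm (D.c d) (-R.ja j) y * U d y) ρ1 (fun i hi => ⟨hJ.eff i hi, le_rfl⟩)
    (fun i ha _ => by simp [Rk.ja, ha]) f1 fun a b x ha hb =>
      mono (fun i => sub_le_sub_left (le_max_left _ _) _) (hU.dif a b x ha hb)
  have F1 : ∀ b, D.On (Wr (R.B b) ρ) fun d z => PolH (D.c d) (R.ja j - R.nu μ')
      (D.rd (F b) d - fun y => xm (D.c d) (-R.ja j) y * U d y) z := fun b d z hz hw => by
    refine mono (fun i => ?_) (hMIN n ι _ _ _ _ z (D.inj d) (hFb b d z hz hw).2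
      (lin 1 (-1) (hFb b d z hz hw).1 (f1 d z hz) (.of_forall fun y _ => by
        simp only [Pi.sub_apply]; ring)))
    simp only [Pi.inf_apply, Pi.sub_apply, Rk.nu]
    omega
  have s1 : ∀ b, D.On (R.B b).W fun d z => ∀ᶠ y in 𝓝 z,
      D.rd (R.B b).σ d y ^ j = xm (D.c d) (R.ja j) y * (R.B b).v d y ^ j := fun b d z hz hw =>
    (GLU.ev_on (R.B b).opn hz hw).mono fun y hy => by
      rw [((R.B b).vhol d y hy.1 hy.2).2.2, mul_pow, xm_pow, mul_comm]
      rfl
  have s2 : ∀ b, D.On (R.B b).W fun d z =>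
      PolH (D.c d) (-R.ja j) (fun y => D.rd (R.B b).σ d y ^ j) z := fun b d z hz hw =>
    ⟨fun y => (R.B b).v d y ^ j, ((R.B b).vhol d z hz hw).1.mono fun y hy => hy.pow j,
      (s1 b d z hz hw).mono fun y hy _ => by rw [neg_neg]; exact hy⟩
  obtain ⟨C, hC⟩ : ∃ C : D.A → D.A → E n → ℂ,
      C = fun b d y => D.rd (R.B b).σ d y ^ j * (D.rd (F b) d y - g d y) := ⟨_, rfl⟩
  have C1 : ∀ b, D.On (Wr (R.B b) ρ) fun d z => PolH (D.c d) (-R.h μ) (C b d) z :=
    fun b d z hz hw => mul (s2 b d z hz hw.1) (lin (F'' := fun y => D.rd (F b) d y - g d y) 1 (-1)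
      (mono (fun i => sub_le_sub_left (by rw [n1]; exact le_max_left _ _) _) (F1 b d z hz hw))
      (g1 d z hz) (.of_forall fun y _ => by simp only [Pi.sub_apply]; ring))
      (funext fun i => by simp only [Pi.add_apply, Pi.neg_apply]; ring)
      (.of_forall fun y _ => by rw [hC])
  have C2 : ∀ b, DifOn D (Wr (R.B b) ρ) (-R.h μ - ind (R.N μ)) (C b) := fun b a d x ha hd hw => by
    refine mul (GLU.on_at (s2 b) hd hw.1) (lin (F'' := fun y => -(D.tr a d (g a) - g d) y) (-1) 0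
      (g2 a d x ha hd) (g2 a d x ha hd) (.of_forall fun y _ => by ring)) (by ring) ?_
    filter_upwards [(GLU.ev_on (D.e a).open_source (GLU.mem_B2 hd)
      (by rwa [(D.e d).left_inv hd]))] with y hy _
    simp only [hC, Pi.sub_apply, Ad.tr, Ad.rd, (D.e a).left_inv hy.2]
    ring
  choose c0 hc0 using fun b => L14.num hMON (c := D.c b) (K := -R.h μ) (F := C b b)
    fun z hz => C1 b b z hz (inW b z hz)
  simp only [neg_neg] at hc0
  choose c' hc' using fun b => hSPLIT n ι (D.c b) (R.h μ) (R.N μ) (c0 b) (D.inj b)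
    (fun i hi => ((n4 i).2.2.1 hi).1) (fun z hz => (hc0 b z hz).1) fun i hi z hz hx => by
      obtain ⟨B', b1, b2, -⟩ := hRST n M ι D R.a R.ex (R.B b) ρ _ ρ1.le (inW b z hz)
      exact hNP n M ι D R μ' μ B' (C b) hJ (fun d y hy hw => C1 b d y hy (b2 hw))
        (fun a d x ha hd hw => C2 b a d x ha hd (b2 hw)) b z hz b1 i hi hx (c0 b)
        (hb (fun y hy => (hc0 b y hy).1) hz)
        ((isOpen_ball.eventually_mem hz).mono fun y hy => (hc0 b y hy).2)
  choose Fn hFn using fun b => L14.num hMON (c := D.c b) (K := R.ja j) (F := D.rd (F b) b)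
    fun z hz => (hFb b b z hz (inW b z hz)).1
  have hv : ∀ b, ∀ z ∈ B2 n, DifferentiableAt ℂ (fun y => ((R.B b).v b y ^ j)⁻¹) z := fun b z hz =>
    (((R.B b).vhol b z hz (inW b z hz).1).1.self_of_nhds.pow j).inv
      (pow_ne_zero _ ((R.B b).vhol b z hz (inW b z hz).1).2.1)
  obtain ⟨U', hU'⟩ : ∃ U' : D.A → E n → ℂ, U' = fun b y =>
      Fn b y - xm (D.c b) (R.nu μ') y * (((R.B b).v b y ^ j)⁻¹ * c' b y) := ⟨_, rfl⟩
  have U1 : D.All fun d z => DifferentiableAt ℂ (U' d) z := fun d z hz => by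
    rw [hU']
    exact (hFn d z hz).1.sub ((MON.diff_xm fun i => .inr (le_max_right _ _)).mul
      ((hv d z hz).mul (hc' d z hz).1))
  have U2 : D.All fun d z => PolH (D.c d) (R.ja j - R.h μ - ind (R.N μ))
      ((fun y => xm (D.c d) (-R.ja j) y * U' d y) - g d) z := fun d z hz => by
    refine mul (base (K := R.ja j - R.h μ) (hb (hv d) hz)) (hc' d z hz).2 (by ring) ?_
    filter_upwards [isOpen_ball.eventually_mem hz, s1 d d z hz (inW d z hz).1] with y hy h1 ho
    have h2 := (hc0 d y hy).2 ho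
    have h3 := (hFn d y hy).2 ho
    have h4 : xm (D.c d) (R.nu μ') y = xm (D.c d) (R.h μ) y * xm (D.c d) (-R.h μ ⊔ 0) y := by
      rw [← MON.xm_add _ _ ho, n1]
      congr 1
      funext i
      simp only [Pi.sup_apply, Pi.add_apply, Pi.neg_apply, Pi.zero_apply]
      omega
    have h5 := pow_ne_zero j ((R.B d).vhol d y hy (inW d y hy).1).2.1
    have h6 := MON.xm_ne (R.ja j) ho
    simp only [hC] at h2
    rw [h1, h3, MON.xm_neg] at h2
    rw [Pi.sub_apply, hU', neg_sub, sub_eq_add_neg (R.h μ), MON.xm_add _ _ ho, MON.xm_neg]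
    simp only [h4]
    field_simp
    field_simp at h2
    linear_combination h2
  refine ⟨U', ⟨U1, fun a d x ha hd => ?_⟩, fun d z hz => ?_⟩
  · obtain ⟨t1, -, -, -, -, -, -, -, t9⟩ := tr a d x ha hd
    have p1 := (t9 _ ∅ 0 _).2.1 (U2 a _ t1)
    have p2 := lin (F'' := D.tr a d (fun y => xm (D.c a) (-R.ja j) y * U' a y) - g d) 1 1 p1
      (g2 a d x ha hd) (.of_forall fun y _ => by simp only [Pi.sub_apply, Ad.tr]; ring)
    refine mono (fun i => ?_) (hMIN n ι _ _ _ _ _ (D.inj d)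
      (lin 1 (-1) p2 (U2 d _ (GLU.mem_B2 hd)) (.of_forall fun y _ => by
        simp only [Pi.sub_apply]; ring))
      (lin 1 (-1) ((t9 _ ∅ 0 _).2.1 (base (K := R.ja j) (hb (U1 a) t1)))
        (base (K := R.ja j) (hb (U1 d) (GLU.mem_B2 hd))) (.of_forall fun y _ => by
          simp only [Pi.sub_apply]; ring)))
    have := (n4 i).2.2.1
    simp only [Pi.inf_apply, Pi.sub_apply, Pi.add_apply, n1, Pi.sup_apply, Pi.zero_apply, ind]
    split_ifs with hi
    · rw [(this hi).1]; omega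
    · omega
  · have p1 : PolH (D.c d) (-R.nu μ') (fun y => Fn d y - U d y) z := by
      refine mul (base (K := -R.ja j) (s := fun _ => 1) (.of_forall fun _ => by fun_prop))
        (F1 d d z hz (inW d z hz)) (by ring) ?_
      filter_upwards [isOpen_ball.eventually_mem hz] with y hy ho
      have h6 := MON.xm_ne (R.ja j) ho
      rw [Pi.sub_apply, (hFn d y hy).2 ho, neg_neg, MON.xm_neg]
      field_simp
    refine lin 1 (-1) p1 (base (K := -R.nu μ') (hb (fun y hy => (hv d y hy).mul (hc' d y hy).1) hz))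
      (.of_forall fun y _ => ?_)
    simp only [hU', Pi.sub_apply, Pi.mul_apply, neg_neg]
    ring

end Pool.Agent.Lib.EXK
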