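import Pool.Agent.Lib.EXK.Blue
import Pool.Agent.Lib.EXS.B_LOOP

/-! Project exk, row JB. -/

open scoped Classical Topology ContDiff
open Set Complex Metric Filter

set_option linter.unusedSectionVars false

noncomputable section

namespace Pool.Agent.Lib.EXK

open Pool.Agent.Lib.SV (E)
open Pool.Agent.Lib.HS32 Pool.Agent.Lib.EX Pool.Agent.Lib.EXS Pool.Agent.Lib.EXS.L14

namespace JB

variable {n : ℕ} {ι : Type} [Fintype ι] [DecidableEq ι] {c : ι → Option (Fin n)} {K L : ι → ℤ}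
  {f : E n → ℂ} {z : E n}

theorem shift (hM : St_MON) (h : PolH c (K + L) (fun y => xm c (-K) y * f y) z) : PolH c L f z := by
  obtain ⟨s, s1, s2⟩ := h
  refine ⟨s, s1, s2.mono fun y a o => ?_⟩
  obtain ⟨k1, k2, -⟩ := (hM n ι c).2.2.2.2.2.2.2.2.1 (-K) (-L) y o
  have b := a o
  rw [neg_add, k1, mul_assoc] at b
  exact mul_left_cancel₀ k2 b

theorem hol (hz : z ∈ B2 n) (h : ∀ y ∈ B2 n, DifferentiableAt ℂ f y) :
    PolH c K (fun y => xm c (-K) y * f y) z :=
  ⟨f, (b2ev hz).mono h, Eventually.of_forall fun _ _ => rfl⟩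

variable {M : Mf n} {D : Ad M ι} (R : Rk D)

theorem rho : (R.c0 + 1) / 2 < 1 := by have := R.c1; linarith

theorem inW (b : D.A) (hz : z ∈ B2 n) : (D.e b).symm z ∈ Wr (R.B b) ((R.c0 + 1) / 2) :=
  ⟨(R.sub b z hz).1, (R.sub b z hz).2.trans_lt (by have := R.c1; linarith)⟩

end JB

open JB in
theorem kJB (hM : St_MON) (hD : St_MOD) (hI : St_INC) (hT : St_TRF) (hNLV : Sk_NLV) (hWL : Sk_WL)
    (hMIN : Sk_MIN) (hNUM : Sk_NUM) : Sk_JB := by
  intro n M _ H ι _ _ D R τ _ U μ' μ j hH hJ hj hU hG t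
  obtain ⟨g, g1, g2⟩ := hNLV n M H ι D R τ U μ' μ j hH hJ hj hU hG t
  obtain ⟨n1, -, -, n4⟩ := hNUM n M ι D R μ' μ hJ
  choose F hF using fun b => hWL n M ι D R b μ _ j (R.ja j ⊔ (R.ja j - R.h μ)) g (rho R)
    (fun i hi => ⟨((n4 i).2.2.2.2.1 hi).2.2, by
      have := ((n4 i).2.2.2.2.1 hi).1
      simp only [Pi.sup_apply, Pi.sub_apply]; omega⟩)
    (fun i a k => by simp [(n4 i).2.2.2.2.2.1 a k, Rk.ja, a])
    (fun d z hz => pcg hD (padd hD (pmo hI le_sup_right (g1 d z hz))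
      (pmo hI le_sup_left (hol hz ((hU t).hol d)))) (Eventually.of_forall fun y _ => by simp)) g2
  choose V hV using fun b => num hM fun z hz => (hF b b z hz (JB.inW R b hz)).1
  refine ⟨V, ⟨fun d z hz => (hV d z hz).1, fun a b x ha hb => ?_⟩, fun d z hz => ?_⟩
  · have w : ∀ a, x ∈ (D.e a).source →
        (D.e b).symm (D.e b x) ∈ Wr (R.B a) ((R.c0 + 1) / 2) := fun a ha => by
      rw [(D.e b).left_inv hb]
      simpa only [(D.e a).left_inv ha] using JB.inW R a (inB a ha)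
    have h1 := hF a b _ (inB b hb) (w a ha)
    have h2 := hF b b _ (inB b hb) (w b hb)
    refine pcg hD (pmo hI (fun i => ?_) (hMIN n ι _ _ _ _ _ (D.inj b) (psub hD h1.1 h2.1)
      (pcg hD (psub hD h1.2 h2.2) (Eventually.of_forall fun y _ => by simp))))
      ((dif_ev hT (Φ := F) (fun d z hz o => ((hV d z hz).2 o).symm) ha hb).mono fun y e o => e o)
    simp only [Pi.inf_apply, Pi.sub_apply, Rk.nu]
    omega
  · have h1 := hF d d z hz (JB.inW R d hz)
    have h2 : PolH (D.c d) (R.ja j + -R.h μ)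
        (fun y => xm (D.c d) (-R.ja j) y * (V d - U t d) y) z :=
      pcg hD (padd hD (pmo hI (fun i => by
        simp only [Pi.add_apply, Pi.neg_apply, Pi.sub_apply, Rk.h, ind]; split_ifs <;> omega) h1.2)
        (pmo hI (sub_eq_add_neg _ _).le (g1 d z hz))) ((b2ev hz).mono fun y hy o => by
          simp only [Pi.add_apply, Pi.sub_apply, (hV d y hy).2 o]; ring)
    have h3 : PolH (D.c d) (R.ja j + 0) (fun y => xm (D.c d) (-R.ja j) y * (V d - U t d) y) z := by
      rw [add_zero]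
      exact hol hz fun y hy => (hV d y hy).1.sub ((hU t).hol d y hy)
    refine pmo hI (fun i => ?_) (hMIN n ι _ _ _ _ _ (D.inj d) (shift hM h2) (shift hM h3))
    simp only [n1, Pi.inf_apply, Pi.neg_apply, Pi.sup_apply, Pi.zero_apply]
    omega

end Pool.Agent.Lib.EXK
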