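import Pool.Agent.Lib.EXK.Blue
import Pool.Agent.Lib.EXS.B_LOOP
import Pool.Agent.Lib.EX.B_MON

/-! Project exk: the induction on the level. -/

open scoped Classical Topology ContDiff
open Set Complex Metric Filter

set_option linter.unusedVariables false

noncomputable section

namespace Pool.Agent.Lib.EXK

open Pool.Agent.Lib.SV (E)
open Pool.Agent.Lib.HS32 Pool.Agent.Lib.EX Pool.Agent.Lib.EXS.L14

theorem kKEEL (hGRID : Sk_GRID) (hSTP : Sk_STP) (hPH2 : Sk_PH2) (hLAST : Sk_LAST) (hGNI : Sk_GNI)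
    (hGLA : Sk_GLA) (hING : Sk_ING) (hMOD : St_MOD)
    (hINC : St_INC) : Sk_KEEL := by
  intro n M _ H ι _ _ D R κ _ u ν μ₀ hH h0 hν hδ hx hu hg
  obtain ⟨μ, m1, m2, m3, m4, q, m5⟩ := hGRID n M ι D R μ₀ h0 hx
  have sp0 : (0 : ι → ℤ) ≤ sp R.a := fun i => by
    simp only [sp, Pi.zero_apply]
    split_ifs <;> omega
  have hF : Fam R u := ⟨fun l => ((hGLA n M ι D _ ν (u l)).1 _ hν).1 (hu l), hg⟩
  set J : ℕ := ⌈μ q⌉₊ with hJ
  have hJ1 : μ q < (J + 1 : ℕ) := by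
    push_cast
    exact (Nat.le_ceil _).trans_lt (lt_add_one _)
  have n0 : R.nu (μ 0) ≤ ν := m3.trans fun i => max_le
    (Int.lt_add_one_iff.1 (Int.floor_lt.2 (by push_cast; exact hδ i))) ((sp0 i).trans (hν i))
  have i0 : Inv R u (J + 1) (R.nu (μ 0)) (R.nu (μ 0)) := by
    refine ⟨J + 1, κ, inferInstance, fun l => u l ^ (J + 1), le_rfl, fun l => ?_, fun l => ?_⟩
    · exact (hGLA n M ι D _ ν (u l)).2.2.2.1 0 _ _ J (fun i => by simp [Rk.ja])
        (fun i => by simpa using n0 i) (hu l) ((hGLA n M ι D 0 0 (u l)).2.2.1 (hu l).hol)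
    · obtain ⟨k1, -, k3, -⟩ := hING _ κ (fun _ => J + 1)
        fun t => ev D (R.nu (μ 0)) (u t ^ (J + 1))
      exact k3 1 (J + 1) _ J.succ_pos (by rw [mul_one]; exact k1 l)
  have i1 : ∀ p ≤ q, Inv R u (J + 1) (R.nu (μ p)) (R.nu (μ p)) := fun p => by
    induction p with
    | zero => exact fun _ => i0
    | succ p ih =>
      exact fun hp => hSTP n M H ι D R κ u _ _ _ hH hF (m2 p) ((m1 hp).trans hJ1.le)
        (ih (by omega))
  obtain ⟨j, τ, _, U, j1, j2, j3⟩ := i1 q le_rfl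
  have j0 : 0 < j := by omega
  have j4 : μ q < j := hJ1.trans_le (Nat.cast_le.2 j1)
  have n1 : ∀ i, R.nu (μ q) i ≠ 0 ↔ R.a i ≠ 0 := fun i => ⟨fun h h' => h (max_eq_right
    (Int.lt_add_one_iff.1 (Int.floor_lt.2 (by
      have h1 : (-R.m : ℝ) < R.k i := by exact_mod_cast (R.off i h').1
      have h2 : (0 : ℝ) < R.m := Nat.cast_pos.2 R.m0
      have h3 : -1 < (R.k i : ℝ) / R.m := by rw [lt_div_iff₀ h2]; linarith
      simp only [Rk.dl, h']
      push_cast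
      linarith)))), fun h => by
    have h1 : 1 ≤ R.fl (μ q) i := Int.le_floor.2 (by push_cast; exact (m5 i h).le)
    simp only [Rk.nu]
    omega⟩
  have g1 : Gn D (sp R.a) U := fun d z hz i hi =>
    hGNI n M ι D R κ τ u U j _ j0 hg (fun i => (n1 i).1) j3 d z hz i
      ((n1 i).2 fun h => hi (by simp [sp, h]))
  obtain ⟨q', e⟩ := m4 j ((m1 q.zero_le).trans j4.le)
  have q1 : q ≤ q' := by
    by_contra h
    exact (e ▸ m1 (not_le.1 h).le : (j : ℝ) ≤ μ q).not_gt j4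
  obtain ⟨U', k1, k2⟩ := hPH2 n M H ι D R τ μ j q q' U hH m1 m2 q1 e.le m5 j2 g1
  rw [e] at k1
  have k3 := hLAST n M H ι D R τ j U' hH j0 (fun i hi => (m5 i hi).trans_le (by
    simp only [Rk.dl]
    gcongr)) k1 k2
  refine ⟨j, j0, fun b z hz hz0 => ?_⟩
  obtain ⟨i, -, hi⟩ := Finset.prod_eq_zero_iff.1 hz0
  rw [zpow_natCast, pow_eq_zero_iff'] at hi
  have s1 : sp R.a i = 1 := by simp [sp, hi.2]
  obtain ⟨t, ht⟩ := k2 b z hz i (by omega) hi.1
  obtain ⟨F, k4⟩ := k3 t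
  have hol : ∀ d, ∀ y ∈ B2 n, HolN (U' t d) y := fun d y hy =>
    (b2ev hy).mono fun w hw => (k1 t).hol d w hw
  refine ⟨F, fun d y hy => pcg hMOD (padd hMOD (pmo hINC (sub_le_self _ sp0) (k4 d y hy))
    ⟨_, hol d y hy, Eventually.of_forall fun _ _ => rfl⟩)
    (Eventually.of_forall fun _ _ => (sub_add_cancel _ _).symm), ?_⟩
  obtain ⟨s, s2, s3⟩ := k4 b z hz
  refine ⟨fun y => U' t b y + xm (D.c b) (sp R.a) y * s y, ?_, ?_, s3.mono fun y hy ho => ?_⟩
  · filter_upwards [hol b z hz, s2] with y a1 a2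
    exact a1.add ((MON.diff_xm fun l => Or.inr (sp0 l)).mul a2)
  · have : xm (D.c b) (sp R.a) z = 0 :=
      Finset.prod_eq_zero (Finset.mem_univ i) (by rw [hi.1, s1, zpow_one])
    simpa [this] using ht
  · have h1 := hy ho
    rw [Pi.sub_apply, neg_sub, sub_eq_neg_add (sp R.a), MON.xm_add _ _ ho] at h1
    linear_combination h1

end Pool.Agent.Lib.EXK
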