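import Pool.Agent.Lib.EXK.Blue
import Pool.Agent.Lib.EX.B_KEY

/-! Project exk, block KEY: the harmonic parts vanish. -/

open scoped Classical Topology ContDiff ComplexOrder Matrix
open Set Complex Metric Filter

noncomputable section

namespace Pool.Agent.Lib.EXK

open Pool.Agent.Lib.SV (E nsq)
open Pool.Agent.Lib.HS32 Pool.Agent.Lib.EX

theorem kKEY (hKEY1 : Sk_KEY1) (hSS : St_SS) (hUT : Sk_UT) (hTRF : St_TRF) : Sk_KEY := by
  intro n M _ H ι _ _ D κ _ L p V F hH hN hp hzz hs1 hV hd hP hR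
  have h1 := hKEY1 n M H ι D κ L p V F hN hp hzz hV hd hP hR
  have hU := (hUT n M ι D κ L).1
  obtain ⟨tC, tS, -, tO⟩ := hTRF n M ι D
  have hT : ∀ i ∈ L.T, L.r i = 0 := fun i hi => L.rT i hi
  have hm : ∀ a, ∀ z ∈ B2 n, z ∈ (D.e a).target := fun a z hz => (D.tgt a).symm ▸ hz
  obtain ⟨h2, h3⟩ := EX.KEY.ss_sum hSS D p L.r0 hT Finset.univ
    (fun l I d z => (L.b d z : ℝ) * (star (V l I d z) ⬝ᵥ H (D.e d) z *ᵥ V l I d z -
      L.s * ∑ l', L.cc l l' d z * (star (V l I d z) ⬝ᵥ H (D.e d) z *ᵥ V l' I d z)))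
    fun l I hI a z hz => by
      have c1 := (hH.sm _ (D.mem a) z (hm a z hz)).continuousAt
      have c2 : ∀ l, ContinuousAt (V l I a) z := fun l => ((hV l I hI).hol a z hz).continuousAt
      obtain ⟨-, -, -, c3, -, c4, -⟩ := hU a z hz
      exact (cd_ofReal c3).continuousAt.mul ((EX.KEY.cont_sq c1 (c2 l) (c2 l)).sub
        (continuousAt_const.mul (tendsto_finsetSum _ fun l' _ =>
          (c4 l l').continuousAt.mul (EX.KEY.cont_sq c1 (c2 l) (c2 l')))))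
  rw [Finset.sum_eq_zero fun l _ => h1 l] at h3
  have h4 := fun I a z (hz : z ∈ B2 n) => EX.KEY.point (hH.pos _ (D.mem a) z (hm a z hz)) L.s0 hs1
    (hU a z hz).2.2.2.2.1 (fun l => L.ut l a z) (fun l => V l I a z) rfl
  have h5 := (((hSS n M ι D L.r L.T p L.r0 hT _ 0).2.2.2 h2).2 fun I _ a z hz _ => by
    simp only [Finset.sum_apply]
    exact (h4 I a z hz).1).2 h3
  have h6 : ∀ l, ∀ I ∈ L.T.powersetCard p, ∀ a, ∀ z ∈ B2 n, Sl (D.c a) I z → V l I a z = 0 := by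
    intro l I hI a z hz hs
    obtain ⟨s1, s2, -⟩ := tS a z hz
    obtain ⟨d, -, hd⟩ := Finset.exists_ne_zero_of_sum_ne_zero
      ((D.sum ((D.e a).symm z)).trans_ne one_ne_zero)
    have s3 := (D.supp d _ hd).1
    have s4 := ((tO a d _ s1 s3).2.2.1 I).1 (s2.symm ▸ hs)
    have s5 := (tO d a _ s3 s1).1
    have s6 := h5 I hI d _ s5 s4 (by rwa [Ad.rd, (D.e d).left_inv s3])
    simp only [Finset.sum_apply] at s6
    have s7 := (h4 I d _ s5).2 s6 l
    have s8 := (hV l I hI).cmp a d _ s1 s3 s4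
    rw [s7, Matrix.mulVec_zero, s2, eq_comm, smul_eq_zero] at s8
    exact s8.resolve_left ((tC _).ne a d _ s1 s3)
  intro l a z hz j
  obtain ⟨ρ, r1, r2⟩ := hR l a z hz j
  refine ⟨ρ, r1, fun I hI hj => ?_⟩
  filter_upwards [r2 I hI hj, isOpen_ball.mem_nhds hz] with y e1 e2 hy
  rw [e1 hy, h6 l I hI a y e2 hy]
  rfl

end Pool.Agent.Lib.EXK
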