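import Pool.Agent.Lib.EXK.Blue
import Pool.Agent.Lib.EX.B_KEY1

/-! Project exk, block KEY1: the polarised identity. -/

open scoped Classical Topology ContDiff ComplexOrder Matrix
open Set MeasureTheory Complex Metric Filter

noncomputable section

namespace Pool.Agent.Lib.EXK

open Pool.Agent.Lib.SV (E)
open Pool.Agent.Lib.HS32 Pool.Agent.Lib.EX
open Pool.Agent.Lib.EXA (Val SmN emb)

open Pool.Agent.Lib.EX.KEY1 in
theorem kKEY1 (hML : Sk_ML) (hPRD : St_PRD) (hMAIN : St_MAIN) (hRES : St_RES) (hINC : St_INC)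
    (hUT : Sk_UT) (hQ5 : Sk_Q5) (hMOD : St_MOD) (hMON : St_MON) : Sk_KEY1 := by
  intro n M _ H ι _ _ D κ _ L p V F hN hp hZ hV hdl hR hF l
  obtain ⟨u1, u2⟩ := hUT n M ι D κ L
  have hT : ∀ i ∈ L.T, L.r i = 0 := fun i hi => L.rT i hi
  let R : κ → M.X → ℂ := fun l => D.avg (L.f l) - F l
  let Φ : M.X → ℂ := fun x => D.avg (L.f l) x - R l x + L.s * ∑ l', D.avg (L.cc l l') x * R l' x
  have hΦ : ∀ d, ∀ y ∈ B2 n, D.rd Φ d y = D.rd (D.avg (L.f l)) d y - D.rd (R l) d y +
      L.s * ∑ l', L.cc l l' d y * D.rd (R l') d y := fun d y hy => by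
    simp only [← fun l' => rd_avg (g := L.cc l l') (fun a d x h h' => (u2 a d x h h').2.1 l l') d hy]
    rfl
  have hC : ∀ d, ∀ z ∈ B2 n, ∀ l', SmN (fun y => -L.s * L.cc l l' d y) z := fun d z hz l' =>
    smN (fun y hy => contDiffAt_const.mul ((u1 d y hy).2.2.2.2.2.1 l l')) hz
  have hS : D.All fun d z => Pol (D.c d) L.G
      (D.rd (R l) d + ∑ l', (fun y => -L.s * L.cc l l' d y) * D.rd (R l') d) z := fun d z hz =>
    have m := (hMOD n ι (D.c d) L.G L.r L.T p).1
    m.add _ _ _ (hR l d z hz) (m.sum _ _ _ _ fun l' _ => m.mul _ _ _ (hC d z hz l') (hR l' d z hz))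
  have key := hML n M ι D κ L p (V l) Φ (fun i => max (L.a i) (L.G i)) (fun I d z => (L.b d z : ℝ) *
    (star (V l I d z) ⬝ᵥ H (D.e d) z *ᵥ V l I d z -
      L.s * ∑ l', L.cc l l' d z * (star (V l I d z) ⬝ᵥ H (D.e d) z *ᵥ V l' I d z))) 0 (hV l)
    (fun i hi h0 => ?_) (fun d z hz => ?_) (fun d z hz => ?_) (fun d z hz => ?_)
  · have h0 : D.SS L.r L.T (p + 1) 0 = 0 := by
      simp [Ad.SS, SI]
    rwa [h0, add_zero] at key
  · exact max_le (hZ i hi h0) le_rfl
  · have m := (hMOD n ι (D.c d) (fun i => max (L.a i) (L.G i)) L.r L.T p).1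
    refine m.cong _ _ _ (m.add _ _ _
      (((hINC n ι (D.c d) _ L.r L.T p _ z).2.2.1 _ fun i => le_max_left _ _).1
        ((u1 d z hz).2.2.2.2.2.2.2.2.2.1 l))
      (m.mul _ _ _ (smN_const (-1) z)
        (((hINC n ι (D.c d) _ L.r L.T p _ z).2.2.1 _ fun i => le_max_right _ _).1 (hS d z hz)))) ?_
    filter_upwards [isOpen_ball.eventually_mem hz] with y hy _
    simp only [hΦ d y hy, Pi.add_apply, Pi.mul_apply, Finset.sum_apply, mul_assoc, ← Finset.mul_sum]
    ring
  · obtain ⟨o1, -, -, -, -, o6, -⟩ := hMON n ι (D.c d)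
    obtain ⟨m1, -, m3, -, -, -, m7⟩ := hMOD n ι (D.c d) L.G L.r L.T p
    have inc := fun G q F => hINC n ι (D.c d) G L.r L.T q F z
    have res := fun ρ ρ' F F' => hRES n ι (D.c d) L.G L.T p ρ ρ' F F' z (D.inj d)
    have prd := fun F Q => hPRD n ι (D.c d) L.G L.r L.T p (L.b d) F Q z
      (smN (fun y hy => (u1 d y hy).2.2.2.1) hz) hT
    have mai := fun ρ ρ' F F' => hMAIN n ι (D.c d) L.r L.T p ρ ρ' F F' z
    choose ρ hρ hρ' using fun l' => hF l' d z hz
    choose Q t hQ ht hQt using fun l' => hQ5 n M ι D κ L p (V l) (hV l) l l' d z hz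
    have hv : ∀ j, Res (D.c d) L.G L.T p (fun I y => V l I d y j) (fun y => L.vh p (V l) d y j) z :=
      fun j => (res _ 0 0 0).2.2.2.2.2.2.2.2.1 fun I hI => smN (fun y hy =>
        ((mHOL n _ y).2.2 ((isOpen_ball.eventually_mem hy).mono fun w hw =>
          differentiableAt_pi.1 ((hV l I hI).hol d w hw) j)).1) hz
    have t1 := (mai 0 0 0 0).2.2.2.2 _ Finset.univ _ _ fun j _ => (prd _ _).2.2 _ _
      ((res _ _ _ _).2.2.2.2.1 (hρ l j) ((res 0 0 0 0).2.2.2.2.2.2.2.2.2.2.2.2 _ Finset.univ _ _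
        fun l' _ => (res _ 0 _ 0).2.2.2.2.2.1 _ (hC d z hz l') (hρ l' j))) (hv j)
    have t2 := m7.sum _ Finset.univ _ z fun l' _ => (prd _ _).1 L.G (fun _ _ _ => le_rfl)
      (hR l' d z hz) ((inc _ _ _).2.2.2.2.2.2.2.2.2.2.2.2.1 hT (hQ l'))
    have w3 : ∀ j, Wt (D.c d) L.G L.T p ((fun _ => (L.s : ℂ)) *
        (∑ l', D.rd (R l') d * t l' j + (D.rd (R l) d +
          ∑ l', (fun y => -L.s * L.cc l l' d y) * D.rd (R l') d) * L.eta d j)) z := fun j => by
      have m := (hMOD n ι (D.c d) (L.G + -ind L.N) L.r L.T p).1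
      refine m3.mul _ _ _ (smN_const _ z) (((inc _ 1 _).2.2.2.2.1 p hp).1
        ((inc _ 1 _).2.2.2.2.2.2.2.2.2.1.2 (((inc _ p _).2.2.1 _ fun i => ?_).1
          (m.add _ _ _ (m.sum _ _ _ _ fun l' _ =>
            ((inc _ p _).2.2.2.1 _ _).1 (hR l' d z hz) (ht l' j))
            (((inc _ p _).2.2.2.1 _ _).1 (hS d z hz) ((u1 d z hz).2.2.2.2.2.2.2.2.2.2 j).1)))))
      simp only [Pi.add_apply, Pi.neg_apply, ind, hN]
      split_ifs <;> omega
    have t3 := m7.sum _ Finset.univ _ z fun j _ => (prd _ _).2.1 (w3 j) ((res _ 0 _ 0).1 (hv j)).1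
    refine (mai _ _ _ _).2.2.2.1 ((mai _ _ _ _).2.1 t1 ((mai 0 0 _ 0).1 (m7.add _ _ _ t2 t3))) ?_
      fun I hI => ?_
    · filter_upwards [isOpen_ball.eventually_mem hz, eventually_all.2 hQt,
        eventually_all.2 fun l' => (inc _ p _).2.2.2.2.2.2.2.2.2.2.2.2.2.2.2.1 (hR l' d z hz)]
        with y hy e1 e2 ho
      have e3 : ∀ l', D.rd (D.avg (L.f l')) d =ᶠ[𝓝 y]
          fun w => xm (D.c d) (-fun i => (L.a i : ℤ)) w * L.ut l' d w := fun l' => by
        filter_upwards [isOpen_ball.eventually_mem hy, o1 y ho] with w h1 h2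
        exact (u1 d w h1).2.2.2.2.2.2.2.1 l' h2
      have d1 := (o6 (-fun i => (L.a i : ℤ)) y ho).self_of_nhds
      have d2 := fun l' => cd_diff ((u1 d y hy).1 l')
      have d3 := d1.restrictScalars ℝ
      have e4 := fun j => expand (A := fun l' => D.rd (D.avg (L.f l')) d)
        (R := fun l' => D.rd (R l') d) (C := fun l' => L.cc l l' d) l j L.s (L.eta d j y)
        (fun l' => (d3.fun_mul (d2 l')).congr_of_eventuallyEq (e3 l'))
        (fun l' => cd_diff (e2 l' ho).self_of_nhds)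
        (fun l' => cd_diff ((u1 d y hy).2.2.2.2.2.1 l l')) (by
          simp only [dzb_congr (e3 _), dzb_mul d3 (d2 _), ((mHOL n _ y).1 d3).1 d1,
            (e3 l).self_of_nhds, Lw.cc, Lw.eta, Finset.sum_div, Finset.mul_sum]
          exact Finset.sum_congr rfl fun l' _ => by ring)
      have e5 : ∀ l', (fun w => D.rd (D.avg (L.f l')) d w - D.rd (R l') d w) = D.rd (F l') d :=
        fun l' => funext fun w => sub_sub_cancel _ _
      have e6 : ∑ j, (L.s * ∑ l', D.rd (R l') d y * dzb j (L.cc l l' d) y) *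
          star (L.vh p (V l) d y j) = ∑ l', D.rd (R l') d y * star (Q l' y) +
            ∑ j, (L.s * ∑ l', D.rd (R l') d y * t l' j y) * star (L.vh p (V l) d y j) := by
        simp only [Finset.mul_sum, Finset.sum_mul]
        rw [Finset.sum_comm, Finset.sum_comm (f := fun j l' => L.s * (D.rd (R l') d y * t l' j y) *
          star (L.vh p (V l) d y j)), ← Finset.sum_add_distrib]
        refine Finset.sum_congr rfl fun l' _ => ?_
        have h := congrArg (D.rd (R l') d y * ·) (e1 l' ho)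
        simp only [mul_add, Finset.mul_sum] at h
        refine (Finset.sum_congr rfl fun j _ => ?_).trans (h.trans (congrArg _
          (Finset.sum_congr rfl fun j _ => ?_))) <;> ring
      simp only [Lw.nab, hΦ d y hy, dzb_congr ((isOpen_ball.eventually_mem hy).mono (hΦ d)), e4, e5]
      simp only [Pi.add_apply, Pi.mul_apply, Finset.sum_apply, ← Finset.mul_sum, add_mul,
        mul_add, Finset.sum_add_distrib, e6, Lw.dd, add_assoc]
      rfl
    · filter_upwards [isOpen_ball.eventually_mem hz, eventually_all.2 fun l' => eventually_all.2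
        fun j => eventually_imp_distrib_left.2 (hρ' l' j I hI)] with y hy e1 hs
      simp only [Pi.add_apply, Pi.mul_apply, Finset.sum_apply, Pi.zero_apply, add_zero,
        ← Finset.mul_sum, dotProduct]
      congr 1
      simp only [Finset.mul_sum]
      rw [Finset.sum_comm, ← Finset.sum_sub_distrib]
      refine Finset.sum_congr rfl fun j _ => ?_
      by_cases hj : Nm (D.c d) I j
      · simp [(hV l I hI).nm d y hy j hj]
      · simp only [e1 _ j hj hs, add_mul, Finset.sum_mul, sub_eq_add_neg, ← Finset.sum_neg_distrib,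
          Pi.star_apply]
        exact congrArg₂ _ (mul_comm _ _) (Finset.sum_congr rfl fun l' _ => by ring)
  · refine (hMAIN n ι (D.c d) L.r L.T (p + 1) 0 0 _ 0 z).1 ?_
    have m := (hMOD n ι (D.c d) L.G L.r L.T (p + 1)).2.2.2.2.2.2
    refine m.cong _ _ _ (m.zero z) (Eventually.of_forall fun y _ => ?_)
    simp [hdl l, hat]

end Pool.Agent.Lib.EXK
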