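import Pool.Agent.Lib.EXK.Blue
import Pool.Agent.Lib.EX.B_ADJ98
import Pool.Agent.Lib.EX.B_KEY

/-! Project exk: the linear key property. -/

open scoped Classical Topology ContDiff ComplexOrder Matrix
open Set MeasureTheory Complex Metric Filter

set_option linter.unusedVariables false

noncomputable section

namespace Pool.Agent.Lib.EXK

open Pool.Agent.Lib.SV (E)
open Pool.Agent.Lib.HS32 Pool.Agent.Lib.EX
open Pool.Agent.Lib.EXA (Val SmN emb)

open EX.ADJ98 in
theorem kKEYL (hML : Sk_ML) (hPRDX : Sk_PRDX) (hUT : Sk_UT) (hMAIN : St_MAIN) (hINC : St_INC)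
    (hMOD : St_MOD) (hAVG : St_AVG) (hTRF : St_TRF) (hSS : St_SS) : Sk_KEYL := by
  intro n M _ H ι _ _ D κ _ L p τ K f hH hN hT hf V F hV hd hF hR l
  have hrT : ∀ i ∈ L.T, L.r i = 0 := fun i hi => L.rT i hi
  have hU := (hUT n M ι D κ L).1
  obtain ⟨tC, tS, -, tO⟩ := hTRF n M ι D
  have hb : ∀ d, ∀ z ∈ B2 n, SmN (L.b d) z := fun d z hz =>
    (ev_B2 hz).mono fun y hy => (hU d y hy).2.2.2.1
  have hA : D.All fun d z => Pol (D.c d) K (D.rd (D.avg (f l)) d) z :=
    (hAVG n M ι D (fun a => Pol (D.c a) K) (f l)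
      fun a => (hMOD n ι (D.c a) K L.r L.T p).1).2 fun a b x ha hb =>
        ((tO a b x ha hb).2.2.2.2.2.2.2.2 K L.T p _).1
          ((hINC n ι (D.c a) K L.r L.T p _ _).1 (hf l a _ (tO a b x ha hb).1))
  have hP : D.All fun d z => Pol (D.c d) (K ⊔ L.G) (D.rd (F l) d) z := fun d z hz => by
    have hM := (hMOD n ι (D.c d) (K ⊔ L.G) L.r L.T p).1
    refine hM.cong _ _ z (hM.add _ _ z
      (((hINC n ι (D.c d) K L.r L.T p _ z).2.2.1 _ le_sup_left).1 (hA d z hz))
      (hM.mul (fun _ => (-1 : ℂ)) _ z (Eventually.of_forall fun _ => contDiffAt_const)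
        (((hINC n ι (D.c d) L.G L.r L.T p _ z).2.2.1 _ le_sup_right).1 (hF l d z hz))))
      (Eventually.of_forall fun y _ => ?_)
    simp [Ad.rd]
  have h0 := hML n M ι D κ L p (V l) (F l) (K ⊔ L.G)
    (fun I d z => (L.b d z : ℝ) * (star (V l I d z) ⬝ᵥ H (D.e d) z *ᵥ V l I d z)) 0 (hV l)
    (fun i h1 h2 => sup_le (hT i h1 h2) le_rfl) hP ?_ ?_
  rotate_left
  · intro d z hz
    have hM := fun ρ ρ' F F' => hMAIN n ι (D.c d) L.r L.T p ρ ρ' F F' z
    have hX := fun (j : Fin n) (F : E n → ℂ) => hPRDX n ι (D.c d) L.G L.r L.T L.N p (L.b d) F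
      (fun I y => V l I d y j) z (D.inj d) (hb d z hz) hrT fun I hI =>
        ⟨sm_comp hz ((hV l I hI).hol d) j, fun h => by rw [(hV l I hI).zr h]; rfl⟩
    choose ρ hρ hρ' using hR l d z hz
    have h1 : ∀ j, Main (D.c d) L.r L.T p
        (fun I y => (L.b d y : ℝ) * (ρ j I y * star (V l I d y j)))
        (fun y => (L.dd d y : ℝ) * (dzb j (D.rd (F l) d) y * star (L.vh p (V l) d y j))) z :=
      fun j => (hX j _).2 _ (hρ j)
    have hN' := (hMOD n ι (D.c d) L.G L.r L.T p).2.2.2.2.2.2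
    have h2 : ∀ j, Nul (D.c d) L.r p (fun y => (-L.s : ℂ) * ((L.dd d y : ℝ) *
        ((D.rd (F l) d y * L.eta d j y) * star (L.vh p (V l) d y j)))) z := by
      intro j
      have e1 : Pol (D.c d) (K ⊔ L.G + -ind L.N) (D.rd (F l) d * L.eta d j) z :=
        ((hINC n ι (D.c d) (K ⊔ L.G) L.r L.T p _ z).2.2.2.1 _ _).1 (hP d z hz)
          ((hU d z hz).2.2.2.2.2.2.2.2.2.2 j).1
      have e5 := (hX j (D.rd (F l) d * L.eta d j)).1 _ (fun i hi => by
        have := hN i hi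
        simp only [Pi.add_apply, Pi.neg_apply, Pi.sup_apply, ind, if_pos hi]; omega) e1
      exact hN'.mul (fun _ => (-L.s : ℂ)) _ z (Eventually.of_forall fun _ => contDiffAt_const) e5
    have h3 := (hM 0 0 0 0).2.2.2.2 (Fin n) Finset.univ _ _ fun j _ =>
      (hM _ _ _ _).2.1 (h1 j) ((hM 0 0 _ 0).1 (h2 j))
    refine (hM _ _ _ _).2.2.2.1 h3 (Eventually.of_forall fun y _ => ?_) fun I hI => ?_
    · simp only [Finset.sum_apply, Pi.add_apply, Finset.mul_sum, Lw.nab]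
      exact Finset.sum_congr rfl fun j _ => by ring
    · by_cases hI' : Disjoint I L.N
      · refine Eventually.of_forall fun y _ => ?_
        simp [(hV l I hI).zr hI', dotProduct]
      have e : ∀ᶠ y in 𝓝 z, ∀ j, ¬ Nm (D.c d) I j → Sl (D.c d) I y →
          ρ j I y = (H (D.e d) y *ᵥ V l I d y) j := by
        refine eventually_all.2 fun j => ?_
        by_cases hj : Nm (D.c d) I j
        · exact Eventually.of_forall fun y h => absurd hj h
        · exact (hρ' j I hI hI' hj).mono fun y h _ => h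
      filter_upwards [e, ev_B2 hz] with y hy hyB hs
      simp only [Finset.sum_apply, Pi.add_apply, Pi.zero_apply, add_zero, dotProduct,
        Finset.mul_sum, Pi.star_apply]
      refine Finset.sum_congr rfl fun j _ => ?_
      by_cases hj : Nm (D.c d) I j
      · rw [(hV l I hI).nm d y hyB j hj]; simp
      · rw [hy j hj hs]; ring
  · intro d z hz
    have hN' := (hMOD n ι (D.c d) L.G L.r L.T (p + 1)).2.2.2.2.2.2
    refine (hMAIN n ι (D.c d) L.r L.T (p + 1) 0 0 _ 0 z).1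
      (hN'.cong _ _ z (hN'.zero z) (Eventually.of_forall fun y _ => ?_))
    simp [hd l, hat]
  have hz0 : D.SS L.r L.T (p + 1) 0 = 0 := by
    simpa using (hSS n M ι D L.r L.T (p + 1) L.r0 hrT 0 0).2.2.1 0
  rw [hz0, add_zero] at h0
  have hm : ∀ a, ∀ z ∈ B2 n, z ∈ (D.e a).target := fun a z hz => (D.tgt a).symm ▸ hz
  have h5 := (((hSS n M ι D L.r L.T p L.r0 hrT
    (fun I d z => (L.b d z : ℝ) * (star (V l I d z) ⬝ᵥ H (D.e d) z *ᵥ V l I d z)) 0).2.2.2
      fun I hI a z hz => (cd_ofReal (hU a z hz).2.2.2.1).continuousAt.mul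
        (KEY.cont_sq (hH.sm _ (D.mem a) z (hm a z hz)).continuousAt
          ((hV l I hI).hol a z hz).continuousAt ((hV l I hI).hol a z hz).continuousAt)).2
    fun I _ a z hz _ => mul_nonneg (zero_le_real.2 (hU a z hz).2.2.2.2.1.le)
      ((hH.pos _ (D.mem a) z (hm a z hz)).posSemidef.dotProduct_mulVec_nonneg _)).2 h0
  have h6 : ∀ I ∈ L.T.powersetCard p, ∀ a, ∀ z ∈ B2 n, Sl (D.c a) I z → V l I a z = 0 := by
    intro I hI a z hz hs
    obtain ⟨s1, s2, -⟩ := tS a z hz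
    obtain ⟨d, -, hd⟩ := Finset.exists_ne_zero_of_sum_ne_zero
      ((D.sum ((D.e a).symm z)).trans_ne one_ne_zero)
    have s3 := (D.supp d _ hd).1
    have s4 := ((tO a d _ s1 s3).2.2.1 I).1 (s2.symm ▸ hs)
    have s5 := (tO d a _ s3 s1).1
    have s6 := h5 I hI d _ s5 s4 (by rwa [Ad.rd, (D.e d).left_inv s3])
    have s7 : V l I d (D.e d ((D.e a).symm z)) = 0 := by
      by_contra h8
      exact mul_ne_zero (ofReal_ne_zero.2 (hU d _ s5).2.2.2.2.1.ne')
        ((hH.pos _ (D.mem d) _ (hm d _ s5)).dotProduct_mulVec_pos h8).ne' s6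
    have s8 := (hV l I hI).cmp a d _ s1 s3 s4
    rw [s7, Matrix.mulVec_zero, s2, eq_comm, smul_eq_zero] at s8
    exact s8.resolve_left ((tC _).ne a d _ s1 s3)
  intro a z hz j
  obtain ⟨ρ, r1, r2⟩ := hR l a z hz j
  refine ⟨ρ, r1, fun I hI hI' hj => ?_⟩
  filter_upwards [r2 I hI hI' hj, isOpen_ball.mem_nhds hz] with y e1 e2 hy
  rw [e1 hy, h6 I hI a y e2 hy]
  rfl

end Pool.Agent.Lib.EXK
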