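import Pool.Agent.Lib.EXK.Blue

/-! Project exk, block KEYN: the key property when the family is glued on all components. -/

open scoped Classical Topology ContDiff ComplexOrder Matrix
open Set MeasureTheory Complex Metric Filter

noncomputable section

namespace Pool.Agent.Lib.EXK

open Pool.Agent.Lib.SV (E)
open Pool.Agent.Lib.HS32 Pool.Agent.Lib.EX

theorem kKEYN (hKEY : Sk_KEY) (hINCX : Sk_INCX) : Sk_KEYN := by
  intro n M _ H ι _ _ D κ _ L p hH hN hs hZ hp V F hV hd hF hR l
  have e : ∀ (Φ : M.X → ℂ) (W : Finset ι → D.A → E n → E n),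
      RepX D H L.G L.T L.N p Φ W ↔ D.Rep H L.G L.T p Φ W := fun Φ W => by
    rw [hN]
    refine forall_congr' fun a => forall_congr' fun z => forall_congr' fun _ =>
      forall_congr' fun j => exists_congr fun ρ => ?_
    have h := (hINCX n ι (D.c a) L.G L.T L.T p (dzb j (D.rd Φ a)) z).2.2.2.2.2.2.2 ρ
    refine and_congr ⟨h.2 hp, h.1⟩ (forall_congr' fun I => forall_congr' fun hI =>
      ⟨fun k => k fun hD => ?_, fun k _ => k⟩)
    obtain ⟨h1, h2⟩ := Finset.mem_powersetCard.1 hI
    obtain ⟨i, hi⟩ := Finset.card_pos.1 (h2 ▸ hp)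
    exact Finset.disjoint_left.1 hD hi (h1 hi)
  exact (e _ _).2 (hKEY n M H ι D κ L p V F hH hN hp hZ hs hV hd hF (fun l => (e _ _).1 (hR l)) l)

end Pool.Agent.Lib.EXK
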