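import Pool.Agent.Lib.EXK.B_JB

/-! Project exk, row LAST. -/

open scoped Classical Topology ContDiff
open Set Complex Metric Filter

noncomputable section

namespace Pool.Agent.Lib.EXK

open Pool.Agent.Lib.SV (E)
open Pool.Agent.Lib.HS32 Pool.Agent.Lib.EX Pool.Agent.Lib.EXS Pool.Agent.Lib.EXS.L14

open JB in
theorem kLAST (hM : St_MON) (hD : St_MOD) (hI : St_INC) (hT : St_TRF) (hL : St_LEVEL)
    (hEXC0 : Sk_EXC0) (hMIN : Sk_MIN) : Sk_LAST := by
  intro n M _ H ι _ _ D R τ _ j U hH j0 h1 hU hG t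
  set a : ι → ℕ := fun i => j * R.a i with ha
  have a0 : ∀ i, a i = 0 ↔ R.a i = 0 := fun i => by simp [ha, j0.ne']
  have e1 : (fun i => (a i : ℤ)) = R.ja j := funext fun i => Nat.cast_mul _ _
  have e2 : sp a = sp R.a := funext fun i => by simp only [sp, a0]
  have e3 : ∀ i, R.ja j i - R.fl j i = L14.Pt a R.k R.m 0 i := fun i => by
    have : R.dl j i = (R.ja j i : ℤ) + -((R.k i : ℝ) / R.m) := by
      simp [Rk.dl, Rk.ja, sub_eq_add_neg]
    rw [Rk.fl, this, Int.floor_intCast_add, Int.floor_neg]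
    simp [L14.Pt]
  have g1 : ∀ i, (R.a i = 0 → R.k i ≤ 0) → Gt a R.k R.m 0 i ≤ R.ja j i - sp R.a i := fun i h => by
    rw [← e1, ← e2]
    refine small R.m0 le_rfl (fun h => ?_) fun h' => h ((a0 i).1 h')
    have := h1 i (mt (a0 i).2 h)
    simp only [Rk.dl, ha] at this ⊢
    push_cast
    linarith
  let V : Option τ → D.A → E n → ℂ := fun l b => l.elim (xm (D.c b) fun i => a i) (U · b)
  have dif : ∀ P : ι → ℤ, R.ja j - R.nu j ≤ P → ∀ l, D.Dif (fun b => PolH (D.c b) P)
      fun b z => xm (D.c b) (-fun i => (a i : ℤ)) z * V l b z := by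
    rintro P hP (_ | l) b d x hb hd
    · have rep : D.All fun b z => Off (D.c b) z → xm (D.c b) (-fun i => (a i : ℤ)) z * V none b z =
          D.rd ((1 : D.A → M.X → ℂ) b) b z := fun b z hz o => by
        obtain ⟨-, k1, k2⟩ := (hM n ι (D.c b)).2.2.2.2.2.2.2.2.1 (fun i => a i) 0 z o
        exact (congrArg (· * _) k2).trans (inv_mul_cancel₀ k1)
      refine pcg hD ?_ (dif_ev hT rep hb hd)
      exact p0 hD (Eventually.of_forall fun y _ => by simp [Ad.rd])
    · rw [e1]
      exact pmo hI hP ((hU l).dif b d x hb hd)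
  obtain ⟨g, hg⟩ := (hL n M H ι D _ {
    a := a, k := R.k, m := R.m, w := R.w, G := Gt a R.k R.m 0, r := rt a R.k R.m 0
    T := Tt a R.k R.m 0, s := 0, U := V, k0 := none, m0 := R.m0, s0 := le_rfl, s1 := one_pos
    r0 := rt_bd _ _ _ 0
    rT := fun i hi => (Finset.mem_filter.1 hi).2
    rZ := fun i hi h0 => by
      have h : a i = 0 := by
        by_contra h
        exact hi (Finset.mem_filter.2 ⟨Finset.mem_univ i, h0, h⟩)
      exact ⟨h, nonneg R.m0 0 h (R.off i ((a0 i).1 h)).1⟩
    rel := fun i => by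
      simp only [rt, Gt]
      split_ifs <;> push_cast <;> ring
    whol := R.whol, wne := R.wne, wcmp := R.wcmp
    Uhol := by
      rintro (_ | l) b z hz
      · exact ((hM n ι (D.c b)).2.2.2.2.2.2.1 a z).self_of_nhds
      · exact (hU l).hol b z hz
    one := fun _ _ => rfl
    gen := fun b z hz => by
      by_cases h0 : xm (D.c b) (fun i => a i) z = 0
      · obtain ⟨i, -, hi⟩ := Finset.prod_eq_zero_iff.1 h0
        rw [zpow_natCast, pow_eq_zero_iff'] at hi
        obtain ⟨l, hl⟩ := hG b z hz i (by simp [sp, mt (a0 i).2 hi.2]) hi.1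
        exact ⟨some l, hl⟩
      · exact ⟨none, h0⟩
    difS := dif _ fun i => by
      rw [e2, show (a i : ℤ) = R.ja j i from congrFun e1 i]
      simp only [Pi.sub_apply, Rk.nu, sp]
      split_ifs with h
      · omega
      · have : 1 ≤ R.fl j i := Int.le_floor.2 (by simpa using (h1 i h).le)
        omega
    difG := dif _ fun i => by
      have : L14.Pt a R.k R.m 0 i ≤ Gt a R.k R.m 0 i := pt_le a R.k R.m 0 i
      rw [← e3] at this
      simp only [Pi.sub_apply, Rk.nu]
      omega } hH).2 rfl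
  obtain ⟨F, hF⟩ := glue0 hT (g := g (some t)) fun a b x ha hb =>
    (hI n ι _ _ 0 _ 0 _ _).2.2.2.2.2.2.2.2.2.2.2.1.1 (hg.dif (some t) a b x ha hb)
  have c1 : D.All fun d z => PolH (D.c d) (Gt a R.k R.m 0)
      (D.rd F d - fun y => xm (D.c d) (-R.ja j) y * U t d y) z := fun d z hz =>
    pcg hD (hg.cor (some t) d z hz) ((b2ev hz).mono fun y hy o => by
      have := hF d y hy o
      rw [Pi.sub_apply, sub_eq_zero] at this
      rw [Pi.sub_apply, Pi.sub_apply, this]
      exact congrArg (fun K => g (some t) d y - xm (D.c d) (-K) y * U t d y) e1.symm)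
  refine ⟨F, fun d z hz => ?_⟩
  have c2 := hEXC0 n M ι D R.a R.ex (R.B d) _ (Gt a R.k R.m 0 ⊔ R.ja j) j F (rho R).le
    (fun i hi => by
      have := g1 i fun h => (R.off i h).2 hi
      simp only [Pi.sup_apply, Rk.ja, sp] at this ⊢
      split_ifs at this <;> omega)
    (fun d z hz _ => pcg hD (padd hD (pmo hI le_sup_left (c1 d z hz))
      (pmo hI le_sup_right (hol hz ((hU t).hol d)))) (Eventually.of_forall fun y _ => by simp))
    d z hz (JB.inW R d hz)
  refine pmo hI (fun i => ?_) (hMIN n ι _ _ _ _ _ (D.inj d) (c1 d z hz)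
    (psub hD (pmo hI (K := R.ja j) inf_le_right c2) (hol hz ((hU t).hol d))))
  by_cases h : R.a i = 0
  · simp [sp, h]
  · exact inf_le_left.trans (g1 i fun h' => absurd h' h)

end Pool.Agent.Lib.EXK
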