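import Pool.Agent.Lib.EXK.Blue

/-! Project exk: linearity of the representation of residues. -/

open scoped Classical Topology ContDiff Matrix
open Set Filter

noncomputable section

namespace Pool.Agent.Lib.EXK

open Pool.Agent.Lib.SV (E)
open Pool.Agent.Lib.HS32 Pool.Agent.Lib.EX

theorem kLINX (hRESX : Sk_RESX) (hINC : St_INC) : Sk_LINX := by
  intro n M _ H ι _ _ D G T N p
  refine ⟨fun a z _ j => ⟨0, ?_, fun _ _ _ _ => Eventually.of_forall fun _ _ => by simp⟩,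
    fun F F' V V' t K hF hF' h h' a z hz j => ?_⟩
  · have h := (hRESX n ι (D.c a) G T N p 0 0 0 0 z (D.inj a)).2.2.2.2.2.2.2.2.2.2.2.2 Unit ∅
      (fun _ => 0) (fun _ => 0) (by simp)
    have e : dzb j (D.rd (0 : M.X → ℂ) a) = 0 := funext fun y => dzb_const 0
    simpa only [Finset.sum_empty, e] using h
  · obtain ⟨ρ, h1, h2⟩ := h a z hz j
    obtain ⟨ρ', h3, h4⟩ := h' a z hz j
    have h5 := (hRESX n ι _ G T N p ρ' ρ' _ (dzb j (D.rd F' a)) z (D.inj a)).2.2.2.2.2.1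
      (fun _ => t) (Eventually.of_forall fun _ => contDiffAt_const) h3
    have h6 := (hRESX n ι _ G T N p _ _ _ _ z (D.inj a)).2.2.2.2.1 h1 h5
    have s1 := (hINC n ι _ K 0 T p _ z).2.2.2.2.2.2.2.2.2.2.2.2.2.2.2.1 (hF a z hz)
    have s2 := (hINC n ι _ K 0 T p _ z).2.2.2.2.2.2.2.2.2.2.2.2.2.2.2.1 (hF' a z hz)
    refine ⟨_, (hRESX n ι _ G T N p _ _ _ _ z (D.inj a)).2.2.2.2.2.2.1 h6 ?_
      fun _ _ _ => Eventually.of_forall fun _ _ => rfl, fun I hI hN hj => ?_⟩
    · filter_upwards [s1, s2] with y y1 y2 hy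
      have d1 := cd_diff (y1 hy).self_of_nhds
      have d2 := cd_diff (y2 hy).self_of_nhds
      have e : D.rd (F + t • F') a = fun w => D.rd F a w + t * D.rd F' a w := rfl
      rw [e, dzb_add d1 (d2.const_mul t), dzb_const_mul t d2]
      rfl
    · filter_upwards [h2 I hI hN hj, h4 I hI hN hj] with y y1 y2 hy
      simp [y1 hy, y2 hy, Matrix.mulVec_add, Matrix.mulVec_smul]

end Pool.Agent.Lib.EXK
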