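import Pool.Agent.Lib.EXK.Blue

/-! Project exk: the linear level. -/

open scoped Classical Topology ContDiff
open Set Complex Filter

noncomputable section

namespace Pool.Agent.Lib.EXK

open Pool.Agent.Lib.SV (E)
open Pool.Agent.Lib.HS32 Pool.Agent.Lib.EX

namespace LNL

variable {n : ℕ} {M : Mf n} {ι : Type} [Fintype ι] [DecidableEq ι] {D : Ad M ι}

omit [DecidableEq ι] in
theorem cases36 (c : ι → Option (Fin n)) (a : ι → ℕ) (z : E n) :
    (∃ i, sp a i ≠ 0 ∧ xi c i z = 0) ∨ xm c (fun i => a i) z ≠ 0 := by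
  refine or_iff_not_imp_left.2 fun h => Finset.prod_ne_zero_iff.2 fun i _ => ?_
  by_cases e : a i = 0
  · simp [e]
  · exact zpow_ne_zero _ fun h0 => h ⟨i, by simp [sp, e], h0⟩

theorem avg36 [M.Cpt] (hT : St_TRF) (K : ι → ℤ) (b : D.A) {z : E n} (hz : z ∈ B2 n) :
    D.rd (fun x => ∑ d, (D.χ d x : ℂ) * (xm (D.c d) K (D.e d x) * D.um (-K) d b x)) b z =
      xm (D.c b) K z := by
  obtain ⟨h1, h2, -⟩ := (hT n M ι D).2.1 b z hz
  have e : ∀ d, (D.χ d ((D.e b).symm z) : ℂ) * (xm (D.c d) K (D.e d ((D.e b).symm z)) *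
      D.um (-K) d b ((D.e b).symm z)) = D.χ d ((D.e b).symm z) * xm (D.c b) K z := fun d => by
    by_cases h : D.χ d ((D.e b).symm z) = 0
    · simp [h]
    have h3 := (D.supp d _ h).1
    have e1 : D.um K d b ((D.e b).symm z) * D.um (-K) d b ((D.e b).symm z) = 1 := by
      rw [Ad.um, Ad.um, ← Finset.prod_mul_distrib]
      exact Finset.prod_eq_one fun i _ => by
        rw [Pi.neg_apply, zpow_neg, mul_inv_cancel₀ (zpow_ne_zero _ (D.une d b i _ h3 h1))]
    rw [((hT n M ι D).2.2.2 d b _ h3 h1).2.2.2.2.1 K, h2, mul_right_comm, e1, one_mul]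
  rw [Ad.rd, Finset.sum_congr rfl fun d _ => e d, ← Finset.sum_mul, ← ofReal_sum, D.sum, ofReal_one,
    one_mul]

theorem one36 (hM : St_MON) (K P : ι → ℤ) :
    D.Dif (fun b => PolH (D.c b) P) fun b z => xm (D.c b) (-K) z * xm (D.c b) K z := by
  have e : ∀ d z, Off (D.c d) z → xm (D.c d) (-K) z * xm (D.c d) K z = 1 := fun d z h => by
    obtain ⟨-, h1, h2⟩ := (hM n ι (D.c d)).2.2.2.2.2.2.2.2.1 K K z h
    rw [h2, inv_mul_cancel₀ h1]
  refine fun a b x ha hb => ⟨fun _ => 0, .of_forall fun _ => differentiableAt_const _, ?_⟩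
  filter_upwards [((mTR n M).2.1 _ (D.mem a) _ (D.mem b) x ha hb).2.2.2.1] with w hw ho
  have h1 : Off (D.c a) (D.e a ((D.e b).symm w)) := fun i => by
    rw [D.urel a b i _ hw.2.1 hw.2.2.1, hw.2.2.2.2.2.1]
    exact mul_ne_zero (D.une a b i _ hw.2.1 hw.2.2.1) (ho i)
  rw [Pi.sub_apply, Ad.tr, e a _ h1, e b _ ho, sub_self, mul_zero]

end LNL

open LNL

theorem kLNL (hMON : St_MON) (hINC : St_INC) (hTRF : St_TRF) (hLEVEL : Sk_LEVEL)
    (hKEYL : Sk_KEYL) (hGLA : Sk_GLA) (hNUM : Sk_NUM) : Sk_LNL := by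
  intro n M _ H ι _ _ D R κ _ u μ' μ j U hH hu hJ hj hU
  obtain ⟨n1, -, n3, n4⟩ := hNUM n M ι D R μ' μ hJ
  have mono : ∀ d {P Q : ι → ℤ} {F z}, P ≤ Q → PolH (D.c d) P F z → PolH (D.c d) Q F z :=
    fun d P Q F z h => ((hINC n ι (D.c d) P 0 ∅ 0 F z).2.2.1 Q h).2
  have hT : ∀ i ∈ R.T μ, R.dl μ i = R.fl μ i := fun i hi => (Finset.mem_filter.1 hi).2.2
  let L : Lw D (Option κ) :=
    { a := R.a, k := R.k, m := R.m, w := R.w, G := R.ja j - R.h μ
      r := fun i => R.fl μ i - R.dl μ i, T := R.T μ, N := R.N μ, s := j - μ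
      U := fun l => l.elim (fun d => xm (D.c d) fun i => R.a i) u
      m0 := R.m0, s0 := sub_nonneg.2 hj
      r0 := fun i => ⟨by rw [Rk.fl]; linarith [Int.lt_floor_add_one (R.dl μ i)],
        sub_nonpos.2 (Int.floor_le _)⟩
      rT := fun i hi => sub_eq_zero.2 (hT i hi).symm
      NT := n3
      rel := fun i => by
        simp only [Rk.h, Rk.ja, Rk.dl, ind, Pi.sub_apply]
        push_cast
        ring
      whol := R.whol, wne := R.wne, wcmp := R.wcmp
      Uhol := fun l => by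
        cases l with
        | none => exact fun b z _ => ((hMON n ι (D.c b)).2.2.2.2.2.2.1 R.a z).self_of_nhds
        | some l => exact (hu.gl l).hol
      gen := fun b z hz => by
        rcases cases36 (D.c b) R.a z with ⟨i, h1, h2⟩ | h
        · obtain ⟨l, hl⟩ := hu.gn b z hz i h1 h2
          exact ⟨some l, hl⟩
        · exact ⟨none, h⟩
      pos := fun b z hz => by
        rcases cases36 (D.c b) R.a z with ⟨i, h1, h2⟩ | h
        · obtain ⟨l, hl⟩ := hu.gn b z hz i h1 h2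
          refine ⟨some l, ((hGLA n M ι D _ _ (u l)).2.2.2.2.2.2.1 (fun i => ?_) (hu.gl l) b z hz i
            h1 h2).trans_ne hl⟩
          simp only [sp, Pi.zero_apply]
          split_ifs <;> norm_num
        · exact ⟨none, (avg36 hTRF _ b hz).trans_ne h⟩
      difS := fun l => by
        cases l with
        | none => exact one36 hMON _ _
        | some l =>
          refine fun a b x ha hb => mono b (fun i => ?_) ((hu.gl l).dif a b x ha hb)
          simp only [sp, ind, Pi.sub_apply]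
          by_cases hi : i ∈ R.N μ
          · simp [hi, ((n4 i).2.1 (n3 hi)).1]
          · simp only [hi, if_false]
            split_ifs <;> simp }
  have hf : ∀ _ : Unit, D.All fun d z =>
      PolH (D.c d) (R.ja j) (fun y => xm (D.c d) (-R.ja j) y * U d y) z := fun _ d z hz =>
    ⟨U d, (Metric.isOpen_ball.eventually_mem hz).mono fun y hy => hU.hol d y hy,
      .of_forall fun _ _ => rfl⟩
  refine hLEVEL n M H ι D _ L Unit (R.ja j) (fun _ d y => xm (D.c d) (-R.ja j) y * U d y) hH hf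
    (fun p _ => hKEYL n M H ι D _ L p Unit (R.ja j) _ hH.toMet (fun i hi => ?_) (fun i hi h => ?_) hf)
    (fun _ a b x ha hb => mono b (sub_le_sub_left (n1 ▸ le_sup_left) _) (hU.dif a b x ha hb)) ()
  · exact le_sub_self_iff _ |>.2 ((n4 i).2.2.1 hi).1.le
  · exact le_sub_self_iff _ |>.2 ((n4 i).2.2.2.2.2.2.1 hi (sub_eq_zero.1 h).symm)

end Pool.Agent.Lib.EXK
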