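import Pool.Agent.Lib.EXK.Blue
import Pool.Agent.Lib.EX.B_MON

/-! Project exk: the minimum of two pole bounds. -/

open scoped Classical Topology
open Set Complex Filter

noncomputable section

namespace Pool.Agent.Lib.EXK

open Pool.Agent.Lib.SV (E)
open Pool.Agent.Lib.HS32 (HolN)
open Pool.Agent.Lib.EX

namespace MIN

variable {n : ℕ} {ι : Type} [Fintype ι] [DecidableEq ι] {c : ι → Option (Fin n)}
  {K K' : ι → ℤ} {F : E n → ℂ} {z : E n} {i : ι}

theorem drop_one (hD : St_DIV) (hc : Inj c) (h : PolH c K F z) (h' : PolH c K' F z)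
    (hi : K' i < K i) : PolH c (K - Pi.single i 1) F z := by
  obtain ⟨s, hs, e⟩ := h
  obtain ⟨s', hs', e'⟩ := h'
  have a0 : ∀ l, 0 ≤ ((K' - K) ⊔ 0) l := fun l => le_sup_right (a := K' - K) l
  have b0 : ∀ l, 0 ≤ ((K - K') ⊔ 0) l := fun l => le_sup_right (a := K - K') l
  have k1 : ∀ᶠ y in 𝓝 z, Off c y →
      xm c ((K' - K) ⊔ 0) y * s y - xm c ((K - K') ⊔ 0) y * s' y = 0 := by
    filter_upwards [e, e'] with y y1 y2 ho
    have q1 : (K' - K) ⊔ 0 = (K ⊔ K') + -K := by
      funext l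
      simp only [Pi.sup_apply, Pi.sub_apply, Pi.add_apply, Pi.neg_apply, Pi.zero_apply]
      omega
    have q2 : (K - K') ⊔ 0 = (K ⊔ K') + -K' := by
      funext l
      simp only [Pi.sup_apply, Pi.sub_apply, Pi.add_apply, Pi.neg_apply, Pi.zero_apply]
      omega
    rw [q1, q2, MON.xm_add _ _ ho, MON.xm_add _ _ ho, mul_assoc, mul_assoc, ← y1 ho, ← y2 ho,
      sub_self]
  have k2 : ∀ᶠ y in 𝓝 z, xm c ((K' - K) ⊔ 0) y * s y - xm c ((K - K') ⊔ 0) y * s' y = 0 := by
    filter_upwards [hs, hs', k1.eventually_nhds] with y y1 y2 y3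
    refine MON.sl_dense (I := ∅) hc (fun l hl => absurd hl (Finset.notMem_empty l))
      (f := fun y => xm c ((K' - K) ⊔ 0) y * s y - xm c ((K - K') ⊔ 0) y * s' y)
      (((MON.diff_xm fun l => .inr (a0 l)).mul y1).sub
        ((MON.diff_xm fun l => .inr (b0 l)).mul y2)).continuousAt
      (y3.mono fun w hw _ h2 => hw fun l => h2 l (Finset.notMem_empty l))
  have k3 : ∀ᶠ y in 𝓝 z, Sl c {i} y → s y = 0 := by
    filter_upwards [hs, k2.eventually_nhds] with y y1 y2 y3
    refine MON.sl_dense hc y3 y1.continuousAt (y2.mono fun w hw w1 w2 => ?_)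
    have w3 := w1 i (Finset.mem_singleton_self i)
    have w4 : xm c ((K - K') ⊔ 0) w = 0 := by
      refine Finset.prod_eq_zero (Finset.mem_univ i) ?_
      rw [w3]
      refine zero_zpow _ ?_
      simp only [Pi.sup_apply, Pi.sub_apply, Pi.zero_apply]
      omega
    have w5 : xm c ((K' - K) ⊔ 0) w ≠ 0 := by
      refine Finset.prod_ne_zero_iff.2 fun l _ => ?_
      by_cases hl : l = i
      · have : ((K' - K) ⊔ 0) l = 0 := by
          simp only [hl, Pi.sup_apply, Pi.sub_apply, Pi.zero_apply]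
          omega
        rw [this, zpow_zero]
        exact one_ne_zero
      · exact zpow_ne_zero _ (w2 l (by simpa using hl))
    rw [w4, zero_mul, sub_zero] at hw
    exact (mul_eq_zero.1 hw).resolve_left w5
  obtain ⟨t, t1, t2⟩ := (hD n ι c s z hc hs).1 {i} k3
  refine ⟨t i, t1 i, ?_⟩
  filter_upwards [e, t2] with w w1 w2 w3
  rw [w1 w3, w2, Finset.sum_singleton, neg_sub, sub_eq_neg_add, MON.xm_add _ _ w3, mul_assoc]
  simp [xm, Pi.single_apply, apply_ite]

theorem inf_aux (hD : St_DIV) (hc : Inj c) (h' : PolH c K' F z) (m : ℕ) :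
    ∀ K : ι → ℤ, ∑ l, (K l - K' l).toNat = m → PolH c K F z → PolH c (K ⊓ K') F z := by
  induction m using Nat.strong_induction_on with
  | _ m ih =>
  intro K hm h
  by_cases k : ∀ l, K l ≤ K' l
  · rwa [inf_of_le_left k]
  obtain ⟨i, hi⟩ := not_forall.1 k
  have hi := not_le.1 hi
  have q : (K - Pi.single i 1) ⊓ K' = K ⊓ K' := by
    funext l
    simp only [Pi.inf_apply, Pi.sub_apply, Pi.single_apply]
    split_ifs with hl
    · subst hl
      omega
    · omega
  rw [← q]
  refine ih _ (lt_of_lt_of_eq (Finset.sum_lt_sum (fun l _ => ?_) ⟨i, Finset.mem_univ i, ?_⟩) hm) _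
    rfl (drop_one hD hc h h' hi)
  · rw [Pi.sub_apply, Pi.single_apply]
    split_ifs <;> omega
  · rw [Pi.sub_apply, Pi.single_eq_same]
    omega

end MIN

theorem kMIN (hDIV : St_DIV) : Sk_MIN := fun _ _ _ _ _ K _ _ _ hc h h' =>
  MIN.inf_aux hDIV hc h' _ K rfl h

end Pool.Agent.Lib.EXK
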