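import Pool.Agent.Lib.EXK.Blue

/-! Project exk, row ML: the master identity. -/

open scoped Classical
open Set

noncomputable section

namespace Pool.Agent.Lib.EXK

open Pool.Agent.Lib.EX

theorem kML (h1 : Sk_ML1) (h2 : Sk_ML2) (hC : St_CUT) (hV : EXA.St_VAL) : Sk_ML := by
  intro n M _ ι _ _ D κ _ L p V F K ρ ρ' hH hK hF hρ hρ'
  obtain ⟨N, v, hN⟩ := hC n M ι D
  have a := hV.2.2.2.2.2.2.1 D.A Finset.univ _ _ fun d _ =>
    h1 n M ι D κ L p V (D.rd F d) K (fun I => ρ I d) (fun I => ρ' I d) d (v d) hH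
      ⟨D.inj d, hN.sm d, hN.pos d⟩ hK (hF d) (hρ d) (hρ' d)
  have b := hV.2.1 _ _ _ a (h2 n M ι D κ L p V F K N v hH hN hK hF)
  rw [Finset.sum_neg_distrib, neg_eq_zero, Finset.sum_add_distrib] at b
  exact b

end Pool.Agent.Lib.EXK
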