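import Pool.Agent.Lib.EXK.Blue
import Pool.Agent.Lib.EX.B_ML1

/-! Project exk: the master identity in one chart. -/

open scoped Classical Topology ContDiff ComplexOrder Matrix
open Set MeasureTheory Complex Metric Filter

noncomputable section

namespace Pool.Agent.Lib.EXK

open Pool.Agent.Lib.SV (E)
open Pool.Agent.Lib.HS32 Pool.Agent.Lib.EX
open Pool.Agent.Lib.EXA (Val SmN emb)


open EX.ML1 in
theorem kML1 (hV : EXA.St_VAL) (hL0 : St_LOC0) (hL1 : St_LOC1) (hEXP : St_EXP) (hPRD : St_PRD)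
    (hQ2 : St_Q2) (hQ3 : Sk_Q3) (hRES : St_RES) (hINC : St_INC) (hUT : Sk_UT) (hTRF : St_TRF)
    (hMON : St_MON) (hMOD : St_MOD) : Sk_ML1 := by
  intro n M _ ι _ _ D κ _ L p V F K ρ ρ' d v hH hT hK hF h1 h3
  obtain ⟨-, -, -, vC, vA, vM, -, -, -⟩ := hV
  have hU := (hUT n M ι D κ L).1 d
  have hχ := (hTRF n M ι D).2.1 d
  obtain ⟨m1, -, m3, -, m5, m6, -, m8, m9, -⟩ := hMON n ι (D.c d)
  set c := D.c d with hc
  set χ : E n → ℝ := D.rd (D.χ d) d with hχd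
  have hrT : ∀ i ∈ L.T, L.r i = 0 := fun i hi => L.rT i hi
  have hb : ∀ z ∈ B2 n, SmN (L.b d) z := fun z hz => smN_of (fun y hy => (hU y hy).2.2.2.1) hz
  have hχs : ∀ z ∈ B2 n, SmN (fun y => (χ y : ℂ)) z := fun z hz =>
    smN_of (fun y hy => cd_ofReal (hχ y hy).2.2.1) hz
  have hχ0 : ∀ z ∈ B2 n, 1 < ‖z‖ → χ z = 0 := fun z hz => (hχ z hz).2.2.2
  have hXW : ∀ z ∈ B2 n, ∀ j, Wt c L.G L.T (p + 1) (fun y => L.vh p V d y j) z := fun z hz j =>
    ((hRES n ι c L.G L.T p (fun I y => V I d y j) 0 _ 0 z (D.inj d)).1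
      ((hRES n ι c L.G L.T p (fun I y => V I d y j) 0 0 0 z (D.inj d)).2.2.2.2.2.2.2.2.1
        fun I hI => smN_hol ((hH I hI).hol d) hz j)).1
  have nul : ∀ (q : ℕ) (Q : E n → ℂ), (∀ z ∈ B2 n, WQ c L.G L.r L.T q Q z) → ∀ z, ‖z‖ ≤ 1 →
      Nul c L.r q (fun y => χ y * ((L.dd d y : ℝ) * (F y * star (Q y)))) z := fun q Q hQ z hz =>
    (hMOD n ι c L.G L.r L.T q).2.2.2.2.2.2.mul _ _ z (hχs z (mem_of_le hz))
      ((hPRD n ι c L.G L.r L.T q (L.b d) F Q z (hb z (mem_of_le hz)) hrT).1 K hK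
        (hF z (mem_of_le hz)) (hQ z (mem_of_le hz)))
  have loc := fun (q : ℕ) (Q : E n → ℂ) (hQ : ∀ z ∈ B2 n, WQ c L.G L.r L.T q Q z) =>
    hL0 n ι c v L.r q _ hT L.r0 (fun z hz h => by simp [hχ0 z hz h]) (nul q Q hQ)
  have k0 := fun j => (loc (p + 1) (fun y => L.vh p V d y j) fun z hz =>
    (hINC n ι c L.G L.r L.T (p + 1) _ z).2.2.2.2.2.2.2.2.2.2.2.2.1 hrT (hXW z hz j)).1
  have k1 := hL1 n ι c v L.r L.T p ρ _ χ hT L.r0 hrT (fun z hz => (hχ z hz).2.2.1) hχ0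
    fun z hz => h1 z (mem_of_le hz)
  have k2 := loc p _ (hQ3 n M ι D κ L p V hH d)
  have k3 := hL1 n ι c v L.r L.T (p + 1) ρ' _ χ hT L.r0 hrT (fun z hz => (hχ z hz).2.2.1) hχ0
    fun z hz => h3 z (mem_of_le hz)
  have k4 := loc (p + 1) _ fun z hz => hQ2 n ι c L.G L.r L.T p v (fun I => V I d) z (D.inj d) hz hrT
    (smN_of hT.vsm hz) (hT.vpos z hz)
    fun I hI => ⟨(hH I hI).hol d, (hH I hI).iv d, (hH I hI).nm d⟩
  have val := vM _ _ (-1) (vA _ _ _ _ (vA _ _ _ _ (vA _ _ _ _ k1.2 k2.2) k3.2) k4.2)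
  rw [add_zero, add_zero, neg_one_mul] at val
  refine vC _ _ _ val ?_
  filter_upwards [eventually_all.2 k0, k1.1, k2.1, k3.1, k4.1] with t j0 j1 j2 j3 j4
  rw [split (a0 := fun z => (L.dd d z : ℝ) *
      (F z * star (app (L.vh p V d) (fun x => (χ x : ℂ)) z)))
    (fun j => ((j0 j).2 j).1) (fun j => ((j0 j).2 j).2.1) (fun j => ((j0 j).2 j).2.2) j1 j2.1 j3
    j4.1 ?_]
  · ring
  filter_upwards [ae_restrict_mem measurableSet_ball, ae_restrict_of_ae m3] with z hz ho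
  have dF : DifferentiableAt ℝ F z := cd_diff
    (((hINC n ι c K L.r L.T 0 F z).2.2.2.2.2.2.2.2.2.2.2.2.2.2.2.1 (hF z hz)).self_of_nhds
      ho).self_of_nhds
  have dX : DifferentiableAt ℝ (L.vh p V d) z := differentiableAt_pi.2 fun j => cd_diff
    (((hINC n ι c L.G L.r L.T 0 _ z).2.2.2.2.2.2.2.2.2.2.2.2.2.2.2.1
      ((hINC n ι c L.G L.r L.T (p + 1) _ z).2.2.2.2.2.1 (hXW z hz j))).self_of_nhds ho).self_of_nhds
  have ns : ∀ {f : E n → ℂ}, HolN f z → DifferentiableAt ℝ (fun y => normSq (f y)) z := fun hf =>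
    cd_diff (Mf.cd_normSq ((mHOL n _ z).2.2 hf).1)
  have x0 : ∀ J, normSq (xs c J z) ≠ 0 := fun J =>
    (normSq_pos.2 (Finset.prod_ne_zero_iff.2 fun i _ => ho i)).ne'
  have dd : DifferentiableAt ℝ (L.dd d) z :=
    (((cd_diff (hb z hz).self_of_nhds).mul (cd_diff (m8 L.r z ho).1.self_of_nhds)).mul
      (ns (m6 L.G z ho))).mul ((ns (m5 L.T z)).inv (x0 _))
  have d0 : L.dd d z ≠ 0 := div_ne_zero (mul_ne_zero (mul_ne_zero (hU z hz).2.2.2.2.1.ne'
    (m8 L.r z ho).2.ne') (normSq_pos.2 (m9 L.G 0 z ho).2.1).ne') (x0 _)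
  have dl : DifferentiableAt ℝ (fun y => Real.log (v y * normSq (xs c Finset.univ y))) z :=
    ((cd_diff (hT.vsm z hz)).mul (ns (m5 _ z))).log (mul_ne_zero (hT.vpos z hz).ne' (x0 _))
  obtain ⟨e1, e2⟩ := hEXP n (L.dd d) χ _ F (L.vh p V d) z dd d0 (cd_diff (hχ z hz).2.2.1) dl dF dX
  have e3 : hat c L.G L.T (p + 1) (fun J => D.dl L.T p V J d) z = hat c L.G L.T (p + 1)
      (fun J x => if ∀ i ∈ J, c i ≠ none then del c (fun I => V I d) J x else 0) z := by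
    simp only [hat]
    congr 1
    refine Finset.sum_congr rfl fun J hJ => ?_
    simp only [Ad.dl, hJ, hz, true_and, hc]
  refine ⟨?_, ?_⟩
  · have a1 : ∑ j, L.nab d j F z * star (L.vh p V d z j) = (∑ j, dzb j F z * star (L.vh p V d z j))
        - L.s * F z * ∑ j, L.eta d j z * star (L.vh p V d z j) := by
      rw [Finset.mul_sum, ← Finset.sum_sub_distrib]
      exact Finset.sum_congr rfl fun j _ => by rw [Lw.nab]; ring
    have a2 : star ((L.s : ℂ) * ∑ j, star (L.eta d j z) * L.vh p V d z j) =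
        L.s * ∑ j, L.eta d j z * star (L.vh p V d z j) := by
      have a3 : star (L.s : ℂ) = L.s := conj_ofReal _
      rw [star_mul', star_sum, a3]
      simp only [star_mul', star_star]
    rw [e1, a1, star_add, a2]
    ring
  · refine e2.trans ?_
    have e4 : app (L.vh p V d) (fun y => (Real.log (v y * normSq (xs c Finset.univ y)) : ℝ)) z =
        app (fun x j => hat c L.G L.T p (fun I x' => V I d x' j) x) (lg c v) z := rfl
    rw [e3, star_sub, e4]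
    ring

end Pool.Agent.Lib.EXK
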