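import Pool.Agent.Lib.EXK.Blue
import Pool.Agent.Lib.EX.B_ML2

/-! Project exk: the terms with a derivative of the partition of unity. -/

open scoped Classical Topology ContDiff ComplexOrder Matrix
open Set MeasureTheory Complex Metric Filter

noncomputable section

namespace Pool.Agent.Lib.EXK

open Pool.Agent.Lib.SV (E)
open Pool.Agent.Lib.HS32 Pool.Agent.Lib.EX
open Pool.Agent.Lib.EXA (Val SmN emb)

open EX.ML2 in
theorem kML2 (hCHG : St_CHG) (hLOC : St_LOC0) (hPRD : St_PRD) (hQ4 : Sk_Q4) (hUT : Sk_UT)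
    (hTRF : St_TRF) (hRES : St_RES) (hINC : St_INC) (hMOD : St_MOD) (hVAL : EXA.St_VAL) :
    Sk_ML2 := by
  intro n M _ ι _ _ D κ _ L p V F K N v hV hN hK hF
  obtain ⟨-, -, -, v1, -, -, v2, -⟩ := hVAL
  obtain ⟨u1, u2⟩ := hUT n M ι D κ L
  obtain ⟨-, t1, -⟩ := hTRF n M ι D
  have hT : ∀ i ∈ L.T, L.r i = 0 := fun i hi => L.rT i hi
  have tst : ∀ d, Tst (D.c d) (v d) := fun d => ⟨D.inj d, hN.sm d, hN.pos d⟩
  have hχ : ∀ d, ∀ z ∈ B2 n, ContDiffAt ℝ ∞ (fun x => ((D.rd (D.χ d) d x : ℝ) : ℂ)) z :=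
    fun d z hz => cd_ofReal (t1 d z hz).2.2.1
  have nul : ∀ d q (Q : E n → ℂ), ∀ z ∈ B2 n, Wt (D.c d) L.G L.T q Q z → Nul (D.c d) L.r q
      (fun y => (L.dd d y : ℝ) * (D.rd F d y * star (Q y))) z := fun d q Q z hz hQ =>
    (hPRD n ι (D.c d) L.G L.r L.T q (L.b d) (D.rd F d) Q z
      (smN_of hz fun y hy => (u1 d y hy).2.2.2.1) hT).1 K hK (hF d z hz)
      ((hINC n ι (D.c d) L.G L.r L.T q Q z).2.2.2.2.2.2.2.2.2.2.2.2.1 hT hQ)
  have hB : ∀ z : E n, ‖z‖ ≤ 1 → z ∈ B2 n := fun z hz => mem_ball_zero_iff.2 (by linarith)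
  set A : D.A → E n → ℂ := fun d =>
    app (L.vh p V d) fun x => ((D.rd (D.χ d) d x : ℝ) : ℂ) with hA
  set R : D.A → M.X → ℂ := fun a => (D.e a).source.indicator fun y => A a (D.e a y) with hR
  have hRA : ∀ a, ∀ z ∈ B2 n, D.rd (R a) a z = A a z := fun a z hz => by
    simp only [Ad.rd, hR, indicator_of_mem (t1 a z hz).1, (t1 a z hz).2.1]
  have hcut : ∀ d t, ∀ z ∈ B2 n, cut (D.c d) (v d) t z = ((D.rd N d z ^ t : ℝ) : ℂ) :=
    fun d t z hz => by rw [cut, hN.rep d z hz]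
  have wA : ∀ d, ∀ z ∈ B2 n, Wt (D.c d) L.G L.T (p + 1) (A d) z := by
    intro d z hz
    have m := (hMOD n ι (D.c d) L.G L.r L.T (p + 1)).2.2.1
    refine m.cong _ _ z (m.sum _ Finset.univ (fun j =>
      dz j (fun x => ((D.rd (D.χ d) d x : ℝ) : ℂ)) *
        hat (D.c d) L.G L.T p fun I y => V I d y j) z fun j _ => ?_) (.of_forall fun y _ => ?_)
    · refine m.mul _ _ z (smN_of hz fun y hy => cd_dz (hχ d y hy) j) ?_
      have r := fun F => hRES n ι (D.c d) L.G L.T p (fun I y => V I d y j) 0 F 0 z (D.inj d)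
      exact ((r _).1 ((r 0).2.2.2.2.2.2.2.2.1 fun I hI =>
        smN_of hz (cd_of_hol ((hV I hI).hol d) j))).1
    · simp only [hA, app, Finset.sum_apply, Pi.mul_apply, Lw.vh]
      exact Finset.sum_congr rfl fun j _ => mul_comm _ _
  have zA : ∀ d, ∀ z ∈ B2 n, 1 < ‖z‖ → A d z = 0 := by
    intro d z hz h1
    have e : (fun x => ((D.rd (D.χ d) d x : ℝ) : ℂ)) =ᶠ[𝓝 z] fun _ => 0 := by
      filter_upwards [isOpen_ball.eventually_mem hz,
        (isOpen_lt continuous_const continuous_norm).eventually_mem h1] with y hy hy'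
      rw [(t1 d y hy).2.2.2 hy', ofReal_zero]
    simp only [hA, app, dz_congr e, dz_const, mul_zero, Finset.sum_const_zero]
  have i1 := fun d => (hLOC n ι (D.c d) (v d) L.r (p + 1)
    (fun y => (L.dd d y : ℝ) * (D.rd F d y * star (A d y))) (tst d) L.r0
    (fun z hz h1 => by simp only [zA d z hz h1, star_zero, mul_zero])
    (fun z hz => nul d _ _ z (hB z hz) (wA d z (hB z hz)))).1
  have i2 := fun b => (hLOC n ι (D.c b) (v b) L.r p
    ((fun x => ((D.rd (D.χ b) b x : ℝ) : ℂ)) * fun y => (L.dd b y : ℝ) *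
      (D.rd F b y * star (D.rd (fun x => ∑ a, R a x) b y))) (tst b) L.r0
    (fun z hz h1 => by simp only [Pi.mul_apply, (t1 b z hz).2.2.2 h1, ofReal_zero, zero_mul])
    (fun z hz => (hMOD n ι (D.c b) L.G L.r L.T p).2.2.2.2.2.2.mul _ _ z
      (smN_of (hB z hz) (hχ b)) (nul b _ _ z (hB z hz) (hQ4 n M ι D κ L p V hV b z (hB z hz))))).2
  have h3 := v2 _ Finset.univ _ _ fun b _ => i2 b
  rw [Finset.sum_const_zero] at h3
  refine v1 _ _ _ h3 ?_
  filter_upwards [eventually_all.2 i1] with t ht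
  have e1 : ∀ a, EqOn (fun z => cut (D.c a) (v a) t z * ((L.dd a z : ℝ) *
      (D.rd F a z * star (A a z)))) (fun z => (L.dd a z : ℝ) *
        D.rd (fun x => ((N x ^ t : ℝ) : ℂ) * (F x * star (R a x))) a z) (B2 n) := by
    intro a z hz
    simp only [hcut a t z hz, ← hRA a z hz, Ad.rd]
    ring
  have c := fun a => hCHG n M ι D L.dd (fun x => ((N x ^ t : ℝ) : ℂ) * (F x * star (R a x))) a
    (fun a b x h h' => (u2 a b x h h').2.2.2)
    (fun x hx => by
      by_contra h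
      exact hx (by simp only [hR, indicator_of_notMem h, star_zero, mul_zero]))
    ((ht a).1.congr_fun (e1 a) measurableSet_ball)
  rw [← Finset.mul_sum, ← Finset.mul_sum]
  congr 1
  rw [Finset.sum_congr rfl fun a _ =>
    (setIntegral_congr_fun measurableSet_ball (e1 a)).trans (c a).2, Finset.sum_comm]
  refine Finset.sum_congr rfl fun b _ => ?_
  rw [← integral_finsetSum _ fun a _ => (c a).1 b]
  refine setIntegral_congr_fun measurableSet_ball fun z hz => ?_
  simp only [hcut b t z hz, Pi.mul_apply, Ad.rd, star_sum, Finset.mul_sum]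
  exact Finset.sum_congr rfl fun a _ => by ring

end Pool.Agent.Lib.EXK
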