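import Pool.Agent.Lib.EXK.Blue
import Pool.Agent.Lib.EX.B_MOD

/-! Project exk: the classes of germs are modules. -/

open scoped Classical Topology ContDiff
open Set Filter

noncomputable section

namespace Pool.Agent.Lib.EXK

open Pool.Agent.Lib.SV (E)
open Pool.Agent.Lib.HS32 Pool.Agent.Lib.EX
open Pool.Agent.Lib.EX.MOD (Md)

namespace MODX

variable {n : ℕ} {ι : Type} {c : ι → Option (Fin n)} {R P P' : (E n → ℂ) → E n → Prop}

/-- The sum of two modules. -/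
theorem sup90 (h : Md c R P) (h' : Md c R P') :
    Md c R fun F z => ∃ F₁, P F₁ z ∧ P' (F - F₁) z where
  zero := fun z => ⟨0, h.zero z, by simpa using h'.zero z⟩
  add := fun F F' z ⟨A, a1, a2⟩ ⟨B, b1, b2⟩ =>
    ⟨A + B, h.add _ _ z a1 b1, by rw [add_sub_add_comm]; exact h'.add _ _ z a2 b2⟩
  mul := fun s F z hs ⟨A, a1, a2⟩ =>
    ⟨s * A, h.mul _ _ z hs a1, by rw [← mul_sub]; exact h'.mul _ _ z hs a2⟩
  cong := fun F F' z ⟨A, a1, a2⟩ e =>
    ⟨A, a1, h'.cong _ _ z a2 (e.mono fun y hy ho => by simp only [Pi.sub_apply, hy ho])⟩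
  ev := fun F z ⟨A, a1, a2⟩ => ((h.ev _ z a1).and (h'.ev _ z a2)).mono fun y hy => ⟨A, hy⟩

theorem md90 (h : Mod c P) : Md c EXA.SmN P := ⟨h.zero, h.add, h.mul, h.cong, h.ev⟩

theorem mdH90 (h : ModH c P) : Md c HolN P := ⟨h.zero, h.add, h.mul, h.cong, h.ev⟩

end MODX

open MODX in
theorem kMODX (hMOD : St_MOD) : Sk_MODX := fun n ι _ _ c G T N q =>
  ⟨(sup90 (md90 (hMOD n ι c G 0 T q).2.2.1) (md90 (hMOD n ι c (G - ind N) 0 T q).1)).mod,
    (sup90 (mdH90 (hMOD n ι c G 0 T q).2.2.2.1) (mdH90 (hMOD n ι c (G - ind N) 0 T q).2.1)).modH⟩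

end Pool.Agent.Lib.EXK
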