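import Pool.Agent.Lib.EXK.Blue
import Pool.Agent.Lib.EXS.B_LOOP
import Pool.Agent.Lib.EXS.B_GLU
import Pool.Agent.Lib.EX.B_INC

/-! Project exk: the non-linear level. -/

open scoped Classical Topology ContDiff ComplexOrder Matrix
open Set MeasureTheory Complex Metric Filter

set_option linter.unusedSectionVars false

noncomputable section

namespace Pool.Agent.Lib.EXK

open Pool.Agent.Lib.SV (E)
open Pool.Agent.Lib.HS32 Pool.Agent.Lib.EX Pool.Agent.Lib.EXS

namespace NLV

variable {n : ℕ} {M : Mf n} {ι : Type} [Fintype ι] [DecidableEq ι] {D : Ad M ι}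

/-- The member attached to a chart. -/
def mb (D : Ad M ι) (ν : ι → ℤ) (b d : D.A) (z : E n) : ℂ := if d = b then xm (D.c d) ν z else 0

theorem xm_ne {c : ι → Option (Fin n)} {ν : ι → ℤ} {z : E n} (h : ∀ i, ν i ≠ 0 → xi c i z ≠ 0) :
    xm c ν z ≠ 0 :=
  Finset.prod_ne_zero_iff.2 fun i _ => by
    by_cases k : ν i = 0
    · simp [k]
    · exact zpow_ne_zero _ (h i k)

theorem mb_hol {ν : ι → ℤ} (h : 0 ≤ ν) (b d : D.A) : Differentiable ℂ (mb D ν b d) := by
  unfold mb
  split_ifs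
  · exact INC.d_xm' h
  · exact differentiable_const _

theorem mb_gl [M.Cpt] (hMOD : St_MOD) (hTRF : St_TRF) (K : ι → ℤ) {ν : ι → ℤ} (h : 0 ≤ ν)
    (b : D.A) : Gl D K ν (mb D ν b) := by
  have p : ∀ d z, PolH (D.c d) (K - ν) (fun z => xm (D.c d) (-K) z * mb D ν b d z) z := fun d z =>
    ⟨fun _ => if d = b then 1 else 0, Eventually.of_forall fun _ => differentiableAt_const _,
      Eventually.of_forall fun y hy => by
        rw [neg_sub, sub_eq_neg_add, MON.xm_add _ _ hy]
        simp only [mb]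
        split_ifs <;> simp⟩
  exact ⟨fun d z _ => mb_hol h b d z, fun a d x ha hd => L14.psub hMOD
    ((((hTRF n M ι D).2.2.2 a d x ha hd).2.2.2.2.2.2.2.2 _ ∅ 0 _).2.1 (p a _)) (p d _)⟩

end NLV

open NLV in
theorem kNLV (hLEVEL : Sk_LEVEL) (hKEYN : Sk_KEYN) (hGLA : Sk_GLA) (hNUM : Sk_NUM)
    (hMOD : St_MOD) (hINC : St_INC) (hTRF : St_TRF) : Sk_NLV := by
  intro n M _ H ι _ _ D R τ _ U μ' μ j hH hJ hj hU hG t
  obtain ⟨e1, -, -, num⟩ := hNUM n M ι D R μ' μ hJ
  have μ0 := hJ.pos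
  have j0 : (0 : ℝ) < j := μ0.trans_le hj
  set ν := R.nu μ' + ind (R.N μ) with hν
  have i0 : ∀ (S : Finset ι) i, 0 ≤ ind S i := fun S i => by unfold ind; split_ifs <;> simp
  have ν1 : ∀ i, ν i = max (R.h μ i) 0 + ind (R.N μ) i := fun i => by rw [hν, e1]; rfl
  have ν0 : 0 ≤ ν := fun i => (ν1 i).symm ▸ add_nonneg (le_max_right _ _) (i0 _ i)
  have νh : R.h μ ≤ ν := fun i =>
    (ν1 i).symm ▸ (le_max_left _ _).trans (le_add_of_nonneg_right (i0 _ i))
  have νT : ind (R.T μ) ≤ ν := fun i => by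
    by_cases h : i ∈ R.T μ
    · rw [ν1]
      by_cases k : i ∈ R.N μ
      · simp [ind, h, k]
      · simp [ind, h, k, (num i).2.2.2.1 (Finset.mem_sdiff.2 ⟨h, k⟩)]
    · simpa [ind, h] using ν0 i
  let V : τ ⊕ D.A → D.A → E n → ℂ := Sum.elim U (mb D ν)
  have hV : ∀ l, Gl D (R.ja j) ν (V l) := by
    rintro (l | b)
    exacts [hU l, mb_gl hMOD hTRF _ ν0 b]
  have ea : (fun i => ((j * R.a i : ℕ) : ℤ)) = R.ja j := funext fun i => Nat.cast_mul _ _
  have sup : ∀ b, ∀ z ∈ B2 n, ∀ i, ν i ≠ 0 → xi (D.c b) i z = 0 → ∃ l, U l b z ≠ 0 :=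
    fun b z hz i hi => hG b z hz i ((num i).2.2.2.2.2.2.2.1.2 hi)
  let L : Lw D (τ ⊕ D.A) :=
    { a := fun i => j * R.a i
      k := R.k
      m := R.m
      w := R.w
      G := R.ja j - R.h μ
      r := fun i => R.fl μ i - R.dl μ i
      T := R.T μ
      N := R.T μ
      s := 1 - μ / j
      U := V
      m0 := R.m0
      s0 := sub_nonneg.2 ((div_le_one j0).2 hj)
      r0 := fun i => ⟨by unfold Rk.fl; linarith [Int.lt_floor_add_one (R.dl μ i)],
        sub_nonpos.2 (Int.floor_le _)⟩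
      rT := fun i hi => sub_eq_zero.2 (Finset.mem_filter.1 hi).2.2.symm
      NT := subset_rfl
      rel := fun i => by
        simp only [Rk.h, Rk.ja, Rk.dl, ind, Pi.sub_apply]
        push_cast
        field_simp
        ring
      whol := R.whol
      wne := R.wne
      wcmp := R.wcmp
      Uhol := fun l => (hV l).hol
      gen := fun b z hz => by
        by_cases h : ∀ i, ν i ≠ 0 → xi (D.c b) i z ≠ 0
        · exact ⟨.inr b, by simpa [V, mb] using xm_ne h⟩
        · push Not at h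
          obtain ⟨i, h1, h2⟩ := h
          exact (sup b z hz i h1 h2).elim fun l hl => ⟨.inl l, hl⟩
      pos := fun b z hz => by
        rw [ea]
        by_cases h : ∀ i, ν i ≠ 0 → xi (D.c b) i z ≠ 0
        · have xb := GLU.mem_src b hz
          obtain ⟨d, -, hd⟩ := Finset.exists_ne_zero_of_sum_ne_zero
            ((D.sum ((D.e b).symm z)).trans_ne one_ne_zero)
          have xd := (D.supp d _ hd).1
          refine ⟨.inr d, ?_⟩
          rw [Ad.rd, Finset.sum_eq_single d (fun a _ k => by simp [V, mb, k]) (by simp)]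
          refine mul_ne_zero (ofReal_ne_zero.2 hd) (mul_ne_zero ?_
            (((hTRF n M ι D).1 _).ne d b _ xd xb))
          simpa [V, mb] using xm_ne fun i hi k =>
            h i hi (GLU.rinv b hz ▸ (GLU.xi_iff xd xb).1 k)
        · push Not at h
          obtain ⟨i, h1, h2⟩ := h
          obtain ⟨l, hl⟩ := sup b z hz i h1 h2
          exact ⟨.inl l, ((hGLA n M ι D _ ν (U l)).2.2.2.2.2.2.1 ν0 (hU l) b z hz i h1 h2).trans_ne hl⟩
      difS := fun l => by
        rw [ea]
        have := (((hGLA n M ι D _ ν (V l)).1 _ νT).1 (hV l)).dif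
        rw [← ea] at this ⊢
        exact this }
  have ef : ∀ l, L.f l = fun d y => xm (D.c d) (-R.ja j) y * V l d y := fun l => by
    rw [← ea]
    rfl
  obtain ⟨g, g1, g2⟩ := hLEVEL n M H ι D _ L _ (R.ja j) L.f hH
    (fun l d z hz => ⟨V l d, (isOpen_ball.eventually_mem hz).mono fun y hy => (hV l).hol d y hy,
      Eventually.of_forall fun y _ => by rw [ef]⟩)
    (fun p hp => hKEYN n M H ι D _ L p hH.toMet rfl (sub_lt_self _ (div_pos μ0 j0))
      (fun i hi hr => by
        have := (num i).2.2.2.2.2.2.1 hi (sub_eq_zero.1 hr).symm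
        change ((j * R.a i : ℕ) : ℤ) ≤ R.ja j i - R.h μ i
        rw [congrFun ea i]
        linarith) hp)
    (fun l a b x ha hb => ef l ▸ L14.pmo hINC (sub_le_sub_left νh _) ((hV l).dif a b x ha hb))
    (.inl t)
  rw [ef] at g1
  refine ⟨g, g1, ?_⟩
  rwa [show L.G - ind L.N = R.ja j - R.fl μ from by
    change R.ja j - (R.fl μ - _) - _ = _
    abel] at g2

end Pool.Agent.Lib.EXK
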