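import Pool.Agent.Lib.EXK.Blue
import Pool.Agent.Lib.EX.B_MON

/-! Project exk: no poles on the new components. -/

open scoped Classical Topology ContDiff ComplexOrder Matrix Manifold
open Set MeasureTheory Complex Metric Filter

set_option linter.unusedVariables false

noncomputable section

namespace Pool.Agent.Lib.EXK

open Pool.Agent.Lib.SV (E)
open Pool.Agent.Lib.HS32 Pool.Agent.Lib.EX

namespace NP

variable {n : ℕ} {ι : Type} [Fintype ι] [DecidableEq ι] {c : ι → Option (Fin n)} {z : E n} {i : ι}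

theorem tend_prj (hz : xi c i z = 0) : Tendsto (prj c {i}) (𝓝 z) (𝓝 z) := by
  rw [MON.prj_eq]
  exact K68.tendsto_pz (MON.sl_nm fun l hl => by rw [Finset.mem_singleton.1 hl]; exact hz)

theorem hol_prj (hz : xi c i z = 0) {f : E n → ℂ} (hf : HolN f z) :
    HolN (fun y => f (prj c {i} y)) z :=
  ((tend_prj hz).eventually hf).mono fun y hy => hy.comp y (by
    rw [MON.prj_eq]; exact K68.diff_pz _ y)

theorem xi_prj0 (hz : xi c i z = 0) (y : E n) : xi c i (prj c {i} y) = 0 := by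
  refine MON.sl_of (I := {i}) (fun l hl e => ?_) (fun j hj => ?_) i (Finset.mem_singleton_self i)
  · rw [Finset.mem_singleton.1 hl] at e
    rw [MON.xi_none e] at hz
    exact one_ne_zero hz
  · rw [MON.prj_eq]
    exact K68.pz_mem hj

theorem xm_prj (hc : Inj c) {A : ι → ℤ} (hA : A i = 0) (y : E n) :
    xm c A (prj c {i} y) = xm c A y := by
  refine Finset.prod_congr rfl fun l _ => ?_
  by_cases h : l = i
  · rw [h, hA, zpow_zero, zpow_zero]
  · rw [MON.xi_prj hc (fun e => h (Finset.mem_singleton.1 e))]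

theorem xm0 (y : E n) : xm c 0 y = 1 := Finset.prod_eq_one fun _ _ => zpow_zero _

theorem ev_eq {f g : E n → ℂ} (hf : HolN f z) (hg : HolN g z)
    (h : ∀ᶠ y in 𝓝 z, Off c y → f y = g y) : ∀ᶠ y in 𝓝 z, f y = g y := by
  filter_upwards [hf, hg, h.eventually_nhds] with y h1 h2 h3
  exact tendsto_nhds_unique_of_frequently_eq h1.continuousAt h2.continuousAt
    (((MON.off_freq c y).and_eventually h3).mono fun w hw => hw.2 hw.1)

/-- Restriction of an identity to the component `i`. -/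
theorem restr (hc : Inj c) (hz : xi c i z = 0) {A : ι → ℤ} (hA : A i = 0) {f g : E n → ℂ}
    (hf : HolN f z) (hg : HolN g z) (h : ∀ᶠ y in 𝓝 z, Off c y → f y = xm c A y * g y) :
    ∀ᶠ y in 𝓝 z, Off c y → f (prj c {i} y) = xm c A y * g (prj c {i} y) := by
  have e : A ⊔ 0 = (-A ⊔ 0) + A := by
    funext l
    simp only [Pi.sup_apply, Pi.add_apply, Pi.neg_apply, Pi.zero_apply]
    omega
  have d1 : ∀ (B : ι → ℤ) (y : E n), DifferentiableAt ℂ (xm c (B ⊔ 0)) y := fun B y =>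
    MON.diff_xm fun l => Or.inr le_sup_right
  have h1 : ∀ᶠ y in 𝓝 z, xm c (-A ⊔ 0) y * f y = xm c (A ⊔ 0) y * g y :=
    ev_eq (c := c) (hf.mono fun y hy => (d1 _ y).mul hy) (hg.mono fun y hy => (d1 _ y).mul hy)
      (h.mono fun y hy ho => by rw [hy ho, e, MON.xm_add _ _ ho, mul_assoc])
  filter_upwards [(tend_prj hz).eventually h1] with y hy ho
  rw [xm_prj hc (by simp [hA]), xm_prj hc (by simp [hA]), e, MON.xm_add _ _ ho, mul_assoc] at hy
  exact mul_left_cancel₀ (MON.xm_ne _ ho) hy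

/-- One step of the recursion on the leading terms. -/
theorem step (hc : Inj c) (hz : xi c i z = 0) {h b : ι → ℤ} {N : Finset ι} (hh : h i = 0)
    (hN : i ∈ N) {C c0 g g' s s' : E n → ℂ} (h0 : HolN c0 z) (hs : HolN s z) (hs' : HolN s' z)
    (eC : ∀ᶠ y in 𝓝 z, Off c y → C y = xm c h y * c0 y)
    (eg : ∀ᶠ y in 𝓝 z, Off c y → g y = xm c b y * s y)
    (eg' : ∀ᶠ y in 𝓝 z, Off c y → g' y = xm c b y * s' y)
    (hd : PolH c (-h - ind N - b) (g' - g * C) z) :
    ∀ᶠ y in 𝓝 z, Off c y →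
      s' (prj c {i} y) = xm c h y * c0 (prj c {i} y) * s (prj c {i} y) := by
  obtain ⟨r, hr, er⟩ := hd
  have dN : ∀ y, DifferentiableAt ℂ (xm c (ind N)) y := fun y =>
    MON.diff_xm fun l => Or.inr (by unfold ind; split_ifs <;> norm_num)
  have hg : HolN (fun y => s y * c0 y + xm c (ind N) y * r y) z := by
    filter_upwards [hs, h0, hr] with y a1 a2 a3
    exact (a1.mul a2).add ((dN y).mul a3)
  have e1 : -(-h - ind N - b) = b + (h + ind N) := by ring
  have h1 := restr hc hz hh hs' hg (by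
    filter_upwards [eC, eg, eg', er] with y a1 a2 a3 a4 ho
    have a5 := a4 ho
    rw [Pi.sub_apply, Pi.mul_apply, a1 ho, a2 ho, a3 ho, e1, MON.xm_add _ _ ho,
      MON.xm_add _ _ ho] at a5
    refine mul_left_cancel₀ (MON.xm_ne b ho) ?_
    linear_combination a5)
  filter_upwards [h1] with y hy ho
  have z0 : xm c (ind N) (prj c {i} y) = 0 :=
    Finset.prod_eq_zero (Finset.mem_univ i) (by
      rw [xi_prj0 hz, ind, if_pos hN, zpow_one])
  rw [hy ho, z0]
  ring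

theorem polH_le {G K : ι → ℤ} {F : E n → ℂ} (h : G ≤ K) (hF : PolH c G F z) : PolH c K F z := by
  obtain ⟨s, hs, e⟩ := hF
  refine ⟨fun y => xm c (K - G) y * s y,
    hs.mono fun y hy => (MON.diff_xm fun l => Or.inr (sub_nonneg.2 (h l))).mul hy,
    e.mono fun y hy ho => ?_⟩
  rw [hy ho, ← mul_assoc, ← MON.xm_add _ _ ho, show -K + (K - G) = -G by ring]

end NP

open NP in
theorem kNP (hPEAK : Sk_PEAK) (hITER : Sk_ITER) (hPOLE : Sk_POLE) (hEXC0 : Sk_EXC0)
    (hRST : Sk_RST) (hNUM : Sk_NUM) : Sk_NP := by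
  intro n M _ ι _ _ D R μ' μ B C hJ hC hD d z hz hx i hi hzi c0 h0 eC
  obtain ⟨-, -, hNT, hn⟩ := hNUM n M ι D R μ' μ hJ
  have hc := D.inj d
  have hhi : R.h μ i = 0 := ((hn i).2.2.1 hi).1
  obtain ⟨ρ, hρ1, hρ2⟩ := exists_between (B.lt _ hx)
  have hxW : (D.e d).symm z ∈ Wr B ρ := ⟨hx, hρ1⟩
  obtain ⟨q, F, hq, hF, s, hs, hs0, es⟩ := hPEAK n M ι D R B (-μ') ρ (fun l => -R.fl μ' l) d z i
    hρ2 (fun l => by
      rw [Rk.fl, Rk.dl, ← Int.ceil_neg]
      congr 1
      ring) hz hxW ((hn i).2.1 (hNT hi)).1 hzi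
  have hF' := hEXC0 n M ι D R.a R.ex B ρ _ 0 F hρ2.le (fun l hl => by
    have := ((hn l).2.2.2.2.1 hl).2.1
    have h2 : (0 : ℤ) ≤ q * B.e l := by positivity
    simp only [Nat.cast_zero, zero_mul]
    omega) hF
  obtain ⟨B0, hx0, hs0W, he0⟩ := hRST n M ι D R.a R.ex B ρ _ hρ2.le hxW
  set bt : ι → ℤ := fun l => (R.bt μ i q B.e l : ℤ) with hbt
  have hle : ((fun l => -R.fl μ' l - q * B.e l) ⊓ fun l => ((0 : ℕ) : ℤ) * R.a l) ≤ -bt := by
    intro l
    simp only [Pi.inf_apply, Pi.neg_apply, hbt, Rk.bt, Nat.cast_zero, zero_mul]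
    split_ifs with h1 h2
    · subst h1
      have := ((hn l).2.1 (hNT hi)).2
      push_cast
      omega
    · have a1 := ((hn l).2.1 (Finset.mem_sdiff.1 h2).1).2
      have a2 := (hn l).2.2.2.1 h2
      push_cast
      omega
    · simp
  have hF0 : D.On B0.W fun d z => PolH (D.c d) (-bt) (D.rd F d) z := fun d' z' hz' hx' =>
    polH_le hle (hF' d' z' hz' (hs0W hx'))
  obtain ⟨s0, hs0h, es0⟩ := hF0 d z hz hx0
  rw [neg_neg] at es0
  have key : ∀ m : ℕ, ∃ (B' : Bl D R.a R.ex) (γ : M.X → ℂ) (t : E n → ℂ),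
      (D.e d).symm z ∈ B'.W ∧ B'.W ⊆ B.W ∧ B'.e = B.e ∧
      (D.On B'.W fun d z => PolH (D.c d) (-bt) (D.rd γ d) z) ∧ HolN t z ∧
      (∀ᶠ y in 𝓝 z, Off (D.c d) y → D.rd γ d y = xm (D.c d) bt y * t y) ∧
      ∀ᶠ y in 𝓝 z, Off (D.c d) y → t (prj (D.c d) {i} y) =
        (xm (D.c d) (R.h μ) y * c0 (prj (D.c d) {i} y)) ^ m * s0 (prj (D.c d) {i} y) := by
    intro m
    induction m with
    | zero =>
      exact ⟨B0, F, s0, hx0, fun x hx => (hs0W hx).1, he0, hF0, hs0h, es0,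
        .of_forall fun y _ => by rw [pow_zero, one_mul]⟩
    | succ m ih =>
      obtain ⟨B', γ, t, a1, a2, a3, a4, a5, a6, a7⟩ := ih
      obtain ⟨B'', γ', b1, b2, b3, b4⟩ := hITER n M ι D R μ' μ i q B' C γ _ hJ hi hq a1
        (fun d' z' hz' hx' => hC d' z' hz' (a2 hx'))
        (fun a b x ha hb hx' => hD a b x ha hb (a2 hx')) (by rw [a3]; exact a4)
      rw [a3] at b4
      obtain ⟨⟨t', c1, c2⟩, c3⟩ := b4 d z hz b1
      rw [neg_neg] at c2
      refine ⟨B'', γ', t', b1, b2.trans a2, b3.trans a3, fun d' z' hz' hx' => (b4 d' z' hz' hx').1,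
        c1, c2, ?_⟩
      filter_upwards [step hc hzi hhi hi h0 a5 c1 eC a6 c2 c3, a7] with y e1 e2 ho
      rw [e1 ho, e2 ho]
      ring
  have hne : ¬ (fun y => s0 (prj (D.c d) {i} y)) =ᶠ[𝓝 z] 0 := by
    intro hv
    have hA : ((-fun l => -R.fl μ' l - q * B.e l) - bt) i = 0 := by
      have := ((hn i).2.1 (hNT hi)).2
      simp only [Pi.sub_apply, Pi.neg_apply, hbt, Rk.bt, if_true]
      push_cast
      omega
    have h1 := restr hc hzi hA hs0h hs (by
      filter_upwards [es, es0] with y a1 a2 ho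
      refine mul_left_cancel₀ (MON.xm_ne bt ho) ?_
      rw [← a2 ho, a1 ho, ← mul_assoc, ← MON.xm_add _ _ ho, add_sub_cancel])
    have h2 : ∀ᶠ y in 𝓝 z, s (prj (D.c d) {i} y) ≠ 0 :=
      (tend_prj hzi).eventually (hs.self_of_nhds.continuousAt.eventually_ne hs0)
    obtain ⟨y, ho, a1, a2, a3⟩ := ((MON.off_freq (D.c d) z).and_eventually
      (h1.and (h2.and hv))).exists
    exact mul_ne_zero (MON.xm_ne _ ho) a2 ((a1 ho).symm.trans a3)
  obtain ⟨r, hr, er⟩ := hPOLE n ι (D.c d) (-R.h μ)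
    (fun y => xm (D.c d) (R.h μ) y * c0 (prj (D.c d) {i} y)) _ z hc
    ⟨_, hol_prj hzi h0, .of_forall fun y _ => by rw [neg_neg]⟩ (hol_prj hzi hs0h) hne fun m => by
      obtain ⟨-, -, t, -, -, -, -, a5, -, a7⟩ := key m
      exact ⟨_, hol_prj hzi a5, a7.mono fun y hy ho => by
        rw [hy ho, neg_zero, xm0, one_mul]⟩
  refine ⟨r, hr, er.mono fun y hy ho => ?_⟩
  have a := hy ho
  rw [neg_zero, xm0, one_mul] at a
  rw [MON.xm_neg, ← a, ← mul_assoc, inv_mul_cancel₀ (MON.xm_ne _ ho), one_mul]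

end Pool.Agent.Lib.EXK
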