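import Pool.Agent.Lib.EXK.Blue

/-! Project exk: row NUM, the arithmetic of two consecutive levels. -/

open scoped Classical

noncomputable section

namespace Pool.Agent.Lib.EXK

open Pool.Agent.Lib.HS32 Pool.Agent.Lib.EX

namespace NUM

variable {n : ℕ} {M : Mf n} {ι : Type} [Fintype ι] [DecidableEq ι] {D : Ad M ι} (R : Rk D)

theorem mem_T (μ : ℝ) (i : ι) : i ∈ R.T μ ↔ 1 ≤ R.fl μ i ∧ R.dl μ i = R.fl μ i := by
  simp only [Rk.T, Finset.mem_filter, Finset.mem_univ, true_and, Rk.fl, Int.le_floor,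
    Int.cast_one]

theorem mem_N (μ : ℝ) (i : ι) : i ∈ R.N μ ↔ R.fl μ i = 1 ∧ R.dl μ i = R.fl μ i := by
  simp only [Rk.N, Finset.mem_filter, Finset.mem_univ, true_and, Rk.fl]
  exact ⟨fun h => by simp [h], fun h => by rw [h.2, h.1, Int.cast_one]⟩

theorem key {μ' μ : ℝ} (h : R.Jp μ' μ) (i : ι) :
    (R.a i = 0 ∧ R.fl μ' i = R.fl μ i ∧ R.fl μ i ≤ 0) ∨ R.a i ≠ 0 ∧
      ((R.dl μ i = R.fl μ i ∧ R.fl μ' i + 1 = R.fl μ i) ∨
        ¬R.dl μ i = R.fl μ i ∧ R.fl μ' i = R.fl μ i) := by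
  by_cases ha : R.a i = 0
  · refine Or.inl ⟨ha, by simp [Rk.fl, Rk.dl, ha], Int.lt_add_one_iff.1 (Int.floor_lt.2 ?_)⟩
    have h1 : (-(R.m : ℝ)) < R.k i := by exact_mod_cast (R.off i ha).1
    have h2 : (0 : ℝ) < R.m := Nat.cast_pos.2 R.m0
    have h3 : -1 < (R.k i : ℝ) / R.m := by
      rw [lt_div_iff₀ h2]
      linarith
    simp only [Rk.dl, ha, Nat.cast_zero, mul_zero, zero_add, Int.cast_one]
    linarith
  · refine Or.inr ⟨ha, ?_⟩
    have h1 := h.nxt i ha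
    by_cases hp : R.dl μ i = R.fl μ i
    · exact Or.inl ⟨hp, by rw [h1, hp, Int.ceil_intCast]⟩
    · refine Or.inr ⟨hp, add_right_cancel (h1.trans (Int.ceil_eq_iff.2 ⟨?_, ?_⟩))⟩
      · push_cast
        have := lt_of_le_of_ne (Int.floor_le (R.dl μ i)) (Ne.symm hp)
        simp only [Rk.fl]
        linarith
      · push_cast
        exact (Int.lt_floor_add_one _).le

theorem key' {μ' μ : ℝ} (h : R.Jp μ' μ) (i : ι) : ∃ p : ℕ, (R.dl μ i = R.fl μ i ↔ p = 0) ∧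
    ((R.a i = 0 ∧ R.fl μ' i = R.fl μ i ∧ R.fl μ i ≤ 0) ∨ R.a i ≠ 0 ∧
      ((p = 0 ∧ R.fl μ' i + 1 = R.fl μ i) ∨ p ≠ 0 ∧ R.fl μ' i = R.fl μ i)) := by
  have h1 := key R h i
  by_cases hp : R.dl μ i = R.fl μ i
  · exact ⟨0, iff_of_true hp rfl, h1.imp id (And.imp id (Or.imp (And.imp_left fun _ => rfl)
      fun h2 => absurd hp h2.1))⟩
  · exact ⟨1, iff_of_false hp one_ne_zero, h1.imp id (And.imp id (Or.imp
      (fun h2 => absurd h2.1 hp) (And.imp_left fun _ => one_ne_zero)))⟩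

end NUM

open NUM in
theorem kNUM : Sk_NUM := by
  intro n M ι _ _ D R μ' μ h
  refine ⟨funext fun i => ?_, funext fun i => ?_, fun i hi => ?_, fun i => ?_⟩
  · obtain ⟨p, hp, h1⟩ := key' R h i
    simp only [Rk.nu, Rk.h, Pi.sup_apply, Pi.sub_apply, Pi.zero_apply, ind, mem_T, hp]
    split_ifs <;> omega
  · obtain ⟨p, hp, h1⟩ := key' R h i
    simp only [Rk.nu, Pi.add_apply, ind, mem_T, hp]
    split_ifs <;> omega
  · rw [mem_N] at hi
    exact (mem_T R μ i).2 ⟨hi.1.ge, hi.2⟩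
  · obtain ⟨p, hp, h1⟩ := key' R h i
    have h2 : i ∉ R.ex → 0 ≤ R.fl μ' i := fun hi => Int.floor_nonneg.2 (h.eff i hi)
    have h3 : 0 ≤ R.dl μ i ↔ 0 ≤ R.fl μ i := Int.floor_nonneg.symm
    have h4 : 1 ≤ R.dl μ' i ↔ 1 ≤ R.fl μ' i := by simp only [Rk.fl, Int.le_floor, Int.cast_one]
    have h5 : R.a i = 0 → R.k i = 0 → R.fl μ i = 0 := fun ha hk => by simp [Rk.fl, Rk.dl, ha, hk]
    simp only [Rk.nu, Rk.h, Pi.add_apply, Pi.sub_apply, ind, Finset.mem_sdiff, mem_T, mem_N, h3, h4,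
      hp]
    refine ⟨?_, ?_, ?_, ?_, fun he => ?_, fun ha hk => ?_, ?_, ?_, ?_⟩
    · omega
    · split_ifs <;> omega
    · split_ifs <;> omega
    · split_ifs <;> omega
    · have := h2 he
      split_ifs <;> omega
    · have := h5 ha hk
      split_ifs <;> omega
    · split_ifs <;> omega
    · split_ifs <;> omega
    · omega

end Pool.Agent.Lib.EXK
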