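import Pool.Agent.Lib.EXK.Blue
import Pool.Agent.Lib.EXS.B_RV
import Pool.Agent.Lib.SV.B_ZER
import Pool.Agent.Lib.SV.B_NINT

/-! Project exk: peak sections. -/

open scoped Classical Topology ContDiff ComplexOrder Matrix
open Set MeasureTheory Complex Metric Filter

set_option linter.unusedSectionVars false

noncomputable section

namespace Pool.Agent.Lib.EXK

open Pool.Agent.Lib.SV (E nsq nsq_nonneg)
open Pool.Agent.Lib.HS32 Pool.Agent.Lib.EX Pool.Agent.Lib.EXS.K32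

variable {n : ℕ} {ι : Type} [Fintype ι] [DecidableEq ι] {M : Mf n}

namespace PEAK

theorem nq_bd (A : Mat n) (v : E n) : |nq A v| ≤ (∑ i, ∑ j, ‖A i j‖) * ‖v‖ ^ 2 := by
  refine (abs_re_le_norm _).trans ((norm_sum_le _ _).trans ?_)
  rw [Finset.sum_mul]
  refine Finset.sum_le_sum fun i _ => ?_
  rw [norm_mul, Pi.star_apply, norm_star, sq, ← mul_assoc, mul_comm]
  refine mul_le_mul ?_ (norm_le_pi_norm v i) (norm_nonneg _) (by positivity)
  refine (norm_sum_le Finset.univ fun j => A i j * v j).trans ?_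
  rw [Finset.sum_mul]
  refine Finset.sum_le_sum fun j _ => ?_
  rw [norm_mul]
  exact mul_le_mul_of_nonneg_left (norm_le_pi_norm v j) (norm_nonneg _)

theorem sq_le_nsq (v : E n) : ‖v‖ ^ 2 ≤ nsq v := by
  have h : ‖v‖ ≤ √(nsq v) := (pi_norm_le_iff_of_nonneg (Real.sqrt_nonneg _)).2 fun j => by
    refine Real.le_sqrt_of_sq_le ?_
    rw [← normSq_eq_norm_sq]
    exact Finset.single_le_sum (f := fun i => normSq (v i)) (fun _ _ => normSq_nonneg _)
      (Finset.mem_univ j)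
  exact (pow_le_pow_left₀ (norm_nonneg _) h 2).trans_eq (Real.sq_sqrt (nsq_nonneg _))

/-- The logarithmic pole. -/
def psi {z₀ : E n} (f : ContDiffBump z₀) (y : E n) : ℝ := f y * Real.log (nsq (y - z₀))

variable {z₀ : E n} (f : ContDiffBump z₀)

theorem lg_sm {y : E n} (hy : y ≠ z₀) : ContDiffAt ℝ ∞ (fun w => Real.log (nsq (w - z₀))) y ∧
    ∀ v, 0 ≤ lv (fun w => Real.log (nsq (w - z₀))) y v := by
  have h : HolN (fun w : E n => w - z₀) y := .of_forall fun w => by fun_prop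
  obtain ⟨a, b⟩ := lv_lg h (sub_ne_zero.2 hy)
  exact ⟨a, fun v => (b v).1⟩

theorem psi_sm {y : E n} (hy : y ≠ z₀) : ContDiffAt ℝ ∞ (psi f) y :=
  f.contDiff.contDiffAt.mul (lg_sm hy).1

theorem psi_out {y : E n} (hy : y ∉ closedBall z₀ f.rOut) : psi f =ᶠ[𝓝 y] fun _ => 0 := by
  filter_upwards [isClosed_closedBall.isOpen_compl.mem_nhds hy] with w hw
  rw [psi, f.zero_of_le_dist (le_of_lt (not_le.1 hw)), zero_mul]

theorem psi_in {y : E n} (hy : y ∈ ball z₀ f.rIn) :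
    psi f =ᶠ[𝓝 y] fun w => Real.log (nsq (w - z₀)) := by
  filter_upwards [isOpen_ball.mem_nhds hy] with w hw
  rw [psi, f.one_of_mem_closedBall (ball_subset_closedBall hw), one_mul]

theorem psi_lv : ∃ C, 0 ≤ C ∧ ∀ y, y ≠ z₀ → ∀ v, -(C * ‖v‖ ^ 2) ≤ lv (psi f) y v := by
  have hK : IsCompact (closedBall z₀ f.rOut \ ball z₀ f.rIn) :=
    (isCompact_closedBall _ _).diff isOpen_ball
  obtain ⟨C, hC⟩ := hK.bddAbove_image
    (f := fun y => ∑ i, ∑ j, ‖hess (fun x => (psi f x : ℂ)) y i j‖) fun y hy => by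
      have h0 : y ≠ z₀ := fun e => hy.2 (by rw [e]; exact mem_ball_self f.rIn_pos)
      exact (tendsto_finsetSum _ fun i _ => tendsto_finsetSum _ fun j _ =>
        (smM_hess (cd_ofReal (psi_sm f h0)) i j).continuousAt.norm).mono_left nhdsWithin_le_nhds
  refine ⟨max C 0, le_max_right _ _, fun y hy v => ?_⟩
  have h0 : -(max C 0 * ‖v‖ ^ 2) ≤ 0 := neg_nonpos.2 (by positivity)
  by_cases h1 : y ∈ ball z₀ f.rIn
  · rw [lv_congr (psi_in f h1)]
    exact h0.trans ((lg_sm hy).2 v)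
  by_cases h2 : y ∈ closedBall z₀ f.rOut
  · exact neg_le_of_abs_le ((nq_bd _ v).trans (mul_le_mul_of_nonneg_right
      ((hC ⟨y, ⟨h2, h1⟩, rfl⟩).trans (le_max_left _ _)) (sq_nonneg _)))
  · rw [lv_congr (psi_out f h2), lv_const]
    exact h0

theorem psi_le (y : E n) : psi f y ≤ nsq (y - z₀) :=
  (mul_le_mul_of_nonneg_left (Real.log_le_self (nsq_nonneg _)) f.nonneg).trans
    (mul_le_of_le_one_left (nsq_nonneg _) f.le_one)

theorem psi_ge {y : E n} (hy : y ∉ ball z₀ f.rIn) : -|Real.log (f.rIn ^ 2)| ≤ psi f y := by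
  have h1 : f.rIn ^ 2 ≤ nsq (y - z₀) := (pow_le_pow_left₀ f.rIn_pos.le
    (by simpa [dist_eq_norm] using hy) 2).trans (sq_le_nsq _)
  have h2 := Real.log_le_log (pow_pos f.rIn_pos 2) h1
  have h3 := mul_le_mul_of_nonneg_left ((neg_abs_le _).trans h2) (f.nonneg (x := y))
  have h4 := mul_le_of_le_one_left (abs_nonneg (Real.log (f.rIn ^ 2))) (f.le_one (x := y))
  rw [psi]
  linarith

variable {D : Ad M ι} {R : Rc D} {B : Bl D R.a R.ex} {t : ℝ} {P : ι → ℤ} (S : Su R B t P)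
  {d : D.A} {z : E n}

/-- The local data with an additional weight. -/
theorem dat {U : Set M.X} {X : M.X → ℝ} {Γ : M.X → ℂ} {s : E n → ℂ} {y₀ : M.X}
    (h0 : y₀ ∈ B.W) (h1 : S.j y₀ ≠ 0) (hz : z ∈ B2 n) (hw : (D.e d).symm z ∈ B.W)
    (h : ∃ c C : ℝ, 0 < c ∧ ∀ᶠ y in 𝓝 z, ContDiffAt ℝ ∞ s y ∧ (D.rd S.j d y ≠ 0 → ContDiffAt ℝ ∞ (D.rd X d) y ∧
      (∀ v, c * ‖v‖ ^ 2 ≤ lv (S.u d) y v + lv (D.rd X d) y v) ∧ D.rd X d y ≤ C ∧
      D.rd Γ d y = s y / xm (D.c d) P y ∧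
      ‖fun i => dzb i s y‖ ^ 2 * Real.exp (-D.rd X d y) ≤ C)) :
    (D.rd S.j d z ≠ 0 → ContDiffAt ℝ ∞ (D.rd (fun x => S.ph x + X x) d) z) ∧
    ∃ V c', Dat2 U {y | y ∈ U ∧ S.j y ≠ 0} S.q (fun x => S.ph x + X x) Γ (D.e d) V
      (D.rd S.j d) (xm (D.c d) P) (fun _ => 0) s
      (fun w => S.b d w * xr (D.c d) S.r w * Real.exp (-D.rd X d w)) c' ∧ z ∈ V ∧
      ∀ y ∈ V, D.rd S.j d y ≠ 0 → c' ≤ S.b d y * xr (D.c d) S.r y := by
  obtain ⟨c, C, c0, h⟩ := h
  refine ⟨fun hj => (S.ph_sm hz hw hj).1.add (h.self_of_nhds.2 hj).1, ?_⟩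
  have b0 : 0 < S.b d z := Real.exp_pos _
  obtain ⟨V, v1, v2, v3⟩ := _root_.eventually_nhds_iff.1 ((on_ev B.opn hz hw).and (h.and
    (((S.b_cont hz hw).eventually (lt_mem_nhds (half_lt_self b0))).and
      ((S.b_cont hz hw).eventually (gt_mem_nhds (lt_add_one _))))))
  have jh : ∀ y ∈ V, HolN (D.rd S.j d) y := fun y hy => S.j_hol (v1 y hy).1.1 (v1 y hy).1.2
  have lo : ∀ y ∈ V, D.rd S.j d y ≠ 0 →
      S.b d z / 2 * 4⁻¹ ^ Fintype.card ι ≤ S.b d y * xr (D.c d) S.r y := fun y hy hj => by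
    obtain ⟨⟨b1, b2⟩, -, b3, -⟩ := v1 y hy
    exact mul_le_mul b3.le (xr_low S.r0 b1 (S.den b1 b2 hj).1) (by positivity) (Real.exp_pos _).le
  have x0 : ∀ y, 0 ≤ xr (D.c d) S.r y := fun y =>
    Finset.prod_nonneg fun i _ => Real.rpow_nonneg (normSq_nonneg _) _
  refine ⟨V, min c (S.b d z / 2 * 4⁻¹ ^ Fintype.card ι * min 1 (Real.exp (-C))),
    ⟨D.mem d, v2, fun y hy => tg (v1 y hy).1.1,
      lt_min c0 (by positivity), fun y hy => (jh y hy).self_of_nhds.differentiableWithinAt,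
      fun y hy => not_zero B.con (fun x hx => ?_) h0 h1 (tg (v1 y hy).1.1) (v1 y hy).1.2,
      fun y hy => Iff.rfl, fun y hy => (v1 y hy).2.1.1, fun y hy ho => ?_, fun y hy ho v => ?_,
      fun y hy ho => ?_, ?_⟩, v3, fun y hy hj => (min_le_right _ _).trans
        ((mul_le_of_le_one_right (by positivity) (min_le_left _ _)).trans (lo y hy hj))⟩
  · obtain ⟨d', hd⟩ := ex_ch D x
    exact ⟨_, hd, on_at (p := fun d z => HolN (D.rd S.j d) z) (fun _ _ => S.j_hol) hd hx⟩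
  · obtain ⟨⟨b1, b2⟩, b4, -⟩ := v1 y hy
    have b3 := (S.den b1 b2 ho.2).2.1
    exact ⟨(xm_hol fun i hi => b3 i hi.ne).self_of_nhds, xm_ne b3, differentiableAt_const _,
      (b4.2 ho.2).2.2.2.1.trans (zero_add _).symm⟩
  · obtain ⟨⟨b1, b2⟩, b4, -⟩ := v1 y hy
    obtain ⟨b5, b6⟩ := S.ph_sm b1 b2 ho.2
    refine ((mul_le_mul_of_nonneg_right (min_le_left _ _) (sq_nonneg _)).trans
      ((b4.2 ho.2).2.1 v)).trans_eq ?_
    rw [← b6 v]
    exact (lv_add b5 (b4.2 ho.2).1 v).symm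
  · obtain ⟨⟨b1, b2⟩, b4, -⟩ := v1 y hy
    refine ⟨(min_le_right _ _).trans (mul_le_mul (lo y hy ho.2) ((min_le_right _ _).trans
      (Real.exp_le_exp.2 (neg_le_neg (b4.2 ho.2).2.2.1))) (by positivity)
      (mul_nonneg (Real.exp_pos _).le (x0 y))), ?_⟩
    have b5 := (S.den b1 b2 ho.2).2.2
    rw [neg_add, Real.exp_add, mul_right_comm, ← mul_assoc]
    exact congrArg (· * _) b5
  · have i1 := ((xr_int (D.inj d) fun i => (S.r0 i).1).const_mul
      ((S.b d z + 1) * |C|)).lintegral_lt_top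
    have hO : IsOpen (V ∩ {y | D.rd S.j d y ≠ 0}) :=
      ContinuousOn.isOpen_inter_preimage
        (fun y hy => (jh y hy).self_of_nhds.continuousAt.continuousWithinAt) v2 isOpen_ne
    refine ne_top_of_le_ne_top (ne_top_of_le_ne_top i1.ne (lintegral_mono_set
      (s := V ∩ {y | D.rd S.j d y ≠ 0}) fun y hy => (v1 y hy.1).1.1))
      ((lintegral_mono_set (t := V ∩ {y | D.rd S.j d y ≠ 0}) fun y hy => ⟨hy.1, hy.2.2⟩).trans
        (setLIntegral_mono_ae' hO.measurableSet (ae_of_all _ fun y hy => ?_)))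
    obtain ⟨-, b4, -, b5⟩ := v1 y hy.1
    have b6 := (b4.2 hy.2).2.2.2.2.trans (le_abs_self C)
    refine ENNReal.ofReal_le_ofReal ?_
    have b7 := mul_le_mul b5.le b6 (by positivity) (by positivity)
    calc _ = S.b d y * (‖fun i => dzb i s y‖ ^ 2 * Real.exp (-D.rd X d y)) *
          xr (D.c d) S.r y := by ring
      _ ≤ _ := mul_le_mul_of_nonneg_right b7 (x0 y)

theorem u1_pos (hz : z ∈ B2 n) (hw : (D.e d).symm z ∈ B.W) :
    ContDiffAt ℝ ∞ (fun y => Real.log (nsq (B.t d y))) z ∧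
    ContDiffAt ℝ ∞ (fun y => nsq (D.rd B.p d y)) z ∧
    (∀ v, 0 ≤ lv (fun y => nsq (D.rd B.p d y)) z v) ∧
    ∀ v, v ≠ 0 → 0 < lv (fun y => Real.log (nsq (B.t d y)) + nsq (D.rd B.p d y)) z v := by
  obtain ⟨h1, h2, -⟩ := B.thol d z hz hw
  obtain ⟨h3, h4⟩ := lv_lg h1 h2
  have h5 := B.phol d z hz hw
  refine ⟨h3, cd_nsq h5, fun v => by rw [lv_nsq h5]; exact nsq_nonneg _, fun v hv => ?_⟩
  rw [lv_add h3 (cd_nsq h5), lv_nsq h5]
  by_cases h : fderiv ℂ (D.rd B.p d) z v = 0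
  · exact add_pos_of_pos_of_nonneg ((h4 v).2 fun c hc => hv
      (B.imm d z hz hw v c h hc)) (nsq_nonneg _)
  · exact add_pos_of_nonneg_of_pos (h4 v).1 (nsq_pos h)

theorem polH_of {U O : Set M.X} {q : M.X → E n} {ph : M.X → ℝ} {Γ F : M.X → ℂ} {V : Set (E n)}
    {j s k : E n → ℂ} {δ : E n → ℝ} {c : ℝ}
    (h : Dat2 U O q ph Γ (D.e d) V j (xm (D.c d) P) (fun _ => 0) s δ c) (hU : IsOpen U)
    (hz : z ∈ V ∩ (D.e d).symm ⁻¹' U) (h5 : DifferentiableOn ℂ k (V ∩ (D.e d).symm ⁻¹' U))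
    (h6 : ∀ z ∈ V ∩ (D.e d).symm ⁻¹' U, ContinuousAt (fun _ : E n => (0 : ℂ)) z →
      ContinuousAt (xm (D.c d) P) z → xm (D.c d) P z ≠ 0 →
      F ((D.e d).symm z) = 0 + k z / xm (D.c d) P z) :
    HolN k z ∧ ∀ᶠ y in 𝓝 z, Off (D.c d) y → D.rd F d y = xm (D.c d) (-P) y * k y := by
  have ho := pre_open h.opn h.sub hU
  refine ⟨(ho.eventually_mem hz).mono fun y hy => h5.differentiableAt (ho.mem_nhds hy),
    (ho.eventually_mem hz).mono fun y hy hy' => ?_⟩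
  rw [Ad.rd, h6 y hy continuousAt_const (MON.diff_xm fun i => Or.inl (hy' i)).continuousAt
    (MON.xm_ne P hy'), zero_add, MON.xm_neg, div_eq_inv_mul]

theorem core [M.Cpt] (hRV : Sk_RV2) (R : Rc D) (B : Bl D R.a R.ex) (t ρ : ℝ) (P : ι → ℤ)
    (d₀ : D.A) (z₀ : E n) (i : ι) (hρ : ρ < 1) (hP : ∀ l, P l = ⌈t * R.a l + R.k l / R.m⌉)
    (hz : z₀ ∈ B2 n) (hw : (D.e d₀).symm z₀ ∈ Wr B ρ) (ha : R.a i ≠ 0)
    (hi : xi (D.c d₀) i z₀ = 0) : ∃ (q : ℕ) (F : M.X → ℂ), 0 < q ∧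
    (D.On (Wr B ρ) fun d z => PolH (D.c d) (fun l => P l - q * B.e l) (D.rd F d) z) ∧
    ∃ s, HolN s z₀ ∧ s z₀ ≠ 0 ∧ ∀ᶠ y in 𝓝 z₀, Off (D.c d₀) y →
      D.rd F d₀ y = xm (D.c d₀) (-fun l => P l - q * B.e l) y * s y := by
  obtain ⟨S₀, y₀, h0, h1⟩ := ex_su R B t hP ⟨_, hw.1⟩
  obtain ⟨a1, a2, -, a3⟩ := u1_pos (R := R) hz hw.1
  obtain ⟨c, c0, a4⟩ := lv_near (a1.add a2) a3
  obtain ⟨r, r0, hr⟩ := Metric.nhds_basis_closedBall.eventually_iff.1 (a4.and (on_ev B.opn hz hw.1))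
  let f : ContDiffBump z₀ := ⟨r / 2, r, half_pos r0, half_lt_self r0⟩
  obtain ⟨C, C0, hC⟩ := psi_lv f
  obtain ⟨q, hq⟩ := exists_nat_gt (n * C / c)
  rw [div_lt_iff₀ c0] at hq
  have q0 : (0 : ℝ) < q :=
    (mul_pos_iff_of_pos_right c0).1 ((by positivity : (0 : ℝ) ≤ n * C).trans_lt hq)
  let S : Su R B t fun l => P l - q * B.e l := ⟨S₀.q, S₀.l, S₀.H, S₀.J, q, S₀.g, S₀.J0, q0, S₀.hq,
    S₀.hH, S₀.hg, S₀.g0, S₀.gz, fun l hl => by simp [S₀.pz l hl, ((S₀.gz l).1 hl).2.1], fun l => by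
      have b1 := Int.ceil_lt_add_one (t * R.a l + R.k l / R.m)
      have b2 := Int.le_ceil (t * R.a l + R.k l / R.m)
      rw [hP]
      push_cast
      constructor <;> linarith⟩
  have h1' : S.j y₀ ≠ 0 := h1
  have hj0 : D.rd S.j d₀ z₀ = 0 := by
    by_contra h
    exact (S.j_ne hz hw.1 h).2 i (fun h2 => ha ((S.gz i).1 h2).1) hi
  let X : M.X → ℝ := fun x => q * nsq (B.p x) +
    n * if x ∈ (D.e d₀).source then psi f (D.e d₀ x) else 0
  let Γ : M.X → ℂ := fun x => if x ∈ (D.e d₀).source then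
    (f (D.e d₀ x) : ℂ) / xm (D.c d₀) (fun l => P l - q * B.e l) (D.e d₀ x) else 0
  let K : Set M.X := (D.e d₀).symm '' closedBall z₀ r
  have hK : IsClosed K := ((isCompact_closedBall z₀ r).image_of_continuousOn
    ((D.e d₀).continuousOn_symm.mono fun y hy => tg (hr hy).2.1)).isClosed
  have X0 : ∀ y ∈ B2 n, D.rd X d₀ y = q * nsq (D.rd B.p d₀ y) + n * psi f y := fun y hy => by
    simp only [Ad.rd, X, if_pos (TRF.mem_src D hy), TRF.rinv D hy]
  have kA := fun (z : E n) (hz : z ∈ B2 n) (hw : (D.e d₀).symm z ∈ B.W) =>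
    dat S (U := Wr B ρ) (X := X) (Γ := Γ) (s := fun w => (f w : ℂ)) h0 h1' hz hw <| by
    have b1 := (u1_pos (R := R) hz hw).2.1
    have b4 : ContinuousAt (fun y => q * nsq (D.rd B.p d₀ y) + n * nsq (y - z₀)) z :=
      (continuousAt_const.mul b1.continuousAt).add (continuousAt_const.mul
        (cd_nsq (F := fun y => y - z₀) (.of_forall fun w => by fun_prop)).continuousAt)
    have b5 : ∀ y, ContDiffAt ℝ ∞ (fun w => (f w : ℂ)) y := fun y => cd_ofReal f.contDiff.contDiffAt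
    have b6 : ContinuousAt (fun w => ‖fun i => dzb i (fun w => (f w : ℂ)) w‖ ^ 2 *
        Real.exp (n * |Real.log (f.rIn ^ 2)|)) z :=
      ((continuousAt_pi.2 fun i => (cd_dzb (b5 z) i).continuousAt).norm.pow 2).mul
        continuousAt_const
    obtain ⟨c₁, b2, b3⟩ := lv_near (S.u_sm hz hw).1 (S.u_sm hz hw).2
    have b7 := b4.eventually (gt_mem_nhds (lt_add_one _))
    have b8 := b6.eventually (gt_mem_nhds (lt_add_one _))
    generalize (fun y => q * nsq (D.rd B.p d₀ y) + n * nsq (y - z₀)) z + 1 = A₁ at b7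
    generalize (fun w => ‖fun i => dzb i (fun w => (f w : ℂ)) w‖ ^ 2 *
        Real.exp (n * |Real.log (f.rIn ^ 2)|)) z + 1 = A₂ at b8
    refine ⟨min c₁ (q * c - n * C), max A₁ A₂, lt_min b2 (sub_pos.2 hq), ?_⟩
    · filter_upwards [on_ev B.opn hz hw, b3, b7, b8] with y e1 e2 e3 e4
      refine ⟨b5 y, fun hj => ?_⟩
      have e5 : y ≠ z₀ := fun e => hj (e ▸ hj0)
      obtain ⟨e6, e7, e8, -⟩ := u1_pos (R := R) e1.1 e1.2
      have e9 : D.rd X d₀ =ᶠ[𝓝 y] fun y => q * nsq (D.rd B.p d₀ y) + n * psi f y :=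
        (isOpen_ball.eventually_mem e1.1).mono X0
      have e10 := (contDiffAt_const (c := (q : ℝ))).mul e7
      have e11 := (contDiffAt_const (c := (n : ℝ))).mul (psi_sm f e5)
      refine ⟨(e10.add e11).congr_of_eventuallyEq e9, fun v => ?_, le_max_of_le_left ?_, ?_,
        le_max_of_le_right ?_⟩
      · rw [lv_congr e9, lv_add e10 e11, lv_mul e7, lv_mul (psi_sm f e5)]
        by_cases e12 : y ∈ closedBall z₀ r
        · refine (mul_le_mul_of_nonneg_right (min_le_right _ _) (sq_nonneg _)).trans ?_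
          have e13 := mul_le_mul_of_nonneg_left ((hr e12).1 v) q0.le
          have e14 := mul_le_mul_of_nonneg_left (hC y e5 v) n.cast_nonneg
          have e15 : lv (S.u d₀) y v = _ :=
            lv_add ((contDiffAt_const (c := (q : ℝ))).mul e6) e7 v
          rw [lv_add e6 e7] at e13
          rw [e15, lv_mul e6]
          nlinarith [e8 v]
        · rw [lv_congr (psi_out f e12), lv_const]
          have e13 := (mul_le_mul_of_nonneg_right (min_le_left _ (q * c - n * C))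
            (sq_nonneg ‖v‖)).trans (e2 v)
          nlinarith [mul_nonneg q0.le (e8 v)]
      · rw [X0 y e1.1]
        exact le_trans (by nlinarith [mul_le_mul_of_nonneg_left (psi_le f y) n.cast_nonneg]) e3.le
      · simp only [Ad.rd, Γ, if_pos (TRF.mem_src D e1.1), TRF.rinv D e1.1]
      · refine le_trans ?_ e4.le
        by_cases e12 : y ∈ ball z₀ f.rIn
        · have : (fun i => dzb i (fun w => (f w : ℂ)) y) = 0 := funext fun i => by
            rw [dzb_congr (g := fun _ => 1) ((isOpen_ball.eventually_mem e12).mono fun w hw => by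
              simp [f.one_of_mem_closedBall (ball_subset_closedBall hw)]), dzb_const]
            rfl
          simp [this]
        · refine mul_le_mul_of_nonneg_left (Real.exp_le_exp.2 ?_) (sq_nonneg _)
          rw [X0 y e1.1]
          nlinarith [mul_le_mul_of_nonneg_left (psi_ge f e12) n.cast_nonneg,
            mul_nonneg q0.le (nsq_nonneg (D.rd B.p d₀ y))]
  have kB := fun (d : D.A) (z : E n) (hz : z ∈ B2 n) (hw : (D.e d).symm z ∈ B.W)
      (hk : (D.e d).symm z ∉ K) =>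
    dat S (U := Wr B ρ) (X := X) (Γ := Γ) (s := fun _ => 0) h0 h1' hz hw <| by
    have b1 := (u1_pos (R := R) hz hw).2.1
    have b4 : ContinuousAt (fun y => q * nsq (D.rd B.p d y)) z :=
      continuousAt_const.mul b1.continuousAt
    have b5 : ∀ x, x ∉ K → x ∈ (D.e d₀).source → f (D.e d₀ x) = 0 := fun x hx hx' =>
      f.zero_of_le_dist (le_of_lt (not_le.1 fun h => hx ⟨_, h, (D.e d₀).left_inv hx'⟩))
    have b6 := on_ev (d := d) hK.isOpen_compl hz hk
    have b7 : ∀ y, (D.e d).symm y ∉ K → D.rd X d y = q * nsq (D.rd B.p d y) := fun y hy => by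
      simp only [Ad.rd, X]
      split_ifs with h
      · rw [psi, b5 _ hy h]; ring
      · ring
    obtain ⟨c₁, b2, b3⟩ := lv_near (S.u_sm hz hw).1 (S.u_sm hz hw).2
    have b8 := b4.eventually (gt_mem_nhds (lt_add_one _))
    generalize (fun y => q * nsq (D.rd B.p d y)) z + 1 = A₁ at b8
    refine ⟨c₁, max A₁ 0, b2, ?_⟩
    · filter_upwards [on_ev B.opn hz hw, b3, b8, b6.eventually_nhds] with y e1 e2 e3 e4
      refine ⟨contDiffAt_const, fun hj => ?_⟩
      obtain ⟨-, e7, e8, -⟩ := u1_pos (R := R) e1.1 e1.2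
      have e9 : D.rd X d =ᶠ[𝓝 y] fun y => q * nsq (D.rd B.p d y) := e4.mono fun w hw => b7 w hw.2
      refine ⟨((contDiffAt_const (c := (q : ℝ))).mul e7).congr_of_eventuallyEq e9, fun v => ?_,
        le_max_of_le_left (e9.self_of_nhds.trans_le e3.le), ?_, le_max_of_le_right ?_⟩
      · rw [lv_congr e9, lv_mul e7]
        linarith [e2 v, mul_nonneg q0.le (e8 v)]
      · simp only [Ad.rd, Γ]
        split_ifs with h
        · simp [b5 _ e4.self_of_nhds.2 h]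
        · simp
      · have : (fun i => dzb i (fun _ : E n => (0 : ℂ)) y) = 0 := funext fun i => dzb_const 0
        rw [this, norm_zero, zero_pow two_ne_zero, zero_mul]
  obtain ⟨hU, F, hF⟩ := hRV n M B.N B.W (Wr B ρ) _ B.p S.q S.j Γ (fun x => S.ph x + X x) ρ B.opn
    (fun r hr => B.cpt r (hr.trans_lt hρ)) rfl rfl fun y hy => by
      have hc : ∃ d, y ∈ (D.e d).source ∧ (d = d₀ ∨ y ∉ K) := by
        by_cases h : y ∈ K
        · obtain ⟨w, h2, rfl⟩ := h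
          exact ⟨d₀, TRF.mem_src D (hr h2).2.1, Or.inl rfl⟩
        · obtain ⟨d, hd⟩ := ex_ch D y
          exact ⟨d, hd, Or.inr h⟩
      obtain ⟨d, hd, hc⟩ := hc
      have h2 := TRF.mem_B D hd
      have h3 := (D.e d).left_inv hd
      have h4 : (D.e d).symm (D.e d y) ∈ B.W := by rwa [h3]
      have h7 : S.j y ≠ 0 → D.rd S.j d (D.e d y) ≠ 0 := fun h => by rwa [Ad.rd, h3]
      rcases hc with rfl | hc
      · obtain ⟨h8, V, c', h5, h6, -⟩ := kA _ h2 h4
        exact ⟨_, D.mem d, hd, B.phol d _ h2 h4, S.hq d _ h2 h4, S.j_hol h2 h4,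
          fun h => ⟨(S.j_ne h2 h4 (h7 h)).1, h8 (h7 h)⟩, V, _, _, _, _, _, _, h5, h6⟩
      · obtain ⟨h8, V, c', h5, h6, -⟩ := kB d _ h2 h4 (by rwa [h3])
        exact ⟨_, D.mem d, hd, B.phol d _ h2 h4, S.hq d _ h2 h4, S.j_hol h2 h4,
          fun h => ⟨(S.j_ne h2 h4 (h7 h)).1, h8 (h7 h)⟩, V, _, _, _, _, _, _, h5, h6⟩
  refine ⟨q, F, Nat.cast_pos.1 q0, fun d z hz hw => ?_, ?_⟩
  · by_cases h : (D.e d).symm z ∈ K
    · obtain ⟨w, h2, h3⟩ := h
      have h4 := (hr h2).2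
      obtain ⟨-, V, c', h5, h6, -⟩ := kA w h4.1 h4.2
      obtain ⟨k, h7, h8, -⟩ := hF _ _ _ _ _ _ _ _ h5
      have h9 : PolH (D.c d₀) (fun l => P l - q * B.e l) (D.rd F d₀) (D.e d₀ ((D.e d).symm z)) := by
        rw [← h3, TRF.rinv D h4.1]
        exact ⟨k, polH_of h5 hU ⟨h6, by rw [mem_preimage, h3]; exact hw⟩ h7 h8⟩
      have h10 : (D.e d).symm z ∈ (D.e d₀).source := h3 ▸ TRF.mem_src D h4.1
      have h11 := TRF.mem_src (a := d) D hz
      obtain ⟨s, h12, h13⟩ := (((bTRF n M ι D).2.2.2 d₀ d _ h10 h11).2.2.2.2.2.2.2.2 _ ∅ 0 _).2.1 h9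
      have h14 := TRF.near D h10 h11
      rw [TRF.rinv D hz] at h12 h13 h14
      refine ⟨s, h12, ?_⟩
      filter_upwards [h13, h14] with y e1 e2 e3
      rw [← e1 e3, Ad.tr, Ad.rd, Ad.rd, (D.e d₀).left_inv e2.1]
    · obtain ⟨-, V, c', h5, h6, -⟩ := kB d z hz hw.1 h
      obtain ⟨k, h7, h8, -⟩ := hF _ _ _ _ _ _ _ _ h5
      exact ⟨k, polH_of h5 hU ⟨h6, hw⟩ h7 h8⟩
  · obtain ⟨-, V, c', h5, h6, h9⟩ := kA z₀ hz hw.1
    obtain ⟨k, h7, h8, h10⟩ := hF _ _ _ _ _ _ _ _ h5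
    obtain ⟨h11, h12⟩ := polH_of h5 hU ⟨h6, hw⟩ h7 h8
    refine ⟨k, h11, fun hk => ?_, h12⟩
    have n0 : 0 < n := by
      rcases MON.xi_cases (D.c d₀) i with ⟨-, e⟩ | ⟨j, -, -⟩
      · rw [e] at hi
        exact absurd hi one_ne_zero
      · exact j.pos
    have b4 : ContinuousAt (fun y => q * nsq (D.rd B.p d₀ y)) z₀ :=
      continuousAt_const.mul a2.continuousAt
    obtain ⟨r', r1, hr'⟩ := Metric.eventually_nhds_iff_ball.1
      (((pre_open h5.opn h5.sub hU).eventually_mem ⟨h6, hw⟩).and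
        ((b4.eventually (gt_mem_nhds (lt_add_one _))).and
          ((isOpen_ball.eventually_mem (mem_ball_self f.rIn_pos)).and
            (isOpen_ball.eventually_mem hz))))
    generalize (fun y => q * nsq (D.rd B.p d₀ y)) z₀ + 1 = A at hr'
    have hnull := SV.stZER SV.stSUB n (D.rd S.j d₀) z₀ r' (h5.jh.mono fun y hy => (hr' y hy).1.1)
      (((not_eventually.1 (h5.jn z₀ h6)).and_eventually (ball_mem_nhds z₀ r1)).exists.imp
        fun y hy => ⟨hy.2, hy.1⟩)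
    have hO : IsOpen (ball z₀ r' ∩ {y | D.rd S.j d₀ y ≠ 0}) :=
      (h5.jh.continuousOn.mono fun y hy => (hr' y hy).1.1).isOpen_inter_preimage isOpen_ball
        isOpen_ne
    have c1 := h5.c0
    have := SV.stNINT n (fun w => (f w : ℂ) - k w) z₀ (ball z₀ r') _ n0 (ball_mem_nhds z₀ r1)
      ((cd_ofReal (f.contDiff (n := ⊤)).contDiffAt).continuousAt.sub h11.self_of_nhds.continuousAt)
      (ENNReal.mul_ne_top (a := ENNReal.ofReal (Real.exp A / c')) ENNReal.ofReal_ne_top h10)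
      fun m => by
        have e1 : ball z₀ r' =ᵐ[volume] (ball z₀ r' ∩ {y | D.rd S.j d₀ y ≠ 0} : Set (E n)) := by
          refine (ae_iff.2 (measure_mono_null (fun y hy => ?_) hnull))
          by_contra hn
          refine hy (propext ⟨fun h => ⟨h, fun h' => hn ⟨h, h'⟩⟩, fun h => h.1⟩)
        rw [setLIntegral_congr e1, ← lintegral_const_mul' _ _ ENNReal.ofReal_ne_top]
        refine le_trans (setLIntegral_mono_ae' hO.measurableSet (ae_of_all _ fun y hy => ?_))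
          (lintegral_mono_set fun y hy => ⟨(hr' y hy.1).1.1, (hr' y hy.1).1.2, hy.2⟩)
        obtain ⟨e2, e3, e4, e5⟩ := hr' y hy.1
        have e6 : y ≠ z₀ := fun e => hy.2 (e ▸ hj0)
        have e7 := nsq_pos (sub_ne_zero.2 e6)
        have e8 := h9 y e2.1 hy.2
        rw [← ENNReal.ofReal_mul (by positivity), normSq_eq_norm_sq, X0 y e5,
          (psi_in f e4).self_of_nhds, neg_add, Real.exp_add, Real.exp_neg (n * _),
          Real.exp_nat_mul, Real.exp_log e7]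
        refine ENNReal.ofReal_le_ofReal ?_
        have e9 : (nsq (y - z₀) + 1 / (m + 1))⁻¹ ^ n ≤ (nsq (y - z₀))⁻¹ ^ n :=
          pow_le_pow_left₀ (by positivity) (inv_anti₀ e7 (le_add_of_nonneg_right (by positivity))) n
        have e10 : 1 ≤ Real.exp A * Real.exp (-(q * nsq (D.rd B.p d₀ y))) := by
          rw [← Real.exp_add]
          exact Real.one_le_exp (by linarith)
        have e11 : 1 ≤ S.b d₀ y * xr (D.c d₀) S.r y / c' := (one_le_div c1).2 e8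
        have e12 := one_le_mul_of_one_le_of_one_le e10 e11
        rw [div_eq_mul_inv, ← inv_pow, ← inv_pow]
        calc _ ≤ ‖(f y : ℂ) - k y‖ ^ 2 * (nsq (y - z₀))⁻¹ ^ n :=
              mul_le_mul_of_nonneg_left e9 (sq_nonneg _)
          _ ≤ _ := (le_mul_of_one_le_left (by positivity) e12).trans_eq (by ring)
    simp [hk, f.one_of_mem_closedBall (mem_closedBall_self f.rIn_pos.le)] at this

end PEAK

theorem kPEAK (hRV2 : Sk_RV2) : Sk_PEAK := fun _ _ _ _ _ _ _ R B t ρ P d z i h1 h2 h3 h4 h5 h6 =>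
  PEAK.core hRV2 ⟨R.a, R.k, R.m, R.w, R.ex, R.m0, R.whol, R.wne, R.wcmp, fun i h => (R.off i h).2⟩
    B t ρ P d z i h1 h2 h3 h4 h5 h6

end Pool.Agent.Lib.EXK
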