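import Pool.Agent.Lib.EXK.Blue

/-! Project exk: the second phase. -/

open scoped Classical Topology
open Set Filter

noncomputable section

namespace Pool.Agent.Lib.EXK

open Pool.Agent.Lib.SV (E)
open Pool.Agent.Lib.HS32 Pool.Agent.Lib.EX

theorem kPH2 (hJ : Sk_JB) (hG : Sk_GLA) (hN : Sk_NUM) : Sk_PH2 := by
  intro n M _ H ι _ _ D R τ _ μ j q q' U hH mono jp hq hj h1 gl gn
  induction q', hq using Nat.le_induction with
  | base => exact ⟨U, gl, gn⟩
  | succ r hr ih =>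
    obtain ⟨V, gv, nv⟩ := ih ((mono r.le_succ).trans hj)
    obtain ⟨-, -, NT, num⟩ := hN n M ι D R _ _ (jp r)
    have h2 : ∀ i, R.a i ≠ 0 → 1 ≤ R.dl (μ r) i := fun i hi => (h1 i hi).le.trans
      (sub_le_sub_right (mul_le_mul_of_nonneg_right (mono hr) (Nat.cast_nonneg _)) _)
    have e : R.nu (μ r) + ind (R.N (μ (r + 1))) = R.nu (μ r) := funext fun i => by
      have : i ∉ R.N (μ (r + 1)) := fun k =>
        (num i).2.2.2.2.2.2.2.2 (h2 i ((num i).2.1 (NT k)).1) k
      rw [Pi.add_apply, ind, if_neg this, add_zero]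
    choose W gw vw using hJ n M H ι D R τ V _ _ j hH (jp r) hj (fun t => e.symm ▸ gv t)
      fun d z hz i hi h0 => nv d z hz i (by simp [sp, (num i).1 hi]) h0
    refine ⟨W, gw, fun d z hz i hi h0 => ?_⟩
    obtain ⟨l, hl⟩ := nv d z hz i hi h0
    have a0 : R.a i ≠ 0 := fun k => hi (by simp [sp, k])
    have n0 : R.nu (μ r) i ≠ 0 :=
      (lt_max_of_lt_left (Int.floor_pos.2 (h2 i a0))).ne'
    have k := (hG n M ι D (R.ja j) (R.nu (μ r)) (W l - V l)).2.2.2.2.2.1
      (fun i => le_max_right _ _) (vw l)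
      (fun d z hz => ((gw l).hol d z hz).sub ((gv l).hol d z hz)) d z hz i n0 h0
    exact ⟨l, by rwa [sub_eq_zero.1 k]⟩

end Pool.Agent.Lib.EXK
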