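import Pool.Agent.Lib.EXK.Blue
import Pool.Agent.Lib.EX.B_PRD

/-! Project exk: products against the density. -/

open scoped Classical Topology ContDiff
open Set Complex Filter

noncomputable section

namespace Pool.Agent.Lib.EXK

open Pool.Agent.Lib.SV (E)
open Pool.Agent.Lib.HS32 Pool.Agent.Lib.EX
open Pool.Agent.Lib.EXA (SmN)
open Pool.Agent.Lib.EX.PRD

namespace PRDX

variable {n : ℕ} {ι : Type} [Fintype ι] [DecidableEq ι] {c : ι → Option (Fin n)} {r : ι → ℝ}
  {p : ℕ} {z : E n} {T N : Finset ι} {G K : ι → ℤ} {b : E n → ℝ} {F : E n → ℂ}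
  {σ : Finset ι → E n → ℂ}

theorem nul90 (hb : SmN b z) (hT : ∀ i ∈ T, r i = 0)
    (hσ : ∀ I ∈ T.powersetCard p, SmN (σ I) z ∧ (Disjoint I N → σ I = 0))
    (hK : ∀ i ∈ N, K i < G i) (hF : Pol c K F z) :
    Nul c r p (fun y => (den c G r T b y : ℝ) * (F y * star (hat c G T p σ y))) z := by
  obtain ⟨s, s1, s2⟩ := hF
  have s3 : ∀ I, SmN (if I ∈ T.powersetCard p then σ I else 0) z := fun I => by
    split_ifs with h
    · exact (hσ I h).1
    · exact Eventually.of_forall fun _ => contDiffAt_const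
  refine nulS ((T.powersetCard p).filter fun I => ¬ Disjoint I N) (fun _ => G + -K + ng T) ng _
    (fun I => sm3 hb s1 (s3 I)) (fun I hI => ?_) ?_
  · rw [Finset.mem_filter, Finset.mem_powersetCard, Finset.not_disjoint_iff] at hI
    obtain ⟨⟨h1, h2⟩, i, h3, h4⟩ := hI
    refine harm (fun _ _ => rfl) (fun l hl => hT l (h1 hl)) (Or.inr ⟨h2, i, h3, ?_⟩)
    have := hK i h4
    simp only [Pi.add_apply, Pi.neg_apply, ng, if_pos (h1 h3)]
    omega
  · filter_upwards [s2] with y h1 h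
    have h3 := xm_ne h G
    have h4 := xs_ne h T
    have h5 : star (xm c G y) ≠ 0 := star_ne_zero.2 h3
    have h6 : star (xs c T y) ≠ 0 := star_ne_zero.2 h4
    rw [h1 h, hat, Finset.sum_filter]
    simp only [den, ofReal_div, ofReal_mul, normSq_eq_conj_mul_self, ← RCLike.star_def, xm_add h,
      xm_neg, xm_ng, star_mul', star_sum, star_inv₀, Finset.mul_sum]
    refine Finset.sum_congr rfl fun I hI => ?_
    rw [if_pos hI, xs_sd h (Finset.mem_powersetCard.1 hI).1, star_mul', star_inv₀]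
    split_ifs with hd
    · simp [(hσ I hI).2 hd]
    · field_simp

end PRDX

open PRDX in
theorem kPRDX (hRES : St_RES) (hPRD : St_PRD) (hMAIN : St_MAIN) : Sk_PRDX := by
  intro n ι _ _ c G r T N p b F σ z hc hb hT hσ
  refine ⟨fun K hK hF => nul90 hb hT hσ hK hF, fun ρ ⟨A, ρ₁, a1, a2, a3⟩ => ?_⟩
  have h1 := (hRES n ι c G T p σ σ F F z hc).2.2.2.2.2.2.2.2.1 fun I hI => (hσ I hI).1
  have h2 := (hPRD n ι c G r T p b A (hat c G T p σ) z hb hT).2.2 ρ₁ σ a1 h1
  have h3 := nul90 (G := G) hb hT hσ (fun i hi => by simp [ind, hi]) a2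
  have h4 := (hMAIN n ι c r T p _ _ _ _ z).2.1 h2 ((hMAIN n ι c r T p ρ ρ _ F z).1 h3)
  refine (hMAIN n ι c r T p _ _ _ _ z).2.2.2.1 h4 (.of_forall fun y _ => ?_) fun I hI => ?_
  · simp only [Pi.add_apply, Pi.sub_apply]
    ring
  · by_cases hd : Disjoint I N
    · exact .of_forall fun y _ => by simp [(hσ I hI).2 hd]
    · exact (a3 I hI hd).mono fun y hy hs => by simp [hy hs]

end Pool.Agent.Lib.EXK
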