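import Pool.Agent.Lib.EXK.Blue
import Pool.Agent.Lib.EX.B_Q3

/-! Project exk: the divergence of the test field. -/

open scoped Classical Topology ContDiff ComplexOrder Matrix
open Set MeasureTheory Complex Metric Filter

set_option linter.unusedVariables false

noncomputable section

namespace Pool.Agent.Lib.EXK

open Pool.Agent.Lib.SV (E)
open Pool.Agent.Lib.HS32 Pool.Agent.Lib.EX
open Pool.Agent.Lib.EXA (Val SmN emb)

namespace Q3

variable {n : ℕ} {y : E n}

open EX.Q3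

variable {M : Mf n} [M.Cpt] {ι : Type} [Fintype ι] [DecidableEq ι] {D : Ad M ι} {κ : Type}
  [Fintype κ] (L : Lw D κ)

theorem one (hU : Sk_UT) (hM : St_MON) {I : Finset ι} (hI : I ⊆ L.T) {V : D.A → E n → E n}
    (hV : L.Har I V) {d : D.A} (hy : y ∈ B2 n) (ho : Off (D.c d) y) :
    ∃ a, LD (V d) y (fun w => (L.dd d w : ℝ) * (xm (D.c d) (-L.G) w * xs (D.c d) (L.T \ I) w)) a ∧
      a + L.s * ∑ j, star (L.eta d j y) * V d y j = app (V d) (L.w d) y / (L.m * L.w d y) -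
        L.s * (∑ l, app (V d) (L.ut l d) y * star (L.ut l d y)) / (L.nn d y : ℝ) +
        ∑ i, L.r i * (D.c d i).elim 0 (V d y) / xi (D.c d) i y := by
  obtain ⟨-, -, -, -, -, m6, -, m8, m9, m10, -, -, -, m14⟩ := hM n ι (D.c d)
  obtain ⟨-, -, n3, n4, -⟩ := m14 (D.inj d)
  obtain ⟨u1, u2, u3, -⟩ := (hU n M ι D κ L).1 d y hy
  have hxm : ∀ G, LD (V d) y (xm (D.c d) G)
      (∑ i, G i * (D.c d i).elim 0 (V d y) / xi (D.c d) i y) := fun G =>
    ⟨rdiff (m6 G y ho).self_of_nhds, n3 _ G y ho⟩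
  have hxs : ∀ J, xs (D.c d) J = xm (D.c d) fun i => if i ∈ J then 1 else 0 := fun J =>
    funext fun z => (m10 J z).symm
  have hw := L.wne d y hy
  have hnn : ((L.nn d y : ℝ) : ℂ) ≠ 0 := ofReal_ne_zero.2 u2.ne'
  have l1 := (LD.of (X := V d) (cd_diff (cd_ofReal u3)) hnn).rpow u2 (-L.s)
  have l2 := ((LD.of (X := V d) (rdiff (L.whol d y hy)) hw).nsq (L.whol d y hy)).rpow
    (normSq_pos.2 hw) (1 / L.m)
  have l3 : LD (V d) y (fun w => ((xr (D.c d) L.r w : ℝ) : ℂ)) _ :=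
    ⟨cd_diff (cd_ofReal (m8 L.r y ho).1.self_of_nhds), n4 _ L.r y ho⟩
  have l4 := (hxm L.G).nsq (m6 _ y ho).self_of_nhds
  have l5 := ((hxm fun i => if i ∈ L.T then 1 else 0).nsq (m6 _ y ho).self_of_nhds).inv
    (ofReal_ne_zero.2 (normSq_pos.2 (m9 _ 0 y ho).2.1).ne')
  have l6 := ((((l1.mul l2).mul l3).mul l4).mul l5).mul
    ((hxm (-L.G)).mul (hxm fun i => if i ∈ L.T \ I then 1 else 0))
  refine ⟨_, (congrArg (fun f => LD (V d) y f _) (funext fun w => ?_)).mp l6, ?_⟩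
  · simp only [Lw.dd, den, Lw.b, hxs]
    push_cast
    simp only [div_eq_mul_inv]
  have e1 : app (V d) (fun w => ((L.nn d w : ℝ) : ℂ)) y =
      ∑ l, app (V d) (L.ut l d) y * star (L.ut l d y) +
        (L.nn d y : ℝ) * ∑ j, star (L.eta d j y) * V d y j := by
    have h1 : (fun w => ((L.nn d w : ℝ) : ℂ)) = fun w => ∑ l, L.ut l d w * star (L.ut l d w) :=
      funext fun w => by simp only [Lw.nn, ofReal_sum, star_def, mul_conj]
    have h2 : ∀ j, ((L.nn d y : ℝ) : ℂ) * star (L.eta d j y) =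
        ∑ l, L.ut l d y * star (dzb j (L.ut l d) y) := fun j => by
      rw [Lw.eta, star_div₀, star_sum, star_def, conj_ofReal, mul_div_cancel₀ _ hnn]
      simp only [map_mul, conj_conj]
      exact Finset.sum_congr rfl fun l _ => mul_comm _ _
    have h3 : ∀ j, dz j (fun w => ∑ l, L.ut l d w * star (L.ut l d w)) y =
        ∑ l, dz j (L.ut l d) y * star (L.ut l d y) +
          ∑ l, L.ut l d y * star (dzb j (L.ut l d) y) := fun j => by
      rw [dz_sum fun l _ => (cd_diff (u1 l)).fun_mul (diff_star (cd_diff (u1 l))),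
        ← Finset.sum_add_distrib]
      exact Finset.sum_congr rfl fun l _ => by
        rw [dz_mul (cd_diff (u1 l)) (diff_star (cd_diff (u1 l))), dz_star (cd_diff (u1 l))]
    rw [h1, Finset.mul_sum]
    simp only [app, h3, mul_add, Finset.sum_add_distrib, ← mul_assoc, h2]
    congr 1
    · simp only [Finset.mul_sum, Finset.sum_mul]
      rw [Finset.sum_comm]
      exact Finset.sum_congr rfl fun l _ => Finset.sum_congr rfl fun j _ => by ring
    · exact Finset.sum_congr rfl fun j _ => mul_comm _ _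
  have e2 : (∑ i, (L.G i : ℂ) * (D.c d i).elim 0 (V d y) / xi (D.c d) i y) -
      (∑ i, ((if i ∈ L.T then 1 else 0 : ℤ) : ℂ) * (D.c d i).elim 0 (V d y) / xi (D.c d) i y) +
      ((∑ i, ((-L.G) i : ℂ) * (D.c d i).elim 0 (V d y) / xi (D.c d) i y) +
      ∑ i, ((if i ∈ L.T \ I then 1 else 0 : ℤ) : ℂ) * (D.c d i).elim 0 (V d y) / xi (D.c d) i y) =
      0 := by
    rw [← Finset.sum_sub_distrib, ← Finset.sum_add_distrib, ← Finset.sum_add_distrib]
    refine Finset.sum_eq_zero fun i _ => ?_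
    by_cases hi : i ∈ I
    · have : (D.c d i).elim 0 (V d y) = 0 := by
        cases h : D.c d i with
        | none => rfl
        | some j => exact hV.nm d y hy j ⟨i, hi, h⟩
      simp [this]
    · have : i ∈ L.T \ I ↔ i ∈ L.T := by simp [hi]
      simp only [this, Pi.neg_apply, Int.cast_neg]
      ring
  have hm : (L.m : ℂ) ≠ 0 := Nat.cast_ne_zero.2 L.m0.ne'
  rw [e1]
  push_cast at e2 ⊢
  field_simp
  field_simp at e2
  linear_combination (L.m * L.w d y * (L.nn d y : ℝ)) * e2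

end Q3

open EX.Q3 in
theorem kQ3 (hVU : Sk_VU) (hU : Sk_UT) (hI : St_INC) (hM : St_MON) (hO : St_MOD) : Sk_Q3 := by
  intro n M _ ι _ _ D κ _ L p V hV d z hz
  have hB : ∀ᶠ y in 𝓝 z, y ∈ B2 n := isOpen_ball.mem_nhds hz
  have hsub : ∀ I ∈ L.T.powersetCard p, I ⊆ L.T := fun I h => (Finset.mem_powersetCard.1 h).1
  have hW := (hO n ι (D.c d) L.G L.r L.T p).2.2.2.2.1
  set R : Finset ι → E n → ℂ := fun I y => dv (V I d) y +
    (app (V I d) (L.w d) y / (L.m * L.w d y) -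
      L.s * (∑ l, app (V I d) (L.ut l d) y * star (L.ut l d y)) / (L.nn d y : ℝ) +
      ∑ i, L.r i * (D.c d i).elim 0 (V I d y) / xi (D.c d) i y) with hR
  have h1 : ∀ I ∈ L.T.powersetCard p, WQ (D.c d) L.G L.r L.T p
      (fun y => xm (D.c d) (-L.G) y * xs (D.c d) (L.T \ I) y * R I y) z := by
    intro I hIp
    have hId := (hO n ι (D.c d) L.G L.r I p).2.2.2.2.2.1
    obtain ⟨lam, -, v1, v2⟩ := hVU n M ι D κ L I (V I) (hsub I hIp)
      (hV I hIp) d z hz
    have hs : ∀ l, SmN (fun y => -(xs (D.c d) (fr L.r) y * star (L.ut l d y) *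
        (((L.nn d y : ℝ) : ℂ))⁻¹)) z := fun l => hB.mono fun y hy => by
      obtain ⟨u1, u2, u3, -⟩ := (hU n M ι D κ L).1 d y hy
      exact (((((mHOL n _ y).2.2 ((hM n ι (D.c d)).2.2.2.2.1 _ y)).1).mul (cd_star (u1 l))).mul
        ((cd_ofReal u3).inv (ofReal_ne_zero.2 u2.ne'))).neg
    have h2 := hId.add _ _ z v2 (hId.sum κ Finset.univ _ z fun l _ => hId.mul _ _ z (hs l) (v1 l))
    have h3 := ((hI n ι (D.c d) L.G L.r L.T p _ z).2.2.2.2.2.2.2.2.2.2.2.2.2.1 I hIp h2).2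
      fun i hi => L.rT i hi
    refine hW.cong _ _ z h3 (hB.mono fun y hy ho => ?_)
    obtain ⟨-, u2, -⟩ := (hU n M ι D κ L).1 d y hy
    have hnn : ((L.nn d y : ℝ) : ℂ) ≠ 0 := ofReal_ne_zero.2 u2.ne'
    have hx : xs (D.c d) (fr L.r) y ≠ 0 := Finset.prod_ne_zero_iff.2 fun i _ => ho i
    have h4 : ((L.nn d y : ℝ) : ℂ) = ∑ l, L.ut l d y * star (L.ut l d y) := by
      simp only [Lw.nn, ofReal_sum, star_def, mul_conj]
    have h5 : ∑ l, -(xs (D.c d) (fr L.r) y * star (L.ut l d y) * (((L.nn d y : ℝ) : ℂ))⁻¹) *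
        (L.s * (app (V I d) (L.ut l d) y - lam y * L.ut l d y)) = xs (D.c d) (fr L.r) y *
          (L.s * lam y * ((∑ l, L.ut l d y * star (L.ut l d y)) / (L.nn d y : ℝ)) -
          L.s * (∑ l, app (V I d) (L.ut l d) y * star (L.ut l d y)) / (L.nn d y : ℝ)) := by
      simp only [Finset.mul_sum, Finset.sum_div, ← Finset.sum_sub_distrib]
      exact Finset.sum_congr rfl fun l _ => by ring
    simp only [hR, Pi.add_apply, Finset.sum_apply, Pi.mul_apply, h5]
    rw [← h4, div_self hnn]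
    field_simp
    ring
  refine hW.cong _ _ z (hW.sum _ _ _ z h1) (hB.mono fun y hy ho => ?_)
  choose! a ha1 ha2 using fun I hIp => EXK.Q3.one L hU hM (hsub I hIp) (hV I hIp) hy ho
  obtain ⟨-, -, -, -, u5, -⟩ := (hU n M ι D κ L).1 d y hy
  obtain ⟨-, -, -, -, -, -, -, m8, m9, m10, -⟩ := hM n ι (D.c d)
  have hd : ((L.dd d y : ℝ) : ℂ) ≠ 0 := by
    refine ofReal_ne_zero.2 (ne_of_gt ?_)
    exact div_pos (mul_pos (mul_pos u5 (m8 L.r y ho).2) (normSq_pos.2 (m9 _ 0 y ho).2.1))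
      (normSq_pos.2 (Finset.prod_ne_zero_iff.2 fun i _ => ho i))
  have h6 : ∀ j, dz j (fun w => ((L.dd d w : ℝ) : ℂ) * L.vh p V d w j) y =
      ∑ I ∈ L.T.powersetCard p, dz j (fun w => (L.dd d w : ℝ) *
        (xm (D.c d) (-L.G) w * xs (D.c d) (L.T \ I) w) * V I d w j) y := fun j => by
    rw [← dz_sum fun I hIp => (ha1 I hIp).1.fun_mul
      (differentiableAt_pi.1 (rdiff ((hV I hIp).hol d y hy)) j)]
    congr 1
    funext w
    simp only [Lw.vh, hat, Finset.mul_sum, mul_assoc]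
  have h7 : ∑ j, star (L.eta d j y) * L.vh p V d y j = ∑ I ∈ L.T.powersetCard p,
      xm (D.c d) (-L.G) y * xs (D.c d) (L.T \ I) y * ∑ j, star (L.eta d j y) * V I d y j := by
    simp only [Lw.vh, hat, Finset.mul_sum]
    rw [Finset.sum_comm]
    exact Finset.sum_congr rfl fun I _ => Finset.sum_congr rfl fun j _ => by ring
  simp only [dvD, h6, h7, Finset.sum_apply]
  rw [Finset.sum_comm, Finset.sum_div, Finset.mul_sum, ← Finset.sum_add_distrib]
  refine Finset.sum_congr rfl fun I hIp => ?_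
  rw [div_mul (ha1 I hIp) (rdiff ((hV I hIp).hol d y hy))]
  simp only [hR, ← ha2 I hIp]
  field_simp
  ring

end Pool.Agent.Lib.EXK
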