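import Pool.Agent.Lib.EXK.Blue
import Pool.Agent.Lib.EX.B_Q4

/-! Project exk: the test fields of two charts differ by a field of lower weight. -/

open scoped Classical Topology ContDiff Matrix
open Set Filter

noncomputable section

namespace Pool.Agent.Lib.EXK

open Pool.Agent.Lib.SV (E)
open Pool.Agent.Lib.HS32 Pool.Agent.Lib.EX
open Pool.Agent.Lib.EXA (SmN)

theorem kQ4 (hT : St_TRF) (hD : EX.St_DIV) (hI : St_INC) (hO : St_MOD) : Sk_Q4 := by
  intro n M _ ι _ _ D κ _ L p V hV d z hz
  obtain ⟨-, t2, t3, t4⟩ := hT n M ι D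
  obtain ⟨m, r, -⟩ := t2 d z hz
  have mW := (hO n ι (D.c d) L.G L.r L.T p).2.2.1
  have hB : ∀ᶠ y in 𝓝 z, y ∈ B2 n := Metric.isOpen_ball.mem_nhds hz
  let χ : D.A → E n → ℂ := fun a t => ((D.rd (D.χ a) d t : ℝ) : ℂ)
  let A : D.A → E n → ℂ := fun a y => (D.e a).source.indicator
    (fun x => app (L.vh p V a) (fun t => ((D.rd (D.χ a) a t : ℝ) : ℂ)) (D.e a x)) ((D.e d).symm y)
  have key (a : D.A) : Wt (D.c d) L.G L.T p (fun y => A a y - app (L.vh p V d) (χ a) y) z := by
    by_cases ha : (D.e d).symm z ∈ (D.e a).source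
    · have h1 := fun k => mW.sum _ (L.T.powersetCard p) _ z fun I hI' =>
        ((hI n ι (D.c d) L.G L.r L.T p _ z).2.2.2.2.2.2.2.2.2.2.2.2.2.1 I hI'
          (r ▸ EX.Q4.idl D hT hD (hV I hI').toFld a d ha m k)).1
      have h2 := mW.sum _ Finset.univ _ z fun k _ => mW.mul (dz k (χ a)) _ z
        ((EX.Q4.chi_sm D d a hz).mono fun _ h => cd_dz h k) (h1 k)
      refine mW.cong _ _ z h2 ?_
      have ev := ((mTR n M).2.1 _ (D.mem a) _ (D.mem d) _ ha m).2.2.2.1
      rw [r] at ev
      filter_upwards [ev] with y hy _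
      obtain ⟨-, y1, y2, -, -, y3, -⟩ := hy
      have q := (t4 a d _ y1 y2).2.2.2.2.2.1 L.G L.T
      simp only [A, indicator_of_mem y1, EX.Q4.chain D a d y1 y2, y3, Finset.sum_apply, Pi.mul_apply]
      rw [app, ← Finset.sum_sub_distrib]
      refine Finset.sum_congr rfl fun k _ => ?_
      rw [mul_comm (L.vh p V d y k), ← mul_sub]
      congr 1
      have e1 : L.vh p V a (D.e a ((D.e d).symm y)) = ∑ I ∈ L.T.powersetCard p,
          (D.kap L.G L.T I a d ((D.e d).symm y) * (xm (D.c d) (-L.G) y * xs (D.c d) (L.T \ I) y)) •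
            V I a (D.e a ((D.e d).symm y)) := by
        funext j
        simp only [Lw.vh, hat, Finset.mul_sum, Finset.sum_apply, Pi.smul_apply, smul_eq_mul]
        refine Finset.sum_congr rfl fun I hI' => ?_
        rw [← mul_assoc, q I (Finset.mem_powersetCard.1 hI').1, y3]
      rw [e1, Matrix.mulVec_sum, Finset.sum_apply, Lw.vh, hat, Finset.mul_sum,
        ← Finset.sum_sub_distrib]
      refine Finset.sum_congr rfl fun I _ => ?_
      simp only [Matrix.mulVec_smul, Pi.smul_apply, smul_eq_mul, Ad.kap]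
      ring
    · have h0 := t3 a d _ m ha
      rw [r] at h0
      refine mW.cong _ _ z (mW.zero z) ?_
      filter_upwards [eventually_eventually_nhds.2 h0, hB] with y hy hyB _
      have e (k : Fin n) : dz k (χ a) y = 0 := by
        rw [dz_congr (g := fun _ => 0) (hy.mono fun w hw => by simp only [χ, hw]; simp), dz_const]
      obtain ⟨y2, y3, -⟩ := t2 d y hyB
      by_cases y1 : (D.e d).symm y ∈ (D.e a).source
      · simp only [A, indicator_of_mem y1, EX.Q4.chain D a d y1 y2, y3]
        simp [app, e, χ]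
      · simp [A, indicator_of_notMem y1, app, e]
  refine mW.cong _ _ z (mW.sum _ Finset.univ _ z fun a _ => key a) ?_
  filter_upwards [hB] with y hy _
  have e (k : Fin n) : ∑ a, dz k (χ a) y = 0 := by
    rw [← dz_sum fun a _ => cd_diff (EX.Q4.chi_sm D d a hy).self_of_nhds,
      dz_congr (g := fun _ => 1) (.of_forall fun w => by
        simp only [Ad.rd]; exact_mod_cast D.sum _), dz_const]
  have e' : ∑ a, app (L.vh p V d) (χ a) y = 0 := by
    simp only [app]
    rw [Finset.sum_comm]
    simp only [← Finset.mul_sum, e, mul_zero, Finset.sum_const_zero]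
  rw [Finset.sum_apply, Finset.sum_sub_distrib, e', sub_zero]
  rfl

end Pool.Agent.Lib.EXK
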