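import Pool.Agent.Lib.EXK.Blue
import Pool.Agent.Lib.EX.B_Q5

/-! Row `Q5`: the derivative of the projector along the test field. -/

open scoped Classical Topology ContDiff ComplexOrder Matrix
open Set MeasureTheory Complex Metric Filter

noncomputable section

namespace Pool.Agent.Lib.EXK

open Pool.Agent.Lib.SV (E)
open Pool.Agent.Lib.HS32 Pool.Agent.Lib.EX
open Pool.Agent.Lib.EXA (Val SmN emb)

theorem kQ5 (hVU : Sk_VU) (hUT : Sk_UT) (hINC : St_INC) (hMOD : St_MOD) : Sk_Q5 := by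
  intro n M _ ι _ _ D κ _ L p V hV l l' d z hz
  have hB : ∀ᶠ y in 𝓝 z, y ∈ B2 n := isOpen_ball.mem_nhds hz
  have U := (hUT n M ι D κ L).1 d
  have s1 : ∀ m, SmN (fun y => star (L.ut m d y) / (L.nn d y : ℝ)) z := fun m =>
    hB.mono fun y hy => (cd_star ((U y hy).1 m)).mul ((cd_ofReal (U y hy).2.2.1).inv
      (ofReal_ne_zero.2 (U y hy).2.1.ne'))
  have s2 : SmN (fun y => -L.cc l l' d y) z := hB.mono fun y hy => ((U y hy).2.2.2.2.2.1 l l').neg
  have s3 : SmN (fun y => star (-L.cc l l' d y)) z := s2.mono fun y hy => cd_star hy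
  obtain ⟨mP, -, mW, -⟩ := hMOD n ι (D.c d) (-ind L.N) L.r L.T p
  replace mW := (hMOD n ι (D.c d) L.G L.r L.T p).2.2.1
  obtain ⟨-, -, -, -, -, -, -, -, -, -, u⟩ := U z hz
  let F : Finset ι → E n → ℂ := fun I y => L.s * (star (L.ut l d y) / (L.nn d y : ℝ) *
    app (V I d) (L.ut l' d) y + star (-L.cc l l' d y) *
      ∑ m, star (L.ut m d y) / (L.nn d y : ℝ) * app (V I d) (L.ut m d) y)
  have hF : ∀ I ∈ L.T.powersetCard p, Idl (D.c d) I (F I) z := fun I hI => by
    obtain ⟨lam, -, h3, -⟩ := hVU n M ι D κ L I (V I) (Finset.mem_powersetCard.1 hI).1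
      (hV I hI) d z hz
    have mI := (hMOD n ι (D.c d) L.G L.r I p).2.2.2.2.2.1
    refine mI.cong _ _ _ (mI.add _ _ _ (mI.mul _ _ _ (s1 l) (h3 l')) (mI.mul _ _ _ s3
      (mI.sum _ Finset.univ _ _ fun m _ => mI.mul _ _ _ (s1 m) (h3 m)))) (hB.mono fun y hy _ => ?_)
    have h0 : ((L.nn d y : ℝ) : ℂ) ≠ 0 := ofReal_ne_zero.2 (U y hy).2.1.ne'
    have e : ∑ m, star (L.ut m d y) / (L.nn d y : ℝ) * L.ut m d y = 1 := by
      simp only [div_mul_eq_mul_div, ← Finset.sum_div]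
      rw [div_eq_one_iff_eq h0, Lw.nn, ofReal_sum]
      exact Finset.sum_congr rfl fun m _ => by rw [mul_comm]; exact mul_conj _
    have e2 : ∑ m, star (L.ut m d y) / (L.nn d y : ℝ) *
        (L.s * (app (V I d) (L.ut m d) y - lam y * L.ut m d y)) = L.s *
          (∑ m, star (L.ut m d y) / (L.nn d y : ℝ) * app (V I d) (L.ut m d) y - lam y) := by
      conv_rhs => rw [← mul_one (lam y), ← e]
      simp only [Finset.mul_sum, ← Finset.sum_sub_distrib]
      exact Finset.sum_congr rfl fun m _ => by ring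
    simp only [F, Pi.add_apply, Pi.mul_apply, Finset.sum_apply, e2]
    simp only [Lw.cc, map_neg, map_div₀, map_mul, RCLike.star_def, conj_conj, conj_ofReal]
    ring
  refine ⟨∑ I ∈ L.T.powersetCard p, fun y => xm (D.c d) (-L.G) y * (xs (D.c d) (L.T \ I) y * F I y),
    fun j => (fun y => star (L.ut l' d y) / (L.nn d y : ℝ)) * dzb j (L.ut l d) +
      (fun y => -L.cc l l' d y) * L.eta d j, mW.sum _ _ _ _ fun I hI =>
        ((hINC n ι (D.c d) L.G L.r L.T p (F I) z).2.2.2.2.2.2.2.2.2.2.2.2.2.1 I hI (hF I hI)).1,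
    fun j => mP.add _ _ _ (mP.mul _ _ _ (s1 l') ((u j).2 l)) (mP.mul _ _ _ s2 (u j).1),
    hB.mono fun y hy _ => ?_⟩
  have h0 : ((L.nn d y : ℝ) : ℂ) ≠ 0 := ofReal_ne_zero.2 (U y hy).2.1.ne'
  have e1 : ∀ j, dzb j (L.cc l l' d) y = _ := fun j =>
    EX.Q5.dcc (fun m => cd_diff ((U y hy).1 m)) h0 l l' j
  have e2 : (∑ I ∈ L.T.powersetCard p, fun y => xm (D.c d) (-L.G) y *
      (xs (D.c d) (L.T \ I) y * F I y)) y = L.s * ∑ j, L.vh p V d y j *
        (star (L.ut l d y) / (L.nn d y : ℝ) * dz j (L.ut l' d) y + star (-L.cc l l' d y) *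
          ∑ m, star (L.ut m d y) / (L.nn d y : ℝ) * dz j (L.ut m d) y) := by
    simp only [Finset.sum_apply, F, Lw.vh, hat, app, Finset.mul_sum, Finset.sum_mul, mul_add,
      Finset.sum_add_distrib]
    congr 1
    · rw [Finset.sum_comm]
      exact Finset.sum_congr rfl fun _ _ => Finset.sum_congr rfl fun _ _ => by ring
    · rw [Finset.sum_congr rfl fun I _ => Finset.sum_comm, Finset.sum_comm]
      refine Finset.sum_congr rfl fun _ _ => Finset.sum_comm.trans ?_
      exact Finset.sum_congr rfl fun _ _ => Finset.sum_congr rfl fun _ _ => by ring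
  rw [e2, star_mul', star_sum, RCLike.star_def, conj_ofReal, ← mul_add, ← Finset.sum_add_distrib]
  refine congrArg _ (Finset.sum_congr rfl fun j _ => ?_)
  simp only [e1, Pi.add_apply, Pi.mul_apply, Lw.eta, Lw.cc, Lw.nn, map_mul, map_add, map_sum,
    map_div₀, map_neg, RCLike.star_def, conj_conj, conj_ofReal, div_mul_eq_mul_div,
    ← Finset.sum_div]
  ring

end Pool.Agent.Lib.EXK
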