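import Pool.Agent.Lib.EXK.Blue

/-! Project exk: the second regeneration. -/

open scoped Classical Topology
open Set

noncomputable section

namespace Pool.Agent.Lib.EXK

open Pool.Agent.Lib.SV (E)
open Pool.Agent.Lib.HS32 Pool.Agent.Lib.EX

theorem kREG2 (hING : Sk_ING) (hGLA : Sk_GLA) (hNUM : Sk_NUM) : Sk_REG2 := by
  intro n M _ ι _ _ D R κ τ _ u U F μ' μ J j hJ hj hU hF hI
  obtain ⟨h1, h2, h3, h4⟩ := hNUM n M ι D R μ' μ hJ
  have hK : ∀ i, R.ja (2 * j) i = ((1 : ℕ) + 1) * R.ja j i := by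
    intro i
    simp only [Rk.ja]
    push_cast
    ring
  have hle : R.nu μ' + ind (R.N μ) ≤ R.nu μ := by
    intro i
    rw [h2]
    simp only [Pi.add_apply, ind]
    by_cases hi : i ∈ R.N μ
    · simp [hi, h3 hi]
    · by_cases hT : i ∈ R.T μ <;> simp [hi, hT]
  have hge : ∀ i, R.nu μ i ≤ (R.nu μ' + ind (R.N μ)) i + (1 : ℕ) * R.nu μ' i := by
    intro i
    have h0 : 0 ≤ R.nu μ' i := le_max_right _ _
    rw [h2]
    simp only [Pi.add_apply, ind]
    by_cases hi : i ∈ R.N μ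
    · simp [hi, h3 hi, h0]
    · by_cases hT : i ∈ R.T μ
      · have h5 := (h4 i).2.2.2.1 (Finset.mem_sdiff.2 ⟨hT, hi⟩)
        have h6 : R.h μ i ≤ R.nu μ' i := by
          rw [h1]
          exact le_max_left _ _
        simp only [hi, hT, if_true, if_false]
        push_cast
        omega
      · simp [hi, hT, h0]
  refine ⟨2 * j, τ ⊕ τ, inferInstance,
    Sum.elim (fun t => F t ^ (1 + 1)) (fun t => (F t - U t) ^ (1 + 1)), by omega, ?_, ?_⟩
  · rintro (t | t)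
    · exact (hGLA n M ι D (R.ja j) (R.nu μ) (F t)).2.2.2.1 0 _ _ 1 hK (by simp) (hF t).1
        ((hGLA n M ι D (R.ja j) (R.nu μ) (F t)).2.2.1 (hF t).1.hol)
    · exact (hGLA n M ι D (R.ja j) _ (F t - U t)).2.2.2.1 (R.nu μ') _ _ 1 hK hge
        ((hGLA n M ι D (R.ja j) _ (F t)).2.1 _
          (((hGLA n M ι D (R.ja j) (R.nu μ) (F t)).1 _ hle).1 (hF t).1) (hU t)) (hF t).2
  · intro l
    obtain ⟨g1, g2, g3, g4⟩ := hING (Pt D (R.nu μ)) (τ ⊕ τ) (fun _ => 2 * j) fun t =>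
      ev D (R.nu μ) (Sum.elim (fun t => F t ^ (1 + 1)) (fun t => (F t - U t) ^ (1 + 1)) t)
    refine g4 τ (fun _ => j) _ 1 _ (hI l) fun t => ?_
    have e : ev D (R.nu μ) (U t) = ev D (R.nu μ) (F t) + ev D (R.nu μ) (U t - F t) := by
      funext x
      simp [ev]
    rw [e]
    refine g2 _ _ _ (g3 j 2 _ two_pos ?_) (g3 j 2 _ two_pos ?_)
    · have e1 : ev D (R.nu μ) (F t) ^ 2 = ev D (R.nu μ) (F t ^ (1 + 1)) := by
        funext x
        simp [ev]
      rw [e1]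
      exact g1 (Sum.inl t)
    · have e1 : ev D (R.nu μ) (U t - F t) ^ 2 = ev D (R.nu μ) ((F t - U t) ^ (1 + 1)) := by
        funext x
        simp only [ev, Pi.pow_apply, Pi.sub_apply]
        ring
      rw [e1]
      exact g1 (Sum.inr t)

end Pool.Agent.Lib.EXK
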