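import Pool.Agent.Lib.EXK.B_INCX

/-! Project exk: rules for residues modulo `N`. -/

open scoped Classical Topology ContDiff
open Set MeasureTheory Complex Metric Filter

set_option linter.unusedSectionVars false

noncomputable section

namespace Pool.Agent.Lib.EXK

open Pool.Agent.Lib.SV (E)
open Pool.Agent.Lib.HS32 Pool.Agent.Lib.EX
open Pool.Agent.Lib.EXA (SmN)
open K62 (smN_const smN_mul smN_add smN_sub smN_sum smN_hol holN_const holN_mul holN_sum)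

namespace RESX

variable {n : ℕ} {ι : Type} [Fintype ι] [DecidableEq ι] {c : ι → Option (Fin n)} {G : ι → ℤ}
  {T N I : Finset ι} {p : ℕ} {ρ ρ' : Finset ι → E n → ℂ} {F F' : E n → ℂ} {z : E n}

theorem xm_sub (hM : St_MON) (ho : Off c z) : xm c (-(G - ind N)) z = xm c (-G) z * xs c N z := by
  obtain ⟨-, -, -, -, -, -, -, -, m1, m2, -⟩ := hM n ι c
  rw [← m2 N z, ← (m1 _ _ z ho).1, neg_sub, sub_eq_neg_add]
  rfl

theorem uniq (hM : St_MON) (hc : Inj c) (h : Res c G T p ρ F z) (h' : Res c G T p ρ' F' z)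
    (hd : Pol c (G - ind N) (F - F') z) (hI : I ∈ T.powersetCard p) (hN : ¬ Disjoint I N) :
    ∀ᶠ y in 𝓝 z, Sl c I y → ρ I y = ρ' I y := by
  obtain ⟨s, h1, h2, h3⟩ := h
  obtain ⟨s', k1, k2, k3⟩ := h'
  obtain ⟨t, t1, t2⟩ := hd
  obtain ⟨i, hi, hi'⟩ := Finset.not_disjoint_iff.1 hN
  obtain ⟨-, -, -, -, m0, -, -, -, m1, -, -, -, -, m2⟩ := hM n ι c
  have e := RES.ev_eq (c := c) hM
    (smN_sub (RES.sm_num (T := T) (c := c) hM (lt T (p + 1)) h1)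
      (RES.sm_num (T := T) (c := c) hM (lt T (p + 1)) k1)) (smN_mul (smN_hol (m0 N z)) t1)
    (by
      filter_upwards [h2, k2, t2] with y a1 a2 a3 ho
      refine mul_left_cancel₀ (m1 (-G) 0 y ho).2.1 ?_
      rw [mul_sub, ← a1 ho, ← a2 ho, ← mul_assoc, ← xm_sub hM ho]
      exact a3 ho)
  filter_upwards [h1 I, k1 I, e.eventually_nhds, h3 I hI, k3 I hI] with y a1 a2 a3 a4 a5 a6
  rw [← a4 a6, ← a5 a6]
  refine sub_eq_zero.1 ((m2 hc).2.2.2.2 I (fun x => s I x - s' I x) y a6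
    (a1.continuousAt.sub a2.continuousAt) (a3.mono fun x hx h5 h6 => ?_))
  rw [RES.slice hI h5 fun J => s J x, RES.slice hI h5 fun J => s' J x, ← mul_sub,
    show xs c N x = 0 from Finset.prod_eq_zero hi' (h5 i hi), zero_mul] at hx
  exact (mul_eq_zero.1 hx).resolve_left
    (Finset.prod_ne_zero_iff.2 fun i hi => h6 i (Finset.mem_sdiff.1 hi).2)

theorem add (hO : St_MOD) (h : ResX c G T N p ρ F z) (h' : ResX c G T N p ρ' F' z) :
    ResX c G T N p (ρ + ρ') (F + F') z := by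
  obtain ⟨F₁, ρ₁, h1, h2, h3⟩ := h
  obtain ⟨F₂, ρ₂, k1, k2, k3⟩ := h'
  refine ⟨F₁ + F₂, ρ₁ + ρ₂, RES.add h1 k1, ?_, fun I hI hN => ?_⟩
  · rw [add_sub_add_comm]
    exact (hO n ι c _ 0 T p).1.add _ _ z h2 k2
  · filter_upwards [h3 I hI hN, k3 I hI hN] with y a1 a2 hs
    exact congrArg₂ (· + ·) (a1 hs) (a2 hs)

theorem neg (hO : St_MOD) {K : ι → ℤ} (h : Pol c K F z) (h' : Pol c K F' z) :
    Pol c K (F - F') z := by
  have o := (hO n ι c K 0 ∅ 0).1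
  exact o.cong _ _ z (o.add _ _ z h (o.mul (fun _ => -1) _ z (smN_const _) h'))
    (Eventually.of_forall fun y _ => by simp [sub_eq_add_neg])

theorem drop (hM : St_MON) (hO : St_MOD) (hI : St_INC) (hR : St_RES) (hc : Inj c) (hN : N ⊆ T)
    (h : WtHX c G T N (p + 1) F z) (h' : ResX c G T N p 0 F z) : WtHX c G T N p F z := by
  obtain ⟨F₁, ⟨s, h1, h2⟩, h3⟩ := h
  obtain ⟨F₂, ρ₂, k1, k2, k3⟩ := h'
  have r1 : Res c G T p s F₁ z :=
    ⟨s, fun J => smN_hol (h1 J), h2, fun _ _ => Eventually.of_forall fun _ _ => rfl⟩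
  have hd : Pol c (G - ind N) (F₁ - F₂) z := by
    rw [← sub_sub_sub_cancel_left F₂ F₁ F]
    exact neg hO k2 ((hI n ι c _ 0 T p _ z).1 h3)
  let s' : Finset ι → E n → ℂ := fun J => if Disjoint J N then 0 else s J
  let F₃ : E n → ℂ := fun y => xm c (-G) y * ∑ J ∈ lt T (p + 1), xs c (T \ J) y * s' J y
  have hs' : ∀ J, HolN (s' J) z := fun J => by
    simp only [s']
    split_ifs
    exacts [holN_const 0, h1 J]
  have r3 : Res c G T p 0 F₃ z := by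
    refine ⟨s', fun J => smN_hol (hs' J), Eventually.of_forall fun _ _ => rfl, fun I hI => ?_⟩
    by_cases hd' : Disjoint I N
    · exact Eventually.of_forall fun y _ => by simp only [s', if_pos hd']; rfl
    · filter_upwards [uniq hM hc r1 k1 hd hI hd', k3 I hI hd'] with y a1 a2 hs
      simp only [s', if_neg hd']
      rw [a1 hs, a2 hs]
  refine ⟨F₃, (hR n ι c G T p 0 0 F₃ F₃ z hc).2.2.2.2.2.2.2.2.2.2.1
    ⟨s', hs', Eventually.of_forall fun _ _ => rfl⟩ r3, ?_⟩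
  rw [← sub_add_sub_cancel F F₁ F₃]
  refine (hO n ι c _ 0 T p).2.1.add _ _ z h3 ⟨fun y => ∑ J ∈ lt T (p + 1),
    xs c ((T \ J) \ N) y * (if Disjoint J N then s J else 0) y, holN_sum fun J _ => holN_mul
      ((hM n ι c).2.2.2.2.1 _ z) ?_, h2.mono fun y hy ho => ?_⟩
  · split_ifs
    exacts [h1 J, holN_const 0]
  · rw [xm_sub hM ho, Pi.sub_apply, hy ho, ← mul_sub, mul_assoc, ← Finset.sum_sub_distrib]
    refine congrArg (xm c (-G) y * ·) ?_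
    rw [Finset.mul_sum]
    refine Finset.sum_congr rfl fun J _ => ?_
    simp only [s']
    split_ifs with hJ
    · rw [Pi.zero_apply, mul_zero, sub_zero, ← mul_assoc, xs, xs, xs, mul_comm (∏ i ∈ N, _),
        Finset.prod_sdiff (Finset.subset_sdiff.2 ⟨hN, hJ.symm⟩)]
    · rw [sub_self, Pi.zero_apply, mul_zero, mul_zero]

theorem der (hO : St_MOD) (hI : St_INC) (hR : St_RES) (hc : Inj c)
    (h : ResX c G T N p ρ F z) (j : Fin n) : ∃ σ, ResX c G T N p σ (dzb j F) z ∧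
      ∀ I ∈ T.powersetCard p, ¬ Disjoint I N → ¬ Nm c I j → SmN (ρ I) z →
        ∀ᶠ y in 𝓝 z, Sl c I y → σ I y = dzb j (ρ I) y := by
  obtain ⟨F₁, ρ₁, h1, h2, h3⟩ := h
  have r := fun ρ ρ' F F' => hR n ι c G T p ρ ρ' F F' z hc
  have i := fun K q F => hI n ι c K 0 T q F z
  have r2 : Res c G T p (fun I => if Disjoint I N then ρ₁ I else ρ I) F₁ z := by
    refine (r ρ₁ _ F₁ F₁).2.2.2.2.2.2.1 h1 (Eventually.of_forall fun _ _ => rfl) fun I hI => ?_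
    by_cases hd : Disjoint I N
    · exact Eventually.of_forall fun y _ => by simp only [if_pos hd]
    · exact (h3 I hI hd).mono fun y hy hs => by simp only [if_neg hd]; exact (hy hs).symm
  obtain ⟨σ, k1, k2⟩ := (r _ 0 F₁ F₁).2.2.2.2.2.2.2.2.2.2.2.1 r2 j
  refine ⟨σ, ⟨dzb j F₁, σ, k1, ?_, fun _ _ _ => Eventually.of_forall fun _ _ => rfl⟩,
    fun I hI hd hj hρ => ?_⟩
  · refine (hO n ι c _ 0 T p).1.cong _ _ z
      (((i _ p _).2.2.2.2.2.2.2.2.2.2.2.2.2.2.2.2.2 j).1 h2) ?_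
    filter_upwards [(i _ p _).2.2.2.2.2.2.2.2.2.2.2.2.2.2.2.1 h2,
      (i G p F₁).2.2.2.2.2.2.2.2.2.2.2.2.2.2.2.1 ((i G (p + 1) F₁).2.2.2.2.2.1
        ((r ρ₁ ρ₁ F₁ F₁).1 h1).1)] with y a1 a2 ho
    have e := dzb_add (j := j) (cd_diff (a1 ho).self_of_nhds) (cd_diff (a2 ho).self_of_nhds)
    simp only [Pi.sub_apply, sub_add_cancel] at e
    rw [Pi.sub_apply]
    exact sub_eq_of_eq_add e
  · have := k2 I hI hj (by simp only [if_neg hd]; exact hρ)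
    simpa only [if_neg hd] using this

end RESX

open RESX in
theorem kRESX (hM : St_MON) (hO : St_MOD) (hI : St_INC) (hR : St_RES) (hX : Sk_INCX) :
    Sk_RESX := by
  intro n ι _ _ c G T N p ρ ρ' F F' z hc
  have r := fun ρ ρ' F F' => hR n ι c G T p ρ ρ' F F' z hc
  have o := (hO n ι c (G - ind N) 0 T p).1
  have x := fun q F => hX n ι c G T N q F z
  refine ⟨fun ⟨F₁, ρ₁, h1, h2, h3⟩ => ⟨⟨F₁, ((r ρ₁ ρ₁ F₁ F₁).1 h1).1, h2⟩, ?_⟩,
    fun ⟨F₁, h1, h2⟩ => ?_, fun ⟨F₁, h1, h2⟩ => ?_,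
    fun ⟨F₁, h1, h2⟩ => ⟨F₁, 0, INCX.res0 h1, h2, fun _ _ _ => Eventually.of_forall fun _ _ => rfl⟩,
    add hO, fun s hs ⟨F₁, ρ₁, h1, h2, h3⟩ => ⟨s * F₁, fun I => s * ρ₁ I,
      (r ρ₁ ρ₁ F₁ F₁).2.2.2.2.2.1 s hs h1, ?_, fun I hI hN => ?_⟩,
    fun ⟨F₁, ρ₁, h1, h2, h3⟩ e e' => ⟨F₁, ρ₁, h1, o.cong _ _ z h2 (e.mono fun y hy ho => ?_),
      fun I hI hN => ((h3 I hI hN).and (e' I hI hN)).mono fun y hy hs =>
        (hy.1 hs).trans (hy.2 hs).symm⟩,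
    fun ⟨F₁, ρ₁, h1, h2, h3⟩ ⟨F₂, ρ₂, k1, k2, k3⟩ I hI hN => ?_,
    fun h => ((x p _).2.2.2.2.2.2.2 ρ).1 ((r ρ ρ F F).2.2.2.2.2.2.2.2.1 h),
    fun h => (x (p + 1) _).2.2.2.2.1 ((r ρ ρ F F).2.2.2.2.2.2.2.2.2.1 h),
    drop hM hO hI hR hc, der hO hI hR hc, fun τ S σ Φ h => ?_⟩
  · filter_upwards [((r ρ₁ ρ₁ F₁ F₁).1 h1).2, o.ev _ z h2, (eventually_all_finset _).2
      fun I hI => eventually_imp_distrib_left.2 fun hN => (h3 I hI hN).eventually_nhds]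
      with y a1 a2 a3
    exact ⟨F₁, ρ₁, a1, a2, a3⟩
  · obtain ⟨σ, k1, k2⟩ := (r ρ ρ F₁ F₁).2.1 h1
    exact ⟨σ, k1, F₁, σ, k2, h2, fun _ _ _ => Eventually.of_forall fun _ _ => rfl⟩
  · obtain ⟨σ, k1, k2⟩ := (r ρ ρ F₁ F₁).2.2.1 h1
    exact ⟨σ, k1, F₁, σ, k2, (hI n ι c _ 0 T p _ z).1 h2,
      fun _ _ _ => Eventually.of_forall fun _ _ => rfl⟩
  · rw [← mul_sub]
    exact o.mul s _ z hs h2
  · exact (h3 I hI hN).mono fun y hy hs => congrArg (s y * ·) (hy hs)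
  · rw [Pi.sub_apply, Pi.sub_apply, hy ho]
  · have hd : Pol c (G - ind N) (F₁ - F₂) z := by
      rw [← sub_sub_sub_cancel_left F₂ F₁ F]
      exact neg hO k2 h2
    filter_upwards [uniq hM hc h1 k1 hd hI hN, h3 I hI hN, k3 I hI hN] with y a1 a2 a3 hs
    rw [← a2 hs, a1 hs, a3 hs]
  · induction S using Finset.induction_on with
    | empty => exact ((x p _).2.2.2.2.2.2.2 _).1 RES.zero
    | insert a S ha ih =>
      rw [Finset.sum_insert ha, Finset.sum_insert ha]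
      exact add hO (h a (Finset.mem_insert_self _ _))
        (ih fun t ht => h t (Finset.mem_insert_of_mem ht))

end Pool.Agent.Lib.EXK
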