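import Pool.Agent.Lib.EXK.Blue
import Pool.Agent.Lib.EX.B_RSB
import Pool.Agent.Lib.EX.B_ADA
import Pool.Agent.Lib.EX.B_UNI

/-! Project exk, row RSK: the data on the manifold layer. -/

open scoped Classical Topology ContDiff ComplexOrder Matrix Manifold
open Set Complex Metric Filter

noncomputable section

namespace Pool.Agent.Lib.EXK

open Pool.Agent.Lib.SV (E)
open Pool.Agent.Lib.HS32 Pool.Agent.Lib.HS.BBR Pool.Agent.Lib.EX Pool.Agent.Lib.EX.K1

theorem kRSK : Sk_RSK := by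
  intro n Y ι I _ _ _ _ _ _ _ _ m S ex k l η W σ g hm hR off
  have hU := bUNI
  have hA := bADA hU
  choose N r p τ a h1 h2 h3 using hR.blow
  choose α hα using hR.cov
  have : (mf n Y).Cpt := ⟨‹_›, ‹_›, ‹_›⟩
  have hO : ∀ x : Y, {y | y ∈ W (α x) ∧ ‖p (α x) y‖ < (1 + ‖p (α x) x‖) / 2} ∈ 𝓝 x := fun x => by
    have hx := mem_chart_source (E n) x
    have c1 : ContinuousAt (p (α x)) x := continuousAt_pi.2 fun j => by
      refine (((hol_iff0 (ch_mf x) hx).1 ((h3 _ x (hα x)).2.1 j)).continuousAt.comp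
        ((chartAt (E n) x).continuousAt hx)).congr ?_
      filter_upwards [(chartAt (E n) x).open_source.mem_nhds hx] with y hy
      simp only [Function.comp_apply, (chartAt (E n) x).left_inv hy]
    exact ((hR.opn _).1.eventually_mem (hα x)).and
      (c1.norm.eventually_lt continuousAt_const (by linarith [(h3 _ x (hα x)).1]))
  obtain ⟨D, hF, hD⟩ := hA n (mf n Y) I S _ hO fun x : Y => by
    obtain ⟨h, -, hh, -⟩ := hR.form x
    exact ⟨_, ch_mf x, mem_chart_source _ x, _, eqs_chart (ch_mf x) (mem_chart_source _ x) hh⟩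
  choose x hx using hD
  choose B B1 B2 B3 using fun b : D.A => bBLW hU hF (hR.opn (α (x b))).1 (hR.opn _).2 (h1 _) (h2 _)
    (h3 _) (hR.div _)
  obtain ⟨w, w1, w2, w3⟩ := ord_form hU hF hR.form
  obtain ⟨c0, c1, c2⟩ : ∃ c0 < (1 : ℝ), ∀ b, (1 + ‖p (α (x b)) (x b)‖) / 2 ≤ c0 := by
    have : ∀ᶠ c in 𝓝[<] (1 : ℝ), ∀ b, (1 + ‖p (α (x b)) (x b)‖) / 2 ≤ c := eventually_all.2 fun b =>
      nhdsWithin_le_nhds (eventually_ge_nhds (by linarith [(h3 _ _ (hα (x b))).1]))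
    obtain ⟨c, a1, a2⟩ := (this.and self_mem_nhdsWithin).exists
    exact ⟨c, a2, a1⟩
  refine ⟨D, ⟨k, l, m, w, ex, B, c0, hm, w1, w2, w3, c1, fun b z hz => ?_, off⟩,
    fun b => α (x b), hF, rfl, rfl, rfl, rfl, B1, fun a => ord_unit hU hF (hR.div a)⟩
  have := hx b ((D.e b).map_target (tgt hz))
  exact ⟨(B1 b).symm ▸ this.1, (B3 b _).trans_le (this.2.le.trans (c2 b))⟩

end Pool.Agent.Lib.EXK
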