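import Pool.Agent.Lib.EXK.Blue
import Pool.Agent.Lib.EXS.B_EXC
import Pool.Agent.Lib.EX.K19a

/-! Project exk, row RST: restriction to a component over a smaller polydisc. -/

open scoped Classical Topology ContDiff
open Set Metric Filter

noncomputable section

namespace Pool.Agent.Lib.EXK

open Pool.Agent.Lib.SV (E)
open Pool.Agent.Lib.HS32 Pool.Agent.Lib.EX Pool.Agent.Lib.EXS

theorem kRST : Sk_RST := by
  intro n M ι _ _ D a ex B ρ x h1 hx
  have h0 : 0 < ρ := (norm_nonneg _).trans_lt hx.2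
  have hc : ((ρ : ℂ))⁻¹ ≠ 0 := inv_ne_zero (by exact_mod_cast h0.ne')
  have lc := K19.locCon M
  have ho : IsOpen (Wr B ρ) := EXC.W_open B ρ
  have hs : connectedComponentIn (Wr B ρ) x ⊆ Wr B ρ := connectedComponentIn_subset _ _
  have hn : ∀ y, ‖((ρ : ℂ))⁻¹ • B.p y‖ = ‖B.p y‖ / ρ := fun y => by
    rw [norm_smul, norm_inv, Complex.norm_real, Real.norm_of_nonneg h0.le, div_eq_inv_mul]
  have on : ∀ {p : D.A → E n → Prop}, D.On B.W p → D.On (connectedComponentIn (Wr B ρ) x) p :=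
    fun h d z hz hw => h d z hz (hs hw).1
  have fd : D.On B.W fun d z => ∀ y, fderiv ℂ (D.rd (fun y => ((ρ : ℂ))⁻¹ • B.p y) d) z y =
      ((ρ : ℂ))⁻¹ • fderiv ℂ (D.rd B.p d) z y := fun d z hz hw y =>
    congrArg (fun L : E n →L[ℂ] E B.N => L y)
      ((B.phol d z hz hw).self_of_nhds.hasFDerivAt.const_smul ((ρ : ℂ))⁻¹).fderiv
  have op : IsOpen (Wr B ρ \ connectedComponentIn (Wr B ρ) x) :=
    isOpen_iff_mem_nhds.2 fun y hy => mem_of_superset
      (ho.connectedComponentIn.mem_nhds (mem_connectedComponentIn hy.1)) fun w hw =>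
        ⟨connectedComponentIn_subset _ _ hw, fun h => hy.2 (by
          rw [connectedComponentIn_eq h, ← connectedComponentIn_eq hw]
          exact mem_connectedComponentIn hy.1)⟩
  refine ⟨⟨connectedComponentIn (Wr B ρ) x, B.N, B.r, fun y => ((ρ : ℂ))⁻¹ • B.p y, B.τ, B.e, B.t,
    B.σ, B.v, ho.connectedComponentIn, isPreconnected_connectedComponentIn, B.epos, fun r hr => ?_,
    fun y hy => ?_, on fun d z hz hw => ?_, on B.thol, on fun d z hz hw y c h => ?_,
    on fun d z hz hw i hi j hj h => ?_, on B.vhol⟩, mem_connectedComponentIn hx, hs, rfl⟩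
  · have h2 : r * ρ < ρ := by nlinarith
    refine Eq.mp (congrArg IsCompact (Set.ext fun y => ?_))
      ((B.cpt (r * ρ) (h2.trans_le h1)).diff op)
    simp only [Set.mem_sdiff, mem_ofPred_eq, hn, div_le_iff₀ h0]
    exact ⟨fun h => ⟨by_contra fun k => h.2 ⟨⟨h.1.1, h.1.2.trans_lt h2⟩, k⟩, h.1.2⟩,
      fun h => ⟨⟨(hs h.1).1, h.2⟩, fun k => k.2 h.1⟩⟩
  · rw [hn, div_lt_one h0]
    exact (hs hy).2
  · exact (B.phol d z hz hw).mono fun w h => h.const_smul ((ρ : ℂ))⁻¹
  · rw [fd d z hz hw] at h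
    exact B.imm d z hz hw y c ((smul_eq_zero.1 h).resolve_left hc)
  · obtain ⟨y, y1, y2, y3⟩ := B.exc d z hz hw i hi j hj h
    exact ⟨y, y1, y2, by rw [fd d z hz hw, y3, smul_zero]⟩

end Pool.Agent.Lib.EXK
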