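import Pool.Agent.Lib.EXK.Blue
import Pool.Agent.Lib.EXS.RV1
import Pool.Agent.Lib.EXS.B_HORM

/-! Project exk, block RV2: the vanishing theorem from pointwise data, with the estimate. -/

open scoped Classical Topology ContDiff ComplexOrder Matrix
open Set MeasureTheory Complex Metric Filter

noncomputable section

namespace Pool.Agent.Lib.EXK

open Pool.Agent.Lib.SV (E nsq nsq_nonneg)
open Pool.Agent.Lib.HS32 Pool.Agent.Lib.EXS Pool.Agent.Lib.EXS.K32

namespace RV2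

variable {n : ℕ} {M : Mf n} {U O K : Set M.X} {q : M.X → E n} {ph : M.X → ℝ} {Γ F : M.X → ℂ}
  {e : M.Ch} {V : Set (E n)} {j a φ s : E n → ℂ} {d : E n → ℝ} {c : ℝ} {z : E n}

theorem dzb_eq2 (h : Dat2 U O q ph Γ e V j a φ s d c) (hO : IsOpen O)
    (hz : z ∈ V ∩ e.symm ⁻¹' O) (i : Fin n) : dzb i (Γ ∘ e.symm) z = dzb i s z / a z := by
  obtain ⟨h1, h2, h3, -⟩ := h.hol z hz.1 hz.2
  have e1 : Γ ∘ e.symm =ᶠ[𝓝 z] fun w => φ w + s w * (a w)⁻¹ :=
    eventually_of_mem ((pre_open h.opn h.sub hO).mem_nhds hz) fun w hw =>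
      (h.hol w hw.1 hw.2).2.2.2.trans (by rw [div_eq_mul_inv])
  have h4 : DifferentiableAt ℂ (fun w => (a w)⁻¹) z := h1.inv h2
  have h5 := cd_diff (h.sm z hz.1)
  rw [dzb_congr e1, dzb_add (h3.restrictScalars ℝ) (h5.fun_mul (h4.restrictScalars ℝ)),
    dzb_mul h5 (h4.restrictScalars ℝ), ((mHOL n _ z).1 (h3.restrictScalars ℝ)).1 h3,
    ((mHOL n _ z).1 (h4.restrictScalars ℝ)).1 h4]
  ring

theorem beta2 (h : Dat2 U O q ph Γ e V j a φ s d c) (hO : IsOpen O) (hz : z ∈ V) :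
    ∃ (V : Set (E n)) (β : E n → ℝ), IsOpen V ∧ z ∈ V ∧
    V ⊆ e.target ∧ ContinuousOn β (V ∩ e.symm ⁻¹' O) ∧
    (∀ z ∈ V ∩ e.symm ⁻¹' O, 0 ≤ β z ∧ ∀ v : E n,
      normSq (∑ i, star (v i) * dzb i (Γ ∘ e.symm) z) ≤ β z * nq (M.hs ph e z) v) ∧
    ∫⁻ z in V ∩ e.symm ⁻¹' O, ENNReal.ofReal
      (β z * Real.exp (-ph (e.symm z)) * normSq (jm (q ∘ e.symm) z).det) ≠ ⊤ := by
  have c0 := h.c0
  refine ⟨V, fun w => (n * ‖fun i => dzb i s w‖) ^ 2 / c / normSq (a w), h.opn, hz, h.sub,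
    fun w hw => ?_, fun w hw => ⟨div_nonneg (by positivity) (normSq_nonneg _), fun v => ?_⟩, ?_⟩
  · obtain ⟨h2, h3, -⟩ := h.hol w hw.1 hw.2
    have h1 : ContinuousAt (fun w => ‖fun i => dzb i s w‖) w :=
      (continuousAt_pi.2 fun i => (cd_dzb (h.sm w hw.1) i).continuousAt).norm
    exact ((((continuousAt_const.mul h1).pow 2).div_const c).div
      (continuous_normSq.continuousAt.comp h2.continuousAt) (normSq_pos.2 h3).ne').continuousWithinAt
  · have h3 := normSq_pos.2 (h.hol w hw.1 hw.2).2.1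
    simp only [dzb_eq2 h hO hw, ← mul_div_assoc, ← Finset.sum_div, map_div₀]
    rw [div_mul_eq_mul_div, div_le_div_iff_of_pos_right h3, div_mul_eq_mul_div, le_div_iff₀ c0]
    have h4 := mul_le_mul_of_nonneg_right (sum_le v fun i => dzb i s w) c0.le
    have h6 := mul_le_mul_of_nonneg_left (h.lo w hw.1 hw.2 v)
      (sq_nonneg (n * ‖fun i => dzb i s w‖))
    linarith
  · have m := (pre_open h.opn h.sub hO).measurableSet
    rw [setLIntegral_congr_fun m (g := fun w => ENNReal.ofReal (n ^ 2 / c) *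
      ENNReal.ofReal (‖fun i => dzb i s w‖ ^ 2 * d w)) fun w hw => ?_,
      lintegral_const_mul' _ _ ENNReal.ofReal_ne_top]
    · exact ENNReal.mul_ne_top ENNReal.ofReal_ne_top h.fin
    · have h3 := normSq_pos.2 (h.hol w hw.1 hw.2).2.1
      dsimp only
      rw [← ENNReal.ofReal_mul (by positivity), mul_assoc, (h.den w hw.1 hw.2).2]
      congr 1
      field_simp

theorem ext2 (h : Dat2 U O q ph Γ e V j a φ s d c) (hU : IsOpen U) (hO : IsOpen O)
    (hF : ∀ z ∈ e.target, e.symm z ∈ O → DifferentiableAt ℂ (F ∘ e.symm) z)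
    (hi : ∫⁻ z in e.target ∩ e.symm ⁻¹' O, ENNReal.ofReal
      (normSq (Γ (e.symm z) - F (e.symm z)) * Real.exp (-ph (e.symm z)) *
        normSq (jm (q ∘ e.symm) z).det) ≠ ⊤) :
    ∃ k, DifferentiableOn ℂ k (V ∩ e.symm ⁻¹' U) ∧ (∀ z ∈ V ∩ e.symm ⁻¹' U, ContinuousAt φ z →
      ContinuousAt a z → a z ≠ 0 → limUnder (𝓝[O] (e.symm z)) F = φ z + k z / a z) ∧
      ∫⁻ z in V ∩ e.symm ⁻¹' O, ENNReal.ofReal (normSq (s z - k z) * d z) ≠ ⊤ := by
  have ho := pre_open h.opn h.sub hU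
  have c0 := h.c0
  obtain ⟨k, k1, k2⟩ := SV.H85.ext_sq volume (f := fun w => (F (e.symm w) - φ w) * a w) ho
    (h.jh.mono inter_subset_left) (fun z hz => h.jn z hz.1) (fun w hw => by
      have h1 := (h.jo w hw.1.1).2 ⟨hw.1.2, hw.2⟩
      obtain ⟨h2, -, h3, -⟩ := h.hol w hw.1.1 h1
      exact (((hF w (h.sub hw.1.1) h1).sub h3).mul h2).differentiableWithinAt) fun z hz => by
      obtain ⟨r, r0, hr⟩ := Metric.eventually_nhds_iff_ball.1
        (((h.sm z hz.1).continuousAt.norm.eventually (gt_mem_nhds (lt_add_one _))).and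
          (ho.mem_nhds hz))
      generalize ‖s z‖ + 1 = B at hr
      refine ⟨_, ball_mem_nhds z r0, ne_top_of_le_ne_top ?_ (setLIntegral_mono_ae'
        (g := fun w => ENNReal.ofReal (2 / c) * ENNReal.ofReal
          (normSq (Γ (e.symm w) - F (e.symm w)) * Real.exp (-ph (e.symm w)) *
            normSq (jm (q ∘ e.symm) w).det) + ENNReal.ofReal (2 * B ^ 2)) ?_
              (ae_of_all _ fun w hw => ?_))⟩
      · rw [lintegral_add_right _ measurable_const, lintegral_const_mul' _ _ ENNReal.ofReal_ne_top,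
          setLIntegral_const]
        refine ENNReal.add_ne_top.2 ⟨ENNReal.mul_ne_top ENNReal.ofReal_ne_top
          (ne_top_of_le_ne_top hi (lintegral_mono_set fun w hw => ?_)), ENNReal.mul_ne_top
          ENNReal.ofReal_ne_top (ne_top_of_le_ne_top (measure_ball_lt_top (x := z) (r := r)).ne
            (measure_mono fun w hw => hw.1))⟩
        have h1 := (hr w hw.1).2
        exact ⟨h.sub h1.1, (h.jo w h1.1).2 ⟨h1.2, hw.2⟩⟩
      · exact ((h.jh.continuousOn.mono fun w hw => (hr w hw).2.1).isOpen_inter_preimage isOpen_ball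
          isOpen_ne).measurableSet
      · obtain ⟨h0, h1⟩ := hr w hw.1
        have h2 := (h.jo w h1.1).2 ⟨h1.2, hw.2⟩
        obtain ⟨-, h3, -, h4⟩ := h.hol w h1.1 h2
        obtain ⟨h5, h6⟩ := h.den w h1.1 h2
        rw [← ENNReal.ofReal_mul (by positivity), mul_assoc, h6]
        refine le_trans (ENNReal.ofReal_le_ofReal ?_) ENNReal.ofReal_add_le
        have e1 : (F (e.symm w) - φ w) * a w = s w - (Γ (e.symm w) - F (e.symm w)) * a w := by
          rw [h4]; field_simp; ring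
        have h7 := norm_sub_le (s w) ((Γ (e.symm w) - F (e.symm w)) * a w)
        rw [e1, ← mul_assoc, ← mul_assoc, mul_assoc (2 / c), ← map_mul, normSq_eq_norm_sq]
        generalize ‖(Γ (e.symm w) - F (e.symm w)) * a w‖ = t at h7 ⊢
        have h8 : 2 * t ^ 2 ≤ 2 / c * t ^ 2 * d w := by
          rw [div_mul_eq_mul_div, div_mul_eq_mul_div, le_div_iff₀ c0]
          exact mul_le_mul_of_nonneg_left h5 (by positivity)
        have h9 := pow_le_pow_left₀ (norm_nonneg _) h7 2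
        have h10 := pow_le_pow_left₀ (norm_nonneg _) h0.le 2
        nlinarith [sq_nonneg (‖s w‖ - t)]
  refine ⟨k, k1, fun z hz b1 b2 b3 => ?_, ?_⟩
  swap
  · refine ne_top_of_le_ne_top hi (le_trans (le_of_eq (setLIntegral_congr_fun
      (pre_open h.opn h.sub hO).measurableSet fun w hw => ?_))
      (lintegral_mono_set fun w hw => ⟨h.sub hw.1, hw.2⟩))
    obtain ⟨-, h3, -, h4⟩ := h.hol w hw.1 hw.2
    obtain ⟨h1, h2⟩ := (h.jo w hw.1).1 hw.2
    have e1 : s w - (F (e.symm w) - φ w) * a w = (Γ (e.symm w) - F (e.symm w)) * a w := by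
      rw [h4]; field_simp; ring
    rw [mul_assoc, (h.den w hw.1 hw.2).2, k2 w ⟨hw.1, h1⟩ h2, e1, map_mul, mul_assoc]
  have hz' := h.sub hz.1
  have t1 : Tendsto e (𝓝 (e.symm z)) (𝓝 z) := by
    simpa only [e.right_inv hz'] using (e.continuousAt (e.map_target hz')).tendsto
  have : (𝓝[O] (e.symm z)).NeBot := mem_closure_iff_nhdsWithin_neBot.1
    (mem_closure_iff_frequently.2 ((e.continuousAt_symm hz').tendsto.frequently
      (((not_eventually.1 (h.jn z hz.1)).and_eventually (ho.mem_nhds hz)).mono fun w hw =>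
        (h.jo w hw.2.1).2 ⟨hw.2.2, hw.1⟩)))
  have t2 : ContinuousAt (fun w => φ w + k w / a w) z :=
    b1.add ((k1.differentiableAt (ho.mem_nhds hz)).continuousAt.div b2 b3)
  refine Tendsto.limUnder_eq (((t2.tendsto.comp t1).mono_left nhdsWithin_le_nhds).congr' ?_)
  filter_upwards [nhdsWithin_le_nhds (t1.eventually (ho.mem_nhds hz)), self_mem_nhdsWithin,
    nhdsWithin_le_nhds (e.eventually_left_inverse (e.map_target hz'))] with x x1 x2 x3
  have x4 : e.symm (e x) ∈ O := by rwa [x3]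
  rw [Function.comp_apply, k2 _ x1 ((h.jo _ x1.1).1 x4).2, x3,
    mul_div_cancel_right₀ _ (h.hol _ x1.1 x4).2.1, add_sub_cancel]

/-- The abstract vanishing theorem. -/
theorem rv1x [M.Cpt] {ex : M.X → ℝ} (hU : IsOpen U) (hO : IsOpen O)
    (hK : IsCompact K) (hs : O ⊆ K)
    (hh : M.All fun e z => e.symm z ∈ O → HolN (q ∘ e.symm) z ∧ (jm (q ∘ e.symm) z).det ≠ 0 ∧
      ContDiffAt ℝ ∞ (ex ∘ e.symm) z ∧ ContDiffAt ℝ ∞ (ph ∘ e.symm) z ∧
      ContDiffAt ℝ ∞ (Γ ∘ e.symm) z ∧ (M.hs ex e z).PosDef ∧ (M.hs ph e z).PosSemidef)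
    (hc : ∀ a : ℝ, IsCompact {y | y ∈ O ∧ ex y ≤ a})
    (hd : ∀ y ∈ K, ∃ e V j a φ s d c, Dat2 U O q ph Γ e V j a φ s d c ∧ y ∈ e.source ∧ e y ∈ V) :
    ∃ F : M.X → ℂ, ∀ e V j a φ s d c, Dat2 U O q ph Γ e V j a φ s d c →
      ∃ k, DifferentiableOn ℂ k (V ∩ e.symm ⁻¹' U) ∧ (∀ z ∈ V ∩ e.symm ⁻¹' U, ContinuousAt φ z →
        ContinuousAt a z → a z ≠ 0 → F (e.symm z) = φ z + k z / a z) ∧
        ∫⁻ z in V ∩ e.symm ⁻¹' O, ENNReal.ofReal (normSq (s z - k z) * d z) ≠ ⊤ := by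
  obtain ⟨F, h1, h2⟩ := st_HORM n M O K q ex ph Γ hO hK hs hh hc fun y hy => by
    obtain ⟨e, V, j, a, φ, s, d, c, h, h1, h2⟩ := hd y hy
    exact ⟨e, h.mem, h1, beta2 h hO h2⟩
  exact ⟨fun y => limUnder (𝓝[O] y) F, fun e V j a φ s d c h =>
    ext2 h hU hO (h1 e h.mem) (h2 e h.mem)⟩

end RV2

open RV2 in
theorem kRV2 : Sk_RV2 := by
  intro n M _ N W U O p q j Γ ph ρ hW hc eU eO hh
  have cp : ∀ y ∈ W, ContinuousAt p y ∧ ContinuousAt j y := fun y hy => by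
    obtain ⟨e, -, h1, h2, -, h3, -⟩ := hh y hy
    exact ⟨cont_of h1 h2.self_of_nhds.continuousAt, cont_of h1 h3.self_of_nhds.continuousAt⟩
  have mU : ∀ y, y ∈ U ↔ y ∈ W ∧ ‖p y‖ < ρ := fun y => by rw [eU]; rfl
  have mO : ∀ y, y ∈ O ↔ y ∈ U ∧ j y ≠ 0 := fun y => by rw [eO]; rfl
  have hU : IsOpen U := isOpen_iff_mem_nhds.2 fun y hy => by
    have h1 := (mU y).1 hy
    filter_upwards [hW.mem_nhds h1.1, (cp y h1.1).1.norm.eventually (gt_mem_nhds h1.2)] with w a b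
    exact (mU w).2 ⟨a, b⟩
  have hO : IsOpen O := isOpen_iff_mem_nhds.2 fun y hy => by
    have h1 := (mO y).1 hy
    filter_upwards [hU.mem_nhds h1.1, (cp y ((mU y).1 h1.1).1).2.eventually_ne h1.2] with w a b
    exact (mO w).2 ⟨a, b⟩
  have key : M.All fun e z => e.symm z ∈ O → HolN (p ∘ e.symm) z ∧ HolN (q ∘ e.symm) z ∧
      (jm (q ∘ e.symm) z).det ≠ 0 ∧ HolN ((fun y => (j y)⁻¹) ∘ e.symm) z ∧
      ContDiffAt ℝ ∞ (ph ∘ e.symm) z ∧ ContDiffAt ℝ ∞ (Γ ∘ e.symm) z ∧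
      (M.hs ph e z).PosSemidef := Mf.allOn_of_source fun e' he' y hy ho => by
    rw [e'.left_inv hy] at ho
    have h0 := (mO y).1 ho
    obtain ⟨e, he, h1, h2, h3, h4, h5, V, j', a, φ, s, d, c, h6, h7⟩ := hh y ((mU y).1 h0.1).1
    obtain ⟨h8, h9⟩ := h5 h0.2
    have ho' : e.symm (e y) ∈ O := by rwa [e.left_inv h1]
    have nb := (pre_open h6.opn h6.sub hO).mem_nhds ⟨h7, ho'⟩
    have tr := (mTR n M).2.2.2.1
    refine ⟨hol_tr he he' h1 hy h2, hol_tr he he' h1 hy h3, ?_, hol_tr he he' h1 hy ?_,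
      (tr ℝ ph).2.1 e he e' he' y h1 hy h9, (tr ℂ Γ).2.1 e he e' he' y h1 hy ?_, ?_⟩
    · rw [jm_tr he he' h1 hy h3]
      exact mul_ne_zero h8 ((mTR n M).2.1 e he e' he' y h1 hy).2.1
    · filter_upwards [h4, h4.self_of_nhds.continuousAt.eventually_ne (y := 0)
        (by rw [Function.comp_apply, e.left_inv h1]; exact h0.2)] with w a b using a.inv b
    · have b1 : HolN a (e y) := eventually_of_mem nb fun w hw => (h6.hol w hw.1 hw.2).1
      have b2 : HolN φ (e y) := eventually_of_mem nb fun w hw => (h6.hol w hw.1 hw.2).2.2.1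
      exact ((hol_cd b2).add ((h6.sm _ h7).mul ((hol_cd b1).inv
        (h6.hol _ h7 ho').2.1))).congr_of_eventuallyEq
          (eventually_of_mem nb fun w hw => (h6.hol w hw.1 hw.2).2.2.2)
    · rw [lv_tr he he' h1 hy h9]
      exact (psd_of_lv h9 fun v => (mul_nonneg h6.c0.le (sq_nonneg _)).trans
        (h6.lo _ h7 ho' v)).conjTranspose_mul_mul_same _
  obtain ⟨ex, x1, x2⟩ := exh (W := W) (O := O) (p := p) (q := q) (R := fun y => (j y)⁻¹) (ρ := ρ)
    (fun r hr => hc r hr.le) (fun y hy => (mU y).1 ((mO y).1 hy).1)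
    (fun e he z hz ho => let h := key e he z hz ho; ⟨h.1, h.2.1, h.2.2.1, h.2.2.2.1⟩)
    fun y hy h1 h2 => by
      have h3 : j y = 0 := by_contra fun h => h2 ((mO y).2 ⟨(mU y).2 ⟨hy, h1⟩, h⟩)
      simp only [map_inv₀]
      refine tendsto_inv_nhdsGT_zero.comp (tendsto_nhdsWithin_iff.2 ⟨?_, ?_⟩)
      · have := (continuous_normSq.continuousAt.comp (cp y hy).2).tendsto
        rw [Function.comp_apply, h3, map_zero] at this
        exact this.mono_left nhdsWithin_le_nhds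
      · exact eventually_of_mem self_mem_nhdsWithin fun w hw => normSq_pos.2 ((mO w).1 hw).2
  refine ⟨hU, rv1x hU hO (hc ρ le_rfl)
    (fun y hy => ⟨((mU y).1 ((mO y).1 hy).1).1, ((mU y).1 ((mO y).1 hy).1).2.le⟩)
    (fun e he z hz ho => ?_) x2 fun y hy => ?_⟩
  · obtain ⟨-, h1, h2, -, h3, h4, h5⟩ := key e he z hz ho
    exact ⟨h1, h2, (x1 e he z hz ho).1, h3, h4, (x1 e he z hz ho).2, h5⟩
  · obtain ⟨e, -, h1, -, -, -, -, V, j', a, φ, s, d, c, h6, h7⟩ := hh y hy.1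
    exact ⟨e, V, j', a, φ, s, d, c, h6, h1, h7⟩

end Pool.Agent.Lib.EXK
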