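import Pool.Agent.Lib.EXK.Blue
import Pool.Agent.Lib.EXS.B_RV
import Pool.Agent.Lib.EXS.B_GLU

/-! Project exk, row RVW. -/

open scoped Classical Topology ContDiff ComplexOrder Matrix
open Set MeasureTheory Complex Metric Filter

set_option linter.unusedSectionVars false

noncomputable section

namespace Pool.Agent.Lib.EXK

open Pool.Agent.Lib.SV (E nsq nsq_nonneg)
open Pool.Agent.Lib.HS32 Pool.Agent.Lib.EX Pool.Agent.Lib.EXS Pool.Agent.Lib.EXS.K32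

namespace RVW

variable {n : ℕ} {ι : Type} [Fintype ι] [DecidableEq ι] {M : Mf n} {D : Ad M ι}

theorem ex_su (R : Rc D) (B : Bl D R.a R.ex) (t : ℝ) {lam : ℝ} (hl : 0 < lam)
    (hn : B.W.Nonempty) : ∃ (P : ι → ℤ) (S : Su R B t P) (y : M.X), S.ε = lam ∧ y ∈ B.W ∧
      S.j y ≠ 0 := by
  obtain ⟨S, y, h1, h2⟩ := K32.ex_su R B t (P := fun i => ⌈t * R.a i + R.k i / R.m⌉)
    (fun _ => rfl) hn
  refine ⟨fun i => ⌈t * R.a i + R.k i / R.m - lam * B.e i⌉, ⟨S.q, S.l, S.H, S.J, lam, S.g, S.J0,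
    hl, S.hq, S.hH, S.hg, S.g0, S.gz, fun i h => ?_, fun i => ⟨?_, ?_⟩⟩, y, rfl, h1, h2⟩
  · simp [((S.gz i).1 h).1, ((S.gz i).1 h).2.1, ((S.gz i).1 h).2.2]
  · have := Int.ceil_lt_add_one (t * R.a i + R.k i / R.m - lam * B.e i)
    linarith
  · have := Int.le_ceil (t * R.a i + R.k i / R.m - lam * B.e i)
    linarith

theorem avg_on [M.Cpt] {W : Set M.X} {K : ι → ℤ} {g : D.A → E n → ℂ} (h : DifOn D W K g) :
    D.On W fun d z => Pol (D.c d) K (D.rd (D.avg g) d - g d) z := by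
  intro a z hz hw
  have hP := (bMOD n ι (D.c a) K 0 ∅ 0).1
  refine hP.cong _ _ z (AVG.sum_mem D bTRF hP (fun b => D.tr b a (g b) - g a) hz
    fun b hb => ?_) (Eventually.of_forall fun y _ => ?_)
  · obtain ⟨s, h2, h3⟩ := h b a _ hb (TRF.mem_src D hz) hw
    rw [TRF.rinv D hz] at h2 h3
    exact ⟨s, TRF.sm_of_hol h2, h3⟩
  · have s : ∑ b, ((D.χ b ((D.e a).symm y) : ℝ) : ℂ) = 1 := by exact_mod_cast D.sum _
    simp only [Pi.sub_apply, mul_sub, Finset.sum_sub_distrib, ← Finset.sum_mul, Ad.rd, Ad.tr,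
      Ad.avg, s, one_mul]

theorem nz_mul {f g : E n → ℂ} {z : E n} (hf : ∀ᶠ w in 𝓝 z, ContinuousAt f w)
    (h1 : ¬f =ᶠ[𝓝 z] 0) (h2 : ∀ᶠ w in 𝓝 z, ¬g =ᶠ[𝓝 w] 0) : ¬(fun w => f w * g w) =ᶠ[𝓝 z] 0 :=
  fun h => by
    obtain ⟨w, a, b, c, d⟩ := ((not_eventually.1 h1).and_eventually
      (hf.and (h2.and h.eventually_nhds))).exists
    refine c ?_
    filter_upwards [b.eventually_ne a, d] with y y1 y2 using (mul_eq_zero.1 y2).resolve_left y1

theorem glu_rep {γ : M.X → ℂ} {β : ι → ℕ} {d : D.A} {z : E n} (hz : z ∈ B2 n)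
    (h : PolH (D.c d) (-fun i => (β i : ℤ)) (D.rd γ d) z) : ∃ s, HolN s z ∧
      (∀ᶠ y in 𝓝 z, Off (D.c d) y → D.rd γ d y = xm (D.c d) (fun i => β i) y * s y) ∧
      D.rd (glu D γ) d =ᶠ[𝓝 z] fun y => xm (D.c d) (fun i => β i) y * s y := by
  obtain ⟨s, h1, h2⟩ := h
  rw [neg_neg] at h2
  refine ⟨s, h1, h2, bGLU n M ι D ℂ γ d _ z hz ?_ h2⟩
  filter_upwards [nat_hol (D.c d) β z, h1] with y a b using (a.mul b).continuousAt

theorem glu_holN {γ : M.X → ℂ} {β : ι → ℕ} {d : D.A} {z : E n} (hz : z ∈ B2 n)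
    (h : PolH (D.c d) (-fun i => (β i : ℤ)) (D.rd γ d) z) : HolN (D.rd (glu D γ) d) z := by
  obtain ⟨s, h1, -, h2⟩ := glu_rep hz h
  refine hol_congr ?_ h2
  filter_upwards [nat_hol (D.c d) β z, h1] with y a b using a.mul b

variable {R : Rc D} {B : Bl D R.a R.ex} {t ε : ℝ} {P₀ P Q : ι → ℤ} {β : ι → ℕ} {γ : M.X → ℂ}
  {d : D.A} {z : E n}

theorem ph_sm (S : Su R B t P₀) (ε : ℝ) (hz : z ∈ B2 n) (hw : (D.e d).symm z ∈ B.W)
    (hγ : HolN (D.rd γ d) z) (h : D.rd S.j d z * D.rd γ d z ≠ 0) :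
    ContDiffAt ℝ ∞ (D.rd (fun x => S.ph x + (1 - ε) * Real.log (normSq (γ x))) d) z ∧ ∀ v,
      lv (D.rd (fun x => S.ph x + (1 - ε) * Real.log (normSq (γ x))) d) z v = lv (S.u d) z v := by
  obtain ⟨a1, a2⟩ := S.ph_sm hz hw (left_ne_zero_of_mul h)
  obtain ⟨b1, b2⟩ := lv_log hγ (right_ne_zero_of_mul h)
  refine ⟨a1.add (contDiffAt_const.mul b1), fun v => ?_⟩
  refine (lv_add a1 (contDiffAt_const.mul b1) v).trans ?_
  rw [lv_mul b1, b2, a2, mul_zero, add_zero]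

theorem dat (S : Su R B t P₀) {U : Set M.X} {g : D.A → E n → ℂ} {y₀ y₁ : M.X} (h0 : y₀ ∈ B.W)
    (h1 : S.j y₀ ≠ 0) (h0' : y₁ ∈ B.W) (h1' : glu D γ y₁ ≠ 0) (e0 : 0 < ε) (e1 : ε ≤ 1)
    (hr : ∀ i, -1 < t * R.a i + R.k i / R.m - (1 - ε) * β i - S.ε * B.e i - P i ∧
      t * R.a i + R.k i / R.m - (1 - ε) * β i - S.ε * B.e i - P i ≤ 0)
    (hβ : ∀ i, β i ≠ 0 → R.a i ≠ 0) (hQ : ∀ i, R.a i = 0 → R.k i = 0 → Q i ≤ 0)
    (hγ : D.On B.W fun d z => PolH (D.c d) (-fun i => (β i : ℤ)) (D.rd γ d) z)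
    (hz : z ∈ B2 n) (hw : (D.e d).symm z ∈ B.W) (hg : PolH (D.c d) Q (g d) z)
    (hf : Pol (D.c d) (P + fun i => (β i : ℤ)) (D.rd (D.avg g) d - g d) z) :
    ∃ V φ s δ c, Dat2 U {y | y ∈ U ∧ S.j y * glu D γ y ≠ 0} S.q
      (fun x => S.ph x + (1 - ε) * Real.log (normSq (glu D γ x))) (glu D (γ * D.avg g)) (D.e d) V
      (D.rd (fun y => S.j y * glu D γ y) d) (xm (D.c d) P) φ s δ c ∧ z ∈ V ∧
      ∀ y ∈ V, Off (D.c d) y → D.rd γ d y * g d y = φ y ∧ ContinuousAt φ y := by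
  obtain ⟨s', a1, a2⟩ := hg
  obtain ⟨s, a3, a4⟩ := hf
  obtain ⟨γ₀, g1, g2, g3⟩ := glu_rep hz (hγ d z hz hw)
  obtain ⟨c, c0, a5⟩ := lv_near (S.u_sm hz hw).1 (S.u_sm hz hw).2
  have b0 : 0 < S.b d z := Real.exp_pos _
  have n1 : ContinuousAt (fun y => normSq (γ₀ y)) z :=
    continuous_normSq.continuousAt.comp g1.self_of_nhds.continuousAt
  have n2 : ContinuousAt (fun w => ‖fun i => dzb i s w‖) z :=
    (continuousAt_pi.2 fun i => (cd_dzb a3.self_of_nhds i).continuousAt).norm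
  obtain ⟨V, v1, v2, v3⟩ := _root_.eventually_nhds_iff.1 ((on_ev B.opn hz hw).and (a1.and (a2.and
    (a3.and (a4.and (a5.and (((S.b_cont hz hw).eventually (lt_mem_nhds (half_lt_self b0))).and
      (((S.b_cont hz hw).eventually (gt_mem_nhds (lt_add_one _))).and (g1.eventually_nhds.and
        (g2.and (g3.and ((n1.eventually (gt_mem_nhds (lt_add_one _))).and
          (n2.eventually (gt_mem_nhds (lt_add_one _)))))))))))))))
  have K1 : 1 ≤ normSq (γ₀ z) + 1 := le_add_of_nonneg_left (normSq_nonneg _)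
  generalize (fun y => normSq (γ₀ y)) z + 1 = K at v1 K1
  generalize (fun w => ‖fun i => dzb i s w‖) z + 1 = C at v1
  set r : ι → ℝ := fun i => t * R.a i + R.k i / R.m - (1 - ε) * β i - S.ε * B.e i - P i with hrd
  have z1 : ∀ i, S.g i = 0 → β i = 0 ∧ P i = 0 ∧ r i = 0 := fun i h => by
    obtain ⟨b1, b2, b3⟩ := (S.gz i).1 h
    have b4 : β i = 0 := by_contra fun h => hβ i h b1
    have b5 := hr i
    simp only [b1, b2, b3, b4, Nat.cast_zero, Int.cast_zero, mul_zero, zero_div, add_zero,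
      sub_zero, zero_sub, neg_lt_neg_iff, Left.neg_nonpos_iff] at b5
    have b6 : P i = 0 := by
      have x1 : P i < 1 := by exact_mod_cast b5.1
      have x2 : 0 ≤ P i := by exact_mod_cast b5.2
      omega
    exact ⟨b4, b6, by simp [hrd, b1, b2, b3, b4, b6]⟩
  have k1 : ∀ y ∈ V, (∀ i, S.g i ≠ 0 → xi (D.c d) i y ≠ 0) → DifferentiableAt ℂ
      (fun w => xm (D.c d) (fun i => β i) w * γ₀ w * (xm (D.c d) (-Q) w * s' w)) y := fun y hy h =>
    ((nat_hol _ β y).self_of_nhds.fun_mul (v1 y hy).2.2.2.2.2.2.2.2.1.self_of_nhds).fun_mul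
      ((xm_hol fun i hi => h i fun h2 => absurd (hQ i ((S.gz i).1 h2).1 ((S.gz i).1 h2).2.2)
        (by simpa using hi)).self_of_nhds.fun_mul (v1 y hy).2.1)
  have jh : ∀ y ∈ B2 n, (D.e d).symm y ∈ B.W → HolN (D.rd (fun y => S.j y * glu D γ y) d) y :=
    fun y b1 b2 => TRF.holN_mul (S.j_hol b1 b2) (glu_holN b1 (hγ d y b1 b2))
  have nz : ∀ {f : M.X → ℂ} {x : M.X}, (D.On B.W fun d z => HolN (D.rd f d) z) → x ∈ B.W →
      f x ≠ 0 → ∀ y ∈ B2 n, (D.e d).symm y ∈ B.W → ¬D.rd f d =ᶠ[𝓝 y] 0 :=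
    fun hf hx h y b1 b2 => not_zero B.con (fun x hx => by
      obtain ⟨d', hd⟩ := ex_ch D x
      exact ⟨_, hd, on_at hf hd hx⟩) hx h (tg b1) b2
  have den : ∀ y ∈ V, D.rd S.j d y * D.rd (glu D γ) d y ≠ 0 → γ₀ y ≠ 0 ∧
      (∀ i, r i ≠ 0 → xi (D.c d) i y ≠ 0) ∧ ∀ i, P i ≠ 0 → xi (D.c d) i y ≠ 0 := fun y hy h => by
    obtain ⟨⟨b1, b2⟩, -, -, -, -, -, -, -, -, -, b3, -⟩ := v1 y hy
    have b4 := (S.j_ne b1 b2 (left_ne_zero_of_mul h)).2
    exact ⟨right_ne_zero_of_mul (b3 ▸ right_ne_zero_of_mul h),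
      fun i hi => b4 i fun h2 => hi (z1 i h2).2.2, fun i hi => b4 i fun h2 => hi (z1 i h2).2.1⟩
  refine ⟨V, fun w => xm (D.c d) (fun i => β i) w * γ₀ w * (xm (D.c d) (-Q) w * s' w),
    fun w => γ₀ w * s w, fun w => S.b d w * xr (D.c d) r w * normSq (γ₀ w) ^ (ε - 1),
    min c (S.b d z / 2 * 4⁻¹ ^ Fintype.card ι * K⁻¹), ⟨D.mem d, v2, fun y hy => tg (v1 y hy).1.1,
      lt_min c0 (by positivity),
      fun y hy => (jh y (v1 y hy).1.1 (v1 y hy).1.2).self_of_nhds.differentiableWithinAt,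
      fun y hy => ?_, fun y hy => Iff.rfl,
      fun y hy => (hol_cd (v1 y hy).2.2.2.2.2.2.2.2.1).mul (v1 y hy).2.2.2.1, fun y hy ho => ?_,
      fun y hy ho v => ?_, fun y hy ho => ?_, ?_⟩, v3, fun y hy ho => ⟨?_,
        (k1 y hy fun i _ => ho i).continuousAt⟩⟩
  · obtain ⟨⟨b1, b2⟩, -⟩ := v1 y hy
    exact nz_mul ((S.j_hol b1 b2).mono fun w hw => hw.continuousAt)
      (nz (fun _ _ => S.j_hol) h0 h1 y b1 b2) ((on_ev B.opn b1 b2).mono fun w hw =>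
        nz (fun d z hz hw => glu_holN hz (hγ d z hz hw)) h0' h1' w hw.1 hw.2)
  · obtain ⟨⟨b1, b2⟩, -⟩ := v1 y hy
    have b3 := (den y hy ho.2).2.2
    have b4 := xm_hol fun i hi => b3 i hi.ne
    have b5 := (S.j_ne b1 b2 (left_ne_zero_of_mul ho.2)).2
    refine ⟨b4.self_of_nhds, xm_ne b3, k1 y hy b5, (bGLU n M ι D ℂ (γ * D.avg g) d
      (fun w => xm (D.c d) (fun i => β i) w * γ₀ w * (xm (D.c d) (-Q) w * s' w) +
        γ₀ w * s w / xm (D.c d) P w) y b1 ?_ ?_).self_of_nhds⟩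
    · have b6 : ∀ᶠ w in 𝓝 y, ∀ i, S.g i ≠ 0 → xi (D.c d) i w ≠ 0 := eventually_all.2 fun i => by
        by_cases hi : S.g i = 0
        · exact .of_forall fun _ h => absurd hi h
        · exact ((MON.diff_xi _ i).continuous.continuousAt.eventually_ne (b5 i hi)).mono
            fun _ h _ => h
      filter_upwards [v2.mem_nhds hy, b6, b4,
        b4.self_of_nhds.continuousAt.eventually_ne (xm_ne b3)] with w w1 w2 w3 w4
      exact (k1 w w1 w2).continuousAt.add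
        ((((v1 w w1).2.2.2.2.2.2.2.2.1.self_of_nhds.continuousAt).mul
          (v1 w w1).2.2.2.1.continuousAt).div w3.continuousAt w4)
    · filter_upwards [v2.mem_nhds hy] with w w1 w2
      obtain ⟨-, -, b7, -, b8, -, -, -, -, b9, -⟩ := v1 w w1
      have b10 := b8 w2
      rw [Pi.sub_apply, sub_eq_iff_eq_add, neg_add, MON.xm_add _ _ w2, MON.xm_neg, MON.xm_neg]
        at b10
      change D.rd γ d w * D.rd (D.avg g) d w = _
      have b11 := MON.xm_ne (fun i => (β i : ℤ)) w2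
      have b12 := MON.xm_ne P w2
      rw [b10, b9 w2, b7 w2]
      field_simp
      ring
  · obtain ⟨⟨b1, b2⟩, -, -, -, -, b3, -⟩ := v1 y hy
    exact ((mul_le_mul_of_nonneg_right (min_le_left _ _) (sq_nonneg _)).trans (b3 v)).trans_eq
      ((ph_sm S ε b1 b2 (glu_holN b1 (hγ d y b1 b2)) ho.2).2 v).symm
  · obtain ⟨⟨b1, b2⟩, -, -, -, -, -, b3, -, -, -, b6, b7, -⟩ := v1 y hy
    obtain ⟨c1, c2, c3⟩ := den y hy ho.2
    have p1 := normSq_pos.2 c1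
    obtain ⟨d1, d2, d3⟩ := S.den b1 b2 (left_ne_zero_of_mul ho.2)
    have d4 := (S.j_ne b1 b2 (left_ne_zero_of_mul ho.2)).2
    refine ⟨(min_le_right _ _).trans (mul_le_mul (mul_le_mul b3.le (xr_low hr b1 c2)
      (by positivity) (Real.exp_pos _).le) ?_ (by positivity)
        (mul_nonneg (Real.exp_pos _).le (Finset.prod_nonneg fun i _ =>
          Real.rpow_nonneg (normSq_nonneg _) _))), ?_⟩
    · rw [← Real.rpow_neg_one]
      exact (Real.rpow_le_rpow_of_exponent_le K1 (by linarith)).trans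
        (Real.rpow_le_rpow_of_nonpos p1 b7.le (by linarith))
    · have d5 := xm_exp (K := fun i => β i) fun i hi => d4 i fun h2 => hi (by rw [(z1 i h2).1]; rfl)
      change Real.exp (-(D.rd S.ph d y + (1 - ε) * Real.log (normSq (D.rd (glu D γ) d y)))) *
        normSq (jm (D.rd S.q d) y).det = _
      rw [neg_add, Real.exp_add, mul_right_comm, d3, b6, map_mul, d5,
        Real.log_mul (Real.exp_ne_zero _) p1.ne', Real.log_exp, xm_exp d2, xr_exp d1, xm_exp c3,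
        xr_exp c2, Real.rpow_def_of_pos p1, Su.b]
      simp only [← Real.exp_add]
      congr 1
      have e : lm (D.c d) (fun i => P₀ i) y + lm (D.c d) S.r y = lm (D.c d) (fun i => P i) y +
          lm (D.c d) r y + (1 - ε) * lm (D.c d) (fun i => ((β i : ℤ) : ℝ)) y := by
        simp only [lm, Finset.mul_sum, ← Finset.sum_add_distrib, Su.r, hrd, Int.cast_natCast]
        exact Finset.sum_congr rfl fun i _ => by ring
      linarith
  · have i1 := ((xr_int (D.inj d) fun i => (hr i).1).const_mul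
      (C ^ 2 * K * (S.b d z + 1))).lintegral_lt_top
    refine ne_top_of_le_ne_top (ne_top_of_le_ne_top i1.ne (lintegral_mono_set
      (s := V) fun y hy => (v1 y hy).1.1)) ((lintegral_mono_set inter_subset_left).trans
        (setLIntegral_mono_ae' v2.measurableSet (ae_of_all _ fun y hy => ?_)))
    obtain ⟨-, -, -, b1, -, -, -, b2, b3, -, -, b4, b5⟩ := v1 y hy
    refine ENNReal.ofReal_le_ofReal ?_
    have e : (fun i => dzb i (fun w => γ₀ w * s w) y) = γ₀ y • fun i => dzb i s y := by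
      funext i
      rw [dzb_mul (cd_diff (hol_cd b3)) (cd_diff b1),
        ((mHOL n _ y).1 (cd_diff (hol_cd b3))).1 b3.self_of_nhds]
      simp
    have x0 : 0 ≤ xr (D.c d) r y :=
      Finset.prod_nonneg fun i _ => Real.rpow_nonneg (normSq_nonneg _) _
    have x1 : normSq (γ₀ y) * normSq (γ₀ y) ^ (ε - 1) ≤ K := by
      rw [← Real.rpow_one_add' (normSq_nonneg _) (by linarith), add_sub_cancel]
      exact (Real.rpow_le_rpow (normSq_nonneg _) b4.le e0.le).trans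
        (Real.rpow_le_self_of_one_le K1 e1)
    have x2 : 0 ≤ normSq (γ₀ y) * normSq (γ₀ y) ^ (ε - 1) :=
      mul_nonneg (normSq_nonneg _) (Real.rpow_nonneg (normSq_nonneg _) _)
    have x3 := pow_le_pow_left₀ (norm_nonneg _) b5.le 2
    have x4 : 0 ≤ S.b d y := (Real.exp_pos _).le
    rw [e, norm_smul, mul_pow, ← normSq_eq_norm_sq]
    calc _ = ‖fun i => dzb i s y‖ ^ 2 * (normSq (γ₀ y) * normSq (γ₀ y) ^ (ε - 1)) * S.b d y *
          xr (D.c d) r y := by ring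
      _ ≤ _ := mul_le_mul_of_nonneg_right (mul_le_mul (mul_le_mul x3 x1 x2 (sq_nonneg _)) b2.le x4
          (mul_nonneg (sq_nonneg _) (by linarith))) x0
  · obtain ⟨-, -, b1, -, -, -, -, -, -, b2, -⟩ := v1 y hy
    rw [b1 ho, b2 ho]

end RVW

open RVW in
theorem kRVW (hV : Sk_RV2) : Sk_RVW := by
  intro n M _ ι _ _ D R B t ε lam ρ β P Q γ g hρ e0 e1 hl hr hβ hQ hγ hg hd
  by_cases hn : ∃ y ∈ B.W, glu D γ y ≠ 0
  swap
  · refine ⟨0, fun d z hz hw => ⟨0, .of_forall fun _ => differentiableAt_const (0 : ℂ), ?_⟩⟩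
    obtain ⟨s, -, h1, h2⟩ := glu_rep hz (hγ d z hz hw.1)
    filter_upwards [h1, h2, on_ev B.opn hz hw.1] with y a b c ho
    have : D.rd (glu D γ) d y = 0 := by_contra fun h => hn ⟨_, c.2, h⟩
    rw [Pi.sub_apply, Pi.mul_apply, a ho, ← b, this]
    simp [Ad.rd]
  obtain ⟨y₁, h0', h1'⟩ := hn
  obtain ⟨P₀, S, y₀, rfl, h0, h1⟩ := RVW.ex_su
    ⟨R.a, R.k, R.m, R.w, R.ex, R.m0, R.whol, R.wne, R.wcmp, fun i h => (R.off i h).2⟩ B t hl
    ⟨y₁, h0'⟩
  have key := fun d z hz hw => dat (d := d) (z := z) (U := Wr B ρ) S h0 h1 h0' h1' e0 e1 hr hβ hQ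
    hγ hz hw (hg d z hz hw) (avg_on hd d z hz hw)
  obtain ⟨hU, F, hF⟩ := hV n M _ B.W (Wr B ρ) _ B.p S.q (fun y => S.j y * glu D γ y)
    (glu D (γ * D.avg g)) (fun x => S.ph x + (1 - ε) * Real.log (normSq (glu D γ x))) ρ B.opn
    (fun r hr => B.cpt r (hr.trans_lt hρ)) rfl rfl fun y hy => by
      obtain ⟨d, hd⟩ := ex_ch D y
      have h2 := TRF.mem_B D hd
      have h3 := (D.e d).left_inv hd
      have h4 : (D.e d).symm (D.e d y) ∈ B.W := by rwa [h3]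
      obtain ⟨V, φ, s, δ, c, h5, h6, -⟩ := key d _ h2 h4
      have h8 := glu_holN h2 (hγ d _ h2 h4)
      refine ⟨_, D.mem d, hd, B.phol d _ h2 h4, S.hq d _ h2 h4,
        TRF.holN_mul (S.j_hol h2 h4) h8, fun h => ?_, V, _, _, φ, s, δ, c, h5, h6⟩
      have h7 : D.rd S.j d (D.e d y) * D.rd (glu D γ) d (D.e d y) ≠ 0 := by
        rwa [Ad.rd, Ad.rd, h3]
      exact ⟨(S.j_ne h2 h4 (left_ne_zero_of_mul h7)).1, (ph_sm S ε h2 h4 h8 h7).1⟩
  refine ⟨F, fun d z hz hw => ?_⟩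
  obtain ⟨V, φ, s, δ, c, h2, h3, h4⟩ := key d z hz hw.1
  obtain ⟨k, h5, h6, -⟩ := hF _ _ _ _ _ _ _ _ h2
  have ho := pre_open h2.opn h2.sub hU
  refine ⟨k, (ho.eventually_mem ⟨h3, hw⟩).mono fun y hy => h5.differentiableAt (ho.mem_nhds hy),
    (ho.eventually_mem ⟨h3, hw⟩).mono fun y hy hy' => ?_⟩
  rw [Pi.sub_apply, Pi.mul_apply, (h4 y hy.1 hy').1, Ad.rd, h6 y hy (h4 y hy.1 hy').2
    (MON.diff_xm fun i => Or.inl (hy' i)).continuousAt (MON.xm_ne P hy'),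
    add_sub_cancel_left, MON.xm_neg, div_eq_inv_mul]

end Pool.Agent.Lib.EXK
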