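import Pool.Agent.Lib.EXK.Blue
import Pool.Agent.Lib.EXS.L14

/-! Project exk, row `SPLIT`: splitting off the part without poles. -/

open scoped Classical Topology ContDiff
open Set Complex Metric Filter

noncomputable section

namespace Pool.Agent.Lib.EXK

open Pool.Agent.Lib.SV (E)
open Pool.Agent.Lib.HS32 Pool.Agent.Lib.EX

namespace SPLIT

variable {n : ℕ} {ι : Type} [Fintype ι] [DecidableEq ι] {c : ι → Option (Fin n)}

/-- A monomial with non-negative exponents is holomorphic. -/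
theorem hol_xm (hM : St_MON) {P : ι → ℤ} (hP : 0 ≤ P) (z : E n) : HolN (xm c P) z := by
  obtain ⟨-, -, -, -, -, -, m7, -⟩ := hM n ι c
  have e : P = fun i => ((P i).toNat : ℤ) := funext fun i => (Int.toNat_of_nonneg (hP i)).symm
  rw [e]
  exact m7 _ z

/-- An identity off the divisor extends to the divisor. -/
theorem ext (hM : St_MON) (hc : Inj c) {f g : E n → ℂ} {z : E n} (hf : ContinuousAt f z)
    (hg : ContinuousAt g z) (h : ∀ᶠ y in 𝓝 z, Off c y → f y = g y) : f z = g z := by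
  obtain ⟨-, -, -, -, -, -, -, -, -, -, -, -, -, m⟩ := hM n ι c
  refine sub_eq_zero.1 ((m hc).2.2.2.2 ∅ (fun y => f y - g y) z (fun i hi => by simp at hi)
    (hf.sub hg) (h.mono fun y h1 _ h2 => sub_eq_zero.2 (h1 fun i => h2 i (by simp))))

/-- The monomial does not see the projection. -/
theorem xm_prj (hM : St_MON) (hc : Inj c) {P : ι → ℤ} {i : ι} (hi : P i = 0) (z : E n) :
    xm c P (prj c {i} z) = xm c P z := by
  obtain ⟨-, -, -, -, -, -, -, -, -, -, -, -, -, m⟩ := hM n ι c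
  refine Finset.prod_congr rfl fun l _ => ?_
  by_cases h : l = i
  · rw [h, hi, zpow_zero, zpow_zero]
  · rw [(m hc).1 {i} l z (by simpa using h)]

/-- The restriction to a component is divisible by the monomial. -/
theorem res (hM : St_MON) (hMIN : Sk_MIN) (hc : Inj c) {K : ι → ℤ} {i : ι} (hi : K i = 0)
    (hn : c i ≠ none) {c0 : E n → ℂ} (h0 : ∀ z ∈ B2 n, DifferentiableAt ℂ c0 z)
    (h : ∀ z ∈ B2 n, xi c i z = 0 → PolH c K (fun y => c0 (prj c {i} y)) z) :
    ∃ g : E n → ℂ, ∀ z ∈ B2 n, DifferentiableAt ℂ g z ∧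
      c0 (prj c {i} z) = xm c (-K ⊔ 0) z * g z := by
  have hx := hol_xm (c := c) hM (P := -K ⊔ 0) le_sup_right
  have hP : (-K ⊔ 0 : ι → ℤ) i = 0 := by simp [hi]
  have e : -(K ⊓ 0) = -K ⊔ 0 := by rw [neg_inf, neg_zero]
  obtain ⟨-, -, -, -, -, -, -, -, -, -, m, -⟩ := hM n ι c
  have mb : ∀ z ∈ B2 n, prj c {i} z ∈ B2 n := fun z hz =>
    mem_ball_zero_iff.2 ((m {i} z).1.trans_lt (mem_ball_zero_iff.1 hz))
  have hd : ∀ z ∈ B2 n, DifferentiableAt ℂ (fun y => c0 (prj c {i} y)) z := fun z hz =>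
    (h0 _ (mb z hz)).comp z (m {i} z).2.2.1.self_of_nhds
  have hh : ∀ z ∈ B2 n, HolN (fun y => c0 (prj c {i} y)) z := fun z hz =>
    (isOpen_ball.eventually_mem hz).mono hd
  have key : ∀ z ∈ B2 n, PolH c (K ⊓ 0) (fun y => c0 (prj c {i} y)) z := fun z hz => by
    have z0 : xi c i (prj c {i} z) = 0 :=
      (m {i} z).2.2.2.2.1 (fun l hl => by rwa [Finset.mem_singleton.1 hl]) i (by simp)
    obtain ⟨s, s1, s2⟩ := hMIN n ι c K 0 _ _ hc (h _ (mb z hz) z0)
      ⟨_, hh _ (mb z hz), Eventually.of_forall fun y _ => by simp [xm]⟩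
    rw [e] at s2
    have s3 : ∀ᶠ y in 𝓝 (prj c {i} z), c0 (prj c {i} y) = xm c (-K ⊔ 0) y * s y := by
      filter_upwards [s1, s2.eventually_nhds, hh _ (mb z hz)] with y a1 a2 a3
      exact ext hM hc a3.continuousAt ((hx y).self_of_nhds.mul a1).continuousAt a2
    have t : Tendsto (prj c {i}) (𝓝 z) (𝓝 (prj c {i} z)) :=
      (m {i} z).2.2.1.self_of_nhds.continuousAt
    refine ⟨fun y => s (prj c {i} y), ?_, ?_⟩
    · filter_upwards [t.eventually s1, (m {i} z).2.2.1] with y a1 a2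
      exact a1.comp y a2
    · filter_upwards [t.eventually s3] with y a1 _
      rw [(m {i} y).2.1, xm_prj hM hc hP] at a1
      rw [e, a1]
  obtain ⟨U, hU⟩ := EXS.L14.num hM key
  refine ⟨U, fun z hz => ⟨(hU z hz).1, ext hM hc (hd z hz).continuousAt
    ((hx z).self_of_nhds.mul (hU z hz).1).continuousAt ?_⟩⟩
  filter_upwards [isOpen_ball.eventually_mem hz] with y hy ho
  rw [← e]
  exact (hU y hy).2 ho

/-- The correction on all components. -/
theorem all (hM : St_MON) (hMIN : Sk_MIN) (hc : Inj c) {K : ι → ℤ} {c0 : E n → ℂ}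
    (h0 : ∀ z ∈ B2 n, DifferentiableAt ℂ c0 z) (N : Finset ι) (hN : ∀ i ∈ N, K i = 0)
    (h : ∀ i ∈ N, ∀ z ∈ B2 n, xi c i z = 0 → PolH c K (fun y => c0 (prj c {i} y)) z) :
    ∃ g : E n → ℂ, ∀ z ∈ B2 n, DifferentiableAt ℂ g z ∧
      ∀ i ∈ N, xi c i z = 0 → c0 z = xm c (-K ⊔ 0) z * g z := by
  induction N using Finset.induction_on with
  | empty => exact ⟨0, fun z _ => ⟨differentiableAt_const _, fun i hi => by simp at hi⟩⟩
  | insert i N hi ih =>
    obtain ⟨g, hg⟩ := ih (fun l hl => hN l (Finset.mem_insert_of_mem hl))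
      fun l hl => h l (Finset.mem_insert_of_mem hl)
    by_cases hn : c i = none
    · refine ⟨g, fun z hz => ⟨(hg z hz).1, fun l hl z0 => ?_⟩⟩
      rcases Finset.mem_insert.1 hl with rfl | hl
      · simp [xi, hn] at z0
      · exact (hg z hz).2 l hl z0
    have k0 := hN i (Finset.mem_insert_self _ _)
    obtain ⟨u, hu⟩ := res hM hMIN hc k0 hn h0 (h i (Finset.mem_insert_self _ _))
    have hP : (-K ⊔ 0 : ι → ℤ) i = 0 := by simp [k0]
    have xp := xm_prj hM hc hP
    obtain ⟨-, -, -, -, -, -, -, -, -, -, m, -, -, m'⟩ := hM n ι c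
    have mb : ∀ z ∈ B2 n, prj c {i} z ∈ B2 n := fun z hz =>
      mem_ball_zero_iff.2 ((m {i} z).1.trans_lt (mem_ball_zero_iff.1 hz))
    refine ⟨fun y => g y + u y - g (prj c {i} y), fun z hz => ⟨((hg z hz).1.add (hu z hz).1).sub
      ((hg _ (mb z hz)).1.comp z (m {i} z).2.2.1.self_of_nhds), fun l hl z0 => ?_⟩⟩
    have a1 := (hu z hz).2
    beta_reduce
    rcases Finset.mem_insert.1 hl with rfl | hl
    · have p : prj c {l} z = z :=
        (m {l} z).2.2.2.1 fun j hj => by rwa [Finset.mem_singleton.1 hj]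
      rw [p] at a1 ⊢
      rw [a1]
      ring
    · have a2 := (hg _ (mb z hz)).2 l hl (by
        rw [(m' hc).1 {i} l z (fun q => hi (Finset.mem_singleton.1 q ▸ hl)), z0])
      rw [xp, a1] at a2
      rw [(hg z hz).2 l hl z0]
      linear_combination -a2

end SPLIT

/-- Row `SPLIT`. -/
theorem kSPLIT (hMIN : Sk_MIN) (hMON : St_MON) (hDIV : EX.St_DIV) : Sk_SPLIT := by
  intro n ι _ _ c K N c0 hc hN h0 h
  obtain ⟨g, hg⟩ := SPLIT.all hMON hMIN hc h0 N hN h
  refine ⟨g, fun z hz => ⟨(hg z hz).1, ?_⟩⟩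
  have hr : HolN (fun y => c0 y - xm c (-K ⊔ 0) y * g y) z :=
    (isOpen_ball.eventually_mem hz).mono fun y hy => (h0 y hy).sub
      ((SPLIT.hol_xm hMON le_sup_right y).self_of_nhds.mul (hg y hy).1)
  obtain ⟨s, s1, s2⟩ := (hDIV n ι c _ z hc hr).2 N 1 fun I hI => by
    obtain ⟨a, b⟩ := Finset.mem_powersetCard.1 hI
    obtain ⟨i, rfl⟩ := Finset.card_eq_one.1 b
    filter_upwards [isOpen_ball.eventually_mem hz] with y hy hs
    exact sub_eq_zero.2 ((hg y hy).2 i (a (by simp)) (hs i (by simp)))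
  have e : lt N 1 = {∅} := by
    ext J
    simp only [lt, Finset.mem_filter, Finset.mem_powerset, Nat.lt_one_iff, Finset.card_eq_zero,
      Finset.mem_singleton]
    exact ⟨fun a => a.2, fun a => ⟨a ▸ Finset.empty_subset _, a⟩⟩
  obtain ⟨-, -, -, -, -, -, -, -, -, m, -⟩ := hMON n ι c
  refine ⟨s ∅, s1 ∅, s2.mono fun y a _ => ?_⟩
  rw [e, Finset.sum_singleton, Finset.sdiff_empty, ← m] at a
  rw [neg_neg]
  exact a

end Pool.Agent.Lib.EXK
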