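import Pool.Agent.Lib.EXK.Blue

/-! Project exk: one jump. -/

open scoped Classical Topology ContDiff ComplexOrder Matrix Manifold
open Set MeasureTheory Complex Metric Filter

set_option linter.unusedVariables false

noncomputable section

namespace Pool.Agent.Lib.EXK

open Pool.Agent.Lib.SV (E)
open Pool.Agent.Lib.HS32 Pool.Agent.Lib.EX

theorem kSTP (hJA : Sk_JA) (hJB : Sk_JB) (hREG1 : Sk_REG1) (hREG2 : Sk_REG2) (hGNI : Sk_GNI)
    (hGLA : Sk_GLA) (hNUM : Sk_NUM) : Sk_STP := by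
  intro n M _ H ι _ _ D R κ _ u μ' μ J hK hF hJ hμ hI
  obtain ⟨j, τ, _, U, hJj, hG, hIn⟩ := hI
  have hμj : μ ≤ j := hμ.trans (by exact_mod_cast hJj)
  have hj : 0 < j := by
    have : (0 : ℝ) < j := hJ.pos.trans_le hμj
    exact_mod_cast this
  choose U' hU' hV using fun t => hJA n M H ι D R κ u μ' μ j (U t) hK hF hJ hμj (hG t)
  have h0 : (0 : ι → ℤ) ≤ R.nu μ' := fun i => le_max_right _ _
  have he : (fun t => ev D (R.nu μ') (U' t)) = fun t => ev D (R.nu μ') (U t) := by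
    funext t x
    obtain ⟨⟨d, z⟩, hz, i, hi, hx⟩ := x
    have h1 := (hGLA n M ι D (R.ja j) (R.nu μ') (U' t - U t)).2.2.2.2.2.1 h0 (hV t)
      (fun d z hz => ((hU' t).hol d z hz).sub ((hG t).hol d z hz)) d z hz i hi hx
    exact sub_eq_zero.mp h1
  obtain ⟨j₂, τ₂, _, U₂, hJ₂, hG₂, hI₂⟩ := hREG1 n M ι D R κ τ u U' μ' μ J j hF hJ hj hJj hU'
    (by rw [he]; exact hIn)
  have hμ₂ : μ ≤ j₂ := hμ.trans (by exact_mod_cast hJ₂)
  have hj₂ : 0 < j₂ := by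
    have : (0 : ℝ) < j₂ := hJ.pos.trans_le hμ₂
    exact_mod_cast this
  have hn := hGNI n M ι D R κ τ₂ u U₂ j₂ (R.nu μ) hj₂ hF.gn
    (fun i => ((hNUM n M ι D R μ' μ hJ).2.2.2 i).1) hI₂
  choose F hF₁ hF₂ using hJB n M H ι D R τ₂ U₂ μ' μ j₂ hK hJ hμ₂ hG₂ hn
  exact hREG2 n M ι D R κ τ₂ u U₂ F μ' μ J j₂ hJ hJ₂ hG₂ (fun t => ⟨hF₁ t, hF₂ t⟩) hI₂

end Pool.Agent.Lib.EXK
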