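import Pool.Agent.Lib.EXK.Blue
import Pool.Agent.Lib.EX.B_LFT2
import Pool.Agent.Lib.EX.B_FINV
import Pool.Agent.Lib.RB.B_RBR

/-! Project exk: from the manifold layer to the statement. -/

open scoped Classical Topology ContDiff ComplexOrder Matrix Manifold
open Set Complex Metric Filter

set_option linter.unusedVariables false

noncomputable section

namespace Pool.Agent.Lib.EXK

open Pool.Agent.Lib.SV (E)
open Pool.Agent.Lib.HS32 Pool.Agent.Lib.HS.BBR Pool.Agent.Lib.EX Pool.Agent.Lib.EX.K1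
open Pool.Agent.Lib.KP (HolAt)

theorem kTARGET (hKEEL : Sk_KEEL) (hRSK : Sk_RSK) (hBR1 : Sk_BR1) (hBR2 : Sk_BR2) :
    Sk_TARGET := by
  intro n Y ι I _ _ _ _ _ _ _ G m S ex k ν l η W σ g M hG hm hR hM hB hS
  obtain ⟨D, R, α, hF, rfl, rfl, rfl, rfl, hW, hv⟩ := hRSK n Y ι I m S ex k l η W σ g hm hR
    fun i hi => ⟨hB.off i hi, fun hx => by
      have h1 := hB.eff i hx
      have h2 : (0 : ℝ) < m := Nat.cast_pos.2 hm
      rw [hi, Nat.cast_zero, zero_div, zero_sub, Left.nonneg_neg_iff, div_nonpos_iff] at h1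
      rcases h1 with h1 | h1
      · exact absurd h1.2 h2.not_ge
      · exact_mod_cast h1.1⟩
  have h0 : SecT n S ν W g 0 := ⟨fun a y _ => by simp [HolAt], fun a b y _ => by
    obtain ⟨h, -, h1, -⟩ := hR.form y
    exact ⟨h, 0, h1, Eventually.of_forall fun x => ⟨by simp [HolAt], by simp⟩⟩⟩
  obtain ⟨κ, _, U, -, -, L1, L2, L3⟩ := LFT2.core hR hF α
    (K := fun b => {y ∈ (R.B b).W | ‖(R.B b).p y‖ ≤ R.c0})
    (fun b => ⟨(R.B b).cpt R.c0 R.c1, fun y hy => hW b ▸ hy.1⟩) R.sub hv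
    (P := SecT n S ν W g) (fun _ h => h.hol) (fun _ h => h.glue) (fun a y hy => by
      obtain ⟨i, hi, hyi⟩ := mem_iUnion₂.1 hy.2
      exact hS a y ⟨hy.1, mem_biUnion (s := {i | 0 < ν i}) (hB.top i hi).1 hyi⟩) h0
  have : (mf n Y).Cpt := ⟨‹_›, ‹_›, ‹_›⟩
  obtain ⟨u, u1, u2⟩ := hBR1 n (mf n Y) I D R.a (fun i => ν i) κ (fun b => W (α b))
    (fun j b x => U j (α b) x / σ (α b) x) (fun b z hz => (hW b).subset (R.sub b z hz).1) L1 L2 L3
  obtain ⟨g1, g2, -⟩ := RB.R32.fam_ok hG.toHermitian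
  have e : ∀ i, R.dl M⁻¹ i = R.a i / M - R.k i / R.m := fun i => by
    rw [Rk.dl, div_eq_inv_mul (R.a i : ℝ)]
  obtain ⟨j, j0, hj⟩ := hKEEL n (mf n Y) (RB.R32.fam G) I D R κ u (fun i => ν i) M⁻¹
    ⟨⟨g1.toForm, g2 hG⟩, g1.pos⟩ (inv_pos.2 hM).le (fun i => by
      simp only [sp]
      split_ifs with h
      · omega
      · have := (hB.top i (Nat.pos_of_ne_zero h)).1
        omega) (fun i => by
      rw [e]
      rcases Nat.eq_zero_or_pos (R.a i) with h | h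
      · have h1 : (-R.m : ℝ) < R.k i := by exact_mod_cast hB.off i h
        have h2 : -1 < (R.k i : ℝ) / R.m := by rw [lt_div_iff₀ (Nat.cast_pos.2 hm)]; linarith
        have h3 : (0 : ℝ) ≤ ν i := Nat.cast_nonneg _
        rw [h]
        push_cast
        linarith [zero_div M]
      · exact_mod_cast (hB.top i h).2) (fun i hi => e i ▸ hB.eff i hi) u1 u2
  refine ⟨j, j0, fun a y hy => ?_⟩
  obtain ⟨d, z, hz, rfl⟩ := FINV.chart D y
  have k1 : ∀ K : I → ℤ, 0 ≤ K → ∀ d y, HolN (xm (D.c d) K) y := fun K h d y =>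
    Eventually.of_forall fun _ => MON.diff_xm fun i => Or.inr (h i)
  have k2 : ∀ d y, Off (D.c d) y → (1 : ℂ) = xm (D.c d) (-R.ja j) y * xm (D.c d) (R.ja j) y :=
    fun d y h => by rw [MON.xm_neg, inv_mul_cancel₀ (MON.xm_ne _ h)]
  have k3 : (0 : I → ℤ) ≤ R.ja j := fun i => by simp only [Rk.ja, Pi.zero_apply]; positivity
  obtain ⟨F, f1, s, f2, f3, f4⟩ : ∃ F : Y → ℂ,
      (D.All fun d y => PolH (D.c d) (R.ja j) (D.rd F d) y) ∧ ∃ s, HolN s z ∧ s z ≠ 0 ∧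
        ∀ᶠ y in 𝓝 z, Off (D.c d) y → D.rd F d y = xm (D.c d) (-R.ja j) y * s y := by
    by_cases h : xm (D.c d) (fun i => R.a i) z = 0
    · exact hj d z hz h
    refine ⟨1, fun d y _ => ⟨_, k1 _ k3 d y, Eventually.of_forall (k2 d)⟩, _, k1 _ k3 d z, ?_,
      Eventually.of_forall (k2 d)⟩
    refine Finset.prod_ne_zero_iff.2 fun i hi => ?_
    rw [Rk.ja, mul_comm, zpow_mul]
    exact zpow_ne_zero _ (Finset.prod_ne_zero_iff.1 h i hi)
  obtain ⟨v, h1, h2⟩ := hBR2 n (mf n Y) I ι D R.a j W σ g F (fun a => (hR.opn a).1) hv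
    (fun a b d z hz h => LFT.holN ((hR.opn a).1.inter (hR.opn b).1)
      (fun y hy => (hR.tr a b y hy).1) hz h) (fun a b x hx => (hR.tr a b x hx).2) f1
  refine ⟨v, ⟨fun a y hy => ?_, fun a b y hy => h2 a b y hy.1⟩, (h1 a d z hz hy.1).2 s f2 f3 f4⟩
  obtain ⟨d, z, hz, rfl⟩ := FINV.chart D y
  have h3 := (h1 a d z hz hy).1.self_of_nhds
  rw [← (D.e d).right_inv (FINV.tgt hz)] at h3
  exact (K1.hol_iff0 (D.mem d) ((D.e d).map_target (FINV.tgt hz))).2 h3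

end Pool.Agent.Lib.EXK
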