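import Pool.Agent.Lib.EXK.Blue
import Pool.Agent.Lib.EX.B_THE

/-! Project exk, row `THE`: from the output of the harmonic lemma to harmonic fields. -/

open scoped Classical Topology ContDiff ComplexOrder Matrix
open Set MeasureTheory Complex Metric Filter

noncomputable section

namespace Pool.Agent.Lib.EXK

open Pool.Agent.Lib.SV (E nsq)
open Pool.Agent.Lib.HS32 Pool.Agent.Lib.EX
open Pool.Agent.Lib.EXA (Val SmN emb)

namespace THE

variable {n : ℕ} {κ : Type} [Fintype κ] {M : Mf n} {ι : Type} [Fintype ι] [DecidableEq ι]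
  {D : Ad M ι}

/-- On the stratum the weight is given by the holomorphic numerators. -/
theorem b_eq [M.Cpt] (hUT : Sk_UT) (L : Lw D κ) {I : Finset ι}
    (h : ¬ Disjoint I L.N) (d : D.A) {y : E n} (hy : y ∈ B2 n) (hs : Sl (D.c d) I y) :
    L.b d y = nsq (fun l => L.U l d y) ^ (-L.s) * normSq (L.w d y) ^ (1 / L.m : ℝ) := by
  rw [Lw.b]
  congr 2
  obtain ⟨i, hi, hN⟩ := Finset.not_disjoint_iff.1 h
  have e : xm (D.c d) (ind L.N) y = 0 :=
    Finset.prod_eq_zero (Finset.mem_univ i) (by rw [hs i hi, ind, if_pos hN, zpow_one])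
  refine Finset.sum_congr rfl fun l _ => ?_
  obtain ⟨t, -, ht⟩ := ((hUT n M ι D κ L).1 d y hy).2.2.2.2.2.2.1 l
  rw [ht.self_of_nhds, e, zero_mul, add_zero]

end THE

open EX.THE EX.K62 in
theorem kTHE (hUT : Sk_UT) (hMON : St_MON) : Sk_THE := by
  intro n M _ ι _ _ D κ _ L I V hI h hF hH
  have key : ∀ d, ∀ z ∈ B2 n, Sl (D.c d) I z →
      (∀ k, HolN (fun y => L.U k d (prj (D.c d) I y)) z) ∧
      0 < nsq (fun l => L.U l d (prj (D.c d) I z)) ∧ HolN (fun y => L.w d (prj (D.c d) I y)) z ∧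
      L.w d (prj (D.c d) I z) ≠ 0 ∧
      (∀ᶠ y in 𝓝 z, L.b d (prj (D.c d) I y) = nsq (fun l => L.U l d (prj (D.c d) I y)) ^ (-L.s) *
        normSq (L.w d (prj (D.c d) I y)) ^ (1 / L.m : ℝ)) ∧ prj (D.c d) I z = z ∧
      ∀ f : E n → ℂ, DifferentiableAt ℂ f z →
        ∑ j, dz j (fun y => f (prj (D.c d) I y)) z * V d z j = app (V d) f z := by
    intro d z hz hs
    obtain ⟨-, -, -, -, -, -, -, -, -, -, hP, hD, -⟩ := hMON n ι (D.c d)
    have hz' := (hP I z).2.2.2.1 hs
    have hb : ∀ᶠ y in 𝓝 z, prj (D.c d) I y ∈ B2 n :=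
      Eventually.mono (isOpen_ball.mem_nhds hz) fun y hy =>
        mem_ball_zero_iff.2 ((hP I y).1.trans_lt (mem_ball_zero_iff.1 hy))
    have hh : ∀ f : E n → ℂ, (∀ y ∈ B2 n, DifferentiableAt ℂ f y) →
        HolN (fun y => f (prj (D.c d) I y)) z := fun f hf =>
      hb.mono fun y hy => (hf _ hy).comp y (hP I y).2.2.1.self_of_nhds
    refine ⟨fun k => hh _ (L.Uhol k d), ?_, hh _ (L.whol d), ?_, hb.mono fun y hy =>
      THE.b_eq hUT L h d hy ((hP I y).2.2.2.2.1 ((hP I z).2.2.2.2.2 hs)), hz', fun f hf => ?_⟩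
    · rw [hz']; exact (nsq_pos_iff _).2 (L.gen d z hz)
    · rw [hz']; exact L.wne d z hz
    · refine Finset.sum_congr rfl fun j _ => ?_
      rw [(hD I f z j (by rw [hz']; exact hf.restrictScalars ℝ)).1, hz']
      split_ifs with hj
      · rw [hF.nm d z hz j hj, mul_zero, zero_mul]
      · exact mul_comm _ _
  refine ⟨hF, fun d z hz hs l l' => ?_, fun d z hz hs h0 => ?_, fun h' => absurd h' h⟩
  · obtain ⟨hu, hp0, hw, hw0, hB, hz', ha⟩ := key d z hz hs
    by_cases hs0 : L.s = 0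
    · rw [hs0, ofReal_zero, zero_mul]
    have h1 := (hH d z hz hs).1
    rw [hess_b (u := fun y k => L.U k d (prj (D.c d) I y)) hu hp0 hw hw0 hB, Matrix.smul_mulVec,
      smul_eq_zero] at h1
    have h2 := par_of_mulVec (u := fun y k => L.U k d (prj (D.c d) I y)) hu hp0
      (h1.resolve_left (neg_ne_zero.2 (ofReal_ne_zero.2 hs0))) l' l
    simp only [du, ha _ (L.Uhol _ d z hz), hz'] at h2
    rw [h2, sub_self, mul_zero]
  · obtain ⟨hu, hp0, hw, hw0, hB, hz', ha⟩ := key d z hz hs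
    have h1 := (hH d z hz hs).2 h0
    obtain ⟨hd, hdz⟩ := dz_b (u := fun y k => L.U k d (prj (D.c d) I y)) hu hp0 hw hw0 hB
    have hb0 := (log_b (u := fun y k => L.U k d (prj (D.c d) I y)) hu hp0 hw hw0 hB).self_of_nhds.1
    set c' : ι → Option (Fin n) := fun i => if i ∈ I then none else D.c d i with hc'
    have hr : ∀ i ∈ I, L.r i = 0 := fun i hi => L.rT i (hI hi)
    have e1 : xr (D.c d) L.r = xr c' L.r := by
      funext y
      refine Finset.prod_congr rfl fun i _ => ?_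
      by_cases hi : i ∈ I
      · rw [hr i hi, Real.rpow_zero, Real.rpow_zero]
      · simp only [xi, hc', if_neg hi]
    have ho : Off c' z := fun i => by
      by_cases hi : i ∈ I
      · simp [xi, hc', hi]
      · simpa only [xi, hc', if_neg hi] using h0 i hi
    have hj : Inj c' := fun i i' j a b => by
      by_cases hi : i ∈ I
      · simp [hc', hi] at a
      by_cases hi' : i' ∈ I
      · simp [hc', hi'] at b
      simp only [hc', if_neg hi, if_neg hi'] at a b
      exact D.inj d i i' j a b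
    obtain ⟨-, -, -, -, -, -, -, hx, -, -, -, -, -, hA⟩ := hMON n ι c'
    have h2 := (hA hj).2.2.2.1 (V d) L.r z ho
    have h3 : ∑ i, (L.r i : ℂ) * (c' i).elim 0 (V d z) / xi c' i z =
        ∑ i, (L.r i : ℂ) * (D.c d i).elim 0 (V d z) / xi (D.c d) i z := by
      refine Finset.sum_congr rfl fun i _ => ?_
      by_cases hi : i ∈ I
      · simp [hr i hi]
      · simp only [xi, hc', if_neg hi]
    obtain ⟨hx1, hx2⟩ := hx L.r z ho
    have hx3 := cd_diff (cd_ofReal hx1.self_of_nhds)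
    have h4 : app (V d) (fun y => (L.b d (prj (D.c d) I y) : ℂ)) z = L.b d (prj (D.c d) I z) *
        (-L.s * ((∑ l, app (V d) (L.U l d) z * star (L.U l d z)) / (∑ l, normSq (L.U l d z) : ℝ)) +
          (1 / L.m : ℝ) * (app (V d) (L.w d) z / L.w d z)) := by
      have e2 := hp_du (u := fun y k => L.U k d (prj (D.c d) I y)) (z := z)
        (fun k => L.U k d (prj (D.c d) I z)) (V d z)
      have e3 : ∑ l, app (V d) (L.U l d) z * star (L.U l d z) =
          hp (fun k => L.U k d (prj (D.c d) I z))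
            (du (fun y k => L.U k d (prj (D.c d) I y)) z (V d z)) := by
        simp only [hp, du, ha _ (L.Uhol _ d z hz), hz']
        exact Finset.sum_congr rfl fun l _ => mul_comm _ _
      rw [e3, e2, ← ha _ (L.whol d z hz), app]
      simp only [hdz, Finset.sum_div, Finset.mul_sum, ← Finset.sum_add_distrib, nsq, hz']
      exact Finset.sum_congr rfl fun j _ => by ring
    rw [e1, dvD_eq (by simp only [ofReal_mul]; exact hd.mul hx3) (mul_pos hb0 hx2).ne'
      ((hF.hol d z hz).restrictScalars ℝ)] at h1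
    simp only [ofReal_mul] at h1
    rw [app_mul _ hd hx3, h2, h3, h4] at h1
    have h5 : (L.b d (prj (D.c d) I z) : ℂ) ≠ 0 := ofReal_ne_zero.2 hb0.ne'
    have h6 : (xr c' L.r z : ℂ) ≠ 0 := ofReal_ne_zero.2 hx2.ne'
    have h7 : ∀ A X Y W : ℂ, A ≠ 0 → W ≠ 0 →
        (A * X * W + A * (W * Y)) / (A * W) = X + Y := fun A X Y W a b => by field_simp
    rw [h7 _ _ _ _ h5 h6] at h1
    refine Eq.trans ?_ h1
    push_cast
    ring

end Pool.Agent.Lib.EXK
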