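import Pool.Agent.Lib.EXK.Blue
import Pool.Agent.Lib.EX.B_TRF

/-! Project exk: change of chart. -/

open scoped Classical Topology ContDiff
open Set Filter

noncomputable section

namespace Pool.Agent.Lib.EXK

open Pool.Agent.Lib.SV (E)
open Pool.Agent.Lib.HS32 Pool.Agent.Lib.EX

theorem kTRFX (hTRF : St_TRF) : Sk_TRFX := by
  intro n M _ ι _ _ D a b x ha hb G T N q F
  obtain ⟨-, -, -, -, -, -, -, -, h⟩ := (hTRF n M ι D).2.2.2 a b x ha hb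
  refine ⟨fun ⟨A, a1, a2⟩ => ⟨D.tr a b A, (h G T q A).2.2.1 a1, (h _ T q (F - A)).1 a2⟩,
    fun ⟨A, a1, a2⟩ => ⟨D.tr a b A, (h G T q A).2.2.2.1 a1, (h _ T q (F - A)).2.1 a2⟩,
    fun ρ ⟨A, σ, a1, a2, a3⟩ => ⟨D.tr a b A, _, (h G T q A).2.2.2.2 σ a1,
      (h _ T q (F - A)).1 a2, fun I hI hN => ?_⟩⟩
  filter_upwards [(TRF.tend D ha hb).eventually (a3 I hI hN), TRF.near D ha hb] with w h1 h2 h3
  simp only [Ad.tr, Pi.mul_apply]
  rw [h1 ((TRF.sl_iff D h2.1 h2.2.1 I).2 (by rwa [h2.2.2]))]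

end Pool.Agent.Lib.EXK
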