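import Pool.Agent.Lib.EXK.Blue
import Pool.Agent.Lib.EX.B_VU

/-! Project exk: a harmonic field modulo the ideal of its stratum. -/

open scoped Classical Topology ContDiff ComplexOrder Matrix
open Set MeasureTheory Complex Metric Filter

set_option linter.unusedVariables false
set_option linter.unusedSectionVars false

noncomputable section

namespace Pool.Agent.Lib.EXK

open Pool.Agent.Lib.SV (E)
open Pool.Agent.Lib.HS32 Pool.Agent.Lib.EX
open Pool.Agent.Lib.EXA (Val SmN emb)
open K62 (smN_const smN_mul smN_add smN_sub smN_dz smN_sum smN_hol holN_mul holN_add holN_sub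
  holN_const holN_sum holN_dz holN_inv)

open Pool.Agent.Lib.EX.VU

theorem kVU (hMON : St_MON) (hDIV : EX.St_DIV) (hUT : Sk_UT) : Sk_VU := by
  intro n M _ ι _ _ D κ _ L I V hI hV d z hz
  obtain ⟨-, -, -, m4, m5, -, -, -, -, m10, -, -, -, m14⟩ := hMON n ι (D.c d)
  obtain ⟨-, m15, -, -, m16⟩ := m14 (D.inj d)
  obtain ⟨l0, h0⟩ := L.gen d z hz
  have hB : ∀ᶠ y in 𝓝 z, y ∈ B2 n := isOpen_ball.mem_nhds hz
  have hX : HolN (V d) z := hol_ball (hV.hol d) hz
  have hU : ∀ l, HolN (L.U l d) z := fun l => hol_ball (L.Uhol l d) hz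
  have hw : HolN (L.w d) z := hol_ball (L.whol d) hz
  have h1 : ∀ᶠ y in 𝓝 z, L.U l0 d y ≠ 0 := (hU l0).self_of_nhds.continuousAt.eventually_ne h0
  have hl : HolN (fun y => app (V d) (L.U l0 d) y * (L.U l0 d y)⁻¹) z :=
    holN_mul (hol_app hX (hU l0)) (holN_inv (hU l0) h0)
  refine ⟨_, smN_hol hl, fun l => ?_, ?_⟩
  · have a : Idl (D.c d) I (fun y => L.s * (app (V d) (L.U l d) y -
        app (V d) (L.U l0 d) y * (L.U l0 d y)⁻¹ * L.U l d y)) z := by
      refine idl_hol hDIV (D.inj d) (holN_mul (holN_const _)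
        (holN_sub (hol_app hX (hU l)) (holN_mul hl (hU l)))) ?_
      filter_upwards [hB, h1] with y y1 y2 y3
      exact (quot _ (fun l => L.U l d y) (fun l => app (V d) (L.U l d) y) l0 y2
        (hV.th d y y1 y3)).1 l
    by_cases hd : Disjoint I L.N
    · have hV0 : V = 0 := hV.zr hd
      exact idl_cong a (Eventually.of_forall fun y _ => by simp [hV0, app])
    · obtain ⟨i, hi, hi'⟩ := Finset.not_disjoint_iff.1 hd
      obtain ⟨t, t1, t2⟩ := ((hUT n M ι D κ L).1 d z hz).2.2.2.2.2.2.1 l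
      have e : ind L.N = fun k => if k ∈ L.N then 1 else 0 := rfl
      have hg : SmN (fun y => xs (D.c d) (L.N.erase i) y * t y) z :=
        smN_mul (smN_hol (m5 _ z)) t1
      have t3 : L.ut l d =ᶠ[𝓝 z] fun y => L.U l d y + xi (D.c d) i y *
          (xs (D.c d) (L.N.erase i) y * t y) :=
        t2.mono fun y hy => by
          beta_reduce
          rw [hy, e, m10, xs, xs, ← Finset.mul_prod_erase _ _ hi', mul_assoc]
      refine idl_cong (idl_add a (idl_xi hi (smN_mul (smN_const (L.s : ℂ))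
        (smN_sub (sm_app hX hg) (smN_mul (smN_hol hl) hg))))) ?_
      filter_upwards [hB, t3.eventuallyEq_nhds, hU l, hg] with y y1 y2 y3 y4 _
      rw [app_xi hi (hV.nm d y y1) ((m4 i y).self_of_nhds.restrictScalars ℝ) (fun j => m15 i j y)
        (y3.restrictScalars ℝ) (y4.differentiableAt (by simp)) y2, y2.self_of_nhds]
      ring
  · have hm : (L.m : ℂ) ≠ 0 := by exact_mod_cast L.m0.ne'
    have hN : HolN (fun y => xs (D.c d) (fr L.r) y * (dv (V d) y +
        app (V d) (L.w d) y * (L.m * L.w d y)⁻¹ -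
        L.s * (app (V d) (L.U l0 d) y * (L.U l0 d y)⁻¹)) + ∑ i ∈ fr L.r,
          L.r i * (D.c d i).elim 0 (V d y) * xs (D.c d) ((fr L.r).erase i) y) z :=
      holN_add (holN_mul (m5 _ z) (holN_sub (holN_add (hol_dv hX) (holN_mul (hol_app hX hw)
        (holN_inv (holN_mul (holN_const _) hw) (mul_ne_zero hm (L.wne d z hz)))))
        (holN_mul (holN_const _) hl)))
        (holN_sum fun i _ => holN_mul (holN_mul (holN_const _) (hol_elim hX _)) (m5 _ z))
    refine idl_cong (idl_hol hDIV (D.inj d) hN ?_) (Eventually.of_forall fun y hy => ?_)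
    · filter_upwards [hB.eventually_nhds, h1.eventually_nhds, hN] with y y1 y2 y3 y4
      refine m16 I _ y y4 y3.continuousAt ?_
      filter_upwards [y1, y2] with x x1 x2 x3 x4
      have := hV.dv d x x1 x3 x4
      rw [(quot _ (fun l => L.U l d x) (fun l => app (V d) (L.U l d) x) l0 x2
        (hV.th d x x1 x3)).2, div_eq_mul_inv] at this
      rw [← num _ _ _ fun i hi => x4 i fun h => ?_, this, mul_zero]
      exact (Finset.mem_filter.1 hi).2 (L.rT i (hI h))
    · rw [← num _ _ _ fun i _ => hy i, div_eq_mul_inv]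

end Pool.Agent.Lib.EXK
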