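import Pool.Agent.Lib.EXK.Blue
import Pool.Agent.Lib.EX.B_WGT

/-! Project exk: the weight of a level on a stratum. -/

open scoped Classical Topology ContDiff ComplexOrder Matrix
open Set MeasureTheory Complex Metric Filter

set_option linter.unusedVariables false

noncomputable section

namespace Pool.Agent.Lib.EXK

open Pool.Agent.Lib.SV (E nsq)
open Pool.Agent.Lib.HS32 Pool.Agent.Lib.EX
open Pool.Agent.Lib.EXA (Val SmN emb)

namespace WGT

variable {n : ℕ} {M : Mf n} [M.Cpt] {ι : Type} [Fintype ι] [DecidableEq ι] {D : Ad M ι}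
  {κ : Type} [Fintype κ] (L : Lw D κ) {I : Finset ι} {a : D.A} {z : E n}

open Pool.Agent.Lib.EX.WGT (tend hol_prj)

/-- On a stratum that meets `N` the smooth numerators are the holomorphic ones. -/
theorem ut_eq (hUT : Sk_UT) (hne : ¬ Disjoint I L.N) (hz : z ∈ B2 n) :
    ∀ᶠ y in 𝓝 z, Sl (D.c a) I y → ∀ l, L.ut l a y = L.U l a y := by
  obtain ⟨i, hi, hN⟩ := Finset.not_disjoint_iff.1 hne
  have h : ∀ᶠ y in 𝓝 z, ∀ l, Sl (D.c a) I y → L.ut l a y = L.U l a y := by
    refine eventually_all.2 fun l => ?_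
    obtain ⟨t, -, ht⟩ := ((hUT n M ι D κ L).1 a z hz).2.2.2.2.2.2.1 l
    refine ht.mono fun y hy hs => ?_
    have e : xm (D.c a) (ind L.N) y = 0 :=
      Finset.prod_eq_zero (Finset.mem_univ i) (by
        rw [hs i hi, ind, if_pos hN, zpow_one])
    rw [hy, e, zero_mul, add_zero]
  exact h.mono fun y hy hs l => hy l hs

/-- The logarithm of the weight along the stratum. -/
theorem log_b (hUT : Sk_UT) (hMON : St_MON) (hp : ¬ Disjoint I L.N)
    (hz : z ∈ B2 n) (hs : Sl (D.c a) I z) :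
    (fun y => (Real.log (L.b a (prj (D.c a) I y)) : ℂ)) =ᶠ[𝓝 z] fun y =>
      (-L.s : ℂ) * (Real.log (nsq fun l => L.U l a (prj (D.c a) I y)) : ℝ) +
        (1 / L.m : ℂ) * (Real.log (normSq (L.w a (prj (D.c a) I y))) : ℝ) := by
  have hc := ((hMON n ι (D.c a)).2.2.2.2.2.2.2.2.2.2.1 I z).2.2.2.2.2 hs
  have e1 : ∀ᶠ y in 𝓝 z, L.s * Real.log (L.nn a (prj (D.c a) I y)) =
      L.s * Real.log (nsq fun l => L.U l a (prj (D.c a) I y)) := by
    filter_upwards [(tend hMON hs).eventually (ut_eq L hUT hp hz)] with y hy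
    have h := hy (((hMON n ι (D.c a)).2.2.2.2.2.2.2.2.2.2.1 I y).2.2.2.2.1 hc)
    simp only [Lw.nn, nsq, h]
  filter_upwards [e1, (tend hMON hs).eventually (isOpen_ball.mem_nhds hz)] with y h1 h2
  have p1 := ((hUT n M ι D κ L).1 a _ h2).2.1
  have p2 := normSq_pos.2 (L.wne a _ h2)
  rw [Lw.b, Real.log_mul (Real.rpow_pos_of_pos p1 _).ne' (Real.rpow_pos_of_pos p2 _).ne',
    Real.log_rpow p1, Real.log_rpow p2, neg_mul, h1]
  push_cast
  ring

omit [M.Cpt] in
theorem nsq_pos (hMON : St_MON) (hz : z ∈ B2 n) (hs : Sl (D.c a) I z) :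
    0 < nsq fun l => L.U l a (prj (D.c a) I z) := by
  rw [((hMON n ι (D.c a)).2.2.2.2.2.2.2.2.2.2.1 I z).2.2.2.1 hs]
  exact (K62.nsq_pos_iff _).2 (L.gen a z hz)

/-- The curvature of the weight along the stratum. -/
theorem hess_b (hUT : Sk_UT) (hMON : St_MON) (hp : ¬ Disjoint I L.N)
    (hz : z ∈ B2 n) (hs : Sl (D.c a) I z) :
    -hess (fun y => (Real.log (L.b a (prj (D.c a) I y)) : ℂ)) z =
      (L.s : ℂ) • hess (fun y => (Real.log (nsq fun l => L.U l a (prj (D.c a) I y)) : ℂ)) z := by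
  have hU : ∀ l, HolN (fun y => L.U l a (prj (D.c a) I y)) z := fun l =>
    hol_prj hMON hz hs (L.Uhol l a)
  have hw := ((mHOL n _ z).2.2 (hol_prj hMON hz hs (L.whol a))).2.2.2 (by
    rw [((hMON n ι (D.c a)).2.2.2.2.2.2.2.2.2.2.1 I z).2.2.2.1 hs]; exact L.wne a z hz)
  have c1 := cd_ofReal (K62.cd_log (f := fun y l => L.U l a (prj (D.c a) I y))
    (K62.hol_sm (u := fun y l => L.U l a (prj (D.c a) I y)) hU) (nsq_pos L hMON hz hs))
  have c2 := cd_ofReal hw.1
  rw [hess_congr (log_b L hUT hMON hp hz hs), hess_add (contDiffAt_const.mul c1)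
    (contDiffAt_const.mul c2), hess_const_mul _ c1, hess_const_mul _ c2, hw.2.1, smul_zero,
    add_zero, neg_smul, neg_neg]

end WGT

theorem kWGT (hUT : Sk_UT) (hMON : St_MON) : Sk_WGT := by
  intro n M _ ι _ _ D κ _ L I hI hp
  have hU := hUT n M ι D κ L
  refine ⟨L.r0, fun i hi => L.rT i (hI hi), fun a z hz => (hU.1 a z hz).2.2.2.1,
    fun a z hz => (hU.1 a z hz).2.2.2.2.1, fun a d x ha hd _ => ?_, fun a z hz hs => ?_⟩
  · have e : (∏ i, normSq (D.u a d i x) ^ (L.r i + L.G i - if i ∈ L.T then 1 else 0)) *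
        normSq (D.kap L.G L.T I a d x) * ∏ i ∈ I, normSq (D.u a d i x) =
        ∏ i, normSq (D.u a d i x) ^ L.r i := by
      rw [Ad.kap, Ad.um, map_prod, ← Finset.univ_inter I, ← Finset.prod_ite_mem,
        ← Finset.prod_mul_distrib, ← Finset.prod_mul_distrib, Finset.univ_inter]
      refine Finset.prod_congr rfl fun i _ => ?_
      have h0 := normSq_pos.2 (D.une a d i x ha hd)
      rw [map_zpow₀, ← Real.rpow_intCast, ← Real.rpow_add h0]
      by_cases hi : i ∈ I
      · rw [if_pos hi, if_pos (hI hi), if_neg (fun h => (Finset.mem_sdiff.1 h).2 hi),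
          ← Real.rpow_add_one h0.ne']
        congr 1; push_cast; ring
      · rw [if_neg hi, mul_one]
        congr 1
        by_cases hT : i ∈ L.T
        · rw [if_pos hT, if_pos (Finset.mem_sdiff.2 ⟨hT, hi⟩)]; push_cast; ring
        · rw [if_neg hT, if_neg (fun h => hT (Finset.mem_sdiff.1 h).1)]; push_cast; ring
    rw [(hU.2 a d x ha hd).2.2.1, ← e]; ring
  · rw [WGT.hess_b L hUT hMON hp hz hs]
    exact (K62.psd_hess_log (u := fun y l => L.U l a (prj (D.c a) I y))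
      (fun l => EX.WGT.hol_prj hMON hz hs (L.Uhol l a)) (WGT.nsq_pos L hMON hz hs)).smul
      (by exact_mod_cast L.s0)

end Pool.Agent.Lib.EXK
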