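import Pool.Agent.Lib.EXK.Blue
import Pool.Agent.Lib.EXS.B_RV

/-! Project exk, block WL: local lifts on the blow-up. -/

open scoped Classical Topology
open Set Filter

noncomputable section

namespace Pool.Agent.Lib.EXK

open Pool.Agent.Lib.SV (E)
open Pool.Agent.Lib.HS32 Pool.Agent.Lib.EX

theorem kWL (hEXC0 : Sk_EXC0) (hINC : St_INC) (hMOD : St_MOD) : Sk_WL := by
  intro n M _ ι _ _ D R b μ ρ j Q g hρ hex hQ hg hd
  have hP : ∀ i, (R.ja j - R.fl μ) i = ⌈((j : ℝ) - μ) * R.a i + R.k i / R.m⌉ := fun i => by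
    have e : ((j : ℝ) - μ) * R.a i + R.k i / R.m = -R.dl μ i + ((j * R.a i : ℤ) : ℝ) := by
      simp only [Rk.dl]
      push_cast
      ring
    rw [e, Int.ceil_add_intCast, Int.ceil_neg, Pi.sub_apply, Rk.ja, Rk.fl]
    ring
  obtain ⟨F, hF⟩ := EXS.rv_gen D R.a R.k R.m R.w R.ex (R.B b) R.m0 R.whol R.wne R.wcmp
    (fun i h => (R.off i h).2) (j - μ) ρ _ Q g hρ hP hQ hg hd
  have inc := fun d G F z => (hINC n ι (D.c d) G 0 ∅ 0 F z).2.2.1
  have h1 : D.On (Wr (R.B b) ρ) fun d z =>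
      PolH (D.c d) ((R.ja j - R.fl μ) ⊔ Q) (D.rd F d) z := fun d z hz hw => by
    have m := (hMOD n ι (D.c d) ((R.ja j - R.fl μ) ⊔ Q) 0 ∅ 0).2.1
    have := m.add _ _ _ ((inc d _ _ z _ le_sup_left).2 (hF d z hz hw))
      ((inc d _ _ z _ le_sup_right).2 (hg d z hz))
    rwa [sub_add_cancel] at this
  have h2 := hEXC0 n M ι D R.a R.ex (R.B b) ρ _ j F hρ.le (fun i hi => ?_) h1
  · exact ⟨F, fun d z hz hw => ⟨(inc d _ _ z _ inf_le_right).2 (h2 d z hz hw), hF d z hz hw⟩⟩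
  · have h0 : 0 ≤ R.fl μ i := Int.floor_nonneg.2 (hex i hi).1
    have h3 := (hex i hi).2
    simp only [Pi.sup_apply, Pi.sub_apply, Rk.ja] at h3 ⊢
    exact max_le (by omega) h3

end Pool.Agent.Lib.EXK
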