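import Pool.Agent.Lib.EX.All
import Pool.Agent.Lib.EX.B_ADA
import Pool.Agent.Lib.EX.B_UNI
import Pool.Agent.Lib.EXK.B_GRID
import Pool.Agent.Lib.EXK.B_INCX
import Pool.Agent.Lib.EXK.B_RESX
import Pool.Agent.Lib.EXK.B_TRFX
import Pool.Agent.Lib.EXK.B_MODX
import Pool.Agent.Lib.EXK.B_CECH
import Pool.Agent.Lib.EXK.B_UT
import Pool.Agent.Lib.EXK.B_WGT
import Pool.Agent.Lib.EXK.B_THE
import Pool.Agent.Lib.EXK.B_DEC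
import Pool.Agent.Lib.EXK.B_IP
import Pool.Agent.Lib.EXK.B_VU
import Pool.Agent.Lib.EXK.B_Q3
import Pool.Agent.Lib.EXK.B_ML1
import Pool.Agent.Lib.EXK.B_Q4
import Pool.Agent.Lib.EXK.B_ML2
import Pool.Agent.Lib.EXK.B_ML
import Pool.Agent.Lib.EXK.B_PRDX
import Pool.Agent.Lib.EXK.B_ADJ
import Pool.Agent.Lib.EXK.B_LINX
import Pool.Agent.Lib.EXK.B_GYS
import Pool.Agent.Lib.EXK.B_GLUE
import Pool.Agent.Lib.EXK.B_STEP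
import Pool.Agent.Lib.EXK.B_LEVEL
import Pool.Agent.Lib.EXK.B_KEYL
import Pool.Agent.Lib.EXK.B_GLA
import Pool.Agent.Lib.EXK.B_NUM
import Pool.Agent.Lib.EXK.B_LNL
import Pool.Agent.Lib.EXK.B_EXC0
import Pool.Agent.Lib.EXK.B_WL
import Pool.Agent.Lib.EXK.B_RV2
import Pool.Agent.Lib.EXK.B_PEAK
import Pool.Agent.Lib.EXK.B_RVW
import Pool.Agent.Lib.EXK.B_RST
import Pool.Agent.Lib.EXK.B_ITER
import Pool.Agent.Lib.EXK.B_POLE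
import Pool.Agent.Lib.EXK.B_NP
import Pool.Agent.Lib.EXK.B_MIN
import Pool.Agent.Lib.EXK.B_SPLIT
import Pool.Agent.Lib.EXK.B_JA
import Pool.Agent.Lib.EXK.B_Q5
import Pool.Agent.Lib.EXK.B_KEY1
import Pool.Agent.Lib.EXK.B_KEY
import Pool.Agent.Lib.EXK.B_KEYN
import Pool.Agent.Lib.EXK.B_NLV
import Pool.Agent.Lib.EXK.B_JB
import Pool.Agent.Lib.EXK.B_HOM
import Pool.Agent.Lib.EXK.B_ING
import Pool.Agent.Lib.EXK.B_REG1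
import Pool.Agent.Lib.EXK.B_REG2
import Pool.Agent.Lib.EXK.B_GNI
import Pool.Agent.Lib.EXK.B_STP
import Pool.Agent.Lib.EXK.B_PH2
import Pool.Agent.Lib.EXK.B_LAST
import Pool.Agent.Lib.EXK.B_KEEL
import Pool.Agent.Lib.EXK.B_RSK
import Pool.Agent.Lib.EXK.B_BR1
import Pool.Agent.Lib.EXK.B_BR2
import Pool.Agent.Lib.EXK.B_TARGET

/-! Project exk: assembly. -/

namespace Pool.Agent.Lib.EXK

theorem cGRID : Sk_GRID :=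
  kGRID

theorem cINCX : Sk_INCX :=
  kINCX EX.aINC EX.aMOD

theorem cRESX : Sk_RESX :=
  kRESX EX.aMON EX.aMOD EX.aINC EX.aRES cINCX

theorem cTRFX : Sk_TRFX :=
  kTRFX EX.aTRF

theorem cMODX : Sk_MODX :=
  kMODX EX.aMOD

theorem cCECH : Sk_CECH :=
  kCECH cRESX cTRFX cMODX cINCX EX.aAVG EX.aTRF EX.aMON

theorem cUT : Sk_UT :=
  kUT EX.aTRF

theorem cWGT : Sk_WGT :=
  kWGT cUT EX.aMON

theorem cTHE : Sk_THE :=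
  kTHE cUT EX.aMON

theorem cDEC : Sk_DEC :=
  kDEC cCECH cWGT cTHE cRESX cINCX EX.aHL EX.aXT EX.aINC EX.aTRF

theorem cIP : Sk_IP :=
  kIP EX.aSS cUT EX.aTRF

theorem cVU : Sk_VU :=
  kVU EX.aMON EX.aDIV cUT

theorem cQ3 : Sk_Q3 :=
  kQ3 cVU cUT EX.aINC EX.aMON EX.aMOD

theorem cML1 : Sk_ML1 :=
  kML1 EXA.aVAL EX.aLOC0 EX.aLOC1 EX.aEXP EX.aPRD EX.aQ2 cQ3 EX.aRES EX.aINC cUT EX.aTRF EX.aMON EX.aMOD

theorem cQ4 : Sk_Q4 :=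
  kQ4 EX.aTRF EX.aDIV EX.aINC EX.aMOD

theorem cML2 : Sk_ML2 :=
  kML2 EX.aCHG EX.aLOC0 EX.aPRD cQ4 cUT EX.aTRF EX.aRES EX.aINC EX.aMOD EXA.aVAL

theorem cML : Sk_ML :=
  kML cML1 cML2 EX.aCUT EXA.aVAL

theorem cPRDX : Sk_PRDX :=
  kPRDX EX.aRES EX.aPRD EX.aMAIN

theorem cADJ : Sk_ADJ :=
  kADJ cML cPRDX cUT EX.aPRD EX.aMAIN EX.aRES EX.aINC EX.aDEL EX.aMOD

theorem cLINX : Sk_LINX :=
  kLINX cRESX EX.aINC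

theorem cGYS : Sk_GYS :=
  kGYS EX.aLA EX.aFIN EX.aDEL cIP cADJ EX.aHAT cDEC EX.aLIN EX.aXT EX.aRES EX.aINC cLINX cINCX

theorem cGLUE : Sk_GLUE :=
  kGLUE cCECH cRESX cINCX cTRFX cMODX EX.aXT EX.aINC EX.aTRF EX.aMON

theorem cSTEP : Sk_STEP :=
  kSTEP cDEC cGYS cGLUE cLINX cINCX cMODX EX.aLIN EX.aHAT EX.aAVG EX.aXT EX.aTRF EX.aINC EX.aRES EX.aMOD

theorem cLEVEL : Sk_LEVEL :=
  kLEVEL cSTEP cINCX EX.aMOD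

theorem cKEYL : Sk_KEYL :=
  kKEYL cML cPRDX cUT EX.aMAIN EX.aINC EX.aMOD EX.aAVG EX.aTRF EX.aSS

theorem cGLA : Sk_GLA :=
  kGLA EX.aMOD EX.aINC EX.aDIV

theorem cNUM : Sk_NUM :=
  kNUM

theorem cLNL : Sk_LNL :=
  kLNL EX.aMON EX.aINC EX.aTRF cLEVEL cKEYL cGLA cNUM

theorem cEXC0 : Sk_EXC0 :=
  kEXC0

theorem cWL : Sk_WL :=
  kWL cEXC0 EX.aINC EX.aMOD

theorem cRV2 : Sk_RV2 :=
  kRV2

theorem cPEAK : Sk_PEAK :=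
  kPEAK cRV2

theorem cRVW : Sk_RVW :=
  kRVW cRV2

theorem cRST : Sk_RST :=
  kRST

theorem cITER : Sk_ITER :=
  kITER cRVW cEXC0 cRST cNUM EX.aMOD EX.aINC

theorem cPOLE : Sk_POLE :=
  kPOLE EX.aMON EX.aDIV EX.aINC

theorem cNP : Sk_NP :=
  kNP cPEAK cITER cPOLE cEXC0 cRST cNUM

theorem cMIN : Sk_MIN :=
  kMIN EX.aDIV

theorem cSPLIT : Sk_SPLIT :=
  kSPLIT cMIN EX.aMON EX.aDIV

theorem cJA : Sk_JA :=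
  kJA cLNL cWL cNP cSPLIT cRST cMIN cNUM EX.aMON EX.aINC EX.aTRF

theorem cQ5 : Sk_Q5 :=
  kQ5 cVU cUT EX.aINC EX.aMOD

theorem cKEY1 : Sk_KEY1 :=
  kKEY1 cML EX.aPRD EX.aMAIN EX.aRES EX.aINC cUT cQ5 EX.aMOD EX.aMON

theorem cKEY : Sk_KEY :=
  kKEY cKEY1 EX.aSS cUT EX.aTRF

theorem cKEYN : Sk_KEYN :=
  kKEYN cKEY cINCX

theorem cNLV : Sk_NLV :=
  kNLV cLEVEL cKEYN cGLA cNUM EX.aMOD EX.aINC EX.aTRF

theorem cJB : Sk_JB :=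
  kJB EX.aMON EX.aMOD EX.aINC EX.aTRF cNLV cWL cMIN cNUM

theorem cHOM : Sk_HOM :=
  kHOM

theorem cING : Sk_ING :=
  kING

theorem cREG1 : Sk_REG1 :=
  kREG1 cHOM cING cGLA cNUM

theorem cREG2 : Sk_REG2 :=
  kREG2 cING cGLA cNUM

theorem cGNI : Sk_GNI :=
  kGNI cHOM

theorem cSTP : Sk_STP :=
  kSTP cJA cJB cREG1 cREG2 cGNI cGLA cNUM

theorem cPH2 : Sk_PH2 :=
  kPH2 cJB cGLA cNUM

theorem cLAST : Sk_LAST :=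
  kLAST EX.aMON EX.aMOD EX.aINC EX.aTRF EX.aLEVEL cEXC0 cMIN

theorem cKEEL : Sk_KEEL :=
  kKEEL cGRID cSTP cPH2 cLAST cGNI cGLA cING EX.aMOD EX.aINC

theorem cRSK : Sk_RSK :=
  kRSK

theorem cBR1 : Sk_BR1 :=
  kBR1 EX.aMON EX.aMOD EX.aTRF

theorem cBR2 : Sk_BR2 :=
  kBR2

theorem cTARGET : Sk_TARGET :=
  kTARGET cKEEL cRSK cBR1 cBR2

end Pool.Agent.Lib.EXK
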