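import Pool.Agent.Lib.EXK.Blue

/-! Project exk: decomposition into an exact and a harmonic part. -/

open scoped Classical Topology ContDiff ComplexOrder Matrix
open Set MeasureTheory Complex Metric Filter

set_option linter.unusedVariables false

noncomputable section

namespace Pool.Agent.Lib.EXK

open Pool.Agent.Lib.SV (E)
open Pool.Agent.Lib.HS32 Pool.Agent.Lib.EX
open Pool.Agent.Lib.EXA (Val SmN emb)

theorem kDEC (hC : Sk_CECH) (hW : Sk_WGT) (hT : Sk_THE) (hR : Sk_RESX) (hN : Sk_INCX)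
    (hH : St_HL) (hX : St_XT) (hI : St_INC) (hF : St_TRF) : Sk_DEC := by
  intro n M _ H ι _ _ D κ _ L p K g hK hg hd
  obtain ⟨σ, hσ1, hσ2⟩ := hC n M ι D L.G L.T L.N p g hd
  have hsub : ∀ I ∈ L.T.powersetCard p, I ⊆ L.T := fun I h => (Finset.mem_powersetCard.1 h).1
  have key : ∀ I, ∃ (w : D.A → E n → ℂ) (V : D.A → E n → E n), I ∈ L.T.powersetCard p →
      D.Sec I (D.kap L.G L.T I) w ∧ L.Har I V ∧ (¬ Disjoint I L.N → D.All fun a z =>
        Sl (D.c a) I z → ∀ j, ¬ Nm (D.c a) I j →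
          dzb j (σ I a - w a) z = (H (D.e a) z *ᵥ V a z) j) := by
    intro I
    by_cases hIp : I ∈ L.T.powersetCard p
    swap
    · exact ⟨0, 0, fun h => absurd h hIp⟩
    by_cases hd : Disjoint I L.N
    · refine ⟨0, 0, fun _ => ⟨⟨fun a z _ => contDiffAt_const, fun a z _ => rfl,
        fun a b x _ _ _ => by simp⟩, ⟨⟨fun a z _ => differentiableAt_const _, fun a z _ => rfl,
        fun a z _ j _ => rfl, fun a b x _ _ _ => by simp⟩, fun d z _ _ l l' => by simp [app],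
        fun d z _ _ _ => ?_, fun _ => rfl⟩, fun h => absurd hd h⟩⟩
      have e1 : dv ((0 : D.A → E n → E n) d) z = 0 := by simp [dv, dz]
      have e2 : ∀ i, (D.c d i).elim 0 ((0 : D.A → E n → E n) d z) = 0 := fun i => by
        cases D.c d i <;> rfl
      simp only [e1, e2]
      simp [app]
    · obtain ⟨w, V, hw, hV, hwV⟩ := hH n M H ι D I hK (D.kap L.G L.T I) L.r L.b (σ I)
        ((hF n M ι D).1 _) (hW n M ι D κ L I (hsub I hIp) hd) (hσ1 I hIp hd)
      exact ⟨w, V, fun _ => ⟨hw, hT n M ι D κ L I V (hsub I hIp) hd hV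
        fun a z hz hs => (hwV a z hz hs).2, fun _ a z hz hs => (hwV a z hz hs).1⟩⟩
  choose w V hk using key
  have hw : D.SecF L.G L.T p w := fun I h => (hk I h).1
  refine ⟨w, V, hw, fun I hIp => (hk I hIp).2.1, fun a z hz j => ?_⟩
  have hB : ∀ᶠ y in 𝓝 z, y ∈ B2 n := isOpen_ball.mem_nhds hz
  have r := fun ρ ρ' F F' => hR n ι (D.c a) L.G L.T L.N p ρ ρ' F F' z (D.inj a)
  have h1 := (r _ 0 _ 0).2.2.2.2.2.1 (fun _ => -1) (Eventually.of_forall fun _ => contDiffAt_const)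
    (((hN n ι (D.c a) L.G L.T L.N p _ z).2.2.2.2.2.2.2 _).1 (hX n M ι D L.G L.T p w hw a z hz))
  have h2 : ResX (D.c a) L.G L.T L.N p (fun I => σ I a - w I a)
      (D.rd (D.avg g) a - g a - D.rd (D.ext L.G L.T p w) a) z := by
    refine (r _ _ _ _).2.2.2.2.2.2.1 ((r _ _ _ _).2.2.2.2.1 (hσ2 a z hz) h1)
      (Eventually.of_forall fun y _ => ?_) fun I _ _ => Eventually.of_forall fun y _ => ?_
    · simp only [Pi.add_apply, Pi.sub_apply, Pi.mul_apply]
      ring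
    · simp only [Pi.add_apply, Pi.sub_apply, Pi.mul_apply]
      ring
  obtain ⟨τ, h3, h4⟩ := (r _ 0 _ 0).2.2.2.2.2.2.2.2.2.2.2.1 h2 j
  have i1 := hI n ι (D.c a) L.G L.r L.T (p + 1)
    (D.rd (D.avg g) a - g a - D.rd (D.ext L.G L.T p w) a) z
  have i2 := hI n ι (D.c a) K L.r L.T p (g a) z
  have h5 := i1.2.2.2.2.2.2.2.2.2.2.2.2.2.2.2.1
    ((hN n ι (D.c a) L.G L.T L.N (p + 1) _ z).2.1 ((r _ 0 _ 0).1 h2).1)
  have h6 := i2.2.2.2.2.2.2.2.2.2.2.2.2.2.2.2.2.1 (hg a z hz)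
  have h7 := (i2.2.2.2.2.2.2.2.2.2.2.2.2.2.2.2.2.2 j).2.2 (hg a z hz)
  refine ⟨τ, (r _ _ _ _).2.2.2.2.2.2.1 h3 ?_ fun I _ _ => Eventually.of_forall fun y _ => rfl,
    fun I hIp hd hj => ?_⟩
  · filter_upwards [h5, h6, h7] with y y5 y6 y7 ho
    have e : D.rd (D.avg g - D.ext L.G L.T p w) a = fun x =>
        (D.rd (D.avg g) a - g a - D.rd (D.ext L.G L.T p w) a) x + g a x := by
      funext x
      simp only [Ad.rd, Pi.sub_apply]
      ring
    rw [e, dzb_add (cd_diff (y5 ho).self_of_nhds)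
      ((y6 ho).self_of_nhds.restrictScalars ℝ), y7 ho, add_zero]
  · have h8 : SmN (σ I a - w I a) z := hB.mono fun y hy =>
      ((hσ1 I hIp hd).sm a y hy).sub ((hw I hIp).sm a y hy)
    filter_upwards [h4 I hIp hd hj h8, hB] with y y1 y2 hs
    rw [y1 hs, (hk I hIp).2.2 hd a y y2 hs j hj]

end Pool.Agent.Lib.EXK
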