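import Pool.Agent.Lib.EXK.Blue
import Pool.Agent.Lib.SV.Hol85

/-! Project exk: a function whose powers have bounded denominators is holomorphic. -/

open scoped Classical Topology ContDiff
open Set Complex Metric Filter

noncomputable section

namespace Pool.Agent.Lib.EXK

open Pool.Agent.Lib.SV (E)
open Pool.Agent.Lib.HS32 Pool.Agent.Lib.EX

namespace POLE

variable {n : ℕ}

theorem dom {f g : E n → ℂ} {z : E n} (hf : HolN f z) (hg : HolN g z)
    (h : ∀ᶠ y in 𝓝 z, f y * g y = 0) (h0 : ¬ g =ᶠ[𝓝 z] 0) : f =ᶠ[𝓝 z] 0 := by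
  refine SV.H85.eventually_zero_of_frequently hf ?_
  have h1 : ∃ᶠ y in 𝓝 z, g y ≠ 0 := not_eventually.1 h0
  refine (h1.and_eventually (Eventually.and hg h.eventually_nhds)).mono ?_
  rintro y ⟨hy, hd, hm⟩
  filter_upwards [hd.continuousAt.eventually_ne hy, hm] with w hw hw'
  exact (mul_eq_zero.1 hw').resolve_right hw

theorem line_zero {g : ℂ → ℂ} (hg : AnalyticAt ℂ g 0)
    (h : ∀ N : ℕ, ∃ T : ℂ → ℂ, ContinuousAt T 0 ∧ ∀ᶠ t in 𝓝 (0 : ℂ), g t = t ^ N * T t) :
    g =ᶠ[𝓝 0] 0 := by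
  by_contra h0
  obtain ⟨N, u, hu, hu0, he⟩ := hg.exists_eventuallyEq_pow_smul_nonzero_iff.2 h0
  obtain ⟨T, hT, he'⟩ := h (N + 1)
  have h1 : ∀ᶠ t in 𝓝[≠] (0 : ℂ), u t = t * T t := by
    filter_upwards [self_mem_nhdsWithin, nhdsWithin_le_nhds he, nhdsWithin_le_nhds he']
      with t ht a b
    have ht' : t ≠ 0 := ht
    have a' : g t = (t - 0) ^ N • u t := a
    have b' : g t = t ^ (N + 1) * T t := b
    rw [sub_zero, smul_eq_mul] at a'
    refine mul_left_cancel₀ (pow_ne_zero N ht') ?_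
    rw [← a', b']; ring
  have h2 : Tendsto u (𝓝[≠] 0) (𝓝 (u 0)) := hu.continuousAt.tendsto.mono_left nhdsWithin_le_nhds
  have h3 : Tendsto (fun t => t * T t) (𝓝[≠] (0 : ℂ)) (𝓝 (0 * T 0)) :=
    (continuousAt_id.mul hT).tendsto.mono_left nhdsWithin_le_nhds
  have h4 := tendsto_nhds_unique (h2.congr' h1) h3
  exact hu0 (by rw [h4, zero_mul])

theorem inf_ord {γ : E n → ℂ} {z : E n} {j : Fin n} (hz : z j = 0) (hγ : HolN γ z)
    (h : ∀ N : ℕ, ∃ T, HolN T z ∧ ∀ᶠ y in 𝓝 z, γ y = y j ^ N * T y) : γ =ᶠ[𝓝 z] 0 := by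
  obtain ⟨R, hR, hb⟩ := Metric.mem_nhds_iff.1 hγ
  filter_upwards [ball_mem_nhds z (half_pos hR)] with y hy
  have hLd : Differentiable ℂ fun t : ℂ => z + t • (y - z) := by fun_prop
  have hL0 : Tendsto (fun t : ℂ => z + t • (y - z)) (𝓝 0) (𝓝 z) := by
    have := hLd.continuous.tendsto 0
    rwa [zero_smul, add_zero] at this
  have hd : DifferentiableOn ℂ (fun t : ℂ => γ (z + t • (y - z))) (ball 0 2) := by
    intro t ht
    have h1 : z + t • (y - z) ∈ ball z R := by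
      rw [mem_ball_zero_iff] at ht
      rw [mem_ball, dist_eq_norm] at hy
      rw [mem_ball, dist_eq_norm, add_sub_cancel_left, norm_smul]
      nlinarith [norm_nonneg t, norm_nonneg (y - z)]
    have h2 : DifferentiableAt ℂ γ (z + t • (y - z)) := hb h1
    exact (DifferentiableAt.comp (g := γ) (f := fun t : ℂ => z + t • (y - z)) t h2
      (hLd t)).differentiableWithinAt
  have h0 : (fun t : ℂ => γ (z + t • (y - z))) =ᶠ[𝓝 0] 0 := by
    refine line_zero (hd.analyticAt (ball_mem_nhds 0 two_pos)) fun N => ?_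
    obtain ⟨T, hT, he⟩ := h N
    refine ⟨fun t => y j ^ N * T (z + t • (y - z)), continuousAt_const.mul ?_, ?_⟩
    · refine ContinuousAt.comp (f := fun t : ℂ => z + t • (y - z)) ?_ hLd.continuous.continuousAt
      rw [zero_smul, add_zero]
      exact hT.self_of_nhds.continuousAt
    · filter_upwards [hL0.eventually he] with t ht
      rw [ht]
      simp only [Pi.add_apply, Pi.smul_apply, Pi.sub_apply, hz, smul_eq_mul]
      ring
  have := SV.H85.eq_zero_of_convex isOpen_ball (convex_ball (0 : ℂ) 2) hd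
    (mem_ball_self two_pos) h0 (z := 1) (by simp)
  simpa using this

variable {ι : Type} [Fintype ι] [DecidableEq ι] {c : ι → Option (Fin n)}

theorem div1 (hDIV : EX.St_DIV) (hc : Inj c) {s : E n → ℂ} {z : E n} (hs : HolN s z) (l : ι)
    (h : ∀ᶠ y in 𝓝 z, xi c l y = 0 → s y = 0) :
    ∃ t, HolN t z ∧ ∀ᶠ y in 𝓝 z, s y = xi c l y * t y := by
  obtain ⟨t, ht, he⟩ := (hDIV n ι c s z hc hs).1 {l}
    (h.mono fun y hy hl => hy (hl l (Finset.mem_singleton_self l)))
  exact ⟨t l, ht l, he.mono fun y hy => by rw [hy, Finset.sum_singleton]⟩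

theorem fin_ord (hDIV : EX.St_DIV) (hc : Inj c) {γ : E n → ℂ} {z : E n} (hγ : HolN γ z)
    (h0 : ¬ γ =ᶠ[𝓝 z] 0) {l : ι} (hz : xi c l z = 0) :
    ∃ (N : ℕ) (T : E n → ℂ), HolN T z ∧ (∀ᶠ y in 𝓝 z, γ y = xi c l y ^ N * T y) ∧
      ¬ ∀ᶠ y in 𝓝 z, xi c l y = 0 → T y = 0 := by
  by_contra hn
  have h1 : ∀ N : ℕ, ∃ T, HolN T z ∧ ∀ᶠ y in 𝓝 z, γ y = xi c l y ^ N * T y := by
    intro N
    induction N with
    | zero => exact ⟨γ, hγ, Eventually.of_forall fun y => by rw [pow_zero, one_mul]⟩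
    | succ N ih =>
      obtain ⟨T, hT, he⟩ := ih
      have h2 : ∀ᶠ y in 𝓝 z, xi c l y = 0 → T y = 0 := by
        by_contra h3
        exact hn ⟨N, T, hT, he, h3⟩
      obtain ⟨t, ht, he'⟩ := div1 hDIV hc hT l h2
      refine ⟨t, ht, ?_⟩
      filter_upwards [he, he'] with y a b
      rw [a, b]; ring
  cases hl : c l with
  | none => simp [xi, hl] at hz
  | some j =>
    simp only [xi, hl, Option.elim] at hz h1
    exact h0 (inf_ord hz hγ h1)

theorem van (hMON : St_MON) (hDIV : EX.St_DIV) (hc : Inj c) {C γ s Q : E n → ℂ} {z : E n} {l : ι}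
    (hγ : HolN γ z) (h0 : ¬ γ =ᶠ[𝓝 z] 0) (hs : HolN s z) (hQ : HolN Q z)
    (he : ∀ᶠ y in 𝓝 z, Off c y → s y = xi c l y * Q y * C y)
    (hm : ∀ m : ℕ, PolH c 0 (fun y => C y ^ m * γ y) z) :
    ∀ᶠ y in 𝓝 z, xi c l y = 0 → s y = 0 := by
  obtain ⟨-, -, -, hxi, -, -, -, -, -, -, hp, -, -, hI⟩ := hMON n ι c
  by_cases hz : xi c l z = 0
  swap
  · filter_upwards [(hxi l z).self_of_nhds.continuousAt.eventually_ne hz] with y hy hy'
    exact absurd hy' hy
  obtain ⟨N, T, hT, hγT, hT0⟩ := fin_ord hDIV hc hγ h0 hz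
  obtain ⟨t, ht, het⟩ := hm (N + 1)
  have h1 : ∀ᶠ y in 𝓝 z, Off c y →
      s y ^ (N + 1) * T y - xi c l y * (Q y ^ (N + 1) * t y) = 0 := by
    filter_upwards [he, hγT, het] with y a b d hy
    have d' : C y ^ (N + 1) * γ y = t y := by
      have := d hy
      simpa [xm] using this
    refine mul_left_cancel₀ (pow_ne_zero N (hy l)) ?_
    rw [a hy, ← d', b]; ring
  have h2 : ∀ᶠ y in 𝓝 z, s y ^ (N + 1) * T y - xi c l y * (Q y ^ (N + 1) * t y) = 0 := by
    filter_upwards [h1.eventually_nhds, hs, hT, hQ, ht, hxi l z] with y a b1 b2 b3 b4 b5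
    refine (hI hc).2.2.2.2 ∅ (fun y => s y ^ (N + 1) * T y - xi c l y * (Q y ^ (N + 1) * t y)) y
      (fun i hi => absurd hi (Finset.notMem_empty i)) ?_ ?_
    · exact (((b1.pow _).mul b2).sub (b5.mul ((b3.pow _).mul b4))).continuousAt
    · exact a.mono fun w hw _ ho => hw fun i => ho i (Finset.notMem_empty i)
  have hS : ∀ y, xi c l y = 0 → Sl c {l} y := fun y hy i hi => by
    rw [Finset.mem_singleton.1 hi]; exact hy
  have hpz : prj c {l} z = z := (hp {l} z).2.2.2.1 (hS z hz)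
  have hpd : HolN (prj c {l}) z := (hp {l} z).2.2.1
  have hpt : Tendsto (prj c {l}) (𝓝 z) (𝓝 z) := by
    have := hpd.self_of_nhds.continuousAt.tendsto
    rwa [hpz] at this
  have hcomp : ∀ f : E n → ℂ, HolN f z → HolN (fun y => f (prj c {l} y)) z := fun f hf => by
    filter_upwards [hpt.eventually hf, hpd] with y a b
    exact DifferentiableAt.comp y a b
  have h3 : (fun y => s (prj c {l} y) ^ (N + 1)) =ᶠ[𝓝 z] 0 := by
    refine dom (g := fun y => T (prj c {l} y)) ?_ (hcomp T hT) ?_ fun h4 => hT0 ?_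
    · exact (hcomp s hs).mono fun y hy => hy.pow _
    · filter_upwards [hpt.eventually h2] with y hy
      have h5 : xi c l (prj c {l} y) = 0 :=
        (hp {l} y).2.2.2.2.1 ((hp {l} z).2.2.2.2.2 (hS z hz)) l (Finset.mem_singleton_self l)
      rwa [h5, zero_mul, sub_zero] at hy
    · filter_upwards [h4] with y hy hy'
      rwa [(hp {l} y).2.2.2.1 (hS y hy')] at hy
  filter_upwards [h3] with y hy hy'
  rw [(hp {l} y).2.2.2.1 (hS y hy')] at hy
  exact pow_eq_zero_iff (Nat.succ_ne_zero N) |>.1 hy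

theorem xm_upd (a : ι → ℕ) (l : ι) (k : ℕ) (hl : a l = k + 1) (y : E n) :
    xm c (fun i => (a i : ℤ)) y = xi c l y * xm c (fun i => (Function.update a l k i : ℤ)) y := by
  simp only [xm, zpow_natCast]
  rw [← Finset.mul_prod_erase _ _ (Finset.mem_univ l),
    ← Finset.mul_prod_erase _ (fun i => xi c i y ^ Function.update a l k i) (Finset.mem_univ l),
    Function.update_self, hl, pow_succ', mul_assoc]
  congr 2
  exact Finset.prod_congr rfl fun i hi => by
    rw [Function.update_of_ne (Finset.ne_of_mem_erase hi)]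

theorem main (hMON : St_MON) (hDIV : EX.St_DIV) (hc : Inj c) {C γ : E n → ℂ} {z : E n}
    (hγ : HolN γ z) (h0 : ¬ γ =ᶠ[𝓝 z] 0) (hm : ∀ m : ℕ, PolH c 0 (fun y => C y ^ m * γ y) z)
    (S : ℕ) : ∀ a : ι → ℕ, ∑ i, a i = S → PolH c (fun i => a i) C z → PolH c 0 C z := by
  obtain ⟨-, -, -, -, -, -, hxa, -, hxm, -⟩ := hMON n ι c
  induction S with
  | zero =>
    intro a ha h
    have h1 : (fun i => (a i : ℤ)) = 0 := funext fun i => by
      rw [Finset.sum_eq_zero_iff.1 ha i (Finset.mem_univ i)]; rfl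
    rwa [h1] at h
  | succ S ih =>
    intro a ha h
    obtain ⟨l, -, hl⟩ := Finset.exists_ne_zero_of_sum_ne_zero (ha.trans_ne (Nat.succ_ne_zero S))
    obtain ⟨k, hk⟩ := Nat.exists_eq_succ_of_ne_zero hl
    obtain ⟨s, hs, he⟩ := h
    refine ih (Function.update a l k) ?_ ?_
    · rw [Finset.sum_update_of_mem (Finset.mem_univ l)]
      rw [← Finset.add_sum_erase _ _ (Finset.mem_univ l), hk, Finset.erase_eq] at ha
      omega
    have he' : ∀ᶠ y in 𝓝 z, Off c y →
        s y = xi c l y * xm c (fun i => (Function.update a l k i : ℤ)) y * C y := by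
      filter_upwards [he] with y hy ho
      rw [← xm_upd a l k hk, hy ho, (hxm _ 0 y ho).2.2, mul_inv_cancel_left₀ (hxm _ 0 y ho).2.1]
    obtain ⟨t, ht, het⟩ := div1 hDIV hc hs l (van hMON hDIV hc hγ h0 hs (hxa _ z) he' hm)
    refine ⟨t, ht, ?_⟩
    filter_upwards [he', het] with y a1 a2 ho
    have h1 := (a1 ho).symm.trans a2
    rw [mul_assoc] at h1
    rw [(hxm _ 0 y ho).2.2, ← mul_left_cancel₀ (ho l) h1,
      inv_mul_cancel_left₀ (hxm _ 0 y ho).2.1]

end POLE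

theorem kPOLE (hMON : St_MON) (hDIV : EX.St_DIV) (hINC : St_INC) : Sk_POLE := by
  intro n ι _ _ c K C γ z hc hC hγ h0 hm
  exact POLE.main hMON hDIV hc hγ h0 hm _ (fun i => (K i).toNat) rfl
    (((hINC n ι c K 0 ∅ 0 C z).2.2.1 _ fun i => Int.self_le_toNat (K i)).2 hC)

end Pool.Agent.Lib.EXK
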