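import Pool.Agent.Lib.EXK.Blue

/-! Project exk: the first regeneration. -/

open scoped Classical Topology
open Set

set_option linter.unusedVariables false

noncomputable section

namespace Pool.Agent.Lib.EXK

open Pool.Agent.Lib.SV (E)
open Pool.Agent.Lib.HS32 Pool.Agent.Lib.EX

namespace REG1

variable {n : ℕ} {M : Mf n} {ι : Type} [Fintype ι] [DecidableEq ι]

theorem um_ja {D : Ad M ι} (R : Rk D) (j : ℕ) (a b : D.A) (x : M.X) :
    D.um (-R.ja j) a b x = D.um (-fun i => (R.a i : ℤ)) a b x ^ j := by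
  unfold Ad.um
  rw [← Finset.prod_pow]
  refine Finset.prod_congr rfl fun i _ => ?_
  rw [← zpow_natCast, ← zpow_mul]
  simp only [Rk.ja, Pi.neg_apply]
  rw [neg_mul, mul_comm]

theorem ind_nonneg (S : Finset ι) : 0 ≤ ind S := fun i => by
  simp only [ind, Pi.zero_apply]
  split_ifs <;> norm_num

end REG1

open REG1 in
theorem kREG1 (hHOM : Sk_HOM) (hING : Sk_ING) (hGLA : Sk_GLA) (hNUM : Sk_NUM) : Sk_REG1 := by
  intro n M _ ι _ _ D R κ τ _ _ u U μ' μ J j hu hJ hj hJj hU hI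
  obtain ⟨-, -, -, hN⟩ := hNUM n M ι D R μ' μ hJ
  have hν0 : ∀ i, 0 ≤ R.nu μ' i := fun i => le_max_right _ _
  have hν1 : (0 : ι → ℤ) ≤ R.nu μ' + ind (R.N μ) := fun i => add_nonneg (hν0 i) (ind_nonneg _ i)
  have hsp : (0 : ι → ℤ) ≤ sp R.a := fun i => by
    simp only [sp, Pi.zero_apply]
    split_ifs <;> norm_num
  choose e Φ he hd hh h0 hz hi using fun l =>
    hHOM _ τ (fun _ => j) (fun t => ev D (R.nu μ') (U t)) (ev D (R.nu μ') (u l)) (fun _ => hj)
      (hI l)
  set w : κ → D.A → E n → ℂ := fun l d z => Φ l (u l d z) (fun t => U t d z) with hw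
  set S : Finset ι := Finset.univ.filter fun i => (R.nu μ' + ind (R.N μ)) i ≠ 0 with hS
  set S' : Finset ι := Finset.univ.filter fun i => R.nu μ' i ≠ 0 with hS'
  have whol : ∀ l, D.All fun d z => DifferentiableAt ℂ (w l d) z := by
    intro l d z hz'
    have h1 : DifferentiableAt ℂ (fun y => (u l d y, fun t => U t d y)) z :=
      ((hu.gl l).hol d z hz').prodMk (differentiableAt_pi.2 fun t => (hU t).hol d z hz')
    exact ((hd l) _).comp z h1
  have wgl : ∀ l, Gl D (R.ja (e l)) (ind S) (w l) := by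
    intro l
    refine ((hGLA n M ι D (R.ja (e l)) 0 (w l)).2.2.2.2.2.2.2 S (whol l)).1 ?_
    intro a b x hxa hxb i hi hx
    have hi1 : (R.nu μ' + ind (R.N μ)) i ≠ 0 := (Finset.mem_filter.1 hi).2
    have hi2 : R.a i ≠ 0 := (hN i).1 ((hN i).2.2.2.2.2.2.2.1.2 hi1)
    have hi3 : sp R.a i ≠ 0 := by simp [sp, hi2]
    have e1 := (hGLA n M ι D _ _ (u l)).2.2.2.2.1 hsp (hu.gl l) a b x hxa hxb i hi3 hx
    have e2 : (fun t => U t b (D.e b x)) =
        fun t => U t a (D.e a x) * D.um (-fun i => (R.a i : ℤ)) a b x ^ j := by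
      funext t
      rw [← um_ja]
      exact (hGLA n M ι D _ _ (U t)).2.2.2.2.1 hν1 (hU t) a b x hxa hxb i hi1 hx
    simp only [hw]
    rw [e1, e2, um_ja]
    exact hh l _ _ _
  have wv : ∀ l, Van D (ind S') (w l) := by
    intro l
    refine ((hGLA n M ι D 0 0 (w l)).2.2.2.2.2.2.2 S' (whol l)).2 ?_
    intro d z hz' i hi hx
    exact hz l ⟨(d, z), hz', i, (Finset.mem_filter.1 hi).2, hx⟩
  obtain ⟨P, hP⟩ : ∃ P : ℕ, ∀ i, R.nu μ' i ≤ P := by
    refine ⟨∑ i, (R.nu μ' i).toNat, fun i => ?_⟩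
    have h1 : (R.nu μ' i).toNat ≤ ∑ i, (R.nu μ' i).toNat :=
      Finset.single_le_sum (f := fun i => (R.nu μ' i).toNat) (fun _ _ => Nat.zero_le _)
        (Finset.mem_univ i)
    have h2 := Int.self_le_toNat (R.nu μ' i)
    exact h2.trans (by exact_mod_cast h1)
  have hE : 0 < ∏ l, e l := Finset.prod_pos fun l _ => he l
  choose c hc using fun l => Finset.dvd_prod_of_mem e (Finset.mem_univ l)
  have hc0 : ∀ l, 0 < c l := fun l => Nat.pos_of_ne_zero fun h => by
    rw [hc l, h, mul_zero] at hE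
    exact lt_irrefl _ hE
  obtain ⟨p, hp⟩ : ∃ p, p + 1 = (∏ l, e l) * (P + 1) :=
    ⟨_, Nat.succ_pred_eq_of_pos (Nat.mul_pos hE P.succ_pos)⟩
  have hq' : ∀ l, ∃ q, P ≤ q ∧ q + 1 = j * c l * (P + 1) := fun l => by
    have h1 : 0 < j * c l := Nat.mul_pos hj (hc0 l)
    have h2 : P + 1 ≤ j * c l * (P + 1) := Nat.le_mul_of_pos_left _ h1
    exact ⟨j * c l * (P + 1) - 1, by omega, by omega⟩
  choose q hPq hq using hq'
  have hqe : ∀ l, (q l + 1) * e l = (p + 1) * j := fun l => by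
    rw [hq l, hp, hc l]
    ring
  set F : τ ⊕ κ → D.A → E n → ℂ :=
    Sum.elim (fun t => U t ^ (p + 1)) fun l => w l ^ (q l + 1) with hF
  refine ⟨(p + 1) * j, τ ⊕ κ, inferInstance, F,
    hJj.trans (Nat.le_mul_of_pos_left _ p.succ_pos), ?_, ?_⟩
  · rintro (t | l)
    · refine (hGLA n M ι D _ _ (U t)).2.2.2.1 0 _ _ p (fun i => ?_) (fun i => ?_) (hU t)
        ((hGLA n M ι D 0 0 (U t)).2.2.1 (hU t).hol)
      · simp only [Rk.ja]
        push_cast
        ring
      · simp
    · refine (hGLA n M ι D _ _ (w l)).2.2.2.1 (ind S') _ _ (q l) (fun i => ?_) (fun i => ?_)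
        (wgl l) (wv l)
      · simp only [Rk.ja]
        rw [← hqe l]
        push_cast
        ring
      · by_cases h1 : R.nu μ' i = 0
        · have h2 : i ∉ S' := fun h => (Finset.mem_filter.1 h).2 h1
          by_cases h3 : i ∈ R.N μ
          · have h4 : i ∈ S := Finset.mem_filter.2 ⟨Finset.mem_univ _, by simp [ind, h1, h3]⟩
            simp [ind, h1, h2, h3, h4]
          · have h4 := ind_nonneg S i
            simp only [Pi.zero_apply] at h4
            simpa [ind, h1, h2, h3] using h4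
        · have h2 : i ∈ S' := Finset.mem_filter.2 ⟨Finset.mem_univ _, h1⟩
          have h3 : i ∉ R.N μ := fun h => h1 ((hN i).2.2.1 h).2
          have h4 := ind_nonneg S i
          have h5 : (P : ℤ) ≤ q l := by exact_mod_cast hPq l
          have h6 := hP i
          have h7 : ind (R.N μ) i = 0 := by simp [ind, h3]
          have h8 : ind S' i = 1 := by simp [ind, h2]
          simp only [Pi.zero_apply] at h4
          simp only [Pi.add_apply, h7, h8]
          linarith
  · intro l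
    obtain ⟨g1, -, g3, g4⟩ :=
      hING _ (τ ⊕ κ) (fun _ => (p + 1) * j) fun t => ev D (R.nu μ) (F t)
    refine g4 _ _ _ _ _
      (hi l _ (fun t => ev D (R.nu μ) (U t)) (ev D (R.nu μ) (u l))) ?_
    rintro (_ | t)
    · refine g3 (e l) (q l + 1) _ (Nat.succ_pos _) ?_
      rw [hqe l]
      exact g1 (Sum.inr l)
    · exact g3 j (p + 1) _ (Nat.succ_pos _) (g1 (Sum.inl t))

end Pool.Agent.Lib.EXK
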