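import Pool.Agent.Lib.EXK.Blue
import Pool.Agent.Lib.EX.B_STEP

/-! Project exk: one step of the induction on the depth, modulo the glued components. -/

open scoped Classical Topology ContDiff ComplexOrder Matrix
open Set MeasureTheory Complex Metric Filter

set_option linter.unusedVariables false

noncomputable section

namespace Pool.Agent.Lib.EXK

open Pool.Agent.Lib.SV (E)
open Pool.Agent.Lib.HS32 Pool.Agent.Lib.EX
open Pool.Agent.Lib.EXA (SmN)

open Pool.Agent.Lib.EX.STEP in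
theorem kSTEP (hDEC : Sk_DEC) (hGYS : Sk_GYS) (hGLUE : Sk_GLUE) (hLINX : Sk_LINX)
    (hINCX : Sk_INCX) (hMODX : Sk_MODX) (hLIN : St_LIN) (hHAT : St_HAT) (hAVG : St_AVG)
    (hEXT : St_XT) (hTRF : St_TRF) (hINC : St_INC) (hRES : St_RES) (hMOD : St_MOD) : Sk_STEP := by
  intro n M _ H ι _ _ D κ _ L p τ K0 f g hH hf hKEY hg
  set K : ι → ℤ := fun i => max (K0 i) (L.G i) with hK
  have hGK : L.G ≤ K := fun i => le_max_right _ _
  have haK : K0 ≤ K := fun i => le_max_left _ _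
  have mH : ∀ d G, ModH (D.c d) (PolH (D.c d) G) := fun d G => (hMOD n ι (D.c d) G 0 ∅ 0).2.1
  have mP : ∀ d G, Mod (D.c d) (Pol (D.c d) G) := fun d G => (hMOD n ι (D.c d) G 0 ∅ 0).1
  have mW : ∀ d q, ModH (D.c d) (WtHX (D.c d) L.G L.T L.N q) :=
    fun d q => (hMODX n ι (D.c d) L.G L.T L.N q).2
  have upH : ∀ d F z, PolH (D.c d) L.G F z → PolH (D.c d) K F z := fun d F z =>
    ((hINC n ι (D.c d) L.G 0 ∅ 0 F z).2.2.1 K hGK).2
  have up : ∀ d F z, Pol (D.c d) L.G F z → Pol (D.c d) K F z := fun d F z =>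
    ((hINC n ι (D.c d) L.G 0 ∅ 0 F z).2.2.1 K hGK).1
  have gK : ∀ l, D.All fun d z => PolH (D.c d) K (g l d) z := by
    intro l d z hz
    have := (mH d K).add _ _ z (upH d _ z (hg.cor l d z hz))
      (((hINC n ι (D.c d) _ 0 ∅ 0 _ z).2.2.1 K haK).2 (hf l d z hz))
    rwa [sub_add_cancel] at this
  choose w V hw hV hR using fun l => hDEC n M H ι D κ L p K (g l) hH (gK l) (hg.dif l)
  choose σ w' V' hσ hw' hV' hVV hR' hd using fun l => hGYS n M H ι D κ L p (V l) hH (hV l)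
  obtain ⟨-, l2, l3, ⟨-, l4⟩, -, -⟩ := hLIN n M H ι D L.G L.T p
  obtain ⟨-, l1⟩ := hLINX n M H ι D L.G L.T L.N p
  set h : τ → D.A → E n → ℂ := fun l a => hat (D.c a) L.G L.T (p + 1) fun I => σ l I a with hh
  set F : τ → M.X → ℂ := fun l => D.avg (g l - h l) - D.ext L.G L.T p (w l - w' l) with hF
  have e1 : ∀ l, F l = (D.avg (g l) - D.ext L.G L.T p (w l)) +
      (-1 : ℂ) • (D.ext L.G L.T (p + 1) (σ l) - D.ext L.G L.T p (w' l)) := by
    intro l
    have a1 := l3 (g l) (h l) (-1)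
    have a2 := l2 (w l) (w' l) (-1)
    rw [neg_one_smul, ← sub_eq_add_neg] at a1 a2
    simp only [hF, a1, a2]
    show _ = _ + (-1 : ℂ) • (D.avg (h l) - _)
    module
  have x1 := fun l => ext_pol D hEXT hRES hINC (hw l)
  have x2 := fun l => ext_pol D hEXT hRES hINC (hw' l)
  have x3 := fun l => ext_pol D hEXT hRES hINC (hσ l).sec
  have r1 : ∀ l, RepX D H L.G L.T L.N p (F l) (V l - V' l) := by
    intro l
    have := l1 (D.avg (g l) - D.ext L.G L.T p (w l))
      (D.ext L.G L.T (p + 1) (σ l) - D.ext L.G L.T p (w' l)) _ _ (-1) K (fun d z hz => sub (mP d K)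
      (avg_pol D hAVG hTRF hINC hMOD (gK l) d z hz) (up d _ z (x1 l d z hz)))
      (fun d z hz => up d _ z (sub (mP d L.G) (x3 l d z hz) (x2 l d z hz))) (hR l) (hR' l)
    rwa [← e1, neg_one_smul, ← sub_eq_add_neg] at this
  have p1 : ∀ l, D.All fun d z => Pol (D.c d) L.G (D.rd (D.avg (f l) - F l) d) z := by
    intro l d z hz
    have a1 := l3 (g l) (f l) (-1)
    rw [neg_one_smul, ← sub_eq_add_neg] at a1
    have a2 : D.avg (f l) - F l = (D.ext L.G L.T p (w l) - D.avg (g l - f l)) +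
        (D.ext L.G L.T (p + 1) (σ l) - D.ext L.G L.T p (w' l)) := by
      rw [e1, a1]; module
    rw [a2]
    exact (mP d L.G).add _ _ z (sub (mP d L.G) (x1 l d z hz)
      (avg_pol D hAVG hTRF hINC hMOD (g := g l - f l) (hg.cor l) d z hz))
      (sub (mP d L.G) (x3 l d z hz) (x2 l d z hz))
  have r0 := hKEY (fun l => V l - V' l) F hVV hd p1 r1
  have t := fun l => hHAT n M ι D L.G L.T (p + 1) (σ l) (hσ l)
  have key : ∀ l, ∃ g' : D.A → E n → ℂ,
      (D.All fun a z => PolH (D.c a) L.G (g' a - (g l - h l) a) z) ∧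
        D.Dif (fun a => WtHX (D.c a) L.G L.T L.N p) g' := by
    intro l
    refine hGLUE n M H ι D L.G K L.T L.N p (g l - h l) (w l - w' l) L.NT
      (fun d z hz => subH (mH d K) (gK l d z hz) (upH d _ z ((t l).1 d z hz)))
      (fun a b x hx hx' => ?_) ?_ (r0 l)
    · have := subH (mW b (p + 1)) (hg.dif l a b x hx hx')
        ((hINCX n ι (D.c b) L.G L.T L.N (p + 1) _ _).2.2.2.2.1 ((t l).2 a b x hx hx'))
      refine (congrArg (WtHX (D.c b) L.G L.T L.N (p + 1) · (D.e b x))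
        (funext fun z => ?_)).mp this
      simp only [Ad.tr, Pi.sub_apply, hh]
      ring
    · have := l4 _ _ (-1) (hw l) (hw' l)
      rwa [neg_one_smul, ← sub_eq_add_neg] at this
  choose g' k1 k2 using key
  refine ⟨g', fun l d z hz => ?_, k2⟩
  have := subH (mH d L.G) ((mH d L.G).add _ _ z (k1 l d z hz) (hg.cor l d z hz)) ((t l).1 d z hz)
  refine (congrArg (PolH (D.c d) L.G · z) (funext fun y => ?_)).mp this
  simp only [Pi.sub_apply, Pi.add_apply, hh]
  ring

end Pool.Agent.Lib.EXK
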