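import Pool.Agent.Lib.EXK.Defs
import Pool.Agent.Lib.EX.Blue

/-! Project exk: blueprint. -/

open scoped Classical Topology ContDiff ComplexOrder Matrix Manifold
open Set MeasureTheory Complex Metric Filter

set_option linter.unusedVariables false

noncomputable section

namespace Pool.Agent.Lib.EXK

open Pool.Agent.Lib.SV (E)
open Pool.Agent.Lib.HS32 Pool.Agent.Lib.EX
open Pool.Agent.Lib.EXA (Val SmN emb)

/-! ### The core, copied for `Lw` -/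

/-- The smooth lifts. -/
def Sk_UT : Prop := ∀ (n : ℕ) (M : Mf n) [M.Cpt] (ι : Type) [Fintype ι] [DecidableEq ι] (D : Ad M ι)
  (κ : Type) [Fintype κ] (L : Lw D κ),
  (D.All fun d z => (∀ l, ContDiffAt ℝ ∞ (L.ut l d) z) ∧ 0 < L.nn d z ∧
    ContDiffAt ℝ ∞ (L.nn d) z ∧ ContDiffAt ℝ ∞ (L.b d) z ∧ 0 < L.b d z ∧
    (∀ l l', ContDiffAt ℝ ∞ (L.cc l l' d) z) ∧
    (∀ l, ∃ t, SmN t z ∧ ∀ᶠ y in 𝓝 z, L.ut l d y = L.U l d y + xm (D.c d) (ind L.N) y * t y) ∧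
    (∀ l, Off (D.c d) z →
      D.rd (D.avg (L.f l)) d z = xm (D.c d) (-fun i => (L.a i : ℤ)) z * L.ut l d z) ∧
    (∀ l, PolH (D.c d) (fun i => L.a i) (L.f l d) z) ∧
    (∀ l, Pol (D.c d) (fun i => L.a i) (D.rd (D.avg (L.f l)) d) z) ∧
    ∀ j, Pol (D.c d) (-ind L.N) (L.eta d j) z ∧ ∀ l, Pol (D.c d) (-ind L.N) (dzb j (L.ut l d)) z) ∧
  D.Ov fun a d x => (∀ l, L.ut l d (D.e d x) =
      L.ut l a (D.e a x) * D.um (-fun i => (L.a i : ℤ)) a d x) ∧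
    (∀ l l', L.cc l l' d (D.e d x) = L.cc l l' a (D.e a x)) ∧
    L.b d (D.e d x) = L.b a (D.e a x) *
      (∏ i, normSq (D.u a d i x) ^ (L.r i + L.G i - if i ∈ L.T then 1 else 0)) *
        normSq (D.J a d x).det ∧
    L.dd d (D.e d x) = L.dd a (D.e a x) * normSq (D.J a d x).det

/-- The weight of the level on a stratum. -/
def Sk_WGT : Prop := ∀ (n : ℕ) (M : Mf n) [M.Cpt] (ι : Type) [Fintype ι] [DecidableEq ι] (D : Ad M ι)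
  (κ : Type) [Fintype κ] (L : Lw D κ) (I : Finset ι), I ⊆ L.T → ¬ Disjoint I L.N →
  D.Wgt I (D.kap L.G L.T I) L.r L.b

/-- From the output of the harmonic lemma to harmonic fields. -/
def Sk_THE : Prop := ∀ (n : ℕ) (M : Mf n) [M.Cpt] (ι : Type) [Fintype ι] [DecidableEq ι] (D : Ad M ι)
  (κ : Type) [Fintype κ] (L : Lw D κ) (I : Finset ι) (V : D.A → E n → E n), I ⊆ L.T →
  ¬ Disjoint I L.N → D.Fld I (D.kap L.G L.T I) V →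
  (D.All fun a z => Sl (D.c a) I z →
    hess (fun y => (Real.log (L.b a (prj (D.c a) I y)) : ℂ)) z *ᵥ V a z = 0 ∧
    ((∀ i ∉ I, xi (D.c a) i z ≠ 0) →
      dvD (fun y => L.b a (prj (D.c a) I y) * xr (D.c a) L.r y) (V a) z = 0)) → L.Har I V

/-- A harmonic field modulo the ideal of its stratum. -/
def Sk_VU : Prop := ∀ (n : ℕ) (M : Mf n) [M.Cpt] (ι : Type) [Fintype ι] [DecidableEq ι] (D : Ad M ι)
  (κ : Type) [Fintype κ] (L : Lw D κ) (I : Finset ι) (V : D.A → E n → E n), I ⊆ L.T →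
  L.Har I V → D.All fun d z => ∃ lam, SmN lam z ∧
    (∀ l, Idl (D.c d) I (fun y => L.s * (app (V d) (L.ut l d) y - lam y * L.ut l d y)) z) ∧
    Idl (D.c d) I (fun y => xs (D.c d) (fr L.r) y * (dv (V d) y +
      app (V d) (L.w d) y / (L.m * L.w d y) - L.s * lam y +
      ∑ i, L.r i * (D.c d i).elim 0 (V d y) / xi (D.c d) i y)) z

/-- The divergence of the test field. -/
def Sk_Q3 : Prop := ∀ (n : ℕ) (M : Mf n) [M.Cpt] (ι : Type) [Fintype ι] [DecidableEq ι] (D : Ad M ι)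
  (κ : Type) [Fintype κ] (L : Lw D κ) (p : ℕ) (V : Finset ι → D.A → E n → E n),
  L.HarF p V → D.All fun d z => WQ (D.c d) L.G L.r L.T p
    (fun y => dvD (L.dd d) (L.vh p V d) y + L.s * ∑ j, star (L.eta d j y) * L.vh p V d y j) z

/-- The test fields of two charts differ by a field of lower weight. -/
def Sk_Q4 : Prop := ∀ (n : ℕ) (M : Mf n) [M.Cpt] (ι : Type) [Fintype ι] [DecidableEq ι] (D : Ad M ι)
  (κ : Type) [Fintype κ] (L : Lw D κ) (p : ℕ) (V : Finset ι → D.A → E n → E n), L.HarF p V →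
  D.All fun d z => Wt (D.c d) L.G L.T p (D.rd (fun x => ∑ a, (D.e a).source.indicator
    (fun y => app (L.vh p V a) (fun t => ((D.rd (D.χ a) a t : ℝ) : ℂ)) (D.e a y)) x) d) z

/-- The derivative of the projector along the test field. -/
def Sk_Q5 : Prop := ∀ (n : ℕ) (M : Mf n) [M.Cpt] (ι : Type) [Fintype ι] [DecidableEq ι] (D : Ad M ι)
  (κ : Type) [Fintype κ] (L : Lw D κ) (p : ℕ) (V : Finset ι → D.A → E n → E n),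
  L.HarF p V → ∀ l l', D.All fun d z => ∃ (Q : E n → ℂ) (t : Fin n → E n → ℂ),
    Wt (D.c d) L.G L.T p Q z ∧ (∀ j, Pol (D.c d) (-ind L.N) (t j) z) ∧
    ∀ᶠ y in 𝓝 z, Off (D.c d) y → L.s * ∑ j, dzb j (L.cc l l' d) y * star (L.vh p V d y j) =
      star (Q y) + L.s * ∑ j, t j y * star (L.vh p V d y j)

/-- The master identity in one chart. -/
def Sk_ML1 : Prop := ∀ (n : ℕ) (M : Mf n) [M.Cpt] (ι : Type) [Fintype ι] [DecidableEq ι]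
  (D : Ad M ι) (κ : Type) [Fintype κ] (L : Lw D κ) (p : ℕ) (V : Finset ι → D.A → E n → E n)
  (F : E n → ℂ) (K : ι → ℤ) (ρ ρ' : Finset ι → E n → ℂ) (d : D.A) (v : E n → ℝ),
  L.HarF p V → Tst (D.c d) v →
  (∀ i ∉ L.T, L.r i = 0 → K i ≤ L.G i) → (∀ z ∈ B2 n, Pol (D.c d) K F z) →
  (∀ z ∈ B2 n, Main (D.c d) L.r L.T p ρ (fun y => (L.dd d y : ℝ) *
    ∑ j, L.nab d j F y * star (L.vh p V d y j)) z) →
  (∀ z ∈ B2 n, Main (D.c d) L.r L.T (p + 1) ρ' (fun y => (L.dd d y : ℝ) *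
    (F y * star (hat (D.c d) L.G L.T (p + 1) (fun J => D.dl L.T p V J d) y))) z) →
  Val (fun t => t ^ p * ∫ z in B2 n, cut (D.c d) v t z * ((L.dd d z : ℝ) *
      (F z * star (app (L.vh p V d) (fun x => ((D.rd (D.χ d) d x : ℝ) : ℂ)) z))))
    (-((∑ I ∈ L.T.powersetCard p, SI (D.c d) I
        ((B2 n).indicator fun z => (D.rd (D.χ d) d z * xr (D.c d) L.r z : ℝ) * ρ I z)) +
      ∑ I ∈ L.T.powersetCard (p + 1), SI (D.c d) I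
        ((B2 n).indicator fun z => (D.rd (D.χ d) d z * xr (D.c d) L.r z : ℝ) * ρ' I z)))

/-- The terms with a derivative of the partition of unity. -/
def Sk_ML2 : Prop := ∀ (n : ℕ) (M : Mf n) [M.Cpt] (ι : Type) [Fintype ι] [DecidableEq ι]
  (D : Ad M ι) (κ : Type) [Fintype κ] (L : Lw D κ) (p : ℕ) (V : Finset ι → D.A → E n → E n)
  (F : M.X → ℂ) (K : ι → ℤ) (N : M.X → ℝ) (v : D.A → E n → ℝ), L.HarF p V → D.Cut N v →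
  (∀ i ∉ L.T, L.r i = 0 → K i ≤ L.G i) → (D.All fun d z => Pol (D.c d) K (D.rd F d) z) →
  Val (fun t => ∑ d, t ^ p * ∫ z in B2 n, cut (D.c d) (v d) t z * ((L.dd d z : ℝ) *
      (D.rd F d z * star (app (L.vh p V d) (fun x => ((D.rd (D.χ d) d x : ℝ) : ℂ)) z)))) 0

/-- The master identity. -/
def Sk_ML : Prop := ∀ (n : ℕ) (M : Mf n) [M.Cpt] (ι : Type) [Fintype ι] [DecidableEq ι]
  (D : Ad M ι) (κ : Type) [Fintype κ] (L : Lw D κ) (p : ℕ) (V : Finset ι → D.A → E n → E n)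
  (F : M.X → ℂ) (K : ι → ℤ) (ρ ρ' : Finset ι → D.A → E n → ℂ), L.HarF p V →
  (∀ i ∉ L.T, L.r i = 0 → K i ≤ L.G i) → (D.All fun d z => Pol (D.c d) K (D.rd F d) z) →
  (D.All fun d z => Main (D.c d) L.r L.T p (fun I => ρ I d) (fun y => (L.dd d y : ℝ) *
    ∑ j, L.nab d j (D.rd F d) y * star (L.vh p V d y j)) z) →
  (D.All fun d z => Main (D.c d) L.r L.T (p + 1) (fun I => ρ' I d) (fun y => (L.dd d y : ℝ) *
    (D.rd F d y * star (hat (D.c d) L.G L.T (p + 1) (fun J => D.dl L.T p V J d) y))) z) →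
  D.SS L.r L.T p ρ + D.SS L.r L.T (p + 1) ρ' = 0

/-- Harmonic fields form a vector space, and the scalar products. -/
def Sk_IP : Prop := ∀ (n : ℕ) (M : Mf n) [M.Cpt] (H : M.Fam (Mat n)) (ι : Type) [Fintype ι]
  [DecidableEq ι] (D : Ad M ι) (κ : Type) [Fintype κ] (L : Lw D κ) (p : ℕ), M.Met H →
  (L.HarF p 0 ∧ ∀ V V' (t : ℂ), L.HarF p V → L.HarF p V' → L.HarF p (V + t • V')) ∧
  (∀ V V' W (t : ℂ), L.HarF p V → L.HarF p V' → L.HarF p W →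
    L.ipV H p (V + t • V') W = L.ipV H p V W + t * L.ipV H p V' W ∧
    L.ipV H p W V = star (L.ipV H p V W) ∧ 0 ≤ L.ipV H p V V) ∧
  ∀ σ σ' τ (t : ℂ), D.HSec L.G L.T p σ → D.HSec L.G L.T p σ' → D.HSec L.G L.T p τ →
    L.ipS p (σ + t • σ') τ = L.ipS p σ τ + t * L.ipS p σ' τ ∧
    L.ipS p τ σ = star (L.ipS p σ τ) ∧ 0 ≤ L.ipS p σ σ ∧ (L.ipS p σ σ = 0 → σ = 0)

/-- The polarised identity. -/
def Sk_KEY1 : Prop := ∀ (n : ℕ) (M : Mf n) [M.Cpt] (H : M.Fam (Mat n)) (ι : Type) [Fintype ι]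
  [DecidableEq ι] (D : Ad M ι) (κ : Type) [Fintype κ] (L : Lw D κ) (p : ℕ)
  (V : κ → Finset ι → D.A → E n → E n) (F : κ → M.X → ℂ), L.N = L.T → 0 < p →
  (∀ i ∉ L.T, L.r i = 0 → (L.a i : ℤ) ≤ L.G i) →
  (∀ l, L.HarF p (V l)) → (∀ l, D.dl L.T p (V l) = 0) →
  (∀ l, D.All fun d z => Pol (D.c d) L.G (D.rd (D.avg (L.f l) - F l) d) z) →
  (∀ l, D.Rep H L.G L.T p (F l) (V l)) → ∀ l, D.SS L.r L.T p (fun I d z => (L.b d z : ℝ) *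
    (star (V l I d z) ⬝ᵥ H (D.e d) z *ᵥ V l I d z -
      L.s * ∑ l', L.cc l l' d z * (star (V l I d z) ⬝ᵥ H (D.e d) z *ᵥ V l' I d z))) = 0

/-- The harmonic parts vanish. -/
def Sk_KEY : Prop := ∀ (n : ℕ) (M : Mf n) [M.Cpt] (H : M.Fam (Mat n)) (ι : Type) [Fintype ι]
  [DecidableEq ι] (D : Ad M ι) (κ : Type) [Fintype κ] (L : Lw D κ) (p : ℕ)
  (V : κ → Finset ι → D.A → E n → E n) (F : κ → M.X → ℂ), M.Met H → L.N = L.T → 0 < p →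
  (∀ i ∉ L.T, L.r i = 0 → (L.a i : ℤ) ≤ L.G i) → L.s < 1 →
  (∀ l, L.HarF p (V l)) → (∀ l, D.dl L.T p (V l) = 0) →
  (∀ l, D.All fun d z => Pol (D.c d) L.G (D.rd (D.avg (L.f l) - F l) d) z) →
  (∀ l, D.Rep H L.G L.T p (F l) (V l)) → ∀ l, D.Rep H L.G L.T p (F l) 0


/-- The non-linear key property. -/
def Sk_KEYN : Prop := ∀ (n : ℕ) (M : Mf n) [M.Cpt] (H : M.Fam (Mat n)) (ι : Type) [Fintype ι]
  [DecidableEq ι] (D : Ad M ι) (κ : Type) [Fintype κ] (L : Lw D κ) (p : ℕ), M.Met H → L.N = L.T →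
  L.s < 1 → (∀ i ∉ L.T, L.r i = 0 → (L.a i : ℤ) ≤ L.G i) → 0 < p → L.Key H L.f p

/-! ### The classes modulo `N` -/

/-- The classes are modules. -/
def Sk_MODX : Prop := ∀ (n : ℕ) (ι : Type) [Fintype ι] [DecidableEq ι] (c : ι → Option (Fin n))
  (G : ι → ℤ) (T N : Finset ι) (q : ℕ), Mod c (WtX c G T N q) ∧ ModH c (WtHX c G T N q)

/-- Inclusions. -/
def Sk_INCX : Prop := ∀ (n : ℕ) (ι : Type) [Fintype ι] [DecidableEq ι] (c : ι → Option (Fin n))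
  (G : ι → ℤ) (T N : Finset ι) (q : ℕ) (F : E n → ℂ) (z : E n),
  (WtHX c G T N q F z → WtX c G T N q F z) ∧ (WtX c G T N q F z → Pol c G F z) ∧
  (WtHX c G T N q F z → PolH c G F z) ∧ (Wt c G T q F z → WtX c G T N q F z) ∧
  (WtH c G T q F z → WtHX c G T N q F z) ∧ (PolH c G F z → WtHX c G T N (T.card + 1) F z) ∧
  (N ⊆ T → WtHX c G T N 1 F z → PolH c (G - ind N) F z) ∧
  ∀ ρ, (Res c G T q ρ F z → ResX c G T N q ρ F z) ∧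
    (0 < q → ResX c G T T q ρ F z → Res c G T q ρ F z)

/-- Rules for residues. -/
def Sk_RESX : Prop := ∀ (n : ℕ) (ι : Type) [Fintype ι] [DecidableEq ι] (c : ι → Option (Fin n))
  (G : ι → ℤ) (T N : Finset ι) (p : ℕ) (ρ ρ' : Finset ι → E n → ℂ) (F F' : E n → ℂ) (z : E n),
  Inj c → (ResX c G T N p ρ F z → WtX c G T N (p + 1) F z ∧ ∀ᶠ y in 𝓝 z, ResX c G T N p ρ F y) ∧
  (WtX c G T N (p + 1) F z → ∃ σ, (∀ I, SmN (σ I) z) ∧ ResX c G T N p σ F z) ∧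
  (WtHX c G T N (p + 1) F z → ∃ σ, (∀ I, HolN (σ I) z) ∧ ResX c G T N p σ F z) ∧
  (WtX c G T N p F z → ResX c G T N p 0 F z) ∧
  (ResX c G T N p ρ F z → ResX c G T N p ρ' F' z → ResX c G T N p (ρ + ρ') (F + F') z) ∧
  (∀ s, SmN s z → ResX c G T N p ρ F z → ResX c G T N p (fun I => s * ρ I) (s * F) z) ∧
  (ResX c G T N p ρ F z → (∀ᶠ y in 𝓝 z, Off c y → F' y = F y) →
    (∀ I ∈ T.powersetCard p, ¬ Disjoint I N → ∀ᶠ y in 𝓝 z, Sl c I y → ρ' I y = ρ I y) →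
    ResX c G T N p ρ' F' z) ∧
  (ResX c G T N p ρ F z → ResX c G T N p ρ' F z →
    ∀ I ∈ T.powersetCard p, ¬ Disjoint I N → ∀ᶠ y in 𝓝 z, Sl c I y → ρ I y = ρ' I y) ∧
  ((∀ I ∈ T.powersetCard p, SmN (ρ I) z) → ResX c G T N p ρ (hat c G T p ρ) z) ∧
  ((∀ I ∈ T.powersetCard p, HolN (ρ I) z) → WtHX c G T N (p + 1) (hat c G T p ρ) z) ∧
  (N ⊆ T → WtHX c G T N (p + 1) F z → ResX c G T N p 0 F z → WtHX c G T N p F z) ∧
  (ResX c G T N p ρ F z → ∀ j, ∃ σ, ResX c G T N p σ (dzb j F) z ∧ ∀ I ∈ T.powersetCard p,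
    ¬ Disjoint I N → ¬ Nm c I j → SmN (ρ I) z → ∀ᶠ y in 𝓝 z, Sl c I y → σ I y = dzb j (ρ I) y) ∧
  ∀ (τ : Type) (S : Finset τ) (σ : τ → Finset ι → E n → ℂ) (Φ : τ → E n → ℂ),
    (∀ t ∈ S, ResX c G T N p (σ t) (Φ t) z) → ResX c G T N p (∑ t ∈ S, σ t) (∑ t ∈ S, Φ t) z

/-- Change of chart. -/
def Sk_TRFX : Prop := ∀ (n : ℕ) (M : Mf n) [M.Cpt] (ι : Type) [Fintype ι] [DecidableEq ι]
  (D : Ad M ι), D.Ov fun a b x => ∀ G T N q (F : E n → ℂ),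
    (WtX (D.c a) G T N q F (D.e a x) → WtX (D.c b) G T N q (D.tr a b F) (D.e b x)) ∧
    (WtHX (D.c a) G T N q F (D.e a x) → WtHX (D.c b) G T N q (D.tr a b F) (D.e b x)) ∧
    ∀ ρ, ResX (D.c a) G T N q ρ F (D.e a x) → ResX (D.c b) G T N q
      (fun I => D.tr a b (ρ I) * D.rd (D.kap G T I a b) b) (D.tr a b F) (D.e b x)

/-- Products against the density. -/
def Sk_PRDX : Prop := ∀ (n : ℕ) (ι : Type) [Fintype ι] [DecidableEq ι] (c : ι → Option (Fin n))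
  (G : ι → ℤ) (r : ι → ℝ) (T N : Finset ι) (p : ℕ) (b : E n → ℝ) (F : E n → ℂ)
  (σ : Finset ι → E n → ℂ) (z : E n), Inj c → SmN b z → (∀ i ∈ T, r i = 0) →
  (∀ I ∈ T.powersetCard p, SmN (σ I) z ∧ (Disjoint I N → σ I = 0)) →
  (∀ K : ι → ℤ, (∀ i ∈ N, K i < G i) → Pol c K F z →
    Nul c r p (fun y => (den c G r T b y : ℝ) * (F y * star (hat c G T p σ y))) z) ∧
  ∀ ρ, ResX c G T N p ρ F z → Main c r T p (fun I y => (b y : ℝ) * (ρ I y * star (σ I y)))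
    (fun y => (den c G r T b y : ℝ) * (F y * star (hat c G T p σ y))) z

/-- From holomorphic differences to potentials on the strata. -/
def Sk_CECH : Prop := ∀ (n : ℕ) (M : Mf n) [M.Cpt] (ι : Type) [Fintype ι] [DecidableEq ι]
  (D : Ad M ι) (G : ι → ℤ) (T N : Finset ι) (p : ℕ) (g : D.A → E n → ℂ),
  D.Dif (fun a => WtHX (D.c a) G T N (p + 1)) g → ∃ σ : Finset ι → D.A → E n → ℂ,
    (∀ I ∈ T.powersetCard p, ¬ Disjoint I N → D.Pot I (D.kap G T I) (σ I)) ∧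
    D.All fun a z => ResX (D.c a) G T N p (fun I => σ I a) (D.rd (D.avg g) a - g a) z

/-- One step down. -/
def Sk_GLUE : Prop := ∀ (n : ℕ) (M : Mf n) [M.Cpt] (H : M.Fam (Mat n)) (ι : Type) [Fintype ι]
  [DecidableEq ι] (D : Ad M ι) (G K : ι → ℤ) (T N : Finset ι) (p : ℕ) (g : D.A → E n → ℂ)
  (w : Finset ι → D.A → E n → ℂ), N ⊆ T → (D.All fun a z => PolH (D.c a) K (g a) z) →
  D.Dif (fun a => WtHX (D.c a) G T N (p + 1)) g → D.SecF G T p w →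
  RepX D H G T N p (D.avg g - D.ext G T p w) 0 → ∃ g' : D.A → E n → ℂ,
    (D.All fun a z => PolH (D.c a) G (g' a - g a) z) ∧ D.Dif (fun a => WtHX (D.c a) G T N p) g'

/-- Linearity. -/
def Sk_LINX : Prop := ∀ (n : ℕ) (M : Mf n) [M.Cpt] (H : M.Fam (Mat n)) (ι : Type) [Fintype ι]
  [DecidableEq ι] (D : Ad M ι) (G : ι → ℤ) (T N : Finset ι) (p : ℕ),
  RepX D H G T N p 0 0 ∧ ∀ F F' V V' (t : ℂ) (K : ι → ℤ),
    (D.All fun a z => Pol (D.c a) K (D.rd F a) z) → (D.All fun a z => Pol (D.c a) K (D.rd F' a) z) →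
    RepX D H G T N p F V → RepX D H G T N p F' V' → RepX D H G T N p (F + t • F') (V + t • V')

/-- Decomposition. -/
def Sk_DEC : Prop := ∀ (n : ℕ) (M : Mf n) [M.Cpt] (H : M.Fam (Mat n)) (ι : Type) [Fintype ι]
  [DecidableEq ι] (D : Ad M ι) (κ : Type) [Fintype κ] (L : Lw D κ) (p : ℕ) (K : ι → ℤ)
  (g : D.A → E n → ℂ), M.Kae H → (D.All fun a z => PolH (D.c a) K (g a) z) →
  D.Dif (fun a => WtHX (D.c a) L.G L.T L.N (p + 1)) g → ∃ w V, D.SecF L.G L.T p w ∧ L.HarF p V ∧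
    RepX D H L.G L.T L.N p (D.avg g - D.ext L.G L.T p w) V

/-- The adjoint of the sum of the normal components. -/
def Sk_ADJ : Prop := ∀ (n : ℕ) (M : Mf n) [M.Cpt] (H : M.Fam (Mat n)) (ι : Type) [Fintype ι]
  [DecidableEq ι] (D : Ad M ι) (κ : Type) [Fintype κ] (L : Lw D κ) (p : ℕ)
  (V V' : Finset ι → D.A → E n → E n) (F : M.X → ℂ) (σ : Finset ι → D.A → E n → ℂ),
  L.HarF p V → (D.All fun d z => Res (D.c d) L.G L.T (p + 1) (fun I => σ I d) (D.rd F d) z) →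
  RepX D H L.G L.T L.N p F V' → L.ipV H p V' V + L.ipS (p + 1) σ (D.dl L.T p V) = 0

/-- The correction by holomorphic sections on the deeper strata. -/
def Sk_GYS : Prop := ∀ (n : ℕ) (M : Mf n) [M.Cpt] (H : M.Fam (Mat n)) (ι : Type) [Fintype ι]
  [DecidableEq ι] (D : Ad M ι) (κ : Type) [Fintype κ] (L : Lw D κ) (p : ℕ)
  (V : Finset ι → D.A → E n → E n), M.Kae H → L.HarF p V →
  ∃ σ w V', D.HSec L.G L.T (p + 1) σ ∧ D.SecF L.G L.T p w ∧ L.HarF p V' ∧ L.HarF p (V - V') ∧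
    RepX D H L.G L.T L.N p (D.ext L.G L.T (p + 1) σ - D.ext L.G L.T p w) V' ∧
    D.dl L.T p (V - V') = 0

/-- One step of the induction on the depth. -/
def Sk_STEP : Prop := ∀ (n : ℕ) (M : Mf n) [M.Cpt] (H : M.Fam (Mat n)) (ι : Type) [Fintype ι]
  [DecidableEq ι] (D : Ad M ι) (κ : Type) [Fintype κ] (L : Lw D κ) (p : ℕ) (τ : Type) (K : ι → ℤ)
  (f g : τ → D.A → E n → ℂ), M.Kae H → (∀ l, D.All fun d z => PolH (D.c d) K (f l d) z) →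
  L.Key H f p → CorX D L.G L.T L.N (p + 1) f g → ∃ g', CorX D L.G L.T L.N p f g'

/-- One level. -/
def Sk_LEVEL : Prop := ∀ (n : ℕ) (M : Mf n) [M.Cpt] (H : M.Fam (Mat n)) (ι : Type) [Fintype ι]
  [DecidableEq ι] (D : Ad M ι) (κ : Type) [Fintype κ] (L : Lw D κ) (τ : Type) (K : ι → ℤ)
  (f : τ → D.A → E n → ℂ), M.Kae H → (∀ l, D.All fun d z => PolH (D.c d) K (f l d) z) →
  (∀ p, 0 < p → L.Key H f p) → (∀ l, D.Dif (fun d => PolH (D.c d) L.G) (f l)) →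
  ∀ l, ∃ g : D.A → E n → ℂ, (D.All fun d z => PolH (D.c d) L.G (g d - f l d) z) ∧
    D.Dif (fun d => PolH (D.c d) (L.G - ind L.N)) g

/-- The linear key property. -/
def Sk_KEYL : Prop := ∀ (n : ℕ) (M : Mf n) [M.Cpt] (H : M.Fam (Mat n)) (ι : Type) [Fintype ι]
  [DecidableEq ι] (D : Ad M ι) (κ : Type) [Fintype κ] (L : Lw D κ) (p : ℕ) (τ : Type) (K : ι → ℤ)
  (f : τ → D.A → E n → ℂ), M.Met H → (∀ i ∈ L.N, K i ≤ L.G i) →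
  (∀ i ∉ L.T, L.r i = 0 → K i ≤ L.G i) → (∀ l, D.All fun d z => PolH (D.c d) K (f l d) z) →
  L.Key H f p

/-! ### Local statements -/

/-- The minimum of two bounds for the poles. -/
def Sk_MIN : Prop := ∀ (n : ℕ) (ι : Type) [Fintype ι] [DecidableEq ι] (c : ι → Option (Fin n))
  (K K' : ι → ℤ) (F : E n → ℂ) (z : E n), Inj c → PolH c K F z → PolH c K' F z →
  PolH c (K ⊓ K') F z

/-- A function whose powers have bounded denominators is holomorphic. -/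
def Sk_POLE : Prop := ∀ (n : ℕ) (ι : Type) [Fintype ι] [DecidableEq ι] (c : ι → Option (Fin n))
  (K : ι → ℤ) (C γ : E n → ℂ) (z : E n), Inj c → PolH c K C z → HolN γ z → ¬ γ =ᶠ[𝓝 z] 0 →
  (∀ m : ℕ, PolH c 0 (fun y => C y ^ m * γ y) z) → PolH c 0 C z

/-- Splitting off the part without poles. -/
def Sk_SPLIT : Prop := ∀ (n : ℕ) (ι : Type) [Fintype ι] [DecidableEq ι] (c : ι → Option (Fin n))
  (K : ι → ℤ) (N : Finset ι) (c0 : E n → ℂ), Inj c → (∀ i ∈ N, K i = 0) →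
  (∀ z ∈ B2 n, DifferentiableAt ℂ c0 z) →
  (∀ i ∈ N, ∀ z ∈ B2 n, xi c i z = 0 → PolH c K (fun y => c0 (prj c {i} y)) z) →
  ∃ c' : E n → ℂ, ∀ z ∈ B2 n, DifferentiableAt ℂ c' z ∧
    PolH c (-ind N) (fun y => c0 y - xm c (-K ⊔ 0) y * c' y) z

/-- Poles along exceptional components drop. -/
def Sk_EXC0 : Prop := ∀ (n : ℕ) (M : Mf n) (ι : Type) [Fintype ι] [DecidableEq ι] (D : Ad M ι)
  (a : ι → ℕ) (ex : Set ι) (B : Bl D a ex) (ρ : ℝ) (q : ι → ℤ) (j : ℕ) (H : M.X → ℂ), ρ ≤ 1 →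
  (∀ i ∉ ex, q i ≤ j * a i) → (D.On (Wr B ρ) fun d z => PolH (D.c d) q (D.rd H d) z) →
  D.On (Wr B ρ) fun d z => PolH (D.c d) (q ⊓ fun i => j * a i) (D.rd H d) z

/-- Restriction to a connected component over a smaller polydisc. -/
def Sk_RST : Prop := ∀ (n : ℕ) (M : Mf n) (ι : Type) [Fintype ι] [DecidableEq ι] (D : Ad M ι)
  (a : ι → ℕ) (ex : Set ι) (B : Bl D a ex) (ρ : ℝ) (x : M.X), ρ ≤ 1 → x ∈ Wr B ρ →
  ∃ B' : Bl D a ex, x ∈ B'.W ∧ B'.W ⊆ Wr B ρ ∧ B'.e = B.e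

/-- Lifting to a blow-up. -/
def Sk_WL : Prop := ∀ (n : ℕ) (M : Mf n) [M.Cpt] (ι : Type) [Fintype ι] [DecidableEq ι]
  (D : Ad M ι) (R : Rk D) (b : D.A) (μ ρ : ℝ) (j : ℕ) (Q : ι → ℤ) (g : D.A → E n → ℂ), ρ < 1 →
  (∀ i ∉ R.ex, 0 ≤ R.dl μ i ∧ Q i ≤ R.ja j i) → (∀ i, R.a i = 0 → R.k i = 0 → Q i ≤ 0) →
  (D.All fun d z => PolH (D.c d) Q (g d) z) → D.Dif (fun d => PolH (D.c d) (R.ja j - R.fl μ)) g →
  ∃ F : M.X → ℂ, D.On (Wr (R.B b) ρ) fun d z => PolH (D.c d) (R.ja j) (D.rd F d) z ∧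
    PolH (D.c d) (R.ja j - R.fl μ) (D.rd F d - g d) z

/-- The vanishing theorem from pointwise data, with the estimate. -/
def Sk_RV2 : Prop := ∀ (n : ℕ) (M : Mf n) [M.Cpt] (N : ℕ) (W U O : Set M.X) (p : M.X → E N)
  (q : M.X → E n) (j Γ : M.X → ℂ) (ph : M.X → ℝ) (ρ : ℝ), IsOpen W →
  (∀ ρ' ≤ ρ, IsCompact {y | y ∈ W ∧ ‖p y‖ ≤ ρ'}) → U = {y | y ∈ W ∧ ‖p y‖ < ρ} →
  O = {y | y ∈ U ∧ j y ≠ 0} →
  (∀ y ∈ W, ∃ e ∈ M.C, y ∈ e.source ∧ HolN (p ∘ e.symm) (e y) ∧ HolN (q ∘ e.symm) (e y) ∧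
    HolN (j ∘ e.symm) (e y) ∧
    (j y ≠ 0 → (jm (q ∘ e.symm) (e y)).det ≠ 0 ∧ ContDiffAt ℝ ∞ (ph ∘ e.symm) (e y)) ∧
    ∃ V j a φ s d c, Dat2 U O q ph Γ e V j a φ s d c ∧ e y ∈ V) →
  IsOpen U ∧ ∃ F : M.X → ℂ, ∀ e V j a φ s d c, Dat2 U O q ph Γ e V j a φ s d c →
    ∃ k, DifferentiableOn ℂ k (V ∩ e.symm ⁻¹' U) ∧ (∀ z ∈ V ∩ e.symm ⁻¹' U, ContinuousAt φ z →
      ContinuousAt a z → a z ≠ 0 → F (e.symm z) = φ z + k z / a z) ∧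
      ∫⁻ z in V ∩ e.symm ⁻¹' O, ENNReal.ofReal (normSq (s z - k z) * d z) ≠ ⊤

/-- Relative vanishing with the additional weight `γ`. -/
def Sk_RVW : Prop := ∀ (n : ℕ) (M : Mf n) [M.Cpt] (ι : Type) [Fintype ι] [DecidableEq ι]
  (D : Ad M ι) (R : Rk D) (B : Bl D R.a R.ex) (t ε lam ρ : ℝ) (β : ι → ℕ) (P Q : ι → ℤ)
  (γ : M.X → ℂ) (g : D.A → E n → ℂ), ρ < 1 → 0 < ε → ε ≤ 1 → 0 < lam →
  (∀ i, -1 < t * R.a i + R.k i / R.m - (1 - ε) * β i - lam * B.e i - P i ∧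
    t * R.a i + R.k i / R.m - (1 - ε) * β i - lam * B.e i - P i ≤ 0) →
  (∀ i, β i ≠ 0 → R.a i ≠ 0) → (∀ i, R.a i = 0 → R.k i = 0 → Q i ≤ 0) →
  (D.On B.W fun d z => PolH (D.c d) (-fun i => (β i : ℤ)) (D.rd γ d) z) →
  (D.On B.W fun d z => PolH (D.c d) Q (g d) z) → DifOn D B.W (P + fun i => (β i : ℤ)) g →
  ∃ F : M.X → ℂ, D.On (Wr B ρ) fun d z => PolH (D.c d) P (D.rd F d - D.rd γ d * g d) z

/-- Peak sections. -/
def Sk_PEAK : Prop := ∀ (n : ℕ) (M : Mf n) [M.Cpt] (ι : Type) [Fintype ι] [DecidableEq ι]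
  (D : Ad M ι) (R : Rk D) (B : Bl D R.a R.ex) (t ρ : ℝ) (P : ι → ℤ) (d : D.A) (z : E n) (i : ι),
  ρ < 1 → (∀ l, P l = ⌈t * R.a l + R.k l / R.m⌉) → z ∈ B2 n → (D.e d).symm z ∈ Wr B ρ →
  R.a i ≠ 0 → xi (D.c d) i z = 0 → ∃ (q : ℕ) (F : M.X → ℂ), 0 < q ∧
    (D.On (Wr B ρ) fun d z => PolH (D.c d) (fun l => P l - q * B.e l) (D.rd F d) z) ∧
    ∃ s, HolN s z ∧ s z ≠ 0 ∧ ∀ᶠ y in 𝓝 z, Off (D.c d) y →
      D.rd F d y = xm (D.c d) (-fun l => P l - q * B.e l) y * s y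

/-- Arithmetic of two consecutive levels. -/
def Sk_NUM : Prop := ∀ (n : ℕ) (M : Mf n) (ι : Type) [Fintype ι] [DecidableEq ι] (D : Ad M ι)
  (R : Rk D) (μ' μ : ℝ), R.Jp μ' μ → R.nu μ' = R.h μ ⊔ 0 ∧ R.nu μ = R.nu μ' + ind (R.T μ) ∧
  R.N μ ⊆ R.T μ ∧ ∀ i, (R.nu μ i ≠ 0 → R.a i ≠ 0) ∧ (i ∈ R.T μ → R.a i ≠ 0 ∧ R.fl μ' i = R.h μ i) ∧
    (i ∈ R.N μ → R.h μ i = 0 ∧ R.nu μ' i = 0) ∧ (i ∈ R.T μ \ R.N μ → 1 ≤ R.h μ i) ∧
    (i ∉ R.ex → 0 ≤ R.h μ i ∧ 0 ≤ R.fl μ' i ∧ 0 ≤ R.dl μ i) ∧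
    (R.a i = 0 → R.k i = 0 → R.h μ i = 0) ∧ (i ∉ R.T μ → R.dl μ i = R.fl μ i → R.h μ i ≤ 0) ∧
    (R.nu μ i ≠ 0 ↔ (R.nu μ' + ind (R.N μ)) i ≠ 0) ∧ (1 ≤ R.dl μ' i → i ∉ R.N μ)

/-- One step in the tower. -/
def Sk_ITER : Prop := ∀ (n : ℕ) (M : Mf n) [M.Cpt] (ι : Type) [Fintype ι] [DecidableEq ι]
  (D : Ad M ι) (R : Rk D) (μ' μ : ℝ) (i : ι) (q : ℕ) (B : Bl D R.a R.ex) (C : D.A → E n → ℂ)
  (γ : M.X → ℂ) (x : M.X), R.Jp μ' μ → i ∈ R.N μ → 0 < q → x ∈ B.W →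
  (D.On B.W fun d z => PolH (D.c d) (-R.h μ) (C d) z) → DifOn D B.W (-R.h μ - ind (R.N μ)) C →
  (D.On B.W fun d z => PolH (D.c d) (-fun l => (R.bt μ i q B.e l : ℤ)) (D.rd γ d) z) →
  ∃ (B' : Bl D R.a R.ex) (γ' : M.X → ℂ), x ∈ B'.W ∧ B'.W ⊆ B.W ∧ B'.e = B.e ∧
    D.On B'.W fun d z => PolH (D.c d) (-fun l => (R.bt μ i q B.e l : ℤ)) (D.rd γ' d) z ∧
      PolH (D.c d) (-R.h μ - ind (R.N μ) - fun l => (R.bt μ i q B.e l : ℤ))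
        (D.rd γ' d - D.rd γ d * C d) z

/-- No poles on the new components. -/
def Sk_NP : Prop := ∀ (n : ℕ) (M : Mf n) [M.Cpt] (ι : Type) [Fintype ι] [DecidableEq ι]
  (D : Ad M ι) (R : Rk D) (μ' μ : ℝ) (B : Bl D R.a R.ex) (C : D.A → E n → ℂ), R.Jp μ' μ →
  (D.On B.W fun d z => PolH (D.c d) (-R.h μ) (C d) z) → DifOn D B.W (-R.h μ - ind (R.N μ)) C →
  D.On B.W fun d z => ∀ i ∈ R.N μ, xi (D.c d) i z = 0 → ∀ c0, HolN c0 z →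
    (∀ᶠ y in 𝓝 z, Off (D.c d) y → C d y = xm (D.c d) (R.h μ) y * c0 y) →
    PolH (D.c d) (R.h μ) (fun y => c0 (prj (D.c d) {i} y)) z

/-! ### Algebra -/

/-- The homogeneous equation. -/
def Sk_HOM : Prop := ∀ (P κ : Type) [Fintype κ] (dg : κ → ℕ) (U : κ → P → ℂ) (u : P → ℂ),
  (∀ l, 0 < dg l) → Ing dg U 1 u → ∃ (e : ℕ) (Φ : ℂ → (κ → ℂ) → ℂ), 0 < e ∧
    Differentiable ℂ (fun x : ℂ × (κ → ℂ) => Φ x.1 x.2) ∧
    (∀ c t y, Φ (t * c) (fun l => y l * c ^ dg l) = Φ t y * c ^ e) ∧ (∀ t, Φ t 0 = t ^ e) ∧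
    (∀ x, Φ (u x) (U · x) = 0) ∧ ∀ (P' : Type) (U' : κ → P' → ℂ) (u' : P' → ℂ),
      Ing (fun o : Option κ => o.elim e dg)
        (fun o => o.elim (fun x => Φ (u' x) (U' · x)) U') 1 u'

/-- Rules for integral elements. -/
def Sk_ING : Prop := ∀ (P κ : Type) (dg : κ → ℕ) (U : κ → P → ℂ),
  (∀ l, Ing dg U (dg l) (U l)) ∧
  (∀ e u u', Ing dg U e u → Ing dg U e u' → Ing dg U e (u + u')) ∧
  (∀ e p u, 0 < p → Ing dg U (p * e) (u ^ p) → Ing dg U e u) ∧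
  ∀ (κ' : Type) (dg' : κ' → ℕ) (U' : κ' → P → ℂ) e u, Ing dg' U' e u →
    (∀ l, Ing dg U (dg' l) (U' l)) → Ing dg U e u

/-- Rules for sections over a thickening. -/
def Sk_GLA : Prop := ∀ (n : ℕ) (M : Mf n) [M.Cpt] (ι : Type) [Fintype ι] [DecidableEq ι]
  (D : Ad M ι) (K ν : ι → ℤ) (U : D.A → E n → ℂ),
  (∀ ν' ≤ ν, (Gl D K ν U → Gl D K ν' U) ∧ (Van D ν U → Van D ν' U)) ∧
  (∀ U', Gl D K ν U → Gl D K ν U' → Gl D K ν (U - U')) ∧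
  ((D.All fun d z => DifferentiableAt ℂ (U d) z) → Van D 0 U) ∧
  (∀ (ν₀ K' ν' : ι → ℤ) (p : ℕ), (∀ i, K' i = (p + 1) * K i) → (∀ i, ν' i ≤ ν i + p * ν₀ i) →
    Gl D K ν U → Van D ν₀ U → Gl D K' ν' (U ^ (p + 1))) ∧
  (0 ≤ ν → Gl D K ν U → D.Ov fun a b x => ∀ i, ν i ≠ 0 → xi (D.c b) i (D.e b x) = 0 →
    U b (D.e b x) = U a (D.e a x) * D.um (-K) a b x) ∧
  (0 ≤ ν → Van D ν U → (D.All fun d z => DifferentiableAt ℂ (U d) z) →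
    D.All fun d z => ∀ i, ν i ≠ 0 → xi (D.c d) i z = 0 → U d z = 0) ∧
  (0 ≤ ν → Gl D K ν U → D.All fun b z => ∀ i, ν i ≠ 0 → xi (D.c b) i z = 0 →
    D.rd (fun x => ∑ d, (D.χ d x : ℂ) * (U d (D.e d x) * D.um (-K) d b x)) b z = U b z) ∧
  ∀ S : Finset ι, (D.All fun d z => DifferentiableAt ℂ (U d) z) →
    ((D.Ov fun a b x => ∀ i ∈ S, xi (D.c b) i (D.e b x) = 0 →
      U b (D.e b x) = U a (D.e a x) * D.um (-K) a b x) → Gl D K (ind S) U) ∧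
    ((D.All fun d z => ∀ i ∈ S, xi (D.c d) i z = 0 → U d z = 0) → Van D (ind S) U)

/-- Integrality excludes common zeros. -/
def Sk_GNI : Prop := ∀ (n : ℕ) (M : Mf n) (ι : Type) [Fintype ι] [DecidableEq ι] (D : Ad M ι)
  (R : Rk D) (κ τ : Type) [Fintype τ] (u : κ → D.A → E n → ℂ) (U : τ → D.A → E n → ℂ) (j : ℕ)
  (ν : ι → ℤ), 0 < j → Gn D (sp R.a) u → (∀ i, ν i ≠ 0 → R.a i ≠ 0) →
  (∀ l, Ing (fun _ => j) (fun t => ev D ν (U t)) 1 (ev D ν (u l))) → Gn D ν U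

/-- The grid of levels. -/
def Sk_GRID : Prop := ∀ (n : ℕ) (M : Mf n) (ι : Type) [Fintype ι] [DecidableEq ι] (D : Ad M ι)
  (R : Rk D) (μ₀ : ℝ), 0 ≤ μ₀ → (∀ i ∉ R.ex, 0 ≤ R.dl μ₀ i) → ∃ μ : ℕ → ℝ, Monotone μ ∧
    (∀ q, R.Jp (μ q) (μ (q + 1))) ∧ R.nu (μ 0) ≤ R.nu μ₀ ∧ (∀ j : ℕ, μ 0 ≤ j → ∃ q, μ q = j) ∧
    ∃ q, ∀ i, R.a i ≠ 0 → 1 < R.dl (μ q) i

/-! ### The levels -/

/-- The linear level. -/
def Sk_LNL : Prop := ∀ (n : ℕ) (M : Mf n) [M.Cpt] (H : M.Fam (Mat n)) (ι : Type) [Fintype ι]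
  [DecidableEq ι] (D : Ad M ι) (R : Rk D) (κ : Type) [Fintype κ] (u : κ → D.A → E n → ℂ)
  (μ' μ : ℝ) (j : ℕ) (U : D.A → E n → ℂ), M.Kae H → Fam R u → R.Jp μ' μ → μ ≤ j →
  Gl D (R.ja j) (R.nu μ') U → ∃ g : D.A → E n → ℂ,
    (D.All fun d z => PolH (D.c d) (R.ja j - R.h μ)
      (g d - fun y => xm (D.c d) (-R.ja j) y * U d y) z) ∧
    D.Dif (fun d => PolH (D.c d) (R.ja j - R.h μ - ind (R.N μ))) g

/-- Extension to the new components. -/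
def Sk_JA : Prop := ∀ (n : ℕ) (M : Mf n) [M.Cpt] (H : M.Fam (Mat n)) (ι : Type) [Fintype ι]
  [DecidableEq ι] (D : Ad M ι) (R : Rk D) (κ : Type) [Fintype κ] (u : κ → D.A → E n → ℂ)
  (μ' μ : ℝ) (j : ℕ) (U : D.A → E n → ℂ), M.Kae H → Fam R u → R.Jp μ' μ → μ ≤ j →
  Gl D (R.ja j) (R.nu μ') U →
  ∃ U', Gl D (R.ja j) (R.nu μ' + ind (R.N μ)) U' ∧ Van D (R.nu μ') (U' - U)

/-- The non-linear level. -/
def Sk_NLV : Prop := ∀ (n : ℕ) (M : Mf n) [M.Cpt] (H : M.Fam (Mat n)) (ι : Type) [Fintype ι]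
  [DecidableEq ι] (D : Ad M ι) (R : Rk D) (τ : Type) [Fintype τ] (U : τ → D.A → E n → ℂ)
  (μ' μ : ℝ) (j : ℕ), M.Kae H → R.Jp μ' μ → μ ≤ j →
  (∀ t, Gl D (R.ja j) (R.nu μ' + ind (R.N μ)) (U t)) → Gn D (R.nu μ) U →
  ∀ t, ∃ g : D.A → E n → ℂ, (D.All fun d z => PolH (D.c d) (R.ja j - R.h μ)
      (g d - fun y => xm (D.c d) (-R.ja j) y * U t d y) z) ∧
    D.Dif (fun d => PolH (D.c d) (R.ja j - R.fl μ)) g

/-- Extension to the next thickening. -/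
def Sk_JB : Prop := ∀ (n : ℕ) (M : Mf n) [M.Cpt] (H : M.Fam (Mat n)) (ι : Type) [Fintype ι]
  [DecidableEq ι] (D : Ad M ι) (R : Rk D) (τ : Type) [Fintype τ] (U : τ → D.A → E n → ℂ)
  (μ' μ : ℝ) (j : ℕ), M.Kae H → R.Jp μ' μ → μ ≤ j →
  (∀ t, Gl D (R.ja j) (R.nu μ' + ind (R.N μ)) (U t)) → Gn D (R.nu μ) U →
  ∀ t, ∃ U', Gl D (R.ja j) (R.nu μ) U' ∧ Van D (R.nu μ') (U' - U t)

/-- The first regeneration. -/
def Sk_REG1 : Prop := ∀ (n : ℕ) (M : Mf n) [M.Cpt] (ι : Type) [Fintype ι] [DecidableEq ι]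
  (D : Ad M ι) (R : Rk D) (κ τ : Type) [Fintype κ] [Fintype τ] (u : κ → D.A → E n → ℂ)
  (U : τ → D.A → E n → ℂ) (μ' μ : ℝ) (J j : ℕ), Fam R u → R.Jp μ' μ → 0 < j → J ≤ j →
  (∀ t, Gl D (R.ja j) (R.nu μ' + ind (R.N μ)) (U t)) →
  (∀ l, Ing (fun _ => j) (fun t => ev D (R.nu μ') (U t)) 1 (ev D (R.nu μ') (u l))) →
  Inv R u J (R.nu μ' + ind (R.N μ)) (R.nu μ)

/-- The second regeneration. -/
def Sk_REG2 : Prop := ∀ (n : ℕ) (M : Mf n) [M.Cpt] (ι : Type) [Fintype ι] [DecidableEq ι]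
  (D : Ad M ι) (R : Rk D) (κ τ : Type) [Fintype τ] (u : κ → D.A → E n → ℂ)
  (U F : τ → D.A → E n → ℂ) (μ' μ : ℝ) (J j : ℕ), R.Jp μ' μ → J ≤ j →
  (∀ t, Gl D (R.ja j) (R.nu μ' + ind (R.N μ)) (U t)) →
  (∀ t, Gl D (R.ja j) (R.nu μ) (F t) ∧ Van D (R.nu μ') (F t - U t)) →
  (∀ l, Ing (fun _ => j) (fun t => ev D (R.nu μ) (U t)) 1 (ev D (R.nu μ) (u l))) →
  Inv R u J (R.nu μ) (R.nu μ)

/-- One jump. -/
def Sk_STP : Prop := ∀ (n : ℕ) (M : Mf n) [M.Cpt] (H : M.Fam (Mat n)) (ι : Type) [Fintype ι]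
  [DecidableEq ι] (D : Ad M ι) (R : Rk D) (κ : Type) [Fintype κ] (u : κ → D.A → E n → ℂ)
  (μ' μ : ℝ) (J : ℕ), M.Kae H → Fam R u → R.Jp μ' μ → μ ≤ J →
  Inv R u J (R.nu μ') (R.nu μ') → Inv R u J (R.nu μ) (R.nu μ)

/-- The jumps without new components. -/
def Sk_PH2 : Prop := ∀ (n : ℕ) (M : Mf n) [M.Cpt] (H : M.Fam (Mat n)) (ι : Type) [Fintype ι]
  [DecidableEq ι] (D : Ad M ι) (R : Rk D) (τ : Type) [Fintype τ] (μ : ℕ → ℝ) (j q q' : ℕ)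
  (U : τ → D.A → E n → ℂ), M.Kae H → Monotone μ → (∀ q, R.Jp (μ q) (μ (q + 1))) → q ≤ q' →
  μ q' ≤ j → (∀ i, R.a i ≠ 0 → 1 < R.dl (μ q) i) → (∀ t, Gl D (R.ja j) (R.nu (μ q)) (U t)) →
  Gn D (sp R.a) U → ∃ U' : τ → D.A → E n → ℂ, (∀ t, Gl D (R.ja j) (R.nu (μ q')) (U' t)) ∧
    Gn D (sp R.a) U'

/-- The last level. -/
def Sk_LAST : Prop := ∀ (n : ℕ) (M : Mf n) [M.Cpt] (H : M.Fam (Mat n)) (ι : Type) [Fintype ι]
  [DecidableEq ι] (D : Ad M ι) (R : Rk D) (τ : Type) [Fintype τ] (j : ℕ)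
  (U : τ → D.A → E n → ℂ), M.Kae H → 0 < j → (∀ i, R.a i ≠ 0 → 1 < R.dl j i) →
  (∀ t, Gl D (R.ja j) (R.nu j) (U t)) → Gn D (sp R.a) U → ∀ t, ∃ F : M.X → ℂ,
    D.All fun d z => PolH (D.c d) (R.ja j - sp R.a)
      (D.rd F d - fun y => xm (D.c d) (-R.ja j) y * U t d y) z

/-- The theorem on the manifold layer. -/
def Sk_KEEL : Prop := ∀ (n : ℕ) (M : Mf n) [M.Cpt] (H : M.Fam (Mat n)) (ι : Type) [Fintype ι]
  [DecidableEq ι] (D : Ad M ι) (R : Rk D) (κ : Type) [Fintype κ] (u : κ → D.A → E n → ℂ)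
  (ν : ι → ℤ) (μ₀ : ℝ), M.Kae H → 0 ≤ μ₀ → sp R.a ≤ ν → (∀ i, R.dl μ₀ i < ν i + 1) →
  (∀ i ∉ R.ex, 0 ≤ R.dl μ₀ i) → (∀ l, Gl D (fun i => R.a i) ν (u l)) → Gn D (sp R.a) u →
  ∃ j : ℕ, 0 < j ∧ D.All fun b z => xm (D.c b) (fun i => R.a i) z = 0 → ∃ F : M.X → ℂ,
    (D.All fun d y => PolH (D.c d) (R.ja j) (D.rd F d) y) ∧ ∃ s, HolN s z ∧ s z ≠ 0 ∧
      ∀ᶠ y in 𝓝 z, Off (D.c b) y → D.rd F b y = xm (D.c b) (-R.ja j) y * s y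

/-! ### The bridge -/

/-- The data on the manifold layer. -/
def Sk_RSK : Prop := ∀ (n : ℕ) (Y ι I : Type) [TopologicalSpace Y] [ChartedSpace (E n) Y]
  [IsManifold 𝓘(ℂ, E n) ω Y] [CompactSpace Y] [T2Space Y] [ConnectedSpace Y] [Fintype I]
  [DecidableEq I] (m : ℕ) (S : I → Set Y) (ex : Set I) (k : I → ℕ) (l : I → ℤ) (η : Y → ℂ)
  (W : ι → Set Y) (σ : ι → Y → ℂ) (g : ι → ι → Y → ℂ), 0 < m →
  LogRes n m S ex k l η W σ g → (∀ i, k i = 0 → -m < l i ∧ (i ∉ ex → l i ≤ 0)) →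
  ∃ (D : Ad (HS.BBR.mf n Y) I) (R : Rk D) (α : D.A → ι), D.Fit S ∧ R.a = k ∧ R.k = l ∧ R.m = m ∧
    R.ex = ex ∧ (∀ b, (R.B b).W = W (α b)) ∧ ∀ a, ∃ v : D.A → E n → ℂ, D.On (W a) fun d z =>
      HolN (v d) z ∧ v d z ≠ 0 ∧ D.rd (σ a) d z = v d z * xm (D.c d) (fun i => k i) z

/-- Numerators of local lifts. -/
def Sk_BR1 : Prop := ∀ (n : ℕ) (M : Mf n) [M.Cpt] (ι : Type) [Fintype ι] [DecidableEq ι]
  (D : Ad M ι) (a : ι → ℕ) (ν : ι → ℤ) (κ : Type) (W : D.A → Set M.X) (f : κ → D.A → M.X → ℂ),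
  (D.All fun b z => (D.e b).symm z ∈ W b) →
  (∀ l b, D.On (W b) fun d z => PolH (D.c d) (fun i => a i) (D.rd (f l b) d) z) →
  (∀ l b b', D.On (W b ∩ W b') fun d z =>
    PolH (D.c d) (fun i => a i - ν i) (D.rd (f l b - f l b') d) z) →
  (D.All fun b z => xm (D.c b) (fun i => a i) z = 0 → ∃ l s, HolN s z ∧ s z ≠ 0 ∧
    ∀ᶠ y in 𝓝 z, Off (D.c b) y → D.rd (f l b) b y = xm (D.c b) (-fun i => (a i : ℤ)) y * s y) →
  ∃ u : κ → D.A → E n → ℂ, (∀ l, Gl D (fun i => a i) ν (u l)) ∧ Gn D (sp a) u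

/-- A global meromorphic function as a section of the power. -/
def Sk_BR2 : Prop := ∀ (n : ℕ) (M : Mf n) (I ι : Type) [Fintype I] [DecidableEq I] (D : Ad M I)
  (k : I → ℕ) (j : ℕ) (W : ι → Set M.X) (σ : ι → M.X → ℂ) (g : ι → ι → M.X → ℂ) (F : M.X → ℂ),
  (∀ a, IsOpen (W a)) → (∀ a, ∃ v : D.A → E n → ℂ, D.On (W a) fun d z =>
    HolN (v d) z ∧ v d z ≠ 0 ∧ D.rd (σ a) d z = v d z * xm (D.c d) (fun i => k i) z) →
  (∀ a b, D.On (W a ∩ W b) fun d z => HolN (D.rd (g a b) d) z) →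
  (∀ a b, ∀ x ∈ W a ∩ W b, σ a x = g a b x * σ b x) →
  (D.All fun d z => PolH (D.c d) (fun i => j * k i) (D.rd F d) z) →
  ∃ v : ι → M.X → ℂ, (∀ a, D.On (W a) fun d z => HolN (D.rd (v a) d) z ∧
      ∀ s, HolN s z → s z ≠ 0 → (∀ᶠ y in 𝓝 z, Off (D.c d) y →
        D.rd F d y = xm (D.c d) (-fun i => (j * k i : ℤ)) y * s y) → D.rd (v a) d z ≠ 0) ∧
    ∀ a b, ∀ x ∈ W a ∩ W b, v a x = g a b x ^ j * v b x

/-- The target. -/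
def Sk_TARGET : Prop := ∀ (n : ℕ) (Y ι I : Type) [TopologicalSpace Y] [ChartedSpace (E n) Y]
  [IsManifold 𝓘(ℂ, E n) ω Y] [CompactSpace Y] [T2Space Y] [ConnectedSpace Y] [Fintype I]
  (G : Y → Mat n) (m : ℕ) (D : I → Set Y) (ex : Set I) (k ν : I → ℕ) (l : I → ℤ) (η : Y → ℂ)
  (W : ι → Set Y) (σ : ι → Y → ℂ) (g : ι → ι → Y → ℂ) (M : ℝ), GH.Kaehler G → 0 < m →
  LogRes n m D ex k l η W σ g → 0 < M → BdryK m ex k ν l M → GenT n D ν W g →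
  ∃ j : ℕ, 0 < j ∧ Gen n W (fun a b y => g a b y ^ j) Set.univ

end Pool.Agent.Lib.EXK
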