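import Pool.Agent.Lib.EXT.SDefs

/-! Definition used in the statement: the coefficients of the boundary. -/

namespace Pool.Agent.Lib.EX

/-- The coefficients `δ i = k i / M - l i / m` of the boundary: over the support of `∑ k i D i`
they are less than `ν i + 1` with `ν i` positive, elsewhere less than `1`; for `i ∉ ex` they are at
least `0`. -/
structure BdryK {I : Type} (m : ℕ) (ex : Set I) (k ν : I → ℕ) (l : I → ℤ) (M : ℝ) : Prop where
  top : ∀ i, 0 < k i → 0 < ν i ∧ k i / M - l i / m < ν i + 1
  off : ∀ i, k i = 0 → -m < l i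
  eff : ∀ i ∉ ex, 0 ≤ k i / M - l i / m

end Pool.Agent.Lib.EX
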