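import Pool.Agent.Lib.EX.BrBlue
import Pool.Agent.Lib.EXS.RV0
import Pool.Agent.Lib.EXS.EXC0
import Pool.Agent.Lib.EXS.Blue0
import Pool.Agent.Lib.EXK.SDefs

/-! Project exk: the objects. -/

open scoped Classical Topology ContDiff ComplexOrder Matrix
open Set MeasureTheory Complex Metric Filter

set_option linter.unusedVariables false

noncomputable section

namespace Pool.Agent.Lib.EXK

open Pool.Agent.Lib.SV (E)
open Pool.Agent.Lib.HS32 Pool.Agent.Lib.EX
open Pool.Agent.Lib.EXA (Val SmN emb)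

/-- The indicator of a finite set. -/
def ind {ι : Type} [DecidableEq ι] (N : Finset ι) : ι → ℤ := fun i => if i ∈ N then 1 else 0

section euc

variable {n : ℕ} {ι : Type} [Fintype ι] [DecidableEq ι] (c : ι → Option (Fin n))

/-- The class `Wt` modulo the functions that vanish on `N`. -/
def WtX (G : ι → ℤ) (T N : Finset ι) (q : ℕ) (F : E n → ℂ) (z : E n) : Prop :=
  ∃ F₁, Wt c G T q F₁ z ∧ Pol c (G - ind N) (F - F₁) z

/-- The class `WtH` modulo the functions that vanish on `N`. -/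
def WtHX (G : ι → ℤ) (T N : Finset ι) (q : ℕ) (F : E n → ℂ) (z : E n) : Prop :=
  ∃ F₁, WtH c G T q F₁ z ∧ PolH c (G - ind N) (F - F₁) z

/-- The class `Res` modulo the functions that vanish on `N`. -/
def ResX (G : ι → ℤ) (T N : Finset ι) (p : ℕ) (ρ : Finset ι → E n → ℂ) (F : E n → ℂ) (z : E n) :
    Prop :=
  ∃ F₁ ρ₁, Res c G T p ρ₁ F₁ z ∧ Pol c (G - ind N) (F - F₁) z ∧
    ∀ I ∈ T.powersetCard p, ¬ Disjoint I N → ∀ᶠ y in 𝓝 z, Sl c I y → ρ₁ I y = ρ I y

end euc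

variable {n : ℕ} {M : Mf n} {ι : Type} [Fintype ι] [DecidableEq ι]

/-- The residues of the `(0,1)` derivative of `F` on the strata in `N` are dual to `V`. -/
def RepX (D : Ad M ι) (H : M.Fam (Mat n)) (G : ι → ℤ) (T N : Finset ι) (p : ℕ) (F : M.X → ℂ)
    (V : Finset ι → D.A → E n → E n) : Prop :=
  D.All fun a z => ∀ j, ∃ ρ, ResX (D.c a) G T N p ρ (dzb j (D.rd F a)) z ∧
    ∀ I ∈ T.powersetCard p, ¬ Disjoint I N → ¬ Nm (D.c a) I j →
      ∀ᶠ y in 𝓝 z, Sl (D.c a) I y → ρ I y = (H (D.e a) y *ᵥ V I a y) j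

/-- Corrected targets whose differences have weight less than `q`. -/
structure CorX (D : Ad M ι) (G : ι → ℤ) (T N : Finset ι) (q : ℕ) {τ : Type}
    (f g : τ → D.A → E n → ℂ) : Prop where
  cor : ∀ l, D.All fun d z => PolH (D.c d) G (g l d - f l d) z
  dif : ∀ l, D.Dif (fun d => WtHX (D.c d) G T N q) (g l)

/-- The data of one level, with a set `N` of components on which the family is glued. -/
structure Lw (D : Ad M ι) (κ : Type) where
  a : ι → ℕ
  k : ι → ℤ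
  m : ℕ
  w : D.A → E n → ℂ
  G : ι → ℤ
  r : ι → ℝ
  T : Finset ι
  N : Finset ι
  s : ℝ
  U : κ → D.A → E n → ℂ
  m0 : 0 < m
  s0 : 0 ≤ s
  r0 : ∀ i, -1 < r i ∧ r i ≤ 0
  rT : ∀ i ∈ T, r i = 0
  NT : N ⊆ T
  rel : ∀ i, s * a i + k i / m = r i + G i - if i ∈ T then 1 else 0
  whol : D.All fun b z => DifferentiableAt ℂ (w b) z
  wne : D.All fun b z => w b z ≠ 0
  wcmp : D.Ov fun b d x => w d (D.e d x) = w b (D.e b x) * D.um k b d x * (D.J b d x).det ^ m
  Uhol : ∀ l, D.All fun b z => DifferentiableAt ℂ (U l b) z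
  gen : D.All fun b z => ∃ l, U l b z ≠ 0
  pos : D.All fun b z => ∃ l, D.rd (fun x => ∑ d, (D.χ d x : ℂ) *
    (U l d (D.e d x) * D.um (-fun i => (a i : ℤ)) d b x)) b z ≠ 0
  difS : ∀ l, D.Dif (fun b => PolH (D.c b) fun i => a i - ind N i)
    fun b z => xm (D.c b) (-fun i => (a i : ℤ)) z * U l b z

namespace Lw

variable {D : Ad M ι} {κ : Type} [Fintype κ] (L : Lw D κ)

/-- The local lifts as meromorphic functions. -/
def f (l : κ) (b : D.A) (z : E n) : ℂ := xm (D.c b) (-fun i => (L.a i : ℤ)) z * L.U l b z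

/-- The numerators of the smooth lifts. -/
def ut (l : κ) (b : D.A) : E n → ℂ :=
  D.rd (fun x => ∑ d, (D.χ d x : ℂ) * (L.U l d (D.e d x) * D.um (-fun i => (L.a i : ℤ)) d b x)) b

/-- The squared norm of the numerators. -/
def nn (b : D.A) (z : E n) : ℝ := ∑ l, normSq (L.ut l b z)

/-- The smooth part of the density. -/
def b (d : D.A) (z : E n) : ℝ := L.nn d z ^ (-L.s) * normSq (L.w d z) ^ (1 / L.m : ℝ)

/-- The density. -/
def dd (d : D.A) : E n → ℝ := den (D.c d) L.G L.r L.T (L.b d)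

/-- The connection form. -/
def eta (d : D.A) (j : Fin n) (z : E n) : ℂ :=
  (∑ l, dzb j (L.ut l d) z * star (L.ut l d z)) / (L.nn d z : ℝ)

/-- The twisted `(0,1)` derivative. -/
def nab (d : D.A) (j : Fin n) (F : E n → ℂ) (z : E n) : ℂ := dzb j F z - L.s * F z * L.eta d j z

/-- The projector on the line of the numerators. -/
def cc (l l' : κ) (d : D.A) (z : E n) : ℂ := L.ut l d z * star (L.ut l' d z) / (L.nn d z : ℝ)

/-- A harmonic field on the stratum `I`. -/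
structure Har (I : Finset ι) (V : D.A → E n → E n) : Prop extends D.Fld I (D.kap L.G L.T I) V where
  th : D.All fun d z => Sl (D.c d) I z → ∀ l l',
    L.s * (L.U l' d z * app (V d) (L.U l d) z - L.U l d z * app (V d) (L.U l' d) z) = 0
  dv : D.All fun d z => Sl (D.c d) I z → (∀ i ∉ I, xi (D.c d) i z ≠ 0) →
    dv (V d) z + app (V d) (L.w d) z / (L.m * L.w d z) -
      L.s * (∑ l, app (V d) (L.U l d) z * star (L.U l d z)) / (∑ l, normSq (L.U l d z) : ℝ) +
      ∑ i, L.r i * (D.c d i).elim 0 (V d z) / xi (D.c d) i z = 0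
  zr : Disjoint I L.N → V = 0

/-- A family of harmonic fields on the strata of depth `p`. -/
def HarF (p : ℕ) (V : Finset ι → D.A → E n → E n) : Prop := ∀ I ∈ L.T.powersetCard p, L.Har I (V I)

/-- The test field in a chart. -/
def vh (p : ℕ) (V : Finset ι → D.A → E n → E n) (d : D.A) (z : E n) : E n :=
  fun j => hat (D.c d) L.G L.T p (fun I y => V I d y j) z

/-- The scalar product of two families of fields. -/
def ipV (H : M.Fam (Mat n)) (p : ℕ) (V' V : Finset ι → D.A → E n → E n) : ℂ :=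
  D.SS L.r L.T p fun I d z => (L.b d z : ℝ) * (star (V I d z) ⬝ᵥ H (D.e d) z *ᵥ V' I d z)

/-- The scalar product of two families of sections. -/
def ipS (q : ℕ) (σ' σ : Finset ι → D.A → E n → ℂ) : ℂ :=
  D.SS L.r L.T q fun I d z => (L.b d z : ℝ) * (σ' I d z * star (σ I d z))

/-- The harmonic parts of the targets `f` vanish at depth `p`. -/
def Key (H : M.Fam (Mat n)) {τ : Type} (f : τ → D.A → E n → ℂ) (p : ℕ) : Prop :=
  ∀ (V : τ → Finset ι → D.A → E n → E n) (F : τ → M.X → ℂ), (∀ l, L.HarF p (V l)) →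
    (∀ l, D.dl L.T p (V l) = 0) →
    (∀ l, D.All fun d z => Pol (D.c d) L.G (D.rd (D.avg (f l) - F l) d) z) →
    (∀ l, RepX D H L.G L.T L.N p (F l) (V l)) → ∀ l, RepX D H L.G L.T L.N p (F l) 0

end Lw

/-! ### Levels -/

/-- A log resolution. -/
structure Rk (D : Ad M ι) where
  a : ι → ℕ
  k : ι → ℤ
  m : ℕ
  w : D.A → E n → ℂ
  ex : Set ι
  B : D.A → Bl D a ex
  c0 : ℝ
  m0 : 0 < m
  whol : D.All fun b z => DifferentiableAt ℂ (w b) z
  wne : D.All fun b z => w b z ≠ 0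
  wcmp : D.Ov fun b d x => w d (D.e d x) = w b (D.e b x) * D.um k b d x * (D.J b d x).det ^ m
  c1 : c0 < 1
  sub : D.All fun b z => (D.e b).symm z ∈ (B b).W ∧ ‖(B b).p ((D.e b).symm z)‖ ≤ c0
  off : ∀ i, a i = 0 → -(m : ℤ) < k i ∧ (i ∉ ex → k i ≤ 0)

namespace Rk

variable {D : Ad M ι} (R : Rk D)

/-- The coefficients of the boundary at the level `μ`. -/
def dl (μ : ℝ) (i : ι) : ℝ := μ * R.a i - R.k i / R.m

/-- Their integral parts. -/
def fl (μ : ℝ) (i : ι) : ℤ := ⌊R.dl μ i⌋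

/-- The multiplicities of the thickening. -/
def nu (μ : ℝ) (i : ι) : ℤ := max (R.fl μ i) 0

/-- The components of the jump. -/
def T (μ : ℝ) : Finset ι := Finset.univ.filter fun i => 1 ≤ R.dl μ i ∧ R.dl μ i = R.fl μ i

/-- The new components. -/
def N (μ : ℝ) : Finset ι := Finset.univ.filter fun i => R.dl μ i = 1

/-- The orders before the jump. -/
def h (μ : ℝ) : ι → ℤ := R.fl μ - ind (R.T μ)

/-- The multiples of the divisor. -/
def ja (j : ℕ) (i : ι) : ℤ := j * R.a i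

/-- Two consecutive levels. -/
structure Jp (μ' μ : ℝ) : Prop where
  pos : 0 < μ
  nxt : ∀ i, R.a i ≠ 0 → R.fl μ' i + 1 = ⌈R.dl μ i⌉
  eff : ∀ i ∉ R.ex, 0 ≤ R.dl μ' i

/-- The orders in the tower. -/
def bt (μ : ℝ) (i : ι) (q : ℕ) (e : ι → ℕ) (l : ι) : ℕ :=
  if l = i then q * e l else if l ∈ R.T μ \ R.N μ then q * e l + 1 else 0

end Rk

/-- The part of the blow-up over a smaller polydisc. -/
def Wr {D : Ad M ι} {a : ι → ℕ} {ex : Set ι} (B : Bl D a ex) (ρ : ℝ) : Set M.X :=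
  {x ∈ B.W | ‖B.p x‖ < ρ}

/-- The differences of the local functions have poles at most `K` on `W`. -/
def DifOn (D : Ad M ι) (W : Set M.X) (K : ι → ℤ) (g : D.A → E n → ℂ) : Prop :=
  D.Ov fun a b x => x ∈ W → PolH (D.c b) K (D.tr a b (g a) - g b) (D.e b x)

/-- Numerators of a section of the divisor `K` over the thickening `ν`. -/
structure Gl (D : Ad M ι) (K ν : ι → ℤ) (U : D.A → E n → ℂ) : Prop where
  hol : D.All fun d z => DifferentiableAt ℂ (U d) z
  dif : D.Dif (fun b => PolH (D.c b) (K - ν)) fun b z => xm (D.c b) (-K) z * U b z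

/-- The numerators vanish on the thickening `ν`. -/
def Van (D : Ad M ι) (ν : ι → ℤ) (U : D.A → E n → ℂ) : Prop :=
  D.All fun d z => PolH (D.c d) (-ν) (U d) z

/-- The numerators have no common zero on the support of `ν`. -/
def Gn (D : Ad M ι) (ν : ι → ℤ) {κ : Type} (U : κ → D.A → E n → ℂ) : Prop :=
  D.All fun d z => ∀ i, ν i ≠ 0 → xi (D.c d) i z = 0 → ∃ l, U l d z ≠ 0

/-- The given family: glued on the reduced support, without common zero there. -/
structure Fam {D : Ad M ι} (R : Rk D) {κ : Type} (u : κ → D.A → E n → ℂ) : Prop where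
  gl : ∀ l, Gl D (fun i => R.a i) (sp R.a) (u l)
  gn : Gn D (sp R.a) u

/-- The points of the support of `ν`, in the charts. -/
def Pt (D : Ad M ι) (ν : ι → ℤ) : Type :=
  {x : D.A × E n // x.2 ∈ B2 n ∧ ∃ i, ν i ≠ 0 ∧ xi (D.c x.1) i x.2 = 0}

/-- The values of numerators on the support of `ν`. -/
def ev (D : Ad M ι) (ν : ι → ℤ) (U : D.A → E n → ℂ) (x : Pt D ν) : ℂ := U x.1.1 x.1.2

/-- A function of degree `e` on the cone. -/
def cn {P : Type} (e : ℕ) (u : P → ℂ) : P × ℂ → ℂ := fun x => x.2 ^ e * u x.1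

/-- The function `u` of degree `e` is integral over the family `U`. -/
def Ing {P κ : Type} (dg : κ → ℕ) (U : κ → P → ℂ) (e : ℕ) (u : P → ℂ) : Prop :=
  IsIntegral (Algebra.adjoin ℂ (range fun l => cn (dg l) (U l))) (cn e u)

/-- The invariant: a family of degree at least `J` over the thickening `ν`, over which the given
sections are integral on the support of `ν'`. -/
def Inv {D : Ad M ι} (R : Rk D) {κ : Type} (u : κ → D.A → E n → ℂ) (J : ℕ) (ν ν' : ι → ℤ) : Prop :=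
  ∃ (j : ℕ) (τ : Type) (_ : Fintype τ) (U : τ → D.A → E n → ℂ), J ≤ j ∧
    (∀ t, Gl D (R.ja j) ν (U t)) ∧
    ∀ l, Ing (fun _ => j) (fun t => ev D ν' (U t)) 1 (ev D ν' (u l))

/-- Local data for the vanishing theorem. -/
structure Dat2 (U O : Set M.X) (q : M.X → E n) (ph : M.X → ℝ) (Γ : M.X → ℂ) (e : M.Ch)
    (V : Set (E n)) (j a φ s : E n → ℂ) (d : E n → ℝ) (c : ℝ) : Prop where
  mem : e ∈ M.C
  opn : IsOpen V
  sub : V ⊆ e.target
  c0 : 0 < c
  jh : DifferentiableOn ℂ j V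
  jn : ∀ z ∈ V, ¬j =ᶠ[𝓝 z] 0
  jo : ∀ z ∈ V, e.symm z ∈ O ↔ e.symm z ∈ U ∧ j z ≠ 0
  sm : ∀ z ∈ V, ContDiffAt ℝ ∞ s z
  hol : ∀ z ∈ V, e.symm z ∈ O → DifferentiableAt ℂ a z ∧ a z ≠ 0 ∧ DifferentiableAt ℂ φ z ∧
    Γ (e.symm z) = φ z + s z / a z
  lo : ∀ z ∈ V, e.symm z ∈ O → ∀ v, c * ‖v‖ ^ 2 ≤ nq (M.hs ph e z) v
  den : ∀ z ∈ V, e.symm z ∈ O → c ≤ d z ∧
    Real.exp (-ph (e.symm z)) * normSq (jm (q ∘ e.symm) z).det = normSq (a z) * d z
  fin : ∫⁻ z in V ∩ e.symm ⁻¹' O, ENNReal.ofReal (‖fun i => dzb i s z‖ ^ 2 * d z) ≠ ⊤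

end Pool.Agent.Lib.EXK
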